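import Pool.Agent.Lib.MP_05b481_an.JT.Defs

section

/-!
Initial chains, ends and segments: elementary facts, and the selection of the canonical end.
-/

set_option autoImplicit false

namespace Pool.Agent.JTS

variable {T : Type} [PartialOrder T] {top : T → Set T}

/-- PROOF. Case distinction on `e.2`: `htop.ic`, or `Set.Iio u`: lower set; chain by `hT.lin u`. -/
theorem ic_ec (hT : IsTree T) (htop : Top top) (e : T × Bool) : IC (ec top e) := by
  unfold ec
  by_cases h : e.2 = true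
  · rw [if_pos h]
    exact htop.ic e.1
  · rw [if_neg h]
    refine ⟨fun a ha b hb => lt_of_le_of_lt hb ha, fun a ha b hb => ?_⟩
    exact hT.lin e.1 a b (le_of_lt ha) (le_of_lt hb)

/-- PROOF. From `ic_ec`: chain; convex: `t ≤ b ∈ ec`, so `t ∈ ec`, and `j.1 ≤ a ≤ t`. -/
theorem cc_sg (hT : IsTree T) (htop : Top top) (j : T × (T × Bool)) : CC (sg top j) := by
  have h := ic_ec hT htop j.2
  refine ⟨fun a ha b hb => h.chain a ha.1 b hb.1, fun a ha b hb t hat htb => ?_⟩
  exact ⟨h.low b hb.1 t htb, ha.2.trans hat⟩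

/-- PROOF. `{a}`: clear. -/
theorem cc_single (t : T) : CC ({t} : Set T) := by
  refine ⟨fun a ha b hb => ?_, fun a ha b hb x hax hxb => ?_⟩
  · rw [Set.mem_singleton_iff] at ha hb
    rw [ha, hb]
    exact Or.inl le_rfl
  · rw [Set.mem_singleton_iff] at ha hb ⊢
    rw [ha] at hax
    rw [hb] at hxb
    exact le_antisymm hxb hax

/-- PROOF. `Set.Icc s t`: chain by `hT.lin t`. -/
theorem cc_Icc (hT : IsTree T) (s t : T) : CC (Set.Icc s t) := by
  refine ⟨fun a ha b hb => hT.lin t a b ha.2 hb.2, fun a ha b hb x hax hxb => ?_⟩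
  exact ⟨ha.1.trans hax, hxb.trans hb.2⟩

/-- PROOF. An initial chain intersected with a convex chain, or a convex chain minus an initial chain, is a convex chain. For the difference: `a, b ∈ S \ c`,
`a ≤ t ≤ b`: `t ∈ S`; `t ∈ c` would give `a ∈ c`. -/
theorem CC.inter {S c : Set T} (hS : CC S) (hc : IC c) : CC (S ∩ c) := by
  refine ⟨fun a ha b hb => hS.chain a ha.1 b hb.1, fun a ha b hb t hat htb => ?_⟩
  exact ⟨hS.conv a ha.1 b hb.1 t hat htb, hc.low b hb.2 t htb⟩

theorem CC.diff {S c : Set T} (hS : CC S) (hc : IC c) : CC (S \ c) := by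
  refine ⟨fun a ha b hb => hS.chain a ha.1 b hb.1, fun a ha b hb t hat htb => ?_⟩
  exact ⟨hS.conv a ha.1 b hb.1 t hat htb, fun ht => ha.2 (hc.low t ht a hat)⟩

/-- PROOF. Two initial chains that contain a common node `t`... are not comparable in general, but if both are contained in an initial chain `d`,
one contains the other: if `a ∈ c \ c'`, then every `b ∈ c'` is comparable with `a` in `d`; `a ≤ b` would give `a ∈ c'`; so
`b ≤ a`, `b ∈ c`. -/
theorem IC.total {c c' d : Set T} (hc : IC c) (hc' : IC c') (hd : IC d) (h1 : c ⊆ d) (h2 : c' ⊆ d) :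
    c ⊆ c' ∨ c' ⊆ c := by
  by_cases h : c ⊆ c'
  · exact Or.inl h
  · right
    obtain ⟨a, ha, ha'⟩ := Set.not_subset.mp h
    intro b hb
    rcases hd.chain a (h1 ha) b (h2 hb) with h3 | h3
    · exact absurd (hc'.low b hb a h3) ha'
    · exact hc.low a ha b h3

/-- PROOF. If `c_0 ⊋ c_1 ⊋ …` choose `t_n ∈ c_n \ c_{n+1}`; all `t_n ∈ c_0` are comparable and `t_{n+1} ∈ c_{n+1}`, `t_n ∉ c_{n+1}`
give `t_{n+1} < t_n`, against `hT.wf`. (`WellFounded` from `wellFounded_iff_isEmpty_descending_chain` or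
`RelEmbedding.wellFounded_iff_isEmpty`.) Alternatively: for a nonempty set `K` of initial chains take `c ∈ K`; if `c` is not minimal, the set of all
`t ∈ c` such that `t ∉ c'` for some `c' ∈ K`, `c' ⊂ c`, is nonempty; take `t` minimal and `c'` for it; if `c'' ∈ K`, `c'' ⊂ c'`, a node of
`c' \ c''` is smaller than `t` and lies in the set: contradiction; so `c'` is minimal. -/
theorem exists_minimal_ic (hT : IsTree T) (K : Set (Set T)) (hK : ∀ c ∈ K, IC c) (hne : K.Nonempty) :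
    ∃ c ∈ K, ∀ c' ∈ K, ¬ c' ⊂ c := by
  obtain ⟨c₀, hc₀⟩ := hne
  by_cases hmin : ∀ c' ∈ K, ¬ c' ⊂ c₀
  · exact ⟨c₀, hc₀, hmin⟩
  · push Not at hmin
    obtain ⟨c₁, hc₁, hlt⟩ := hmin
    have hA : {t | t ∈ c₀ ∧ ∃ c' ∈ K, c' ⊂ c₀ ∧ t ∉ c'}.Nonempty := by
      obtain ⟨t, ht, ht'⟩ := Set.exists_of_ssubset hlt
      exact ⟨t, ht, c₁, hc₁, hlt, ht'⟩
    obtain ⟨t, ⟨htc, c', hc', hc'lt, htc'⟩, htmin⟩ := hT.wf.has_min _ hA
    refine ⟨c', hc', fun c'' hc'' hlt'' => ?_⟩
    obtain ⟨s, hs, hs'⟩ := Set.exists_of_ssubset hlt''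
    have hsc : s ∈ c₀ := hc'lt.subset hs
    rcases (hK c₀ hc₀).chain t htc s hsc with h3 | h3
    · exact htc' ((hK c' hc').low s hs t h3)
    · have hst : s < t := lt_of_le_of_ne h3 fun h4 => htc' (h4 ▸ hs)
      exact htmin s ⟨hsc, c'', hc'', hlt''.trans hc'lt, hs'⟩ hst

/-- The canonical end. PROOF. `K = {ec top e | e.1 ∈ A, z ⊆ ec top e, ∀ t ∈ ec top e, t ∈ A → t ∈ z}`. `K` is nonempty: by `htop.tail` there is `w ∈ z`
with `z ⊆ top w`; by `hcof` there is `a ∈ A ∩ z` with `w ≤ a`; then `a ∈ top w`, `top a = top w` (`coh`), so `z ⊆ top a`. If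
`A ∩ (top a \ z)` is empty, `e = (a, true)` will do. Otherwise let `a'` be a minimal element of `A ∩ (top a \ z)` (`hT.wf`); take
`e = (a', false)`: `z ⊆ Iio a'` (for `t ∈ z`: comparable with `a'` in `top a`; `a' ≤ t` would give `a' ∈ z`; so `t ≤ a'`, `t ≠ a'`),
and a `t < a'` with `t ∈ A` is in `top a` (lower set), and in `z` by minimality. By `exists_minimal_ic` choose `e*` with `ec top e*`
minimal in `K`. If `e'` has `e'.1 ∈ A`, `z ⊆ ec top e' ⊂ ec top e*`, then `ec top e' ∈ K`, contradiction. -/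
theorem exists_end (hT : IsTree T) (htop : Top top) (A z : Set T) (hz : IC z) (hne : z.Nonempty)
    (hcof : ∀ t ∈ z, ∃ a ∈ A, a ∈ z ∧ t ≤ a) :
    ∃ e : T × Bool, e.1 ∈ A ∧ z ⊆ ec top e ∧ (∀ t ∈ ec top e, t ∈ A → t ∈ z) ∧
      ∀ e' : T × Bool, e'.1 ∈ A → z ⊆ ec top e' → ¬ ec top e' ⊂ ec top e := by
  obtain ⟨c, ⟨e, rfl, heA, hez, het⟩, hmin⟩ := exists_minimal_ic hT
    {c | ∃ e : T × Bool, c = ec top e ∧ e.1 ∈ A ∧ z ⊆ ec top e ∧ ∀ t ∈ ec top e, t ∈ A → t ∈ z}
    (by
      rintro c ⟨e, rfl, -⟩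
      exact ic_ec hT htop e)
    (by
      obtain ⟨w, hw, hzw⟩ := htop.tail z hz hne
      obtain ⟨a, haA, haz, hwa⟩ := hcof w hw
      have hta : top a = top w := htop.coh w a hwa (hzw haz)
      have hza : z ⊆ top a := by rw [hta]; exact hzw
      by_cases hE : (A ∩ (top a \ z)).Nonempty
      · obtain ⟨a', ⟨ha'A, ha'top, ha'z⟩, ha'min⟩ := hT.wf.has_min _ hE
        have h1 : ec top (a', false) = Set.Iio a' := rfl
        refine ⟨ec top (a', false), (a', false), rfl, ha'A, ?_, ?_⟩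
        · rw [h1]
          intro t ht
          rcases (htop.ic a).chain t (hza ht) a' ha'top with h3 | h3
          · exact lt_of_le_of_ne h3 fun h4 => ha'z (h4 ▸ ht)
          · exact absurd (hz.low t ht a' h3) ha'z
        · rw [h1]
          intro t ht htA
          by_contra htz
          exact ha'min t ⟨htA, (htop.ic a).low a' ha'top t (le_of_lt ht), htz⟩ ht
      · have h1 : ec top (a, true) = top a := rfl
        refine ⟨ec top (a, true), (a, true), rfl, haA, ?_, ?_⟩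
        · rw [h1]
          exact hza
        · rw [h1]
          intro t ht htA
          by_contra htz
          exact hE ⟨t, htA, ht, htz⟩)
  refine ⟨e, heA, hez, het, fun e' he'A he'z hlt => ?_⟩
  exact hmin (ec top e') ⟨e', rfl, he'A, he'z, fun t ht htA => het t (hlt.subset ht) htA⟩ hlt

/-- Every closed segment is a decorated segment. PROOF. If there is `t' > t`, let `u` be minimal in `{u | t < u ∧ u ≤ t'}` (`hT.wf`); then `Iio u = Iic t`
(`v < u ≤ t'`: `v, t ≤ t'` are comparable; `t < v` contradicts the minimality). Take `(u, false)`. If there is no `t' > t`: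
`top t = Iic t` (`t ∈ top t`, chain, lower set). Take `(t, true)`. -/
theorem exists_Icc (hT : IsTree T) (htop : Top top) (s t : T) (hst : s ≤ t) :
    ∃ e : T × Bool, s ∈ ec top e ∧ sg top (s, e) = Set.Icc s t := by
  by_cases hE : ∃ t', t < t'
  · obtain ⟨t', ht'⟩ := hE
    obtain ⟨u, ⟨htu, hut'⟩, humin⟩ := hT.wf.has_min {u | t < u ∧ u ≤ t'} ⟨t', ht', le_rfl⟩
    have h1 : ec top (u, false) = Set.Iio u := rfl
    refine ⟨(u, false), ?_, ?_⟩
    · rw [h1]
      exact lt_of_le_of_lt hst htu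
    · ext x
      show (x ∈ ec top (u, false) ∧ s ≤ x) ↔ (s ≤ x ∧ x ≤ t)
      rw [h1]
      constructor
      · rintro ⟨hxu, hsx⟩
        refine ⟨hsx, ?_⟩
        rcases hT.lin t' x t ((le_of_lt hxu).trans hut') (le_of_lt ht') with h3 | h3
        · exact h3
        · rcases eq_or_lt_of_le h3 with h4 | h4
          · exact h4.ge
          · exact absurd hxu (humin x ⟨h4, (le_of_lt hxu).trans hut'⟩)
      · rintro ⟨hsx, hxt⟩
        exact ⟨lt_of_le_of_lt hxt htu, hsx⟩
  · have h1 : ec top (t, true) = top t := rfl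
    refine ⟨(t, true), ?_, ?_⟩
    · rw [h1]
      exact (htop.ic t).low t (htop.self t) s hst
    · ext x
      show (x ∈ ec top (t, true) ∧ s ≤ x) ↔ (s ≤ x ∧ x ≤ t)
      rw [h1]
      constructor
      · rintro ⟨hxt, hsx⟩
        refine ⟨hsx, ?_⟩
        rcases (htop.ic t).chain x hxt t (htop.self t) with h3 | h3
        · exact h3
        · rcases eq_or_lt_of_le h3 with h4 | h4
          · exact h4.ge
          · exact absurd ⟨x, h4⟩ hE
      · rintro ⟨hsx, hxt⟩
        exact ⟨(htop.ic t).low t (htop.self t) x hxt, hsx⟩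

/-- Different members of a family have different starts. PROOF. The start of `j` lies in `sg top j`. -/
theorem Fm.start_inj {F : Finset (T × (T × Bool))} (hF : Fm top F) {i j : T × (T × Bool)}
    (hi : i ∈ F) (hj : j ∈ F) (h : i.1 = j.1) : i = j := by
  by_contra hne
  have h1 : i.1 ∈ sg top i := ⟨hF.1 i hi, le_rfl⟩
  have h2 : i.1 ∈ sg top j := by
    rw [h]
    exact ⟨hF.1 j hj, le_rfl⟩
  exact Set.disjoint_left.mp (hF.2 i hi j hj hne) h1 h2

/-- Different members of a family have different ends; even the chains of the ends are different. PROOF. `i.1, j.1` lie in the chain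
`ec top i.2 = ec top j.2`; the larger one lies in both segments. -/
theorem Fm.end_inj (hT : IsTree T) (htop : Top top) {F : Finset (T × (T × Bool))} (hF : Fm top F)
    {i j : T × (T × Bool)} (hi : i ∈ F) (hj : j ∈ F) (h : ec top i.2 = ec top j.2) : i = j := by
  by_contra hne
  have hi1 := hF.1 i hi
  have hj1 := hF.1 j hj
  rcases (ic_ec hT htop i.2).chain i.1 hi1 j.1 (h ▸ hj1) with h3 | h3
  · have h1 : j.1 ∈ sg top i := ⟨h ▸ hj1, h3⟩
    have h2 : j.1 ∈ sg top j := ⟨hj1, le_rfl⟩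
    exact Set.disjoint_left.mp (hF.2 i hi j hj hne) h1 h2
  · have h1 : i.1 ∈ sg top i := ⟨hi1, le_rfl⟩
    have h2 : i.1 ∈ sg top j := ⟨h ▸ hi1, h3⟩
    exact Set.disjoint_left.mp (hF.2 i hi j hj hne) h1 h2

end Pool.Agent.JTS
end

section

/-!
Sums of finitely supported functions over convex chains, and their bound by the James tree norm.
-/

set_option autoImplicit false

namespace Pool.Agent.JTS

variable {T Z X : Type} [PartialOrder T] [NormedAddCommGroup Z] [NormedSpace ℝ Z]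
    [NormedAddCommGroup X] [NormedSpace ℝ X]

open Classical in
private theorem B1_eq (S : Set T) (x : T →₀ Z) (s : Finset T) (hs : x.support ⊆ s) :
    fsum S x = ∑ u ∈ s, if u ∈ S then x u else 0 := by
  unfold fsum
  rw [Finset.sum_filter]
  refine Finset.sum_subset hs fun u _ hu => ?_
  rw [Finsupp.notMem_support_iff.mp hu]
  exact ite_self _

/-- `fsum S` as a linear map. PROOF. `fsum S x = ∑ u ∈ s, if u ∈ S then x u else 0` for every finset `s ⊇ x.support`
(`Finset.sum_filter`, `Finset.sum_subset`); or `fsum S x = (x.filter (· ∈ S)).sum fun _ z => z` and `Finsupp.sum_add_index'`,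
`Finsupp.filter_add`. -/
theorem fsum_add (S : Set T) (x y : T →₀ Z) : fsum S (x + y) = fsum S x + fsum S y := by
  classical
  have h1 : (x + y).support ⊆ x.support ∪ y.support := Finsupp.support_add
  rw [B1_eq S (x + y) _ h1, B1_eq S x _ Finset.subset_union_left,
    B1_eq S y _ Finset.subset_union_right, ← Finset.sum_add_distrib]
  refine Finset.sum_congr rfl fun u _ => ?_
  by_cases h : u ∈ S
  · rw [if_pos h, if_pos h, if_pos h, Finsupp.add_apply]
  · rw [if_neg h, if_neg h, if_neg h, add_zero]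

theorem fsum_smul (S : Set T) (c : ℝ) (x : T →₀ Z) : fsum S (c • x) = c • fsum S x := by
  classical
  rw [B1_eq S (c • x) x.support Finsupp.support_smul, B1_eq S x x.support (Finset.Subset.refl _),
    Finset.smul_sum]
  refine Finset.sum_congr rfl fun u _ => ?_
  by_cases h : u ∈ S
  · rw [if_pos h, if_pos h, Finsupp.smul_apply]
  · rw [if_neg h, if_neg h, smul_zero]

/-- PROOF. `fsum_add`: only the nodes of `x.support` matter. -/
theorem fsum_congr (S R : Set T) (x : T →₀ Z) (h : ∀ u ∈ x.support, (u ∈ S ↔ u ∈ R)) :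
    fsum S x = fsum R x := by
  classical
  rw [B1_eq S x x.support (Finset.Subset.refl _), B1_eq R x x.support (Finset.Subset.refl _)]
  refine Finset.sum_congr rfl fun u hu => ?_
  exact if_congr (h u hu) rfl rfl

theorem fsum_union (S R Q : Set T) (hd : Disjoint R Q) (hu : S = R ∪ Q) (x : T →₀ Z) :
    fsum S x = fsum R x + fsum Q x := by
  classical
  rw [B1_eq S x x.support (Finset.Subset.refl _), B1_eq R x x.support (Finset.Subset.refl _),
    B1_eq Q x x.support (Finset.Subset.refl _), ← Finset.sum_add_distrib]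
  refine Finset.sum_congr rfl fun u _ => ?_
  by_cases h1 : u ∈ R
  · have h2 : u ∉ Q := fun h3 => Set.disjoint_left.mp hd h1 h3
    have h3 : u ∈ S := by rw [hu]; exact Or.inl h1
    rw [if_pos h1, if_neg h2, if_pos h3, add_zero]
  · by_cases h2 : u ∈ Q
    · have h3 : u ∈ S := by rw [hu]; exact Or.inr h2
      rw [if_neg h1, if_pos h2, if_pos h3, zero_add]
    · have h3 : u ∉ S := by
        rw [hu]
        rintro (h4 | h4)
        · exact h1 h4
        · exact h2 h4
      rw [if_neg h1, if_neg h2, if_neg h3, add_zero]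

theorem fsum_zero (S : Set T) (x : T →₀ Z) (h : ∀ u ∈ S, u ∉ x.support) : fsum S x = 0 := by
  classical
  rw [B1_eq S x x.support (Finset.Subset.refl _)]
  refine Finset.sum_eq_zero fun u hu => ?_
  exact if_neg fun h1 => h u h1 hu

open Classical in
theorem fsum_single (S : Set T) (t : T) (z : Z) :
    fsum S (Finsupp.single t z) = if t ∈ S then z else 0 := by
  rw [B1_eq S (Finsupp.single t z) {t} Finsupp.support_single_subset, Finset.sum_singleton,
    Finsupp.single_eq_same]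

/-- PROOF. If `S ∩ x.support` is empty, `fsum S x = 0` (second case). Otherwise let `s` be its least and `t` its greatest element (a finite nonempty
chain; e.g. `Finset.exists_minimal`, `Finset.exists_maximal` and comparability in `S`). `Icc s t ⊆ S` (convexity), and a node of the support in `S` is
between `s` and `t`; `fsum_congr`. -/
theorem fsum_cc {S : Set T} (hS : CC S) (x : T →₀ Z) :
    fsum S x = 0 ∨ ∃ s t : T, s ≤ t ∧ Set.Icc s t ⊆ S ∧ fsum S x = fsum (Set.Icc s t) x := by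
  classical
  by_cases hE : (x.support.filter (fun u => u ∈ S)).Nonempty
  · right
    obtain ⟨a, ha⟩ := Finset.exists_minimal hE
    obtain ⟨b, hb⟩ := Finset.exists_maximal hE
    have haS := (Finset.mem_filter.mp ha.1).2
    have hbS := (Finset.mem_filter.mp hb.1).2
    have hmin : ∀ u ∈ x.support, u ∈ S → a ≤ u := by
      intro u hu huS
      rcases hS.chain a haS u huS with h3 | h3
      · exact h3
      · exact ha.2 (Finset.mem_filter.mpr ⟨hu, huS⟩) h3
    have hmax : ∀ u ∈ x.support, u ∈ S → u ≤ b := by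
      intro u hu huS
      rcases hS.chain u huS b hbS with h3 | h3
      · exact h3
      · exact hb.2 (Finset.mem_filter.mpr ⟨hu, huS⟩) h3
    have hsub : Set.Icc a b ⊆ S := fun u hu => hS.conv a haS b hbS u hu.1 hu.2
    refine ⟨a, b, hmin b (Finset.mem_filter.mp hb.1).1 hbS, hsub, ?_⟩
    exact fsum_congr S (Set.Icc a b) x fun u hu =>
      ⟨fun huS => ⟨hmin u hu huS, hmax u hu huS⟩, fun h => hsub h⟩
  · left
    refine fsum_zero S x fun u huS hu => hE ⟨u, Finset.mem_filter.mpr ⟨hu, huS⟩⟩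

/-- PROOF. For every `i ∈ F` with `fsum (S i) x ≠ 0` choose `s_i ≤ t_i` by `fsum_cc`. The segments `Icc s_i t_i ⊆ S i` are disjoint and
nonempty, so the finset `F'` of the pairs `(s_i, t_i)` is a `Fam` and `i ↦ (s_i, t_i)` is injective on the relevant `i`; the sum is
`∑_{F'} ‖fsum (Icc ..) x‖ ^ p ≤ ‖e x‖ ^ p` by `hJ.norm` (upper bound). The other `i` contribute `0 ^ p = 0` (`p ≠ 0`). -/
theorem fsum_family {p : ℝ} (hp : 1 < p) {e : (T →₀ Z) →ₗ[ℝ] X} (hJ : IsJT T Z X p e)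
    {ι : Type} (F : Finset ι) (S : ι → Set T) (hS : ∀ i ∈ F, CC (S i))
    (hd : ∀ i ∈ F, ∀ j ∈ F, i ≠ j → Disjoint (S i) (S j)) (x : T →₀ Z) :
    ∑ i ∈ F, ‖fsum (S i) x‖ ^ p ≤ ‖e x‖ ^ p := by
  classical
  have hp0 : p ≠ 0 := by linarith
  have h1 : ∀ i : {i // i ∈ F.filter (fun i => fsum (S i) x ≠ 0)}, ∃ q : T × T, q.1 ≤ q.2 ∧
      Set.Icc q.1 q.2 ⊆ S i ∧ fsum (S i) x = fsum (Set.Icc q.1 q.2) x := by
    rintro ⟨i, hi⟩
    rw [Finset.mem_filter] at hi
    rcases fsum_cc (hS i hi.1) x with h2 | ⟨s, t, h2, h3, h4⟩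
    · exact absurd h2 hi.2
    · exact ⟨(s, t), h2, h3, h4⟩
  choose q hq1 hq2 hq3 using h1
  have hdis : ∀ i j, i ≠ j → Disjoint (Set.Icc (q i).1 (q i).2) (Set.Icc (q j).1 (q j).2) := by
    intro i j hij
    have hi := (Finset.mem_filter.mp i.2).1
    have hj := (Finset.mem_filter.mp j.2).1
    exact (hd i.1 hi j.1 hj fun h => hij (Subtype.ext h)).mono (hq2 i) (hq2 j)
  have hinj : ∀ i j, q i = q j → i = j := by
    intro i j h
    by_contra hij
    have h2 : (q i).1 ∈ Set.Icc (q i).1 (q i).2 := ⟨le_rfl, hq1 i⟩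
    have h3 : (q i).1 ∈ Set.Icc (q j).1 (q j).2 := by rw [← h]; exact h2
    exact Set.disjoint_left.mp (hdis i j hij) h2 h3
  have h2 : ∑ i ∈ F, ‖fsum (S i) x‖ ^ p =
      ∑ i ∈ F.filter (fun i => fsum (S i) x ≠ 0), ‖fsum (S i) x‖ ^ p := by
    symm
    refine Finset.sum_subset (Finset.filter_subset _ _) fun i hi hi2 => ?_
    have h3 : fsum (S i) x = 0 := by
      by_contra h4
      exact hi2 (Finset.mem_filter.mpr ⟨hi, h4⟩)
    rw [h3, norm_zero, Real.zero_rpow hp0]
  have h3 : ∑ i ∈ F.filter (fun i => fsum (S i) x ≠ 0), ‖fsum (S i) x‖ ^ p =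
      ∑ j ∈ (Finset.univ.image q), ‖fsum (Set.Icc j.1 j.2) x‖ ^ p := by
    rw [Finset.sum_image fun i _ j _ h => hinj i j h, ← Finset.sum_coe_sort]
    refine Finset.sum_congr rfl fun i _ => ?_
    rw [hq3 i]
  rw [h2, h3]
  refine (hJ.norm x).1 ⟨Finset.univ.image q, ⟨?_, ?_⟩, rfl⟩
  · intro j hj
    obtain ⟨i, _, rfl⟩ := Finset.mem_image.mp hj
    exact hq1 i
  · intro i hi j hj hij
    obtain ⟨i', _, rfl⟩ := Finset.mem_image.mp hi
    obtain ⟨j', _, rfl⟩ := Finset.mem_image.mp hj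
    exact hdis i' j' fun h => hij (by rw [h])

end Pool.Agent.JTS
end

section

/-!
Extension of the sums over convex chains to the James tree space.
-/

set_option autoImplicit false

namespace Pool.Agent.JTS

variable {T Z X : Type} [PartialOrder T] [NormedAddCommGroup Z] [NormedSpace ℝ Z]
    [NormedAddCommGroup X] [NormedSpace ℝ X]

/-- PROOF. General extension: a linear map `f : V → Z` (`Z` complete) with `‖f x‖ ≤ ‖e x‖` for a linear map `e : V → X` with dense range extends to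
`g : X →L[ℝ] Z` with `g (e x) = f x`: `f` factors through the range of `e` (`e x = e y → f x = f y`); the range `M` is a dense subspace, the factor map is a bounded
linear map `M →L[ℝ] Z`, extend by `ContinuousLinearMap.extend` (or `LinearMap.extendOfNorm`) along `M.subtypeL` (dense, uniform
inducing). -/
theorem exists_extension [CompleteSpace Z] {V : Type} [AddCommGroup V] [Module ℝ V]
    (e : V →ₗ[ℝ] X) (he : DenseRange e) (f : V →ₗ[ℝ] Z) (hf : ∀ x, ‖f x‖ ≤ ‖e x‖) :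
    ∃ g : X →L[ℝ] Z, ∀ x, g (e x) = f x :=
  ⟨f.extendOfNorm e, fun x => LinearMap.extendOfNorm_eq he ⟨1, fun y => by simpa using hf y⟩ x⟩

private theorem B2_cc (hT : IsTree T) (s t : T) : CC (Set.Icc s t) where
  chain := fun a ha b hb => hT.lin t a b ha.2 hb.2
  conv := fun a ha b hb u hau hub => ⟨ha.1.trans hau, hub.trans hb.2⟩

private theorem B2_mink {ι : Type} {p : ℝ} (hp : 1 < p) (F : Finset ι) (f g : ι → Z) :
    (∑ i ∈ F, ‖f i + g i‖ ^ p) ^ (1 / p) ≤
      (∑ i ∈ F, ‖f i‖ ^ p) ^ (1 / p) + (∑ i ∈ F, ‖g i‖ ^ p) ^ (1 / p) := by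
  refine le_trans ?_ (Real.Lp_add_le_of_nonneg F hp.le (fun i _ => norm_nonneg (f i))
    (fun i _ => norm_nonneg (g i)))
  refine Real.rpow_le_rpow (Finset.sum_nonneg fun i _ => Real.rpow_nonneg (norm_nonneg _) _) ?_
    (by positivity)
  exact Finset.sum_le_sum fun i _ => Real.rpow_le_rpow (norm_nonneg _) (norm_add_le _ _)
    (by linarith)

private theorem B2_unif {p : ℝ} (hp : 1 < p) (M δ : ℝ) (hδ : 0 < δ) :
    ∃ η : ℝ, 0 < η ∧ ∀ a b : ℝ, 0 ≤ a → a ≤ M → 0 ≤ b → b ≤ a + η → b ^ p ≤ a ^ p + δ := by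
  have hc : ContinuousOn (fun a : ℝ => a ^ p) (Set.Icc 0 (M + 1)) :=
    (Real.continuous_rpow_const (by linarith)).continuousOn
  have hu := isCompact_Icc.uniformContinuousOn_of_continuous hc
  rw [Metric.uniformContinuousOn_iff] at hu
  obtain ⟨η, hη, h⟩ := hu δ hδ
  refine ⟨min (η / 2) 1, by positivity, fun a b ha haM hb hba => ?_⟩
  have h1 : min (η / 2) 1 ≤ η / 2 := min_le_left _ _
  have h2 : min (η / 2) 1 ≤ 1 := min_le_right _ _
  rcases le_or_gt b a with hle | hlt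
  · have := Real.rpow_le_rpow hb hle (by linarith : (0 : ℝ) ≤ p)
    linarith
  · have h3 := h b ⟨hb, by linarith⟩ a ⟨ha, by linarith⟩ (by
      rw [Real.dist_eq, abs_of_pos (by linarith)]
      linarith)
    rw [Real.dist_eq] at h3
    have := le_abs_self (b ^ p - a ^ p)
    linarith

/-- PROOF. For a convex chain `S` extend `fsum S` (`fsum_add`, `fsum_smul`, `fsum_family` with one set and the `p`-th root: `‖fsum S x‖ ≤ ‖e x‖`); for other `S`
take `0`. `bd`: the inequality holds for `e x` (`fsum_family`), both sides are continuous (`p > 0`), the range is dense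
(`DenseRange.induction_on` or `IsClosed` set). `nlow`: by continuity of both sides it is enough to find `y = e x'` close to `x` with `‖y‖ ^ p > ‖x‖ ^ p - δ/3`
and (uniformly in the family) `(∑ ‖σ x‖ ^ p) ^ (1/p) ≥ (∑ ‖σ y‖ ^ p) ^ (1/p) - ‖x - y‖` (Minkowski `Real.Lp_add_le` and `bd`), and a family that is `δ/3`-optimal
for `x'` (`hJ.norm`, least upper bound); choose `‖x - y‖` small (`a ↦ a ^ p` is uniformly continuous on bounded sets). -/
theorem exists_sigma [CompleteSpace Z] (hT : IsTree T) {p : ℝ} (hp : 1 < p)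
    {e : (T →₀ Z) →ₗ[ℝ] X} (hJ : IsJT T Z X p e) :
    ∃ σ : Set T → X →L[ℝ] Z,
      (∀ S : Set T, CC S → ∀ x : T →₀ Z, σ S (e x) = fsum S x) ∧
      (∀ (F : Finset (Set T)), (∀ S ∈ F, CC S) → (∀ S ∈ F, ∀ R ∈ F, S ≠ R → Disjoint S R) →
        ∀ x : X, ∑ S ∈ F, ‖σ S x‖ ^ p ≤ ‖x‖ ^ p) ∧
      (∀ (x : X) (δ : ℝ), 0 < δ → ∃ F : Finset (T × T), Fam F ∧
        ‖x‖ ^ p - δ ≤ ∑ j ∈ F, ‖σ (Set.Icc j.1 j.2) x‖ ^ p) := by
  classical
  have hp0 : 0 < p := by linarith
  have hext : ∀ S : Set T, ∃ g : X →L[ℝ] Z, CC S → ∀ x : T →₀ Z, g (e x) = fsum S x := by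
    intro S
    by_cases hS : CC S
    · obtain ⟨g, hg⟩ := exists_extension e hJ.dense
        (f := { toFun := fsum S, map_add' := fsum_add S, map_smul' := fsum_smul S })
        (fun x => by
          have h := fsum_family hp hJ ({()} : Finset Unit) (fun _ => S) (fun _ _ => hS)
            (fun i _ j _ hij => absurd (Subsingleton.elim i j) hij) x
          rw [Finset.sum_singleton] at h
          exact (Real.rpow_le_rpow_iff (norm_nonneg _) (norm_nonneg _) hp0).1 h)
      exact ⟨g, fun _ => hg⟩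
    · exact ⟨0, fun h => absurd h hS⟩
  choose σ hσ using hext
  have hbd : ∀ (F : Finset (Set T)), (∀ S ∈ F, CC S) →
      (∀ S ∈ F, ∀ R ∈ F, S ≠ R → Disjoint S R) →
      ∀ x : X, ∑ S ∈ F, ‖σ S x‖ ^ p ≤ ‖x‖ ^ p := by
    intro F hF hd x
    refine hJ.dense.induction_on x ?_ ?_
    · refine isClosed_le ?_ ?_
      · exact continuous_finsetSum _ fun S _ =>
          ((σ S).continuous.norm).rpow_const fun _ => Or.inr hp0.le
      · exact continuous_norm.rpow_const fun _ => Or.inr hp0.le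
    · intro y
      have h := fsum_family hp hJ F (fun S => S) hF hd y
      refine le_trans (le_of_eq ?_) h
      exact Finset.sum_congr rfl fun S hS => by rw [hσ S (hF S hS)]
  have hbd' : ∀ (F : Finset (T × T)), Fam F → ∀ x : X,
      ∑ j ∈ F, ‖σ (Set.Icc j.1 j.2) x‖ ^ p ≤ ‖x‖ ^ p := by
    intro F hF x
    have hinj : Set.InjOn (fun j : T × T => Set.Icc j.1 j.2) (F : Set (T × T)) := by
      intro i hi j hj hij
      by_contra hne
      have hdis := hF.2 i hi j hj hne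
      have hmem : i.1 ∈ Set.Icc i.1 i.2 := Set.left_mem_Icc.2 (hF.1 i hi)
      have hij' : Set.Icc i.1 i.2 = Set.Icc j.1 j.2 := hij
      exact Set.disjoint_left.1 hdis hmem (hij' ▸ hmem)
    have h := hbd (F.image fun j : T × T => Set.Icc j.1 j.2)
      (by
        intro S hS
        obtain ⟨j, _, rfl⟩ := Finset.mem_image.1 hS
        exact B2_cc hT _ _)
      (by
        intro S hS R hR hSR
        obtain ⟨i, hi, rfl⟩ := Finset.mem_image.1 hS
        obtain ⟨j, hj, rfl⟩ := Finset.mem_image.1 hR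
        exact hF.2 i hi j hj fun hij => hSR (by rw [hij])) x
    rwa [Finset.sum_image hinj] at h
  refine ⟨σ, fun S hS x => hσ S hS x, hbd, ?_⟩
  intro x δ hδ
  obtain ⟨η, hη, hu⟩ := B2_unif hp (‖x‖ + 1) (δ / 3) (by linarith)
  have hη' : 0 < min η 1 := by positivity
  obtain ⟨y, hy⟩ := hJ.dense.exists_dist_lt x hη'
  rw [dist_eq_norm] at hy
  have hy1 : ‖x - e y‖ < η := lt_of_lt_of_le hy (min_le_left _ _)
  have hy2 : ‖x - e y‖ < 1 := lt_of_lt_of_le hy (min_le_right _ _)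
  have hxy : ‖x‖ ≤ ‖e y‖ + ‖x - e y‖ := by
    have := norm_add_le (e y) (x - e y)
    rwa [add_sub_cancel] at this
  have hyx : ‖e y‖ ≤ ‖x‖ + ‖x - e y‖ := by
    have := norm_sub_le x (x - e y)
    rwa [sub_sub_cancel] at this
  have h1 : ‖x‖ ^ p ≤ ‖e y‖ ^ p + δ / 3 :=
    hu _ _ (norm_nonneg _) (by linarith) (norm_nonneg _) (by linarith)
  obtain ⟨F, hF, hFy⟩ : ∃ F : Finset (T × T), Fam F ∧
      ‖e y‖ ^ p - δ / 3 < ∑ j ∈ F, ‖fsum (Set.Icc j.1 j.2) y‖ ^ p := by
    obtain ⟨a, ⟨F, hF, rfl⟩, ha, _⟩ := (hJ.norm y).exists_between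
      (show ‖e y‖ ^ p - δ / 3 < ‖e y‖ ^ p by linarith)
    exact ⟨F, hF, ha⟩
  refine ⟨F, hF, ?_⟩
  set A : ℝ := ∑ j ∈ F, ‖σ (Set.Icc j.1 j.2) x‖ ^ p with hA
  have hA0 : 0 ≤ A := Finset.sum_nonneg fun i _ => Real.rpow_nonneg (norm_nonneg _) _
  set C : ℝ := ∑ j ∈ F, ‖fsum (Set.Icc j.1 j.2) y‖ ^ p with hC
  have hC0 : 0 ≤ C := Finset.sum_nonneg fun i _ => Real.rpow_nonneg (norm_nonneg _) _
  have hAx : A ≤ ‖x‖ ^ p := hbd' F hF x
  have hroot : ∀ a b : ℝ, 0 ≤ a → 0 ≤ b → a ≤ b ^ p → a ^ (1 / p) ≤ b := by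
    intro a b ha hb hab
    have h := Real.rpow_le_rpow ha hab (by positivity : (0 : ℝ) ≤ 1 / p)
    rwa [← Real.rpow_mul hb, mul_one_div_cancel hp0.ne', Real.rpow_one] at h
  have hpow : ∀ a : ℝ, 0 ≤ a → (a ^ (1 / p)) ^ p = a := by
    intro a ha
    rw [← Real.rpow_mul ha, one_div_mul_cancel hp0.ne', Real.rpow_one]
  have hm : C ^ (1 / p) ≤ A ^ (1 / p) + η := by
    have h := B2_mink hp F (fun j => σ (Set.Icc j.1 j.2) x)
      (fun j => σ (Set.Icc j.1 j.2) (e y - x))
    have h2 : (∑ j ∈ F, ‖σ (Set.Icc j.1 j.2) (e y - x)‖ ^ p) ^ (1 / p) ≤ ‖e y - x‖ :=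
      hroot _ _ (Finset.sum_nonneg fun i _ => Real.rpow_nonneg (norm_nonneg _) _)
        (norm_nonneg _) (hbd' F hF _)
    have h3 : ∑ j ∈ F, ‖σ (Set.Icc j.1 j.2) x + σ (Set.Icc j.1 j.2) (e y - x)‖ ^ p = C := by
      refine Finset.sum_congr rfl fun j _ => ?_
      rw [← map_add, add_sub_cancel, hσ _ (B2_cc hT _ _)]
    rw [h3] at h
    rw [norm_sub_rev] at h2
    linarith
  have h4 := hu (A ^ (1 / p)) (C ^ (1 / p)) (Real.rpow_nonneg hA0 _)
    ((hroot _ _ hA0 (norm_nonneg _) hAx).trans (by linarith)) (Real.rpow_nonneg hC0 _) hm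
  rw [hpow A hA0, hpow C hC0] at h4
  linarith

end Pool.Agent.JTS
end

section

/-!
Consequences of the axioms `Sys`.
-/

set_option autoImplicit false

namespace Pool.Agent.JTS

variable {T Z X : Type} [PartialOrder T] [NormedAddCommGroup Z] [NormedSpace ℝ Z]
    [NormedAddCommGroup X] [NormedSpace ℝ X] {top : T → Set T} {p r B : ℝ} {ν : Z → ℝ}
    {e : (T →₀ Z) →ₗ[ℝ] X} {σ : Set T → X →L[ℝ] Z}

theorem Sys.hp (h : Sys T Z X top p r B ν e σ) : 1 < p := h.hr.trans h.hrp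

/-- PROOF. `Metric.denseRange_iff`. -/
theorem Sys.approx (h : Sys T Z X top p r B ν e σ) (x : X) {δ : ℝ} (hδ : 0 < δ) :
    ∃ y : T →₀ Z, ‖x - e y‖ < δ := by
  obtain ⟨y, hy⟩ := Metric.denseRange_iff.mp h.dense x δ hδ
  refine ⟨y, ?_⟩
  rw [← dist_eq_norm]
  exact hy

/-- PROOF. `CC ∅`, `fin`: `σ ∅ (e y) = fsum ∅ y = 0`; dense range and continuity. -/
theorem Sys.empty (h : Sys T Z X top p r B ν e σ) (x : X) : σ ∅ x = 0 := by
  have hE : CC (∅ : Set T) := ⟨fun a ha => absurd ha (Set.notMem_empty a),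
    fun a ha => absurd ha (Set.notMem_empty a)⟩
  have h1 : (fun x => σ ∅ x) = fun _ => (0 : Z) := by
    refine h.dense.equalizer (σ ∅).continuous continuous_const ?_
    funext y
    show σ ∅ (e y) = 0
    rw [h.fin ∅ hE y]
    exact fsum_zero ∅ y fun u hu => absurd hu (Set.notMem_empty u)
  exact congrFun h1 x

/-- PROOF. Both sides are continuous in `x`; for `x = e y`: `fin` and `fsum_union`. -/
theorem Sys.add (h : Sys T Z X top p r B ν e σ) {S R Q : Set T} (hS : CC S) (hR : CC R)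
    (hQ : CC Q) (hd : Disjoint R Q) (hu : S = R ∪ Q) (x : X) : σ S x = σ R x + σ Q x := by
  have h1 : (fun x => σ S x) = fun x => σ R x + σ Q x := by
    refine h.dense.equalizer (σ S).continuous ((σ R).continuous.add (σ Q).continuous) ?_
    funext y
    show σ S (e y) = σ R (e y) + σ Q (e y)
    rw [h.fin S hS, h.fin R hR, h.fin Q hQ]
    exact fsum_union S R Q hd hu y
  exact congrFun h1 x

/-- PROOF. The indices `i` with `S i = ∅` contribute `‖σ ∅ x‖ ^ p = 0 ^ p = 0`. On the others `S` is injective (disjoint nonempty sets), use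
`h.bd` for the image finset (`Finset.sum_image`). -/
theorem Sys.fam (h : Sys T Z X top p r B ν e σ) {ι : Type} (F : Finset ι) (S : ι → Set T)
    (hS : ∀ i ∈ F, CC (S i)) (hd : ∀ i ∈ F, ∀ j ∈ F, i ≠ j → Disjoint (S i) (S j)) (x : X) :
    ∑ i ∈ F, ‖σ (S i) x‖ ^ p ≤ ‖x‖ ^ p := by
  classical
  have hp0 : p ≠ 0 := by
    have := h.hp
    linarith
  have h2 : ∑ i ∈ F, ‖σ (S i) x‖ ^ p =
      ∑ i ∈ F.filter (fun i => (S i).Nonempty), ‖σ (S i) x‖ ^ p := by
    symm
    refine Finset.sum_subset (Finset.filter_subset _ _) fun i hi hi2 => ?_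
    have h3 : S i = ∅ := by
      by_contra h4
      exact hi2 (Finset.mem_filter.mpr ⟨hi, Set.nonempty_iff_ne_empty.mpr h4⟩)
    rw [h3, h.empty, norm_zero, Real.zero_rpow hp0]
  have hinj : ∀ i ∈ F.filter (fun i => (S i).Nonempty), ∀ j ∈ F.filter (fun i => (S i).Nonempty),
      S i = S j → i = j := by
    intro i hi j hj hij
    rw [Finset.mem_filter] at hi hj
    by_contra hne
    obtain ⟨t, ht⟩ := hi.2
    exact Set.disjoint_left.mp (hd i hi.1 j hj.1 hne) ht (hij ▸ ht)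
  have h3 : ∑ i ∈ F.filter (fun i => (S i).Nonempty), ‖σ (S i) x‖ ^ p =
      ∑ R ∈ (F.filter (fun i => (S i).Nonempty)).image S, ‖σ R x‖ ^ p :=
    (Finset.sum_image (f := fun R => ‖σ R x‖ ^ p) hinj).symm
  rw [h2, h3]
  refine h.bd _ ?_ ?_ x
  · intro R hR
    obtain ⟨i, hi, rfl⟩ := Finset.mem_image.mp hR
    exact hS i (Finset.mem_filter.mp hi).1
  · intro R hR Q hQ hRQ
    obtain ⟨i, hi, rfl⟩ := Finset.mem_image.mp hR
    obtain ⟨j, hj, rfl⟩ := Finset.mem_image.mp hQ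
    exact hd i (Finset.mem_filter.mp hi).1 j (Finset.mem_filter.mp hj).1 fun hij => hRQ (by rw [hij])

/-- PROOF. `h.fam` for one set, `p`-th root (`Real.rpow_le_rpow_iff`). -/
theorem Sys.le (h : Sys T Z X top p r B ν e σ) {S : Set T} (hS : CC S) (x : X) :
    ‖σ S x‖ ≤ ‖x‖ := by
  have hp := h.hp
  have h1 := h.fam ({()} : Finset Unit) (fun _ => S) (fun _ _ => hS)
    (fun i _ j _ hij => absurd (Subsingleton.elim i j) hij) x
  rw [Finset.sum_singleton] at h1
  exact (Real.rpow_le_rpow_iff (norm_nonneg _) (norm_nonneg _) (by linarith)).mp h1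

/-- PROOF. `fin`, `fsum_zero`. -/
theorem Sys.finz (h : Sys T Z X top p r B ν e σ) {S : Set T} (hS : CC S) (y : T →₀ Z)
    (h0 : ∀ t ∈ S, t ∉ y.support) : σ S (e y) = 0 := by
  rw [h.fin S hS]
  exact fsum_zero S y h0

private theorem B3_aux (h : Sys T Z X top p r B ν e σ) {Q : Set T} (hQ : CC Q) (x : X)
    (h0 : ∀ t ∈ Q, σ (Q ∩ Set.Iic t) x = 0) : σ Q x = 0 := by
  classical
  have hIC : ∀ t : T, IC (Set.Iic t) := fun t =>
    ⟨fun a ha b hb => le_trans hb ha, fun a ha b hb => h.tree.lin t a b ha hb⟩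
  have key : ∀ δ : ℝ, 0 < δ → ‖σ Q x‖ ≤ δ := by
    intro δ hδ
    obtain ⟨y, hy⟩ := h.approx x hδ
    by_cases hE : (y.support.filter (fun u => u ∈ Q)).Nonempty
    · obtain ⟨t, ht⟩ := Finset.exists_maximal hE
      have htQ := (Finset.mem_filter.mp ht.1).2
      have h1 : CC (Q ∩ Set.Iic t) := hQ.inter (hIC t)
      have h2 : CC (Q \ Set.Iic t) := hQ.diff (hIC t)
      have h3 : Disjoint (Q ∩ Set.Iic t) (Q \ Set.Iic t) :=
        Set.disjoint_left.mpr fun u hu hu2 => hu2.2 hu.2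
      have h4 : Q = (Q ∩ Set.Iic t) ∪ (Q \ Set.Iic t) := (Set.inter_union_sdiff Q (Set.Iic t)).symm
      have h5 : σ (Q \ Set.Iic t) (e y) = 0 := by
        refine h.finz h2 y fun u hu hus => hu.2 ?_
        rcases hQ.chain u hu.1 t htQ with h6 | h6
        · exact h6
        · exact ht.2 (Finset.mem_filter.mpr ⟨hus, hu.1⟩) h6
      have h6 : σ Q x = σ (Q \ Set.Iic t) (x - e y) := by
        rw [h.add hQ h1 h2 h3 h4 x, h0 t htQ, zero_add, map_sub, h5, sub_zero]
      rw [h6]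
      exact (h.le h2 _).trans hy.le
    · have h5 : σ Q (e y) = 0 :=
        h.finz hQ y fun u hu hus => hE ⟨u, Finset.mem_filter.mpr ⟨hus, hu⟩⟩
      have h6 : σ Q x = σ Q (x - e y) := by
        rw [map_sub, h5, sub_zero]
      rw [h6]
      exact (h.le hQ _).trans hy.le
  have h7 : ‖σ Q x‖ ≤ 0 := le_of_forall_pos_le_add fun δ hδ => by
    rw [zero_add]
    exact key δ hδ
  exact norm_le_zero_iff.mp h7

/-- Vanishing. PROOF. Claim: for all `t ∈ S`: `σ (S ∩ Set.Iio t) x = 0` and `σ (S ∩ Set.Iic t) x = 0`. Well-founded induction on `t` (`h.tree.wf`).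
Second from first: `S ∩ Iic t = (S ∩ Iio t) ∪ {t}`, `h.add`, `h0`. First: let `δ > 0`, `y` with `‖x - e y‖ < δ`. If no node of `y.support`
is in `S ∩ Iio t`, then `σ (S ∩ Iio t) (e y) = 0` and `‖σ (S ∩ Iio t) x‖ ≤ δ` (`h.le`). Otherwise let `t'` be the largest node of the
support in `S ∩ Iio t`. `S ∩ Iio t = (S ∩ Iic t') ∪ (S ∩ Iio t ∩ {v | t' < v})`, disjoint convex chains; `σ (S ∩ Iic t') x = 0` by
induction, and the last set contains no node of the support, so `‖σ (..) x‖ = ‖σ (..) (x - e y)‖ ≤ δ`. Since `δ` is arbitrary, the first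
claim. Finally `σ S x = 0`: the same argument with `S` in the place of `S ∩ Iio t`. (So prove a lemma: if `Q` is a convex chain, and
`σ (Q ∩ Iic t') x = 0` for all `t' ∈ Q`, then `σ Q x = 0`; use it for `Q = S ∩ Iio t` and `Q = S`.) -/
theorem Sys.zero (h : Sys T Z X top p r B ν e σ) {S : Set T} (hS : CC S) (x : X)
    (h0 : ∀ t ∈ S, σ {t} x = 0) : σ S x = 0 := by
  have hIio : ∀ t : T, IC (Set.Iio t) := fun t =>
    ⟨fun a ha b hb => lt_of_le_of_lt hb ha, fun a ha b hb =>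
      h.tree.lin t a b (le_of_lt ha) (le_of_lt hb)⟩
  have hIic : ∀ t : T, IC (Set.Iic t) := fun t =>
    ⟨fun a ha b hb => le_trans hb ha, fun a ha b hb => h.tree.lin t a b ha hb⟩
  refine B3_aux h hS x fun t => ?_
  refine h.tree.wf.induction (C := fun t => t ∈ S → σ (S ∩ Set.Iic t) x = 0) t ?_
  intro t ih ht
  have h1 : σ (S ∩ Set.Iio t) x = 0 := by
    refine B3_aux h (hS.inter (hIio t)) x fun t' ht' => ?_
    have h2 : S ∩ Set.Iio t ∩ Set.Iic t' = S ∩ Set.Iic t' := by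
      ext u
      constructor
      · rintro ⟨⟨hu1, _⟩, hu2⟩
        exact ⟨hu1, hu2⟩
      · rintro ⟨hu1, hu2⟩
        exact ⟨⟨hu1, lt_of_le_of_lt hu2 ht'.2⟩, hu2⟩
    rw [h2]
    exact ih t' ht'.2 ht'.1
  have h3 : Disjoint (S ∩ Set.Iio t) {t} :=
    Set.disjoint_left.mpr fun u hu hu2 => by
      rw [Set.mem_singleton_iff] at hu2
      exact absurd hu.2 (by rw [hu2]; exact lt_irrefl t)
  have h4 : S ∩ Set.Iic t = (S ∩ Set.Iio t) ∪ {t} := by
    ext u
    constructor
    · rintro ⟨hu1, hu2⟩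
      rcases eq_or_lt_of_le hu2 with h5 | h5
      · exact Or.inr h5
      · exact Or.inl ⟨hu1, h5⟩
    · rintro (⟨hu1, hu2⟩ | hu)
      · exact ⟨hu1, le_of_lt hu2⟩
      · rw [Set.mem_singleton_iff] at hu
        rw [hu]
        exact ⟨ht, le_rfl⟩
  rw [h.add (hS.inter (hIic t)) (hS.inter (hIio t)) (cc_single t) h3 h4 x, h1, h0 t ht, add_zero]

/-- PROOF. A finset `F` of such nodes has `F.card * ε ^ p ≤ ∑ ‖σ {t} x‖ ^ p ≤ ‖x‖ ^ p` (`h.fam`). So the cardinalities are bounded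
(`Set.finite_of_forall_card_le`.. or `Set.Infinite.exists_subset_card_eq`). -/
theorem Sys.node_fin (h : Sys T Z X top p r B ν e σ) (x : X) {ε : ℝ} (hε : 0 < ε) :
    {t : T | ε ≤ ‖σ {t} x‖}.Finite := by
  by_contra hinf
  have hp := h.hp
  have hεp : 0 < ε ^ p := Real.rpow_pos_of_pos hε p
  obtain ⟨n, hn⟩ := exists_nat_gt (‖x‖ ^ p / ε ^ p)
  obtain ⟨F, hF, hFn⟩ := Set.Infinite.exists_subset_card_eq (s := {t : T | ε ≤ ‖σ {t} x‖}) hinf n
  have h1 := h.fam F (fun t => {t}) (fun t _ => cc_single t)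
    (fun i _ j _ hij => Set.disjoint_singleton.mpr hij) x
  have h2 : (n : ℝ) * ε ^ p ≤ ∑ t ∈ F, ‖σ {t} x‖ ^ p := by
    rw [← hFn, ← nsmul_eq_mul]
    refine Finset.card_nsmul_le_sum F _ _ fun t ht => ?_
    exact Real.rpow_le_rpow hε.le (hF ht) (by linarith)
  rw [div_lt_iff₀ hεp] at hn
  linarith

/-- PROOF. `⋃ n, {t | 1 / (n + 1) ≤ ‖σ {t} x‖}`. -/
theorem Sys.node_countable (h : Sys T Z X top p r B ν e σ) (x : X) :
    {t : T | σ {t} x ≠ 0}.Countable := by
  have h1 : {t : T | σ {t} x ≠ 0} ⊆ ⋃ n : ℕ, {t : T | 1 / ((n : ℝ) + 1) ≤ ‖σ {t} x‖} := by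
    intro t ht
    obtain ⟨n, hn⟩ := exists_nat_one_div_lt (norm_pos_iff.mpr ht)
    exact Set.mem_iUnion.mpr ⟨n, hn.le⟩
  have h2 : (⋃ n : ℕ, {t : T | 1 / ((n : ℝ) + 1) ≤ ‖σ {t} x‖}).Countable :=
    Set.countable_iUnion fun n : ℕ => (h.node_fin x (Nat.one_div_pos_of_nat (n := n))).countable
  exact h2.mono h1

theorem Sys.nu_nonneg (h : Sys T Z X top p r B ν e σ) (z : Z) : 0 ≤ ν z :=
  (norm_nonneg z).trans (h.lo z)

theorem Sys.nu_zero (h : Sys T Z X top p r B ν e σ) : ν 0 = 0 := by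
  have := h.hom 0 0
  simpa using this

/-- PROOF. `h.lo`, `h.up`. -/
theorem Sys.nu_eq_zero (h : Sys T Z X top p r B ν e σ) {z : Z} : ν z = 0 ↔ z = 0 := by
  constructor
  · intro h1
    have h2 := h.lo z
    rw [h1] at h2
    exact norm_le_zero_iff.mp h2
  · rintro rfl
    exact h.nu_zero

/-- PROOF. `h.tri` twice, `h.hom (-1)`. -/
theorem Sys.nu_sub (h : Sys T Z X top p r B ν e σ) (z w : Z) : |ν z - ν w| ≤ ν (z - w) := by
  have h1 := h.tri (z - w) w
  rw [sub_add_cancel] at h1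
  have h2 := h.tri (w - z) z
  rw [sub_add_cancel] at h2
  have h3 : ν (w - z) = ν (z - w) := by
    have h4 := h.hom (-1) (z - w)
    rw [neg_one_smul, neg_sub, abs_neg, abs_one, one_mul] at h4
    exact h4
  rw [abs_le]
  constructor <;> linarith

end Pool.Agent.JTS
end

section

/-!
Limits along an ultrafilter.
-/

set_option autoImplicit false

namespace Pool.Agent.JTS

open Filter Topology

variable {T Z X : Type} [PartialOrder T] [NormedAddCommGroup Z] [NormedSpace ℝ Z]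
    [NormedAddCommGroup X] [NormedSpace ℝ X] {top : T → Set T} {p r B : ℝ} {ν : Z → ℝ}
    {e : (T →₀ Z) →ₗ[ℝ] X} {σ : Set T → X →L[ℝ] Z}

/-- PROOF. Let `δ > 0` and `y` with `‖x - e y‖ < δ`. For every `u ∈ y.support`: `∀ᶠ k, (u ∈ S k ↔ u ∈ S)` (ultrafilter dichotomy
`Ultrafilter.eventually_not`); the support is finite, so eventually `fsum (S k) y = fsum S y` (`fsum_congr`), and then
`‖σ (S k) x - σ S x‖ ≤ ‖σ (S k) (x - e y)‖ + ‖σ S (x - e y)‖ ≤ 2 δ`. -/
theorem Sys.lim (h : Sys T Z X top p r B ν e σ) (𝒰 : Ultrafilter ℕ) (S : ℕ → Set T) (S' : Set T)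
    (hS : ∀ k, CC (S k)) (hS' : CC S') (hl : ∀ t, t ∈ S' ↔ ∀ᶠ k in (𝒰 : Filter ℕ), t ∈ S k)
    (x : X) : Tendsto (fun k => σ (S k) x) (𝒰 : Filter ℕ) (𝓝 (σ S' x)) := by
  rw [Metric.tendsto_nhds]
  intro ε hε
  obtain ⟨y, hy⟩ := h.approx x (δ := ε / 2) (by positivity)
  have hev : ∀ t, ∀ᶠ k in (𝒰 : Filter ℕ), (t ∈ S k ↔ t ∈ S') := by
    intro t
    by_cases ht : t ∈ S'
    · filter_upwards [(hl t).1 ht] with k hk
      exact ⟨fun _ => ht, fun _ => hk⟩
    · have h2 : ¬ ∀ᶠ k in (𝒰 : Filter ℕ), t ∈ S k := fun h3 => ht ((hl t).2 h3)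
      rw [← Ultrafilter.eventually_not] at h2
      filter_upwards [h2] with k hk
      exact ⟨fun h3 => absurd h3 hk, fun h3 => absurd h3 ht⟩
  have hall : ∀ᶠ k in (𝒰 : Filter ℕ), ∀ t ∈ y.support, (t ∈ S k ↔ t ∈ S') :=
    (Filter.eventually_all_finset y.support).2 fun t _ => hev t
  filter_upwards [hall] with k hk
  have h3 : σ (S k) (e y) = σ S' (e y) := by
    rw [h.fin _ (hS k), h.fin _ hS']
    exact fsum_congr _ _ _ hk
  have h4 : σ (S k) x - σ S' x = σ (S k) (x - e y) - σ S' (x - e y) := by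
    rw [map_sub, map_sub, h3]; abel
  rw [dist_eq_norm, h4]
  have h5 := norm_sub_le (σ (S k) (x - e y)) (σ S' (x - e y))
  have h6 := h.le (hS k) (x - e y)
  have h7 := h.le hS' (x - e y)
  linarith

/-- `ν` is continuous. PROOF. `|ν z - ν w| ≤ ν (z - w) ≤ B ‖z - w‖` (`h.nu_sub`, `h.up`). -/
theorem Sys.nu_cont (h : Sys T Z X top p r B ν e σ) : Continuous ν := by
  rw [Metric.continuous_iff]
  intro b ε hε
  have hB : 0 < B := by linarith [h.hB]
  refine ⟨ε / B, by positivity, fun a ha => ?_⟩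
  rw [Real.dist_eq]
  rw [dist_eq_norm] at ha
  have h1 := h.nu_sub a b
  have h2 := h.up (a - b)
  have h3 : B * ‖a - b‖ < ε := by
    rw [lt_div_iff₀ hB] at ha
    linarith
  linarith

/-- Nodes that do not vanish in the limit are eventually constant. PROOF. The real function `k ↦ ‖σ {u k} x‖` is bounded by `‖x‖` and has a limit `a`
along the ultrafilter (compactness of `[0, ‖x‖]`: `Ultrafilter.le_nhds..`, `isCompact_Icc.ultrafilter_le_nhds` for the image ultrafilter). If `a = 0`: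
first case. If `a > 0`: eventually `a / 2 ≤ ‖σ {u k} x‖`, so `u k` is in a finite set (`h.node_fin`), so it is eventually equal to one element
(`Ultrafilter.eventually_exists_mem_iff`, finite sets). -/
theorem Sys.node_lim (h : Sys T Z X top p r B ν e σ) (𝒰 : Ultrafilter ℕ) (x : X) (u : ℕ → T) :
    Tendsto (fun k => ‖σ {u k} x‖) (𝒰 : Filter ℕ) (𝓝 0) ∨
      ∃ u₀ : T, σ {u₀} x ≠ 0 ∧ ∀ᶠ k in (𝒰 : Filter ℕ), u k = u₀ := by
  by_cases hlim : Tendsto (fun k => ‖σ {u k} x‖) (𝒰 : Filter ℕ) (𝓝 0)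
  · exact Or.inl hlim
  · right
    rw [Metric.tendsto_nhds] at hlim
    push Not at hlim
    obtain ⟨ε, hε, hne⟩ := hlim
    have h3 : ∀ᶠ k in (𝒰 : Filter ℕ), ε ≤ ‖σ {u k} x‖ := by
      filter_upwards [hne] with k hk
      rwa [Real.dist_eq, sub_zero, abs_of_nonneg (norm_nonneg _)] at hk
    have hfin := h.node_fin x hε
    have h4 : ∀ᶠ k in (𝒰 : Filter ℕ), ∃ t ∈ {t : T | ε ≤ ‖σ {t} x‖}, u k = t := by
      filter_upwards [h3] with k hk
      exact ⟨u k, hk, rfl⟩
    obtain ⟨t, ht, htk⟩ := (Ultrafilter.eventually_exists_mem_iff hfin).1 h4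
    refine ⟨t, ?_, htk⟩
    intro h0
    have : ε ≤ ‖σ {t} x‖ := ht
    rw [h0, norm_zero] at this
    linarith

end Pool.Agent.JTS
end
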