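import Mathlib

section

set_option autoImplicit false

namespace Pool.Agent.JTS

theorem rpow_sub_le {κ a b : ℝ} (hκ : 1 < κ) (ha : 0 ≤ a) (hb : 0 ≤ b) :
    a ^ κ - b ^ κ ≤ κ * a ^ (κ - 1) * (a - b) := by
  rcases eq_or_lt_of_le ha with h0 | h0
  · subst h0
    rw [Real.zero_rpow (by linarith), Real.zero_rpow (by linarith)]
    have := Real.rpow_nonneg hb κ
    nlinarith
  · have hc : 1 + κ * (b / a - 1) ≤ (1 + (b / a - 1)) ^ κ := by
      apply one_add_mul_self_le_rpow_one_add _ hκ.le
      have : 0 ≤ b / a := div_nonneg hb ha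
      linarith
    have e1 : (1 + (b / a - 1)) ^ κ = b ^ κ / a ^ κ := by
      rw [← Real.div_rpow hb ha]
      congr 1
      ring
    rw [e1] at hc
    have hak : 0 < a ^ κ := Real.rpow_pos_of_pos h0 κ
    have h2 := (le_div_iff₀ hak).1 hc
    have e2 : a ^ κ = a ^ (κ - 1) * a := by
      rw [← Real.rpow_add_one h0.ne']
      congr 1
      ring
    have e3 : (1 + κ * (b / a - 1)) * a ^ κ = a ^ κ + κ * a ^ (κ - 1) * (b - a) := by
      rw [e2]
      field_simp
    rw [e3] at h2
    linarith

theorem mono_aux {κ v₀ v b : ℝ} (hκ : 1 < κ) (hv₀ : 0 ≤ v₀) (hb : 0 ≤ b) (hv : v₀ ≤ v) :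
    (v₀ + b) ^ κ - v₀ ^ κ ≤ (v + b) ^ κ - v ^ κ := by
  have hm : MonotoneOn (fun v : ℝ => (v + b) ^ κ - v ^ κ) (Set.Ici 0) := by
    apply monotoneOn_of_deriv_nonneg (convex_Ici 0)
    · apply ContinuousOn.sub
      · exact (continuousOn_id.add continuousOn_const).rpow_const (fun x _ => Or.inr (by linarith))
      · exact continuousOn_id.rpow_const (fun x _ => Or.inr (by linarith))
    · intro x hx
      rw [interior_Ici] at hx
      have hx' : 0 < x := hx
      apply DifferentiableAt.differentiableWithinAt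
      apply DifferentiableAt.sub
      · exact (differentiableAt_id.add_const b).rpow_const (Or.inr hκ.le)
      · exact differentiableAt_id.rpow_const (Or.inr hκ.le)
    · intro x hx
      rw [interior_Ici] at hx
      have hx' : 0 < x := hx
      have h1 : HasDerivAt (fun v : ℝ => (v + b) ^ κ - v ^ κ)
          (1 * κ * (x + b) ^ (κ - 1) - 1 * κ * x ^ (κ - 1)) x := by
        apply HasDerivAt.sub
        · exact ((hasDerivAt_id x).add_const b).rpow_const (Or.inr hκ.le)
        · exact (hasDerivAt_id x).rpow_const (Or.inr hκ.le)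
      rw [h1.deriv]
      have h2 : x ^ (κ - 1) ≤ (x + b) ^ (κ - 1) :=
        Real.rpow_le_rpow hx'.le (by linarith) (by linarith)
      nlinarith
  exact hm hv₀ (hv₀.trans hv) hv

theorem superadd_mono {κ v₀ b₀ v b : ℝ} (hκ : 1 < κ) (hv₀ : 0 ≤ v₀) (hb₀ : 0 ≤ b₀) (hv : v₀ ≤ v)
    (hb : b₀ ≤ b) :
    (v₀ + b₀) ^ κ - v₀ ^ κ - b₀ ^ κ ≤ (v + b) ^ κ - v ^ κ - b ^ κ := by
  have h1 := mono_aux hκ hv₀ hb₀ hv
  have h2 := mono_aux hκ hb₀ (hv₀.trans hv) hb
  rw [add_comm b₀ v, add_comm b v] at h2
  linarith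

theorem superadd_pos {κ v b : ℝ} (hκ : 1 < κ) (hv : 0 < v) (hb : 0 < b) :
    0 < (v + b) ^ κ - v ^ κ - b ^ κ := by
  have hs : 0 < v + b := by linarith
  have h1 : (v / (v + b)) ^ κ < v / (v + b) :=
    Real.rpow_lt_self_of_lt_one (div_pos hv hs) ((div_lt_one hs).2 (by linarith)) hκ
  have h2 : (b / (v + b)) ^ κ < b / (v + b) :=
    Real.rpow_lt_self_of_lt_one (div_pos hb hs) ((div_lt_one hs).2 (by linarith)) hκ
  rw [Real.div_rpow hv.le hs.le] at h1
  rw [Real.div_rpow hb.le hs.le] at h2
  have hk : 0 < (v + b) ^ κ := Real.rpow_pos_of_pos hs κ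
  rw [div_lt_div_iff₀ hk hs] at h1 h2
  have h3 : (v ^ κ + b ^ κ) * (v + b) < (v + b) * (v + b) ^ κ := by nlinarith
  have h4 : v ^ κ + b ^ κ < (v + b) ^ κ := by
    by_contra hcon
    push Not at hcon
    nlinarith
  linarith

theorem abs_rpow_sub_le {κ a b M : ℝ} (hκ : 1 < κ) (ha : 0 ≤ a) (hb : 0 ≤ b) (haM : a ≤ M)
    (hbM : b ≤ M) : |a ^ κ - b ^ κ| ≤ κ * M ^ (κ - 1) * |a - b| := by
  have key : ∀ a b : ℝ, 0 ≤ a → 0 ≤ b → b ≤ a → a ≤ M →
      |a ^ κ - b ^ κ| ≤ κ * M ^ (κ - 1) * |a - b| := by
    intro a b ha hb hba haM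
    have h1 : b ^ κ ≤ a ^ κ := Real.rpow_le_rpow hb hba (by linarith)
    rw [abs_of_nonneg (by linarith), abs_of_nonneg (by linarith)]
    refine (rpow_sub_le hκ ha hb).trans ?_
    have h2 : a ^ (κ - 1) ≤ M ^ (κ - 1) := Real.rpow_le_rpow ha haM (by linarith)
    have h3 : κ * a ^ (κ - 1) ≤ κ * M ^ (κ - 1) := by nlinarith
    exact mul_le_mul_of_nonneg_right h3 (by linarith)
  rcases le_total b a with h | h
  · exact key a b ha hb h haM
  · rw [abs_sub_comm, abs_sub_comm a b]
    exact key b a hb ha h hbM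

end Pool.Agent.JTS
end

section

/-!
Sections of a null set in an infinite product.
-/

set_option autoImplicit false

namespace Pool.Agent.JTS

open MeasureTheory Filter Topology

private theorem D2a_meas {ι : Type} [DecidableEq ι] {α : ι → Type} [∀ i, MeasurableSpace (α i)]
    (i : ι) : Measurable (fun q : (∀ k, α k) × α i => Function.update q.1 i q.2) := by
  rw [measurable_pi_iff]
  intro k
  by_cases hk : k = i
  · subst hk
    simp only [Function.update_self]
    exact measurable_snd
  · simp only [Function.update_of_ne hk]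
    exact (measurable_pi_apply k).comp measurable_fst

private theorem D2a_map {ι : Type} [DecidableEq ι] {α : ι → Type} [∀ i, MeasurableSpace (α i)]
    (μ : ∀ i, Measure (α i)) [∀ i, IsProbabilityMeasure (μ i)] (i : ι) :
    ((Measure.infinitePi μ).prod (μ i)).map
      (fun q : (∀ k, α k) × α i => Function.update q.1 i q.2) = Measure.infinitePi μ := by
  apply Measure.eq_infinitePi
  intro s t ht
  rw [Measure.map_apply (D2a_meas i) (MeasurableSet.pi s.countable_toSet fun k _ => ht k)]
  by_cases hi : i ∈ s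
  · have h1 : (fun q : (∀ k, α k) × α i => Function.update q.1 i q.2) ⁻¹' (Set.pi (s : Set ι) t) =
        (Set.pi ((s.erase i : Finset ι) : Set ι) t) ×ˢ (t i) := by
      ext q
      simp only [Set.mem_preimage, Set.mem_pi, Set.mem_prod, Finset.mem_coe, Finset.mem_erase]
      constructor
      · intro h
        refine ⟨fun k hk => ?_, ?_⟩
        · have := h k hk.2
          rwa [Function.update_of_ne hk.1] at this
        · have := h i hi
          rwa [Function.update_self] at this
      · rintro ⟨h1, h2⟩ k hk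
        by_cases hki : k = i
        · subst hki
          rwa [Function.update_self]
        · rw [Function.update_of_ne hki]
          exact h1 k ⟨hki, hk⟩
    rw [h1, Measure.prod_prod, Measure.infinitePi_pi _ (fun k _ => ht k), mul_comm,
      Finset.mul_prod_erase s (fun k => μ k (t k)) hi]
  · have h1 : (fun q : (∀ k, α k) × α i => Function.update q.1 i q.2) ⁻¹' (Set.pi (s : Set ι) t) =
        (Set.pi (s : Set ι) t) ×ˢ Set.univ := by
      ext q
      simp only [Set.mem_preimage, Set.mem_pi, Set.mem_prod, Finset.mem_coe, Set.mem_univ,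
        and_true]
      constructor
      · intro h k hk
        have := h k hk
        have hne : k ≠ i := by
          rintro rfl
          exact hi hk
        rwa [Function.update_of_ne hne] at this
      · intro h k hk
        have hne : k ≠ i := by
          rintro rfl
          exact hi hk
        rw [Function.update_of_ne hne]
        exact h k hk
    rw [h1, Measure.prod_prod, Measure.infinitePi_pi _ (fun k _ => ht k), measure_univ, mul_one]

/-- PROOF. Let `P = Measure.infinitePi μ` and `g (w, t) = Function.update w i t`, measurable (`measurable_pi_iff`). `(P.prod (μ i)).map g = P` by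
`Measure.eq_infinitePi`: for a finite set `s` and measurable `S k`, the preimage of `Set.pi s S` is `(Set.pi (s.erase i) S) ×ˢ (S i)` if `i ∈ s` and
`(Set.pi s S) ×ˢ univ` otherwise; `Measure.prod_prod`, `Measure.infinitePi_pi`, `Finset.mul_prod_erase`. Hence `P N = (P.prod (μ i)) (g ⁻¹' N) =
∫⁻ w, μ i {t | update w i t ∈ N} ∂P = 0` (`Measure.prod_apply` / `measure_prod_null`). -/
theorem infinitePi_section {ι : Type} [DecidableEq ι] {α : ι → Type} [∀ i, MeasurableSpace (α i)]
    (μ : ∀ i, Measure (α i)) [∀ i, IsProbabilityMeasure (μ i)] (i : ι) (N : Set (∀ i, α i))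
    (hN : MeasurableSet N) (h : ∀ w : ∀ i, α i, μ i {t | Function.update w i t ∈ N} = 0) :
    Measure.infinitePi μ N = 0 := by
  rw [← D2a_map μ i, Measure.map_apply (D2a_meas i) hN,
    Measure.measure_prod_null ((D2a_meas i) hN)]
  exact Filter.Eventually.of_forall fun w => h w

end Pool.Agent.JTS
end
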