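import Pool.Agent.Lib.MP_05b481_an.Mg.G003
import Pool.Agent.Lib.MP_05b481_an.Mg.G002

section

/-!
Minkowski and Hölder inequalities for finite sums.
-/

set_option autoImplicit false

namespace Pool.Agent.JTS

private theorem C0b_root {p x : ℝ} (hp : p ≠ 0) (hx : 0 ≤ x) : (x ^ (1 / p)) ^ p = x := by
  rw [← Real.rpow_mul hx, one_div, inv_mul_cancel₀ hp, Real.rpow_one]

private theorem C0b_root' {p x : ℝ} (hp : p ≠ 0) (hx : 0 ≤ x) : (x ^ p) ^ (1 / p) = x := by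
  rw [← Real.rpow_mul hx, one_div, mul_inv_cancel₀ hp, Real.rpow_one]

private theorem C0b_add {r a b : ℝ} (hr : 1 < r) (ha : 0 ≤ a) (hb : 0 ≤ b) :
    a ^ r + b ^ r ≤ (a + b) ^ r := by
  have h := superadd_mono (κ := r) hr le_rfl le_rfl ha hb
  have h0 : (0 : ℝ) ^ r = 0 := Real.zero_rpow (by linarith)
  rw [add_zero, h0] at h
  linarith

private theorem C0b_scale {ι : Type} (F : Finset ι) {p k : ℝ} (hp : 0 < p) (hk : 0 ≤ k)
    (b : ι → ℝ) (hb : ∀ i ∈ F, 0 ≤ b i) :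
    (∑ i ∈ F, (k * b i) ^ p) ^ (1 / p) = k * (∑ i ∈ F, b i ^ p) ^ (1 / p) := by
  have h1 : ∑ i ∈ F, (k * b i) ^ p = k ^ p * ∑ i ∈ F, b i ^ p := by
    rw [Finset.mul_sum]
    exact Finset.sum_congr rfl fun i hi => Real.mul_rpow hk (hb i hi)
  have h2 : 0 ≤ ∑ i ∈ F, b i ^ p := Finset.sum_nonneg fun i hi => Real.rpow_nonneg (hb i hi) _
  rw [h1, Real.mul_rpow (Real.rpow_nonneg hk _) h2, C0b_root' hp.ne' hk]

/-- Minkowski for `ℓ_p(ℓ_r)` with three coordinates and weights. PROOF. For each `i`: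
`(∑ (a+a')^r …)^(1/r) ≤ (…)^(1/r) + (…)^(1/r)` is Minkowski in `ℓ_r^3` for the vectors
`(a, W₁^(1/r) b, W₂^(1/r) c)` (`Real.Lp_add_le` on `Finset.univ : Finset (Fin 3)`, or `Real.Lp_add_le_of_nonneg`). -/
theorem mink3 {r W₁ W₂ a b c a' b' c' : ℝ} (hr : 1 ≤ r) (hW₁ : 0 ≤ W₁) (hW₂ : 0 ≤ W₂)
    (ha : 0 ≤ a) (hb : 0 ≤ b) (hc : 0 ≤ c) (ha' : 0 ≤ a') (hb' : 0 ≤ b') (hc' : 0 ≤ c') :
    ((a + a') ^ r + W₁ * (b + b') ^ r + W₂ * (c + c') ^ r) ^ (1 / r) ≤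
      (a ^ r + W₁ * b ^ r + W₂ * c ^ r) ^ (1 / r) + (a' ^ r + W₁ * b' ^ r + W₂ * c' ^ r) ^ (1 / r) := by
  have hr0 : r ≠ 0 := by linarith
  have hV₁ : 0 ≤ W₁ ^ (1 / r) := Real.rpow_nonneg hW₁ _
  have hV₂ : 0 ≤ W₂ ^ (1 / r) := Real.rpow_nonneg hW₂ _
  have key : ∀ x y z : ℝ, 0 ≤ x → 0 ≤ y → 0 ≤ z →
      ∑ i : Fin 3, (![x, W₁ ^ (1 / r) * y, W₂ ^ (1 / r) * z] i) ^ r =
        x ^ r + W₁ * y ^ r + W₂ * z ^ r := by
    intro x y z _ hy hz
    rw [Fin.sum_univ_three]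
    change x ^ r + (W₁ ^ (1 / r) * y) ^ r + (W₂ ^ (1 / r) * z) ^ r = _
    rw [Real.mul_rpow hV₁ hy, Real.mul_rpow hV₂ hz, C0b_root hr0 hW₁, C0b_root hr0 hW₂]
  have h := Real.Lp_add_le_of_nonneg (Finset.univ : Finset (Fin 3))
    (f := ![a, W₁ ^ (1 / r) * b, W₂ ^ (1 / r) * c])
    (g := ![a', W₁ ^ (1 / r) * b', W₂ ^ (1 / r) * c']) hr
    (by
      intro i _
      fin_cases i
      · exact ha
      · exact mul_nonneg hV₁ hb
      · exact mul_nonneg hV₂ hc)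
    (by
      intro i _
      fin_cases i
      · exact ha'
      · exact mul_nonneg hV₁ hb'
      · exact mul_nonneg hV₂ hc')
  rw [key a b c ha hb hc, key a' b' c' ha' hb' hc'] at h
  have h2 : ∑ i : Fin 3, (![a, W₁ ^ (1 / r) * b, W₂ ^ (1 / r) * c] i +
      ![a', W₁ ^ (1 / r) * b', W₂ ^ (1 / r) * c'] i) ^ r =
      (a + a') ^ r + W₁ * (b + b') ^ r + W₂ * (c + c') ^ r := by
    rw [← key (a + a') (b + b') (c + c') (add_nonneg ha ha') (add_nonneg hb hb')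
      (add_nonneg hc hc')]
    refine Finset.sum_congr rfl fun i _ => ?_
    fin_cases i
    · rfl
    · change (W₁ ^ (1 / r) * b + W₁ ^ (1 / r) * b') ^ r = (W₁ ^ (1 / r) * (b + b')) ^ r
      rw [mul_add]
    · change (W₂ ^ (1 / r) * c + W₂ ^ (1 / r) * c') ^ r = (W₂ ^ (1 / r) * (c + c')) ^ r
      rw [mul_add]
  rw [h2] at h
  exact h

/-- Upper bound for the `ℓ_p(ℓ_r)` sum. PROOF. `(a^r + W₁ b^r + W₂ c^r)^(1/r) ≤ a + 3 b + 3 c` (`W ≤ 3`, `W^(1/r) ≤ 3`;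
`(u+v)^(1/r) ≤ u^(1/r) + v^(1/r)`), then Minkowski in `ℓ_p` (`Real.Lp_add_le_of_nonneg` twice) and the three bounds:
`(∑ (a + 3b + 3c)^p)^(1/p) ≤ N + 3 N + 3 · 2^(1/p) N ≤ 10 N`. -/
theorem lp_bound {ι : Type} (F : Finset ι) {p r N : ℝ} (hr : 1 < r) (hrp : r < p) (hN : 0 ≤ N)
    (a b c W₁ W₂ : ι → ℝ) (ha : ∀ i ∈ F, 0 ≤ a i) (hb : ∀ i ∈ F, 0 ≤ b i) (hc : ∀ i ∈ F, 0 ≤ c i)
    (hW₁ : ∀ i ∈ F, 0 ≤ W₁ i ∧ W₁ i ≤ 3) (hW₂ : ∀ i ∈ F, 0 ≤ W₂ i ∧ W₂ i ≤ 3)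
    (h1 : ∑ i ∈ F, a i ^ p ≤ N ^ p) (h2 : ∑ i ∈ F, b i ^ p ≤ N ^ p)
    (h3 : ∑ i ∈ F, c i ^ p ≤ 2 * N ^ p) :
    ∑ i ∈ F, (a i ^ r + W₁ i * b i ^ r + W₂ i * c i ^ r) ^ (p / r) ≤ (10 * N) ^ p := by
  have hr0 : r ≠ 0 := by linarith
  have hp0 : p ≠ 0 := by linarith
  have hp1 : 1 ≤ p := by linarith
  have h3r : (3 : ℝ) ≤ 3 ^ r := by
    calc (3 : ℝ) = 3 ^ (1 : ℝ) := (Real.rpow_one 3).symm
      _ ≤ 3 ^ r := Real.rpow_le_rpow_of_exponent_le (by norm_num) hr.le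
  have hterm : ∀ i ∈ F, (a i ^ r + W₁ i * b i ^ r + W₂ i * c i ^ r) ^ (p / r) ≤
      (a i + (3 * b i + 3 * c i)) ^ p := by
    intro i hi
    have ha' := ha i hi
    have hb' := hb i hi
    have hc' := hc i hi
    have e1 : W₁ i * b i ^ r ≤ (3 * b i) ^ r := by
      rw [Real.mul_rpow (by norm_num) hb']
      exact mul_le_mul_of_nonneg_right ((hW₁ i hi).2.trans h3r) (Real.rpow_nonneg hb' _)
    have e2 : W₂ i * c i ^ r ≤ (3 * c i) ^ r := by
      rw [Real.mul_rpow (by norm_num) hc']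
      exact mul_le_mul_of_nonneg_right ((hW₂ i hi).2.trans h3r) (Real.rpow_nonneg hc' _)
    have e3 : (3 * b i) ^ r + (3 * c i) ^ r ≤ (3 * b i + 3 * c i) ^ r :=
      C0b_add hr (by positivity) (by positivity)
    have e4 : a i ^ r + (3 * b i + 3 * c i) ^ r ≤ (a i + (3 * b i + 3 * c i)) ^ r :=
      C0b_add hr ha' (by positivity)
    have e0 : 0 ≤ a i ^ r + W₁ i * b i ^ r + W₂ i * c i ^ r :=
      add_nonneg (add_nonneg (Real.rpow_nonneg ha' _)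
        (mul_nonneg (hW₁ i hi).1 (Real.rpow_nonneg hb' _)))
        (mul_nonneg (hW₂ i hi).1 (Real.rpow_nonneg hc' _))
    have e5 : a i ^ r + W₁ i * b i ^ r + W₂ i * c i ^ r ≤ (a i + (3 * b i + 3 * c i)) ^ r := by
      linarith
    calc (a i ^ r + W₁ i * b i ^ r + W₂ i * c i ^ r) ^ (p / r) ≤
          ((a i + (3 * b i + 3 * c i)) ^ r) ^ (p / r) :=
          Real.rpow_le_rpow e0 e5 (by positivity)
      _ = (a i + (3 * b i + 3 * c i)) ^ p := by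
          rw [← Real.rpow_mul (by positivity), mul_div_cancel₀ _ hr0]
  have hA : 0 ≤ ∑ i ∈ F, a i ^ p := Finset.sum_nonneg fun i hi => Real.rpow_nonneg (ha i hi) _
  have hB : 0 ≤ ∑ i ∈ F, b i ^ p := Finset.sum_nonneg fun i hi => Real.rpow_nonneg (hb i hi) _
  have hC : 0 ≤ ∑ i ∈ F, c i ^ p := Finset.sum_nonneg fun i hi => Real.rpow_nonneg (hc i hi) _
  have hq : 0 ≤ 1 / p := by positivity
  have rA : (∑ i ∈ F, a i ^ p) ^ (1 / p) ≤ N := by
    calc (∑ i ∈ F, a i ^ p) ^ (1 / p) ≤ (N ^ p) ^ (1 / p) := Real.rpow_le_rpow hA h1 hq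
      _ = N := C0b_root' hp0 hN
  have rB : (∑ i ∈ F, b i ^ p) ^ (1 / p) ≤ N := by
    calc (∑ i ∈ F, b i ^ p) ^ (1 / p) ≤ (N ^ p) ^ (1 / p) := Real.rpow_le_rpow hB h2 hq
      _ = N := C0b_root' hp0 hN
  have rC : (∑ i ∈ F, c i ^ p) ^ (1 / p) ≤ 2 * N := by
    have h4 : 2 * N ^ p ≤ (2 * N) ^ p := by
      rw [Real.mul_rpow (by norm_num) hN]
      refine mul_le_mul_of_nonneg_right ?_ (Real.rpow_nonneg hN _)
      calc (2 : ℝ) = 2 ^ (1 : ℝ) := (Real.rpow_one 2).symm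
        _ ≤ 2 ^ p := Real.rpow_le_rpow_of_exponent_le (by norm_num) hp1
    calc (∑ i ∈ F, c i ^ p) ^ (1 / p) ≤ ((2 * N) ^ p) ^ (1 / p) :=
          Real.rpow_le_rpow hC (h3.trans h4) hq
      _ = 2 * N := C0b_root' hp0 (by positivity)
  have hD : 0 ≤ ∑ i ∈ F, (a i + (3 * b i + 3 * c i)) ^ p := Finset.sum_nonneg fun i hi => by
    have ha' := ha i hi
    have hb' := hb i hi
    have hc' := hc i hi
    positivity
  have m1 : (∑ i ∈ F, (a i + (3 * b i + 3 * c i)) ^ p) ^ (1 / p) ≤ 10 * N := by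
    have m2 := Real.Lp_add_le_of_nonneg F (f := a) (g := fun i => 3 * b i + 3 * c i) hp1 ha
      (fun i hi => by
        have hb' := hb i hi
        have hc' := hc i hi
        positivity)
    have m3 := Real.Lp_add_le_of_nonneg F (f := fun i => 3 * b i) (g := fun i => 3 * c i) hp1
      (fun i hi => by
        have hb' := hb i hi
        positivity)
      (fun i hi => by
        have hc' := hc i hi
        positivity)
    rw [C0b_scale F (by linarith) (by norm_num) b hb,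
      C0b_scale F (by linarith) (by norm_num) c hc] at m3
    linarith
  calc ∑ i ∈ F, (a i ^ r + W₁ i * b i ^ r + W₂ i * c i ^ r) ^ (p / r) ≤
        ∑ i ∈ F, (a i + (3 * b i + 3 * c i)) ^ p := Finset.sum_le_sum hterm
    _ = ((∑ i ∈ F, (a i + (3 * b i + 3 * c i)) ^ p) ^ (1 / p)) ^ p := (C0b_root hp0 hD).symm
    _ ≤ (10 * N) ^ p := Real.rpow_le_rpow (Real.rpow_nonneg hD _) m1 (by linarith)

/-- PROOF. `ψ_i = (P_i)^(1/r)`: `(∑ ψ^p)^(1/p) ≤ (∑ ψ'^p)^(1/p) + E`; then `∑ ψ ^ p ≤ (A + E)^p` with `A = (∑ ψ'^p)^(1/p)`, and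
`(A + E) ^ p - A ^ p ≤ (M + E)^p - M^p` for `A ≤ M` (`p ≥ 1`; as in `superadd_mono`: `v ↦ (v + E) ^ p - v ^ p` is monotone). -/
theorem lp_perturb {ι : Type} (F : Finset ι) {p M E : ℝ} (hp : 1 < p) (hM : 0 ≤ M) (hE : 0 ≤ E)
    (ψ ψ' ε : ι → ℝ) (h0 : ∀ i ∈ F, 0 ≤ ψ i) (h0' : ∀ i ∈ F, 0 ≤ ψ' i) (h0e : ∀ i ∈ F, 0 ≤ ε i)
    (h : ∀ i ∈ F, ψ i ≤ ψ' i + ε i) (h1 : ∑ i ∈ F, ψ' i ^ p ≤ M ^ p) (h2 : ∑ i ∈ F, ε i ^ p ≤ E ^ p) :
    ∑ i ∈ F, ψ i ^ p ≤ ∑ i ∈ F, ψ' i ^ p + ((M + E) ^ p - M ^ p) := by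
  have hp0 : p ≠ 0 := by linarith
  have hq : 0 ≤ 1 / p := by positivity
  have hS' : 0 ≤ ∑ i ∈ F, ψ' i ^ p := Finset.sum_nonneg fun i hi => Real.rpow_nonneg (h0' i hi) _
  have hSe : 0 ≤ ∑ i ∈ F, ε i ^ p := Finset.sum_nonneg fun i hi => Real.rpow_nonneg (h0e i hi) _
  obtain ⟨A, hA⟩ : ∃ A, A = (∑ i ∈ F, ψ' i ^ p) ^ (1 / p) := ⟨_, rfl⟩
  have hA0 : 0 ≤ A := by
    rw [hA]
    exact Real.rpow_nonneg hS' _
  have hAp : A ^ p = ∑ i ∈ F, ψ' i ^ p := by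
    rw [hA]
    exact C0b_root hp0 hS'
  have hAM : A ≤ M := by
    rw [hA]
    calc (∑ i ∈ F, ψ' i ^ p) ^ (1 / p) ≤ (M ^ p) ^ (1 / p) := Real.rpow_le_rpow hS' h1 hq
      _ = M := C0b_root' hp0 hM
  have hEr : (∑ i ∈ F, ε i ^ p) ^ (1 / p) ≤ E := by
    calc (∑ i ∈ F, ε i ^ p) ^ (1 / p) ≤ (E ^ p) ^ (1 / p) := Real.rpow_le_rpow hSe h2 hq
      _ = E := C0b_root' hp0 hE
  have m1 := Real.Lp_add_le_of_nonneg F (f := ψ') (g := ε) hp.le h0' h0e
  rw [← hA] at m1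
  have hS : 0 ≤ ∑ i ∈ F, (ψ' i + ε i) ^ p :=
    Finset.sum_nonneg fun i hi => Real.rpow_nonneg (add_nonneg (h0' i hi) (h0e i hi)) _
  have m2 : ∑ i ∈ F, ψ i ^ p ≤ (A + E) ^ p := by
    calc ∑ i ∈ F, ψ i ^ p ≤ ∑ i ∈ F, (ψ' i + ε i) ^ p :=
          Finset.sum_le_sum fun i hi => Real.rpow_le_rpow (h0 i hi) (h i hi) (by linarith)
      _ = ((∑ i ∈ F, (ψ' i + ε i) ^ p) ^ (1 / p)) ^ p := (C0b_root hp0 hS).symm
      _ ≤ (A + E) ^ p := Real.rpow_le_rpow (Real.rpow_nonneg hS _) (by linarith) (by linarith)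
  have m3 := superadd_mono (κ := p) hp hA0 hE hAM (le_refl E)
  rw [← hAp]
  linarith

/-- PROOF. Hölder: `∑ a_i ^ (p-1) b_i ≤ (∑ a_i ^ p) ^ (1 - 1/p) (∑ b_i ^ p) ^ (1/p)` (`Real.inner_le_Lp_mul_Lq_of_nonneg` with the conjugate exponents
`p / (p-1)` and `p`). -/
theorem lp_holder {ι : Type} (F : Finset ι) {p : ℝ} (hp : 1 < p) (a b : ι → ℝ)
    (ha : ∀ i ∈ F, 0 ≤ a i) (hb : ∀ i ∈ F, 0 ≤ b i) :
    ∑ i ∈ F, a i ^ (p - 1) * b i ≤ (∑ i ∈ F, a i ^ p) ^ (1 - 1 / p) * (∑ i ∈ F, b i ^ p) ^ (1 / p) := by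
  have hp1 : p - 1 ≠ 0 := by linarith
  have hp0 : p ≠ 0 := by linarith
  have h := Real.inner_le_Lp_mul_Lq_of_nonneg F (f := fun i => a i ^ (p - 1)) (g := b)
    (Real.HolderConjugate.conjExponent hp).symm (fun i hi => Real.rpow_nonneg (ha i hi) _) hb
  have h1 : ∑ i ∈ F, (a i ^ (p - 1)) ^ (Real.conjExponent p) = ∑ i ∈ F, a i ^ p := by
    refine Finset.sum_congr rfl fun i hi => ?_
    rw [← Real.rpow_mul (ha i hi), Real.conjExponent, mul_div_cancel₀ _ hp1]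
  have h2 : 1 / Real.conjExponent p = 1 - 1 / p := by
    rw [Real.conjExponent]
    field_simp
  rw [h1, h2] at h
  exact h

end Pool.Agent.JTS
end

section

/-!
The value functions `P`, `PF`: seminorm properties and bounds.
-/

set_option autoImplicit false

namespace Pool.Agent.JTS

variable {T Z X : Type} [PartialOrder T] [NormedAddCommGroup Z] [NormedSpace ℝ Z]
    [NormedAddCommGroup X] [NormedSpace ℝ X] {top : T → Set T} {p r B : ℝ} {ν : Z → ℝ}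
    {e : (T →₀ Z) →ₗ[ℝ] X} {σ : Set T → X →L[ℝ] Z} {w : Ix T → ℝ}

theorem Sys.P_nonneg (h : Sys T Z X top p r B ν e σ) (hw : ∀ i, 0 ≤ w i)
    (j : T × (T × Bool)) (x : X) : 0 ≤ P top r ν σ w j x := by
  have h1 : ∀ z : Z, 0 ≤ ν z ^ r := fun z => Real.rpow_nonneg (h.nu_nonneg z) _
  exact add_nonneg (add_nonneg (h1 _) (mul_nonneg (hw _) (h1 _))) (mul_nonneg (hw _) (h1 _))

/-- PROOF. `σ S (x + y) = σ S x + σ S y`, `h.tri`, monotonicity of `rpow`, `mink3`. -/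
theorem Sys.P_add (h : Sys T Z X top p r B ν e σ) (hw : ∀ i, 0 ≤ w i)
    (j : T × (T × Bool)) (x y : X) :
    P top r ν σ w j (x + y) ^ (1 / r) ≤ P top r ν σ w j x ^ (1 / r) + P top r ν σ w j y ^ (1 / r) := by
  have hr0 : 0 < r := lt_trans zero_lt_one h.hr
  have h1 : ∀ S : Set T, ν (σ S (x + y)) ^ r ≤ (ν (σ S x) + ν (σ S y)) ^ r := by
    intro S
    refine Real.rpow_le_rpow (h.nu_nonneg _) ?_ hr0.le
    rw [map_add]
    exact h.tri _ _
  refine le_trans (Real.rpow_le_rpow (h.P_nonneg hw j _) ?_ (by positivity))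
    (mink3 h.hr.le (hw (Sum.inl j.1)) (hw (Sum.inr j.2)) (h.nu_nonneg (σ (sg top j) x))
      (h.nu_nonneg (σ {j.1} x)) (h.nu_nonneg (σ {j.2.1} x)) (h.nu_nonneg (σ (sg top j) y))
      (h.nu_nonneg (σ {j.1} y)) (h.nu_nonneg (σ {j.2.1} y)))
  exact add_le_add (add_le_add (h1 _) (mul_le_mul_of_nonneg_left (h1 _) (hw _)))
    (mul_le_mul_of_nonneg_left (h1 _) (hw _))

theorem Sys.P_smul (h : Sys T Z X top p r B ν e σ)
    (j : T × (T × Bool)) (c : ℝ) (x : X) :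
    P top r ν σ w j (c • x) = |c| ^ r * P top r ν σ w j x := by
  have h1 : ∀ S : Set T, ν (σ S (c • x)) ^ r = |c| ^ r * ν (σ S x) ^ r := by
    intro S
    rw [map_smul, h.hom, Real.mul_rpow (abs_nonneg _) (h.nu_nonneg _)]
  rw [P, P, h1, h1, h1]
  ring

theorem Sys.PF_nonneg (h : Sys T Z X top p r B ν e σ) (hw : ∀ i, 0 ≤ w i)
    (F : Finset (T × (T × Bool))) (x : X) : 0 ≤ PF top p r ν σ w F x :=
  Finset.sum_nonneg fun j _ => Real.rpow_nonneg (h.P_nonneg hw j x) _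

private theorem C1_pow (h : Sys T Z X top p r B ν e σ) (hw : ∀ i, 0 ≤ w i)
    (j : T × (T × Bool)) (x : X) :
    P top r ν σ w j x ^ (p / r) = (P top r ν σ w j x ^ (1 / r)) ^ p := by
  rw [← Real.rpow_mul (h.P_nonneg hw j x)]
  congr 1
  ring

/-- PROOF. `P ^ (p/r) = (P ^ (1/r)) ^ p` (`Real.rpow_mul`), `Sys.P_add`, Minkowski in `ℓ_p` (`Real.Lp_add_le_of_nonneg`). -/
theorem Sys.PF_add (h : Sys T Z X top p r B ν e σ) (hw : ∀ i, 0 ≤ w i)
    (F : Finset (T × (T × Bool))) (x y : X) :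
    PF top p r ν σ w F (x + y) ^ (1 / p) ≤
      PF top p r ν σ w F x ^ (1 / p) + PF top p r ν σ w F y ^ (1 / p) := by
  have hp0 : 0 < p := lt_trans zero_lt_one h.hp
  have h0 : ∀ (j : T × (T × Bool)) (z : X), 0 ≤ P top r ν σ w j z ^ (1 / r) :=
    fun j z => Real.rpow_nonneg (h.P_nonneg hw j z) _
  simp only [PF]
  rw [Finset.sum_congr rfl fun j _ => C1_pow h hw j (x + y),
    Finset.sum_congr rfl fun j _ => C1_pow h hw j x,
    Finset.sum_congr rfl fun j _ => C1_pow h hw j y]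
  refine le_trans (Real.rpow_le_rpow (Finset.sum_nonneg fun j _ => Real.rpow_nonneg (h0 j _) _)
    ?_ (by positivity)) (Real.Lp_add_le_of_nonneg F h.hp.le (fun j _ => h0 j x) (fun j _ => h0 j y))
  exact Finset.sum_le_sum fun j _ => Real.rpow_le_rpow (h0 j _) (h.P_add hw j x y) hp0.le

theorem Sys.PF_smul (h : Sys T Z X top p r B ν e σ) (hw : ∀ i, 0 ≤ w i)
    (F : Finset (T × (T × Bool))) (c : ℝ) (x : X) :
    PF top p r ν σ w F (c • x) = |c| ^ p * PF top p r ν σ w F x := by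
  have hr0 : r ≠ 0 := (lt_trans zero_lt_one h.hr).ne'
  simp only [PF]
  rw [Finset.mul_sum]
  refine Finset.sum_congr rfl fun j _ => ?_
  rw [h.P_smul, Real.mul_rpow (Real.rpow_nonneg (abs_nonneg _) _) (h.P_nonneg hw j x),
    ← Real.rpow_mul (abs_nonneg _), mul_div_cancel₀ _ hr0]

private theorem C1_fam (h : Sys T Z X top p r B ν e σ) {ι : Type} (F : Finset ι) (S : ι → Set T)
    (hS : ∀ i ∈ F, CC (S i)) (hd : ∀ i ∈ F, ∀ j ∈ F, i ≠ j → Disjoint (S i) (S j)) (x : X) :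
    ∑ i ∈ F, ν (σ (S i) x) ^ p ≤ (B * ‖x‖) ^ p := by
  have hp0 : 0 < p := lt_trans zero_lt_one h.hp
  have hB0 : 0 ≤ B := zero_le_one.trans h.hB
  calc ∑ i ∈ F, ν (σ (S i) x) ^ p ≤ ∑ i ∈ F, B ^ p * ‖σ (S i) x‖ ^ p := by
        refine Finset.sum_le_sum fun i _ => ?_
        rw [← Real.mul_rpow hB0 (norm_nonneg _)]
        exact Real.rpow_le_rpow (h.nu_nonneg _) (h.up _) hp0.le
    _ = B ^ p * ∑ i ∈ F, ‖σ (S i) x‖ ^ p := by rw [Finset.mul_sum]
    _ ≤ B ^ p * ‖x‖ ^ p :=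
        mul_le_mul_of_nonneg_left (h.fam F S hS hd x) (Real.rpow_nonneg hB0 _)
    _ = (B * ‖x‖) ^ p := by rw [Real.mul_rpow hB0 (norm_nonneg _)]

/-- The three `ℓ_p` bounds for a family. PROOF. `ν ≤ B ‖·‖` and `h.fam` with `S j = sg top j`; `S j = {j.1}` (the starts are different, `Fm.start_inj`);
for the ends split `F` by `j.2.2 = true / false`; in each part the nodes `j.2.1` are different (`Fm.end_inj`: same node and same Boolean
give the same end). -/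
theorem Sys.three (h : Sys T Z X top p r B ν e σ) {F : Finset (T × (T × Bool))}
    (hF : Fm top F) (x : X) :
    ∑ j ∈ F, ν (σ (sg top j) x) ^ p ≤ (B * ‖x‖) ^ p ∧
    ∑ j ∈ F, ν (σ {j.1} x) ^ p ≤ (B * ‖x‖) ^ p ∧
    ∑ j ∈ F, ν (σ {j.2.1} x) ^ p ≤ 2 * (B * ‖x‖) ^ p := by
  refine ⟨?_, ?_, ?_⟩
  · exact C1_fam h F (fun j => sg top j) (fun j _ => cc_sg h.tree h.htop j) hF.2 x
  · refine C1_fam h F (fun j => {j.1}) (fun j _ => cc_single _) (fun i hi j hj hij => ?_) x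
    rw [Set.disjoint_singleton]
    exact fun h1 => hij (hF.start_inj hi hj h1)
  · rw [← Finset.sum_filter_add_sum_filter_not F (fun j => j.2.2 = true), two_mul]
    refine add_le_add ?_ ?_
    · refine C1_fam h _ (fun j : T × (T × Bool) => {j.2.1}) (fun j _ => cc_single _) (fun i hi j hj hij => ?_) x
      rw [Set.disjoint_singleton]
      rw [Finset.mem_filter] at hi hj
      intro h1
      refine hij (hF.end_inj h.tree h.htop hi.1 hj.1 ?_)
      rw [ec, ec, hi.2, hj.2, h1]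
    · refine C1_fam h _ (fun j : T × (T × Bool) => {j.2.1}) (fun j _ => cc_single _) (fun i hi j hj hij => ?_) x
      rw [Set.disjoint_singleton]
      rw [Finset.mem_filter, Bool.not_eq_true] at hi hj
      intro h1
      refine hij (hF.end_inj h.tree h.htop hi.1 hj.1 ?_)
      rw [ec, ec, hi.2, hj.2, h1]

/-- PROOF. `Sys.three` and `lp_bound`. -/
theorem Sys.PF_le (h : Sys T Z X top p r B ν e σ) (hw : ∀ i, 0 ≤ w i ∧ w i ≤ 3)
    {F : Finset (T × (T × Bool))} (hF : Fm top F) (x : X) :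
    PF top p r ν σ w F x ≤ (10 * (B * ‖x‖)) ^ p := by
  obtain ⟨h1, h2, h3⟩ := h.three hF x
  have hB0 : 0 ≤ B := zero_le_one.trans h.hB
  exact lp_bound F h.hr h.hrp (mul_nonneg hB0 (norm_nonneg _)) (fun j => ν (σ (sg top j) x))
    (fun j => ν (σ {j.1} x)) (fun j => ν (σ {j.2.1} x)) (fun j => w (Sum.inl j.1))
    (fun j => w (Sum.inr j.2)) (fun _ _ => h.nu_nonneg _) (fun _ _ => h.nu_nonneg _)
    (fun _ _ => h.nu_nonneg _) (fun _ _ => hw _) (fun _ _ => hw _) h1 h2 h3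

/-- PROOF. `PF (x) ^ (1/p)` is a seminorm bounded by `10 B ‖·‖`, so `|PF(x+y)^(1/p) - PF(x)^(1/p)| ≤ 10 B ‖y‖`; `abs_rpow_sub_le` with `M = 10 B (‖x‖ + ‖y‖)`. -/
theorem Sys.PF_lip (h : Sys T Z X top p r B ν e σ) (hw : ∀ i, 0 ≤ w i ∧ w i ≤ 3)
    {F : Finset (T × (T × Bool))} (hF : Fm top F) (x y : X) :
    |PF top p r ν σ w F (x + y) - PF top p r ν σ w F x| ≤
      p * (10 * (B * (‖x‖ + ‖y‖))) ^ (p - 1) * (10 * (B * ‖y‖)) := by
  have hp0 : 0 < p := lt_trans zero_lt_one h.hp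
  have hB0 : 0 ≤ B := zero_le_one.trans h.hB
  have hw0 : ∀ i, 0 ≤ w i := fun i => (hw i).1
  set N : X → ℝ := fun z => PF top p r ν σ w F z ^ (1 / p) with hN
  have hN0 : ∀ z, 0 ≤ N z := fun z => Real.rpow_nonneg (h.PF_nonneg hw0 F z) _
  have hNp : ∀ z, PF top p r ν σ w F z = N z ^ p := by
    intro z
    rw [hN]
    show _ = (PF top p r ν σ w F z ^ (1 / p)) ^ p
    rw [← Real.rpow_mul (h.PF_nonneg hw0 F z), one_div, inv_mul_cancel₀ hp0.ne', Real.rpow_one]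
  have hNle : ∀ z, N z ≤ 10 * (B * ‖z‖) := by
    intro z
    have h0 : 0 ≤ 10 * (B * ‖z‖) := by positivity
    have h1 := Real.rpow_le_rpow (h.PF_nonneg hw0 F z) (h.PF_le hw hF z)
      (show 0 ≤ 1 / p by positivity)
    rwa [← Real.rpow_mul h0, one_div, mul_inv_cancel₀ hp0.ne', Real.rpow_one, ← one_div] at h1
  have hNadd : ∀ z z', N (z + z') ≤ N z + N z' := fun z z' => h.PF_add hw0 F z z'
  have hNneg : N (-y) = N y := by
    rw [hN]
    show PF top p r ν σ w F (-y) ^ (1 / p) = PF top p r ν σ w F y ^ (1 / p)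
    rw [← neg_one_smul ℝ y, h.PF_smul hw0, abs_neg, abs_one, Real.one_rpow, one_mul]
  have h1 : |N (x + y) - N x| ≤ 10 * (B * ‖y‖) := by
    refine le_trans ?_ (hNle y)
    rw [abs_le]
    have h2 := hNadd x y
    have h3 := hNadd (x + y) (-y)
    rw [add_neg_cancel_right, hNneg] at h3
    constructor <;> linarith
  rw [hNp, hNp]
  have hM : ∀ z, ‖z‖ ≤ ‖x‖ + ‖y‖ → N z ≤ 10 * (B * (‖x‖ + ‖y‖)) := by
    intro z hz
    refine (hNle z).trans ?_
    exact mul_le_mul_of_nonneg_left (mul_le_mul_of_nonneg_left hz hB0) (by norm_num)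
  refine (abs_rpow_sub_le h.hp (hN0 _) (hN0 _) (hM _ (norm_add_le _ _))
    (hM _ (le_add_of_nonneg_right (norm_nonneg _)))).trans ?_
  refine mul_le_mul_of_nonneg_left h1 ?_
  have h5 : 0 ≤ 10 * (B * (‖x‖ + ‖y‖)) := by positivity
  exact mul_nonneg hp0.le (Real.rpow_nonneg h5 _)

end Pool.Agent.JTS
end

section

/-!
The function `q = ν ^ r` on `Z` and an abstract lemma on sums of its increments.
-/

set_option autoImplicit false

namespace Pool.Agent.JTS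

open Filter Topology

variable {T Z X : Type} [PartialOrder T] [NormedAddCommGroup Z] [NormedSpace ℝ Z]
    [NormedAddCommGroup X] [NormedSpace ℝ X] {top : T → Set T} {p r B : ℝ} {ν : Z → ℝ}
    {e : (T →₀ Z) →ₗ[ℝ] X} {σ : Set T → X →L[ℝ] Z}

/-- PROOF. `|ν (z + y) - ν z| ≤ ν y` and `abs_rpow_sub_le` with `M = ν z + ν y`. -/
theorem Sys.q_lip (h : Sys T Z X top p r B ν e σ) (z y : Z) :
    |ν (z + y) ^ r - ν z ^ r| ≤ r * (ν z + ν y) ^ (r - 1) * ν y := by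
  have hr := h.hr
  have h1 := abs_rpow_sub_le (κ := r) (a := ν (z + y)) (b := ν z) (M := ν z + ν y) hr
    (h.nu_nonneg _) (h.nu_nonneg _) (h.tri z y) (by have := h.nu_nonneg y; linarith)
  have h2 : |ν (z + y) - ν z| ≤ ν y := by
    have := h.nu_sub (z + y) z
    rwa [add_sub_cancel_left] at this
  have h3 : 0 ≤ r * (ν z + ν y) ^ (r - 1) :=
    mul_nonneg (by linarith) (Real.rpow_nonneg (add_nonneg (h.nu_nonneg _) (h.nu_nonneg _)) _)
  exact h1.trans (mul_le_mul_of_nonneg_left h2 h3)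

/-- PROOF. If `z ≠ 0`: `ν ^ r` is differentiable at `z` (`ν z > 0`, `DifferentiableAt.rpow_const`), the second difference is
`o(‖y‖)` (`HasFDerivAt`: the two first order terms cancel). If `z = 0`: `2 ν y ^ r ≤ 2 B ^ r ‖y‖ ^ r`, `r > 1`. -/
theorem Sys.q_second (h : Sys T Z X top p r B ν e σ) (z : Z) {η : ℝ} (hη : 0 < η) :
    ∃ δ : ℝ, 0 < δ ∧ ∀ y : Z, ‖y‖ ≤ δ →
      (ν (z + y) ^ r - ν z ^ r) + (ν (z - y) ^ r - ν z ^ r) ≤ η * ‖y‖ := by
  have hr := h.hr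
  have hB := h.hB
  by_cases hz : z = 0
  · subst hz
    have hBr : 0 < B ^ r := Real.rpow_pos_of_pos (by linarith) r
    set D : ℝ := 2 * B ^ r with hD
    have hDpos : 0 < D := by positivity
    set δ : ℝ := (η / D) ^ (1 / (r - 1)) with hδ
    have hδpos : 0 < δ := Real.rpow_pos_of_pos (by positivity) _
    refine ⟨δ, hδpos, fun y hy => ?_⟩
    have hν0 : ν 0 ^ r = 0 := by
      rw [h.nu_zero]; exact Real.zero_rpow (by linarith)
    have hneg : ν (-y) = ν y := by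
      have := h.hom (-1) y
      simpa using this
    have hyr : ν y ^ r ≤ B ^ r * ‖y‖ ^ r := by
      rw [← Real.mul_rpow (by linarith) (norm_nonneg y)]
      exact Real.rpow_le_rpow (h.nu_nonneg y) (h.up y) (by linarith)
    have e1 : (ν (0 + y) ^ r - ν 0 ^ r) + (ν (0 - y) ^ r - ν 0 ^ r) = 2 * ν y ^ r := by
      rw [zero_add, zero_sub, hneg, hν0]; ring
    rw [e1]
    by_cases hy0 : ‖y‖ = 0
    · rw [hy0, Real.zero_rpow (by linarith)] at hyr
      rw [hy0]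
      have := Real.rpow_nonneg (h.nu_nonneg y) r
      nlinarith
    · have hypos : 0 < ‖y‖ := lt_of_le_of_ne (norm_nonneg y) (Ne.symm hy0)
      have e2 : ‖y‖ ^ r = ‖y‖ ^ (r - 1) * ‖y‖ := by
        rw [← Real.rpow_add_one (ne_of_gt hypos)]
        congr 1
        ring
      have e3 : ‖y‖ ^ (r - 1) ≤ η / D := by
        calc ‖y‖ ^ (r - 1) ≤ δ ^ (r - 1) := Real.rpow_le_rpow (norm_nonneg y) hy (by linarith)
          _ = η / D := by
            rw [hδ, ← Real.rpow_mul (by positivity), one_div, inv_mul_cancel₀ (by linarith),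
              Real.rpow_one]
      calc 2 * ν y ^ r ≤ 2 * (B ^ r * ‖y‖ ^ r) := by linarith
        _ = D * (‖y‖ ^ (r - 1) * ‖y‖) := by rw [e2, hD]; ring
        _ ≤ D * (η / D * ‖y‖) := by
            apply mul_le_mul_of_nonneg_left _ hDpos.le
            exact mul_le_mul_of_nonneg_right e3 hypos.le
        _ = η * ‖y‖ := by field_simp
  · have hνz : ν z ≠ 0 := fun h0 => hz (h.nu_eq_zero.1 h0)
    have hd : DifferentiableAt ℝ (fun u => ν u ^ r) z :=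
      (h.smooth z hz).rpow_const (Or.inl hνz)
    have hf := hd.hasFDerivAt
    rw [hasFDerivAt_iff_isLittleO_nhds_zero] at hf
    have hf2 := hf.def (c := η / 2) (by positivity)
    rw [Metric.eventually_nhds_iff] at hf2
    obtain ⟨ε, hε, hf3⟩ := hf2
    refine ⟨ε / 2, by positivity, fun y hy => ?_⟩
    have h1 := hf3 (y := y) (by rw [dist_zero_right]; linarith)
    have h2 := hf3 (y := -y) (by rw [dist_zero_right, norm_neg]; linarith)
    rw [norm_neg, map_neg, ← sub_eq_add_neg] at h2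
    rw [Real.norm_eq_abs] at h1 h2
    have h1' := le_abs_self (ν (z + y) ^ r - ν z ^ r - (fderiv ℝ (fun u => ν u ^ r) z) y)
    have h2' := le_abs_self (ν (z - y) ^ r - ν z ^ r - -(fderiv ℝ (fun u => ν u ^ r) z) y)
    linarith

private theorem C8a_aux {n η t : ℝ} (hn : 0 ≤ n) (hη : 0 ≤ η) (ht : 0 ≤ t) :
    n * (η / (2 * (n + 1)) * t) ≤ η / 2 * t := by
  calc n * (η / (2 * (n + 1)) * t) ≤ (n + 1) * (η / (2 * (n + 1)) * t) :=
        mul_le_mul_of_nonneg_right (by linarith) (by positivity)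
    _ = η / 2 * t := by field_simp

open Classical in
/-- `Λ` is an index set of operators `O l : X → Z` of norm `≤ 1`; `A k`, `A' k` are finite subsets with nonnegative coefficients `a k`, `a' k` (bounded by `M`).
PROOF. Given `η > 0`; take `Λ₀` from `h1` (for `η / 4`). For `l ∈ Λ₀` put `α k l = a k l` if `l ∈ A k`, else `0`; `α' k l` similarly. Both sums split
into `Λ₀` and the rest, the rest is `≤ 2 (η/4) ‖h k‖`. For `l ∈ Λ₀`: `α (Q⁺) + α' (Q⁻) = α (Q⁺ + Q⁻) + (α' - α) Q⁻`, where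
`Q⁺ = ν (O l (x + h k)) ^ r - ν (O l x) ^ r`, `Q⁻` the same for `x - h k`. `Q⁺ + Q⁻ ≤ o(‖h k‖)` (`h.q_second` for `z = O l x`,
`y = O l (h k)`, `‖y‖ ≤ ‖h k‖`), `α ≤ M`. If `O l x ≠ 0`: `α' - α → 0` by `h2` and `|Q⁻| ≤ C ‖h k‖` (`h.q_lip`). If `O l x = 0`:
`|Q^±| ≤ (B ‖h k‖) ^ r = o(‖h k‖)`. The finset `Λ₀` is finite, so eventually the sum is `≤ η ‖h k‖`. -/
theorem Sys.type_lemma (h : Sys T Z X top p r B ν e σ) {Λ : Type} (O : Λ → X →L[ℝ] Z)
    (hO : ∀ l x, ‖O l x‖ ≤ ‖x‖) (x : X) (𝒰 : Ultrafilter ℕ) (hk : ℕ → X)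
    (hk0 : Tendsto hk (𝒰 : Filter ℕ) (𝓝 0)) (A A' : ℕ → Finset Λ) (a a' : ℕ → Λ → ℝ) {M : ℝ}
    (ha : ∀ k l, l ∈ A k → 0 ≤ a k l ∧ a k l ≤ M) (ha' : ∀ k l, l ∈ A' k → 0 ≤ a' k l ∧ a' k l ≤ M)
    (h1 : ∀ η : ℝ, 0 < η → ∃ Λ₀ : Finset Λ, ∀ᶠ k in (𝒰 : Filter ℕ),
      ∑ l ∈ (A k).filter (fun l => l ∉ Λ₀),
        a k l * |ν (O l (x + hk k)) ^ r - ν (O l x) ^ r| ≤ η * ‖hk k‖ ∧
      ∑ l ∈ (A' k).filter (fun l => l ∉ Λ₀),
        a' k l * |ν (O l (x - hk k)) ^ r - ν (O l x) ^ r| ≤ η * ‖hk k‖)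
    (h2 : ∀ l, O l x ≠ 0 → Tendsto (fun k => (if l ∈ A k then a k l else 0) -
      (if l ∈ A' k then a' k l else 0)) (𝒰 : Filter ℕ) (𝓝 0))
    {η : ℝ} (hη : 0 < η) :
    ∀ᶠ k in (𝒰 : Filter ℕ),
      ∑ l ∈ A k, a k l * (ν (O l (x + hk k)) ^ r - ν (O l x) ^ r) +
        ∑ l ∈ A' k, a' k l * (ν (O l (x - hk k)) ^ r - ν (O l x) ^ r) ≤ η * ‖hk k‖ := by
  classical
  have hr := h.hr
  have hB := h.hB
  -- the estimate for one coordinate
  have key : ∀ l : Λ, ∀ η' : ℝ, 0 < η' → ∀ᶠ k in (𝒰 : Filter ℕ),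
      (if l ∈ A k then a k l else 0) * (ν (O l (x + hk k)) ^ r - ν (O l x) ^ r) +
      (if l ∈ A' k then a' k l else 0) * (ν (O l (x - hk k)) ^ r - ν (O l x) ^ r) ≤
        η' * ‖hk k‖ := by
    intro l η' hη'
    set M' : ℝ := |M| + 1 with hM'
    have hM'pos : 0 < M' := by positivity
    have hα : ∀ k, 0 ≤ (if l ∈ A k then a k l else 0) ∧ (if l ∈ A k then a k l else 0) ≤ M' := by
      intro k
      split_ifs with hl
      · exact ⟨(ha k l hl).1, (ha k l hl).2.trans (by rw [hM']; linarith [le_abs_self M])⟩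
      · exact ⟨le_refl _, hM'pos.le⟩
    have hα' : ∀ k, 0 ≤ (if l ∈ A' k then a' k l else 0) ∧
        (if l ∈ A' k then a' k l else 0) ≤ M' := by
      intro k
      split_ifs with hl
      · exact ⟨(ha' k l hl).1, (ha' k l hl).2.trans (by rw [hM']; linarith [le_abs_self M])⟩
      · exact ⟨le_refl _, hM'pos.le⟩
    obtain ⟨δ, hδ, hsec⟩ := h.q_second (O l x) (η := η' / (2 * M')) (by positivity)
    have hsmall : ∀ c : ℝ, 0 < c → ∀ᶠ k in (𝒰 : Filter ℕ), ‖hk k‖ ≤ c := by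
      intro c hc
      have := (tendsto_zero_iff_norm_tendsto_zero.1 hk0)
      filter_upwards [this.eventually (ge_mem_nhds hc)] with k hk
      exact hk
    have hQ : ∀ k, ‖hk k‖ ≤ δ → (ν (O l (x + hk k)) ^ r - ν (O l x) ^ r) +
        (ν (O l (x - hk k)) ^ r - ν (O l x) ^ r) ≤ η' / (2 * M') * ‖hk k‖ := by
      intro k hkk
      have h1 := hsec (O l (hk k)) ((hO l _).trans hkk)
      rw [← map_add, ← map_sub] at h1
      refine h1.trans (mul_le_mul_of_nonneg_left (hO l _) (by positivity))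
    by_cases hl0 : O l x = 0
    · filter_upwards [hsmall δ hδ] with k hkδ
      have hν0 : ν (O l x) ^ r = 0 := by
        rw [hl0, h.nu_zero]; exact Real.zero_rpow (by linarith)
      have h1 := hQ k hkδ
      rw [hν0] at h1 ⊢
      rw [sub_zero, sub_zero] at h1 ⊢
      have hq1 : 0 ≤ ν (O l (x + hk k)) ^ r := Real.rpow_nonneg (h.nu_nonneg _) _
      have hq2 : 0 ≤ ν (O l (x - hk k)) ^ r := Real.rpow_nonneg (h.nu_nonneg _) _
      have h2 := mul_le_mul_of_nonneg_right (hα k).2 hq1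
      have h3 := mul_le_mul_of_nonneg_right (hα' k).2 hq2
      have h4 := mul_le_mul_of_nonneg_left h1 hM'pos.le
      have h5 : M' * (η' / (2 * M') * ‖hk k‖) = η' / 2 * ‖hk k‖ := by field_simp
      have h6 : 0 ≤ η' / 2 * ‖hk k‖ := by positivity
      have h7 : η' * ‖hk k‖ = η' / 2 * ‖hk k‖ + η' / 2 * ‖hk k‖ := by ring
      linarith
    · set C : ℝ := r * (ν (O l x) + B) ^ (r - 1) * B with hC
      have hC0 : 0 ≤ C := by
        have := Real.rpow_nonneg (add_nonneg (h.nu_nonneg (O l x)) (by linarith : (0:ℝ) ≤ B))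
          (r - 1)
        have hr0 : 0 ≤ r := by linarith
        have hB0 : 0 ≤ B := by linarith
        rw [hC]
        exact mul_nonneg (mul_nonneg hr0 this) hB0
      have hdiff := (h2 l hl0)
      have hdiff' := (Metric.tendsto_nhds.1 hdiff) (η' / (2 * (C + 1))) (by positivity)
      filter_upwards [hsmall δ hδ, hsmall 1 one_pos, hdiff'] with k hkδ hk1 hkd
      rw [Real.dist_eq, sub_zero] at hkd
      have h1 := hQ k hkδ
      have hQm : |ν (O l (x - hk k)) ^ r - ν (O l x) ^ r| ≤ C * ‖hk k‖ := by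
        have h3 := h.q_lip (O l x) (-(O l (hk k)))
        rw [← sub_eq_add_neg, ← map_sub] at h3
        have hyν : ν (-(O l (hk k))) ≤ B * ‖hk k‖ := by
          refine (h.up _).trans ?_
          rw [norm_neg]
          exact mul_le_mul_of_nonneg_left (hO l _) (by linarith)
        have hyν1 : ν (-(O l (hk k))) ≤ B := by
          refine hyν.trans ?_
          have := mul_le_mul_of_nonneg_left hk1 (by linarith : (0:ℝ) ≤ B)
          linarith
        have h4 : (ν (O l x) + ν (-(O l (hk k)))) ^ (r - 1) ≤ (ν (O l x) + B) ^ (r - 1) :=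
          Real.rpow_le_rpow (add_nonneg (h.nu_nonneg _) (h.nu_nonneg _)) (by linarith)
            (by linarith)
        calc |ν (O l (x - hk k)) ^ r - ν (O l x) ^ r|
            ≤ r * (ν (O l x) + ν (-(O l (hk k)))) ^ (r - 1) * ν (-(O l (hk k))) := h3
          _ ≤ r * (ν (O l x) + B) ^ (r - 1) * (B * ‖hk k‖) := by
              apply mul_le_mul _ hyν (h.nu_nonneg _)
              · exact mul_nonneg (by linarith) (Real.rpow_nonneg
                  (add_nonneg (h.nu_nonneg _) (by linarith)) _)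
              · exact mul_le_mul_of_nonneg_left h4 (by linarith)
          _ = C * ‖hk k‖ := by rw [hC]; ring
      set α : ℝ := (if l ∈ A k then a k l else 0) with hαd
      set α' : ℝ := (if l ∈ A' k then a' k l else 0) with hαd'
      set Qp : ℝ := ν (O l (x + hk k)) ^ r - ν (O l x) ^ r with hQp
      set Qm : ℝ := ν (O l (x - hk k)) ^ r - ν (O l x) ^ r with hQmd
      have e1 : α * Qp + α' * Qm = α * (Qp + Qm) + (α' - α) * Qm := by ring
      rw [e1]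
      have h5 : α * (Qp + Qm) ≤ η' / 2 * ‖hk k‖ := by
        calc α * (Qp + Qm) ≤ α * (η' / (2 * M') * ‖hk k‖) :=
              mul_le_mul_of_nonneg_left h1 (hα k).1
          _ ≤ M' * (η' / (2 * M') * ‖hk k‖) :=
              mul_le_mul_of_nonneg_right (hα k).2 (by positivity)
          _ = η' / 2 * ‖hk k‖ := by field_simp
      have h6 : (α' - α) * Qm ≤ η' / 2 * ‖hk k‖ := by
        calc (α' - α) * Qm ≤ |(α' - α) * Qm| := le_abs_self _
          _ = |α - α'| * |Qm| := by rw [abs_mul, abs_sub_comm]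
          _ ≤ η' / (2 * (C + 1)) * (C * ‖hk k‖) :=
              mul_le_mul hkd.le hQm (abs_nonneg _) (by positivity)
          _ ≤ η' / (2 * (C + 1)) * ((C + 1) * ‖hk k‖) := by
              apply mul_le_mul_of_nonneg_left _ (by positivity)
              exact mul_le_mul_of_nonneg_right (by linarith) (norm_nonneg _)
          _ = η' / 2 * ‖hk k‖ := by field_simp
      linarith
  obtain ⟨Λ₀, hΛ⟩ := h1 (η / 4) (by positivity)
  have hfin : ∀ᶠ k in (𝒰 : Filter ℕ), ∀ l ∈ Λ₀,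
      (if l ∈ A k then a k l else 0) * (ν (O l (x + hk k)) ^ r - ν (O l x) ^ r) +
      (if l ∈ A' k then a' k l else 0) * (ν (O l (x - hk k)) ^ r - ν (O l x) ^ r) ≤
        η / (2 * ((Λ₀.card : ℝ) + 1)) * ‖hk k‖ :=
    (Filter.eventually_all_finset Λ₀).2 fun l _ => key l _ (by positivity)
  filter_upwards [hΛ, hfin] with k hk1 hk2
  obtain ⟨hk3, hk4⟩ := hk1
  have split : ∀ (D : Finset Λ) (c f : Λ → ℝ), ∑ l ∈ D, c l * f l =
      ∑ l ∈ Λ₀, (if l ∈ D then c l else 0) * f l +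
        ∑ l ∈ D.filter (fun l => l ∉ Λ₀), c l * f l := by
    intro D c f
    rw [← Finset.sum_filter_add_sum_filter_not D (fun l => l ∈ Λ₀)]
    congr 1
    have e1 : D.filter (fun l => l ∈ Λ₀) = Λ₀.filter (fun l => l ∈ D) := by
      ext l
      simp only [Finset.mem_filter]
      tauto
    rw [e1, Finset.sum_filter]
    apply Finset.sum_congr rfl
    intro l _
    split_ifs <;> simp
  have hb : ∀ (D : Finset Λ) (c f : Λ → ℝ), (∀ l ∈ D, 0 ≤ c l) →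
      ∑ l ∈ D.filter (fun l => l ∉ Λ₀), c l * f l ≤
        ∑ l ∈ D.filter (fun l => l ∉ Λ₀), c l * |f l| := by
    intro D c f hc
    apply Finset.sum_le_sum
    intro l hl
    exact mul_le_mul_of_nonneg_left (le_abs_self _) (hc l (Finset.mem_filter.1 hl).1)
  rw [split (A k) (a k), split (A' k) (a' k)]
  have h5 := (hb (A k) (a k) (fun l => ν (O l (x + hk k)) ^ r - ν (O l x) ^ r)
    (fun l hl => (ha k l hl).1)).trans hk3
  have h6 := (hb (A' k) (a' k) (fun l => ν (O l (x - hk k)) ^ r - ν (O l x) ^ r)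
    (fun l hl => (ha' k l hl).1)).trans hk4
  have h7 : ∑ l ∈ Λ₀, (if l ∈ A k then a k l else 0) *
        (ν (O l (x + hk k)) ^ r - ν (O l x) ^ r) +
      ∑ l ∈ Λ₀, (if l ∈ A' k then a' k l else 0) *
        (ν (O l (x - hk k)) ^ r - ν (O l x) ^ r) ≤ η / 2 * ‖hk k‖ := by
    rw [← Finset.sum_add_distrib]
    calc _ ≤ ∑ l ∈ Λ₀, η / (2 * ((Λ₀.card : ℝ) + 1)) * ‖hk k‖ := Finset.sum_le_sum hk2
      _ = (Λ₀.card : ℝ) * (η / (2 * ((Λ₀.card : ℝ) + 1)) * ‖hk k‖) := by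
          rw [Finset.sum_const, nsmul_eq_mul]
      _ ≤ η / 2 * ‖hk k‖ := C8a_aux (Nat.cast_nonneg _) hη.le (norm_nonneg _)
  have h8 : η * ‖hk k‖ = η / 2 * ‖hk k‖ + η / 4 * ‖hk k‖ + η / 4 * ‖hk k‖ := by ring
  rw [h8]
  linarith

end Pool.Agent.JTS
end
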