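import Pool.Agent.Lib.MP_05b481_an.Mg.G005
import Pool.Agent.Lib.MP_05b481_an.Mg.G004

section

/-!
Small segments are negligible.
-/

set_option autoImplicit false

namespace Pool.Agent.JTS

variable {T Z X : Type} [PartialOrder T] [NormedAddCommGroup Z] [NormedSpace ℝ Z]
    [NormedAddCommGroup X] [NormedSpace ℝ X] {top : T → Set T} {p r B : ℝ} {ν : Z → ℝ}
    {e : (T →₀ Z) →ₗ[ℝ] X} {σ : Set T → X →L[ℝ] Z} {w : Ix T → ℝ}

/-- PROOF. `G` = the `j ∈ F` such that `sg top j`, `{j.1}` or `{j.2.1}` meets `y.support`. For `j ∉ G` all three sums are `0` (`h.finz`). Every node of the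
support is in at most one `sg top j`, is the start of at most one `j`, and is the end node of at most two `j` (`Fm.start_inj`,
`Fm.end_inj`). So `G.card ≤ 4 * y.support.card` (`Finset.card_biUnion_le` over `y.support`). -/
theorem Sys.touch (h : Sys T Z X top p r B ν e σ) (y : T →₀ Z) {F : Finset (T × (T × Bool))}
    (hF : Fm top F) : ∃ G ⊆ F, G.card ≤ 4 * y.support.card ∧
      ∀ j ∈ F, j ∉ G → P top r ν σ w j (e y) = 0 := by
  classical
  refine ⟨F.filter (fun j => (∃ t ∈ y.support, t ∈ sg top j) ∨ j.1 ∈ y.support ∨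
    j.2.1 ∈ y.support), Finset.filter_subset _ _, ?_, ?_⟩
  · have hsub : F.filter (fun j => (∃ t ∈ y.support, t ∈ sg top j) ∨ j.1 ∈ y.support ∨
        j.2.1 ∈ y.support) ⊆ y.support.biUnion (fun t => F.filter (fun j => t ∈ sg top j) ∪
          (F.filter (fun j => j.1 = t) ∪ F.filter (fun j => j.2.1 = t))) := by
      intro j hj
      rw [Finset.mem_filter] at hj
      rw [Finset.mem_biUnion]
      rcases hj.2 with ⟨t, ht, htj⟩ | h2 | h2
      · exact ⟨t, ht, by simp [hj.1, htj]⟩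
      · exact ⟨j.1, h2, by simp [hj.1]⟩
      · exact ⟨j.2.1, h2, by simp [hj.1]⟩
    refine (Finset.card_le_card hsub).trans ?_
    refine (Finset.card_biUnion_le).trans ?_
    have h4 : ∀ t ∈ y.support, (F.filter (fun j => t ∈ sg top j) ∪
          (F.filter (fun j => j.1 = t) ∪ F.filter (fun j => j.2.1 = t))).card ≤ 4 := by
      intro t _
      have hA : (F.filter (fun j => t ∈ sg top j)).card ≤ 1 := by
        rw [Finset.card_le_one]
        intro a ha b hb
        rw [Finset.mem_filter] at ha hb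
        by_contra hab
        exact Set.disjoint_left.mp (hF.2 a ha.1 b hb.1 hab) ha.2 hb.2
      have hB : (F.filter (fun j => j.1 = t)).card ≤ 1 := by
        rw [Finset.card_le_one]
        intro a ha b hb
        rw [Finset.mem_filter] at ha hb
        exact Fm.start_inj hF ha.1 hb.1 (ha.2.trans hb.2.symm)
      have hC : (F.filter (fun j => j.2.1 = t)).card ≤ 2 := by
        have h5 : (F.filter (fun j => j.2.1 = t)).card ≤ (Finset.univ : Finset Bool).card := by
          apply Finset.card_le_card_of_injOn (fun j => j.2.2)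
          · intro j _
            exact Finset.mem_coe.mpr (Finset.mem_univ _)
          · intro a ha b hb hab
            rw [Finset.mem_coe, Finset.mem_filter] at ha hb
            have h6 : a.2 = b.2 := Prod.ext (ha.2.trans hb.2.symm) hab
            exact Fm.end_inj h.tree h.htop hF ha.1 hb.1 (by rw [h6])
        simpa using h5
      have h7 := Finset.card_union_le (F.filter (fun j => t ∈ sg top j))
        (F.filter (fun j => j.1 = t) ∪ F.filter (fun j => j.2.1 = t))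
      have h8 := Finset.card_union_le (F.filter (fun j => j.1 = t)) (F.filter (fun j => j.2.1 = t))
      omega
    have h9 := Finset.sum_le_card_nsmul y.support _ 4 h4
    rw [smul_eq_mul] at h9
    linarith
  · intro j hj hjG
    rw [Finset.mem_filter] at hjG
    have hn : ¬ ((∃ t ∈ y.support, t ∈ sg top j) ∨ j.1 ∈ y.support ∨ j.2.1 ∈ y.support) :=
      fun hc => hjG ⟨hj, hc⟩
    rw [not_or, not_or] at hn
    have hr0 : r ≠ 0 := (lt_trans zero_lt_one h.hr).ne'
    have z1 : σ (sg top j) (e y) = 0 :=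
      h.finz (cc_sg h.tree h.htop j) y (fun t ht ht' => hn.1 ⟨t, ht', ht⟩)
    have z2 : σ {j.1} (e y) = 0 := by
      apply h.finz (cc_single j.1) y
      intro t ht
      rw [Set.mem_singleton_iff] at ht
      rw [ht]
      exact hn.2.1
    have z3 : σ {j.2.1} (e y) = 0 := by
      apply h.finz (cc_single j.2.1) y
      intro t ht
      rw [Set.mem_singleton_iff] at ht
      rw [ht]
      exact hn.2.2
    rw [P, z1, z2, z3, h.nu_zero, Real.zero_rpow hr0]
    simp

/-- PROOF. Let `c > 0` be small and `y` with `‖x - e y‖ < c`, `G` from `Sys.touch`. For `j ∉ G`: `P_j(x)^(1/r) ≤ P_j(x - e y)^(1/r) + 0`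
(`Sys.P_add`). For `j ∈ G` with `P_j(x) < τ`: `P_j(x) ^ (1/r) ≤ τ ^ (1/r)`. So the vector `(P_j(x)^(1/r) + P_j(y')^(1/r))_j` over
`{P_j x < τ}` is `≤ P_j(x - e y)^(1/r) + P_j(y')^(1/r) + 1_G τ^(1/r)`, and by Minkowski its `ℓ_p` norm is at most
`10 B c + 10 B ‖y'‖ + (4 |supp y|)^(1/p) τ^(1/r)` (`Sys.PF_le` for the subfamily). Choose `c`, then `y`, then `τ` and `δ`. -/
theorem Sys.small (h : Sys T Z X top p r B ν e σ) (hw : ∀ i, 0 ≤ w i ∧ w i ≤ 3) (x : X) {η : ℝ}
    (hη : 0 < η) : ∃ τ : ℝ, 0 < τ ∧ ∃ δ : ℝ, 0 < δ ∧ ∀ F : Finset (T × (T × Bool)), Fm top F →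
      ∀ y' : X, ‖y'‖ ≤ δ →
      ∑ j ∈ F.filter (fun j => P top r ν σ w j x < τ),
        (P top r ν σ w j x ^ (1 / r) + P top r ν σ w j y' ^ (1 / r)) ^ p ≤ η := by
  classical
  have hr0 : 0 < r := lt_trans zero_lt_one h.hr
  have hp1 : 1 < p := h.hp
  have hp0 : 0 < p := lt_trans zero_lt_one hp1
  have hB0 : 0 < B := lt_of_lt_of_le zero_lt_one h.hB
  have hw0 : ∀ i, 0 ≤ w i := fun i => (hw i).1
  obtain ⟨q, hq, hqη⟩ : ∃ q : ℝ, 0 < q ∧ (3 : ℝ) ^ p * (3 * q ^ p) = η := by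
    refine ⟨(η / 3) ^ (1 / p) / 3, by positivity, ?_⟩
    rw [Real.div_rpow (by positivity) (by norm_num), ← Real.rpow_mul (by positivity),
      one_div_mul_cancel hp0.ne', Real.rpow_one]
    have h3 : (0 : ℝ) < 3 ^ p := by positivity
    field_simp
  have hc : 0 < q / (10 * B) := by positivity
  obtain ⟨y, hy⟩ := h.approx x hc
  have h10 : 10 * (B * (q / (10 * B))) = q := by
    field_simp
  set m : ℕ := 4 * y.support.card with hm
  have hm1 : (0 : ℝ) < (m : ℝ) + 1 := by positivity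
  have hτ : 0 < (q / ((m : ℝ) + 1)) ^ r := by positivity
  have hτr : ((q / ((m : ℝ) + 1)) ^ r) ^ (1 / r) = q / ((m : ℝ) + 1) := by
    rw [← Real.rpow_mul (by positivity), mul_one_div_cancel hr0.ne', Real.rpow_one]
  have hmq : (m : ℝ) * (q / ((m : ℝ) + 1)) ^ p ≤ q ^ p := by
    rw [Real.div_rpow hq.le hm1.le]
    have h1 : (m : ℝ) + 1 ≤ ((m : ℝ) + 1) ^ p := by
      have h2 : (1 : ℝ) ≤ (m : ℝ) + 1 := by
        have : (0 : ℝ) ≤ m := Nat.cast_nonneg m
        linarith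
      calc (m : ℝ) + 1 = ((m : ℝ) + 1) ^ (1 : ℝ) := (Real.rpow_one _).symm
        _ ≤ ((m : ℝ) + 1) ^ p := Real.rpow_le_rpow_of_exponent_le h2 hp1.le
    have h3 : 0 < ((m : ℝ) + 1) ^ p := by positivity
    rw [mul_div_assoc', div_le_iff₀ h3]
    have h4 : 0 < q ^ p := by positivity
    nlinarith
  refine ⟨(q / ((m : ℝ) + 1)) ^ r, hτ, q / (10 * B), hc, ?_⟩
  intro F hF y' hy'
  obtain ⟨G, hGF, hGc, hG0⟩ := h.touch (w := w) y hF
  set τ : ℝ := (q / ((m : ℝ) + 1)) ^ r with hτdef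
  set a : T × (T × Bool) → ℝ := fun j => P top r ν σ w j (x - e y) ^ (1 / r) with ha
  set b : T × (T × Bool) → ℝ := fun j => P top r ν σ w j y' ^ (1 / r) with hb
  set g : T × (T × Bool) → ℝ := fun j => if j ∈ G then q / ((m : ℝ) + 1) else 0 with hg
  have ha0 : ∀ j, 0 ≤ a j := fun j => Real.rpow_nonneg (h.P_nonneg hw0 j _) _
  have hb0 : ∀ j, 0 ≤ b j := fun j => Real.rpow_nonneg (h.P_nonneg hw0 j _) _
  have hg0 : ∀ j, 0 ≤ g j := by
    intro j
    by_cases hj : j ∈ G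
    · simp only [hg, if_pos hj]
      positivity
    · simp only [hg, if_neg hj, le_refl]
  have hpow : ∀ (j : T × (T × Bool)) (u : X), (P top r ν σ w j u ^ (1 / r)) ^ p =
      P top r ν σ w j u ^ (p / r) := by
    intro j u
    rw [← Real.rpow_mul (h.P_nonneg hw0 j u)]
    ring_nf
  have hPF : ∀ u : X, ‖u‖ ≤ q / (10 * B) → PF top p r ν σ w F u ≤ q ^ p := by
    intro u hu
    refine (h.PF_le hw hF u).trans ?_
    apply Real.rpow_le_rpow (by positivity) _ hp0.le
    calc 10 * (B * ‖u‖) ≤ 10 * (B * (q / (10 * B))) := by gcongr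
      _ = q := h10
  have key : ∀ j ∈ F.filter (fun j => P top r ν σ w j x < τ),
      (P top r ν σ w j x ^ (1 / r) + P top r ν σ w j y' ^ (1 / r)) ^ p ≤
        3 ^ p * (a j ^ p + g j ^ p + b j ^ p) := by
    intro j hj
    rw [Finset.mem_filter] at hj
    have h1 : P top r ν σ w j x ^ (1 / r) ≤ a j + g j := by
      by_cases hjG : j ∈ G
      · have h2 : P top r ν σ w j x ^ (1 / r) ≤ τ ^ (1 / r) :=
          Real.rpow_le_rpow (h.P_nonneg hw0 j x) hj.2.le (by positivity)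
        have h3 : g j = τ ^ (1 / r) := by
          simp only [hg, if_pos hjG]
          rw [hτdef, hτr]
        rw [h3]
        linarith [ha0 j]
      · have h2 := h.P_add hw0 j (x - e y) (e y)
        rw [sub_add_cancel, hG0 j hj.1 hjG, Real.zero_rpow (by positivity), add_zero] at h2
        linarith [hg0 j]
    have h2 : P top r ν σ w j x ^ (1 / r) + P top r ν σ w j y' ^ (1 / r) ≤
        3 * max (a j) (max (g j) (b j)) := by
      have h3 := le_max_left (a j) (max (g j) (b j))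
      have h4 := (le_max_left (g j) (b j)).trans (le_max_right (a j) (max (g j) (b j)))
      have h5 := (le_max_right (g j) (b j)).trans (le_max_right (a j) (max (g j) (b j)))
      have h6 : P top r ν σ w j y' ^ (1 / r) = b j := rfl
      rw [h6]
      linarith
    have h3 : 0 ≤ max (a j) (max (g j) (b j)) := (ha0 j).trans (le_max_left _ _)
    have h4 : max (a j) (max (g j) (b j)) ^ p ≤ a j ^ p + g j ^ p + b j ^ p := by
      have u1 : 0 ≤ a j ^ p := Real.rpow_nonneg (ha0 j) _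
      have u2 : 0 ≤ g j ^ p := Real.rpow_nonneg (hg0 j) _
      have u3 : 0 ≤ b j ^ p := Real.rpow_nonneg (hb0 j) _
      rcases max_choice (a j) (max (g j) (b j)) with h5 | h5
      · rw [h5]
        linarith
      · rcases max_choice (g j) (b j) with h6 | h6
        · rw [h5, h6]
          linarith
        · rw [h5, h6]
          linarith
    calc (P top r ν σ w j x ^ (1 / r) + P top r ν σ w j y' ^ (1 / r)) ^ p
        ≤ (3 * max (a j) (max (g j) (b j))) ^ p := by
          apply Real.rpow_le_rpow _ h2 hp0.le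
          exact add_nonneg (Real.rpow_nonneg (h.P_nonneg hw0 j _) _)
            (Real.rpow_nonneg (h.P_nonneg hw0 j _) _)
      _ = 3 ^ p * max (a j) (max (g j) (b j)) ^ p := Real.mul_rpow (by norm_num) h3
      _ ≤ 3 ^ p * (a j ^ p + g j ^ p + b j ^ p) := by
          gcongr
  refine (Finset.sum_le_sum key).trans ?_
  rw [← Finset.mul_sum, Finset.sum_add_distrib, Finset.sum_add_distrib]
  have s1 : ∑ j ∈ F.filter (fun j => P top r ν σ w j x < τ), a j ^ p ≤ q ^ p := by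
    refine le_trans ?_ (hPF (x - e y) hy.le)
    rw [PF]
    refine le_trans (Finset.sum_le_sum_of_subset_of_nonneg (Finset.filter_subset _ _)
      (fun j _ _ => Real.rpow_nonneg (ha0 j) _)) ?_
    apply Finset.sum_le_sum
    intro j _
    exact (hpow j (x - e y)).le
  have s3 : ∑ j ∈ F.filter (fun j => P top r ν σ w j x < τ), b j ^ p ≤ q ^ p := by
    refine le_trans ?_ (hPF y' hy')
    rw [PF]
    refine le_trans (Finset.sum_le_sum_of_subset_of_nonneg (Finset.filter_subset _ _)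
      (fun j _ _ => Real.rpow_nonneg (hb0 j) _)) ?_
    apply Finset.sum_le_sum
    intro j _
    exact (hpow j y').le
  have s2 : ∑ j ∈ F.filter (fun j => P top r ν σ w j x < τ), g j ^ p ≤ q ^ p := by
    refine le_trans (Finset.sum_le_sum_of_subset_of_nonneg (Finset.filter_subset _ F)
      (fun j _ _ => Real.rpow_nonneg (hg0 j) _)) ?_
    have h1 : ∀ j ∈ F, g j ^ p = if j ∈ G then (q / ((m : ℝ) + 1)) ^ p else 0 := by
      intro j _
      by_cases hj : j ∈ G
      · simp only [hg, if_pos hj]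
      · simp only [hg, if_neg hj]
        exact Real.zero_rpow hp0.ne'
    rw [Finset.sum_congr rfl h1, ← Finset.sum_filter, Finset.sum_const, nsmul_eq_mul]
    refine le_trans ?_ hmq
    have h2 : (F.filter (fun j => j ∈ G)).card ≤ m := by
      refine le_trans (Finset.card_le_card ?_) hGc
      intro j hj
      exact (Finset.mem_filter.mp hj).2
    have h3 : ((F.filter (fun j => j ∈ G)).card : ℝ) ≤ m := by exact_mod_cast h2
    gcongr
  rw [← hqη]
  have h3 : (0 : ℝ) ≤ 3 ^ p := by positivity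
  apply mul_le_mul_of_nonneg_left _ h3
  linarith

/-- PROOF. `P_j(x) ≥ τ` for the `j` of the filter, so `card * τ ^ (p/r) ≤ PF ≤ (10 B ‖x‖) ^ p`. -/
theorem Sys.card_large (h : Sys T Z X top p r B ν e σ) (hw : ∀ i, 0 ≤ w i ∧ w i ≤ 3) (x : X)
    {τ : ℝ} (hτ : 0 < τ) {F : Finset (T × (T × Bool))} (hF : Fm top F) :
    ((F.filter (fun j => τ ≤ P top r ν σ w j x)).card : ℝ) * τ ^ (p / r) ≤
      (10 * (B * ‖x‖)) ^ p := by
  classical
  have hw0 : ∀ i, 0 ≤ w i := fun i => (hw i).1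
  have hκ : 0 ≤ p / r := (div_pos (lt_trans zero_lt_one h.hp) (lt_trans zero_lt_one h.hr)).le
  refine le_trans ?_ (h.PF_le hw hF x)
  rw [PF, ← nsmul_eq_mul]
  refine le_trans ?_ (Finset.sum_le_sum_of_subset_of_nonneg (Finset.filter_subset
    (fun j => τ ≤ P top r ν σ w j x) F) (fun j _ _ => Real.rpow_nonneg (h.P_nonneg hw0 j x) _))
  apply Finset.card_nsmul_le_sum
  intro j hj
  exact Real.rpow_le_rpow hτ.le (Finset.mem_filter.mp hj).2 hκ

end Pool.Agent.JTS
end

section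

/-!
The increments of the small coordinates of a family are small.
-/

set_option autoImplicit false

namespace Pool.Agent.JTS

open Filter Topology

variable {T Z X : Type} [PartialOrder T] [NormedAddCommGroup Z] [NormedSpace ℝ Z]
    [NormedAddCommGroup X] [NormedSpace ℝ X] {top : T → Set T} {p r B : ℝ} {ν : Z → ℝ}
    {e : (T →₀ Z) →ₗ[ℝ] X} {σ : Set T → X →L[ℝ] Z} {w : Ix T → ℝ}

private theorem C8b_pow {r p t : ℝ} (hr : 1 < r) (ht : 0 ≤ t) :
    t ^ (p / r - 1) = (t ^ (1 / r)) ^ (p - r) := by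
  rw [← Real.rpow_mul ht]
  congr 1
  have : r ≠ 0 := by linarith
  field_simp

private theorem C8b_le_root {r u t : ℝ} (hr : 1 < r) (hu : 0 ≤ u) (h : u ^ r ≤ t) :
    u ≤ t ^ (1 / r) := by
  have h1 : u = (u ^ r) ^ (1 / r) := by
    rw [← Real.rpow_mul hu, mul_one_div_cancel (by linarith), Real.rpow_one]
  rw [h1]
  exact Real.rpow_le_rpow (Real.rpow_nonneg hu _) h (by positivity)

private theorem Sys.C8b_root (h : Sys T Z X top p r B ν e σ) (hw : ∀ i, 1 ≤ w i ∧ w i ≤ 2)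
    (x : X) (j : T × (T × Bool)) (hj : j.1 ∈ ec top j.2) :
    P top r ν σ w j x ^ (1 / r) ≤ 10 * (B * ‖x‖) := by
  have hw3 : ∀ i, 0 ≤ w i ∧ w i ≤ 3 := fun i =>
    ⟨by linarith [(hw i).1], by linarith [(hw i).2]⟩
  have hFm : Fm top {j} := by
    refine ⟨?_, ?_⟩
    · intro i hi
      rw [Finset.mem_singleton] at hi
      rw [hi]
      exact hj
    · intro i hi k hk hne
      rw [Finset.mem_singleton] at hi hk
      exact absurd (hi.trans hk.symm) hne
  have h1 := h.PF_le hw3 hFm x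
  simp only [PF, Finset.sum_singleton] at h1
  have hP0 := h.P_nonneg (fun i => (hw3 i).1) j x
  have hB := h.hB
  have hr := h.hr
  have hp := h.hp
  have h2 : (P top r ν σ w j x ^ (1 / r)) ^ p = P top r ν σ w j x ^ (p / r) := by
    rw [← Real.rpow_mul hP0]
    congr 1
    ring
  rw [← h2] at h1
  exact (Real.rpow_le_rpow_iff (Real.rpow_nonneg hP0 _) (by positivity) (by linarith)).1 h1

private theorem Sys.C8b_neg (h : Sys T Z X top p r B ν e σ)
    (j : T × (T × Bool)) (y : X) : P top r ν σ w j (-y) = P top r ν σ w j y := by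
  have h1 := h.P_smul (w := w) j (-1) y
  simpa using h1

/-- `O j` is one of the three coordinates of the segment `j`: it is bounded by `P_j` (hypothesis `hO`), and its `ℓ_p` sum is bounded (hypothesis `hO2`).
PROOF. Let `K j = P_j(x)^(1/r) + P_j(y)^(1/r)`. `P_j(x+y)^(κ-1) = (P_j(x+y)^(1/r))^(p-r) ≤ (K j)^(p-r)` (`κ = p/r`, `h.P_add`);
`ν (O j x) ≤ P_j(x)^(1/r)`, `ν (O j y) ≤ P_j(y)^(1/r)`, and `|ν (O j (x+y))^r - ν (O j x)^r| ≤ r (ν (O j x) + ν (O j y))^(r-1) ν (O j y)` (`h.q_lip`).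
Terms with `P_j(x) < τ`: the product is `≤ r (K j)^(p-1) ν (O j y)` (`ν (O j x) + ν (O j y) ≤ K j`); `lp_holder` and `h.small` (for `η₁`):
`≤ r η₁^(1-1/p) (2 (B ‖y‖)^p)^(1/p) ≤ 2 r B η₁^(1-1/p) ‖y‖`: choose `η₁` (this fixes `τ`, `δ₁`) so that it is `≤ (η/2) ‖y‖`.
Terms with `P_j(x) ≥ τ`: their number is at most `n = (10 B ‖x‖)^p / τ^κ` (`h.card_large`); each is `≤ r K₀^(p-r) (B ε + B ‖y‖)^(r-1) B ‖y‖` with
`K₀ = 10 B (‖x‖ + ‖y‖) ≤ 10 B (‖x‖ + 1)` (`P_j(x)^(1/r) ≤ PF^(1/p)`), because `‖O j x‖ < ε`. Choose `ε` and `δ ≤ ε` so that `n` times this is `≤ (η/2) ‖y‖` (`r > 1`). -/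
theorem Sys.tail (h : Sys T Z X top p r B ν e σ) (hw : ∀ i, 1 ≤ w i ∧ w i ≤ 2) (x : X) {η : ℝ}
    (hη : 0 < η) : ∃ ε : ℝ, 0 < ε ∧ ∃ δ : ℝ, 0 < δ ∧
      ∀ (F G : Finset (T × (T × Bool))), Fm top F → G ⊆ F →
      ∀ O : T × (T × Bool) → X →L[ℝ] Z, (∀ j z, ν (O j z) ^ r ≤ P top r ν σ w j z) →
      (∀ j z, ‖O j z‖ ≤ ‖z‖) → (∀ z, ∑ j ∈ F, ν (O j z) ^ p ≤ 2 * (B * ‖z‖) ^ p) →
      (∀ j ∈ G, ‖O j x‖ < ε) → ∀ y : X, ‖y‖ ≤ δ →
      ∑ j ∈ G, P top r ν σ w j (x + y) ^ (p / r - 1) *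
        |ν (O j (x + y)) ^ r - ν (O j x) ^ r| ≤ η * ‖y‖ := by
  have hw3 : ∀ i, 0 ≤ w i ∧ w i ≤ 3 := fun i =>
    ⟨by linarith [(hw i).1], by linarith [(hw i).2]⟩
  have hw0 : ∀ i, 0 ≤ w i := fun i => (hw3 i).1
  have hB := h.hB
  have hr := h.hr
  have hrp := h.hrp
  have hp := h.hp
  have hB0 : 0 < B := by linarith
  have hr0 : 0 < r := by linarith
  have hp0 : 0 < p := by linarith
  have hq0 : 0 < 1 - 1 / p := by
    have : 1 / p < 1 := by rw [div_lt_one hp0]; exact hp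
    linarith
  -- the constant for the small terms
  set η₀ : ℝ := η / (4 * r * B) with hη₀
  have hη₀0 : 0 < η₀ := by positivity
  set η₁ : ℝ := η₀ ^ (1 / (1 - 1 / p)) with hη₁
  have hη₁0 : 0 < η₁ := Real.rpow_pos_of_pos hη₀0 _
  have hη₁e : η₁ ^ (1 - 1 / p) = η₀ := by
    rw [hη₁, ← Real.rpow_mul hη₀0.le, one_div_mul_cancel hq0.ne', Real.rpow_one]
  obtain ⟨τ, hτ, δ₁, hδ₁, hsmall⟩ := h.small hw3 x hη₁0
  -- the constant for the large terms
  set n : ℝ := (10 * (B * ‖x‖)) ^ p / τ ^ (p / r) with hn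
  have hn0 : 0 ≤ n := by positivity
  set K₀ : ℝ := 10 * (B * ‖x‖) + 10 * B with hK₀
  have hK₀0 : 0 ≤ K₀ := by positivity
  set C : ℝ := n * (r * K₀ ^ (p - r) * B) with hC
  have hC0 : 0 ≤ C := by positivity
  set θ : ℝ := η / (2 * (C + 1)) with hθ
  have hθ0 : 0 < θ := by positivity
  set ε : ℝ := θ ^ (1 / (r - 1)) / (2 * B) with hε
  have hε0 : 0 < ε := by
    have := Real.rpow_pos_of_pos hθ0 (1 / (r - 1))
    positivity
  have hεe : (2 * B * ε) ^ (r - 1) = θ := by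
    have h1 : 2 * B * ε = θ ^ (1 / (r - 1)) := by
      rw [hε]
      field_simp
    rw [h1, ← Real.rpow_mul hθ0.le, one_div_mul_cancel (by linarith), Real.rpow_one]
  refine ⟨ε, hε0, min δ₁ (min ε 1), lt_min hδ₁ (lt_min hε0 one_pos), ?_⟩
  intro F G hF hGF O hO hO1 hO2 hOε y hy
  have hyδ : ‖y‖ ≤ δ₁ := hy.trans (min_le_left _ _)
  have hyε : ‖y‖ ≤ ε := hy.trans ((min_le_right _ _).trans (min_le_left _ _))
  have hy1 : ‖y‖ ≤ 1 := hy.trans ((min_le_right _ _).trans (min_le_right _ _))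
  -- names
  have hP0 : ∀ j z, 0 ≤ P top r ν σ w j z := fun j z => h.P_nonneg hw0 j z
  have hR0 : ∀ j z, 0 ≤ P top r ν σ w j z ^ (1 / r) := fun j z => Real.rpow_nonneg (hP0 j z) _
  have hu : ∀ j z, ν (O j z) ≤ P top r ν σ w j z ^ (1 / r) := fun j z =>
    C8b_le_root hr (h.nu_nonneg _) (hO j z)
  have hK0 : ∀ j, 0 ≤ P top r ν σ w j x ^ (1 / r) + P top r ν σ w j y ^ (1 / r) := fun j =>
    add_nonneg (hR0 j x) (hR0 j y)
  have hterm : ∀ j, P top r ν σ w j (x + y) ^ (p / r - 1) *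
      |ν (O j (x + y)) ^ r - ν (O j x) ^ r| ≤
      (P top r ν σ w j x ^ (1 / r) + P top r ν σ w j y ^ (1 / r)) ^ (p - r) *
        (r * (ν (O j x) + ν (O j y)) ^ (r - 1) * ν (O j y)) := by
    intro j
    rw [C8b_pow hr (hP0 j _)]
    have h1 := h.P_add hw0 j x y
    have h2 : (P top r ν σ w j (x + y) ^ (1 / r)) ^ (p - r) ≤
        (P top r ν σ w j x ^ (1 / r) + P top r ν σ w j y ^ (1 / r)) ^ (p - r) :=
      Real.rpow_le_rpow (hR0 j _) h1 (by linarith)
    have h3 := h.q_lip (O j x) (O j y)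
    rw [← map_add] at h3
    exact mul_le_mul h2 h3 (abs_nonneg _) (Real.rpow_nonneg (hK0 j) _)
  rw [← Finset.sum_filter_add_sum_filter_not G (fun j => P top r ν σ w j x < τ)]
  -- small terms
  have hS : ∑ j ∈ G.filter (fun j => P top r ν σ w j x < τ),
      P top r ν σ w j (x + y) ^ (p / r - 1) * |ν (O j (x + y)) ^ r - ν (O j x) ^ r| ≤
      η / 2 * ‖y‖ := by
    have h1 : ∑ j ∈ G.filter (fun j => P top r ν σ w j x < τ),
        P top r ν σ w j (x + y) ^ (p / r - 1) * |ν (O j (x + y)) ^ r - ν (O j x) ^ r| ≤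
        r * ∑ j ∈ G.filter (fun j => P top r ν σ w j x < τ),
          (P top r ν σ w j x ^ (1 / r) + P top r ν σ w j y ^ (1 / r)) ^ (p - 1) *
            ν (O j y) := by
      rw [Finset.mul_sum]
      refine Finset.sum_le_sum fun j _ => ?_
      refine (hterm j).trans ?_
      have h2 : (ν (O j x) + ν (O j y)) ^ (r - 1) ≤
          (P top r ν σ w j x ^ (1 / r) + P top r ν σ w j y ^ (1 / r)) ^ (r - 1) :=
        Real.rpow_le_rpow (add_nonneg (h.nu_nonneg _) (h.nu_nonneg _))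
          (add_le_add (hu j x) (hu j y)) (by linarith)
      have h3 : (P top r ν σ w j x ^ (1 / r) + P top r ν σ w j y ^ (1 / r)) ^ (p - 1) =
          (P top r ν σ w j x ^ (1 / r) + P top r ν σ w j y ^ (1 / r)) ^ (p - r) *
          (P top r ν σ w j x ^ (1 / r) + P top r ν σ w j y ^ (1 / r)) ^ (r - 1) := by
        rw [← Real.rpow_add_of_nonneg (hK0 j) (by linarith) (by linarith)]
        congr 1
        ring
      have hv0 := h.nu_nonneg (O j y)
      calc (P top r ν σ w j x ^ (1 / r) + P top r ν σ w j y ^ (1 / r)) ^ (p - r) *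
            (r * (ν (O j x) + ν (O j y)) ^ (r - 1) * ν (O j y))
          ≤ (P top r ν σ w j x ^ (1 / r) + P top r ν σ w j y ^ (1 / r)) ^ (p - r) *
            (r * (P top r ν σ w j x ^ (1 / r) + P top r ν σ w j y ^ (1 / r)) ^ (r - 1) *
              ν (O j y)) := by
            refine mul_le_mul_of_nonneg_left ?_ (Real.rpow_nonneg (hK0 j) _)
            exact mul_le_mul_of_nonneg_right (mul_le_mul_of_nonneg_left h2 hr0.le) hv0
        _ = _ := by rw [h3]; ring
    have h4 := lp_holder (G.filter (fun j => P top r ν σ w j x < τ)) hp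
      (fun j => P top r ν σ w j x ^ (1 / r) + P top r ν σ w j y ^ (1 / r))
      (fun j => ν (O j y)) (fun j _ => hK0 j) (fun j _ => h.nu_nonneg _)
    have h5 : ∑ j ∈ G.filter (fun j => P top r ν σ w j x < τ),
        (P top r ν σ w j x ^ (1 / r) + P top r ν σ w j y ^ (1 / r)) ^ p ≤ η₁ :=
      (Finset.sum_le_sum_of_subset_of_nonneg (Finset.filter_subset_filter _ hGF)
        (fun j _ _ => Real.rpow_nonneg (hK0 j) _)).trans (hsmall F hF y hyδ)
    have h6 : ∑ j ∈ G.filter (fun j => P top r ν σ w j x < τ), ν (O j y) ^ p ≤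
        2 * (B * ‖y‖) ^ p :=
      (Finset.sum_le_sum_of_subset_of_nonneg ((Finset.filter_subset _ _).trans hGF)
        (fun j _ _ => Real.rpow_nonneg (h.nu_nonneg _) _)).trans (hO2 y)
    have h7 : (∑ j ∈ G.filter (fun j => P top r ν σ w j x < τ),
        (P top r ν σ w j x ^ (1 / r) + P top r ν σ w j y ^ (1 / r)) ^ p) ^ (1 - 1 / p) ≤ η₀ := by
      rw [← hη₁e]
      exact Real.rpow_le_rpow (Finset.sum_nonneg fun j _ => Real.rpow_nonneg (hK0 j) _) h5 hq0.le
    have h8 : (∑ j ∈ G.filter (fun j => P top r ν σ w j x < τ), ν (O j y) ^ p) ^ (1 / p) ≤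
        2 * (B * ‖y‖) := by
      have h9 : (∑ j ∈ G.filter (fun j => P top r ν σ w j x < τ), ν (O j y) ^ p) ^ (1 / p) ≤
          (2 * (B * ‖y‖) ^ p) ^ (1 / p) :=
        Real.rpow_le_rpow (Finset.sum_nonneg fun j _ => Real.rpow_nonneg (h.nu_nonneg _) _) h6
          (by positivity)
      refine h9.trans ?_
      rw [Real.mul_rpow (by norm_num) (by positivity), ← Real.rpow_mul (by positivity),
        mul_one_div_cancel hp0.ne', Real.rpow_one]
      refine mul_le_mul_of_nonneg_right ?_ (by positivity)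
      calc (2 : ℝ) ^ (1 / p) ≤ 2 ^ (1 : ℝ) :=
            Real.rpow_le_rpow_of_exponent_le (by norm_num) (by rw [div_le_one hp0]; exact hp.le)
        _ = 2 := Real.rpow_one _
    have h10 := mul_le_mul h7 h8 (Real.rpow_nonneg (Finset.sum_nonneg fun j _ =>
      Real.rpow_nonneg (h.nu_nonneg _) _) _) hη₀0.le
    refine h1.trans ((mul_le_mul_of_nonneg_left (h4.trans h10) hr0.le).trans (le_of_eq ?_))
    rw [hη₀]
    field_simp
    ring
  -- large terms
  have hL : ∑ j ∈ G.filter (fun j => ¬ P top r ν σ w j x < τ),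
      P top r ν σ w j (x + y) ^ (p / r - 1) * |ν (O j (x + y)) ^ r - ν (O j x) ^ r| ≤
      η / 2 * ‖y‖ := by
    have h1 : ∀ j ∈ G.filter (fun j => ¬ P top r ν σ w j x < τ),
        P top r ν σ w j (x + y) ^ (p / r - 1) * |ν (O j (x + y)) ^ r - ν (O j x) ^ r| ≤
        r * K₀ ^ (p - r) * B * θ * ‖y‖ := by
      intro j hj
      have hjG : j ∈ G := (Finset.mem_filter.1 hj).1
      have hjv := hF.1 j (hGF hjG)
      refine (hterm j).trans ?_
      have h2 : P top r ν σ w j x ^ (1 / r) + P top r ν σ w j y ^ (1 / r) ≤ K₀ := by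
        have h3 := h.C8b_root hw x j hjv
        have h4 := h.C8b_root hw y j hjv
        have h5 : B * ‖y‖ ≤ B := by nlinarith
        rw [hK₀]
        linarith
      have h3 : (P top r ν σ w j x ^ (1 / r) + P top r ν σ w j y ^ (1 / r)) ^ (p - r) ≤
          K₀ ^ (p - r) := Real.rpow_le_rpow (hK0 j) h2 (by linarith)
      have h4 : ν (O j y) ≤ B * ‖y‖ :=
        (h.up _).trans (mul_le_mul_of_nonneg_left (hO1 j y) hB0.le)
      have h5 : ν (O j x) ≤ B * ε :=
        (h.up _).trans (mul_le_mul_of_nonneg_left (hOε j hjG).le hB0.le)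
      have h6 : ν (O j x) + ν (O j y) ≤ 2 * B * ε := by
        have : B * ‖y‖ ≤ B * ε := mul_le_mul_of_nonneg_left hyε hB0.le
        linarith
      have h7 : (ν (O j x) + ν (O j y)) ^ (r - 1) ≤ θ := by
        rw [← hεe]
        exact Real.rpow_le_rpow (add_nonneg (h.nu_nonneg _) (h.nu_nonneg _)) h6 (by linarith)
      have h8 : r * (ν (O j x) + ν (O j y)) ^ (r - 1) * ν (O j y) ≤ r * θ * (B * ‖y‖) :=
        mul_le_mul (mul_le_mul_of_nonneg_left h7 hr0.le) h4 (h.nu_nonneg _) (by positivity)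
      have h9 : 0 ≤ r * (ν (O j x) + ν (O j y)) ^ (r - 1) * ν (O j y) :=
        mul_nonneg (mul_nonneg hr0.le (Real.rpow_nonneg
          (add_nonneg (h.nu_nonneg _) (h.nu_nonneg _)) _)) (h.nu_nonneg _)
      refine (mul_le_mul h3 h8 h9 (Real.rpow_nonneg hK₀0 _)).trans (le_of_eq ?_)
      ring
    have h2 := Finset.sum_le_card_nsmul _ _ _ h1
    have h3 : ((G.filter (fun j => ¬ P top r ν σ w j x < τ)).card : ℝ) ≤ n := by
      have h4 : (G.filter (fun j => ¬ P top r ν σ w j x < τ)).card ≤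
          (F.filter (fun j => τ ≤ P top r ν σ w j x)).card := by
        refine Finset.card_le_card ?_
        intro j hj
        rw [Finset.mem_filter] at hj ⊢
        exact ⟨hGF hj.1, not_lt.1 hj.2⟩
      have h5 := h.card_large hw3 x hτ hF
      rw [hn, le_div_iff₀ (Real.rpow_pos_of_pos hτ _)]
      refine le_trans ?_ h5
      exact mul_le_mul_of_nonneg_right (by exact_mod_cast h4) (Real.rpow_nonneg hτ.le _)
    refine h2.trans ?_
    rw [nsmul_eq_mul]
    have h4 : 0 ≤ r * K₀ ^ (p - r) * B * θ * ‖y‖ := by positivity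
    refine (mul_le_mul_of_nonneg_right h3 h4).trans ?_
    have h5 : n * (r * K₀ ^ (p - r) * B * θ * ‖y‖) = (C * θ) * ‖y‖ := by
      rw [hC]; ring
    rw [h5]
    refine mul_le_mul_of_nonneg_right ?_ (norm_nonneg _)
    rw [hθ]
    have h6 : C * (η / (2 * (C + 1))) = η / 2 * (C / (C + 1)) := by
      field_simp
    rw [h6]
    have h7 : C / (C + 1) ≤ 1 := by
      rw [div_le_one (by linarith)]
      linarith
    have h8 : 0 ≤ η / 2 := by positivity
    nlinarith
  linarith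

/-- PROOF. `P_j(x+y)^(1/r) ≤ P_j(x)^(1/r) + P_j(y)^(1/r)` and conversely, `P_j(y)^(1/r) ≤ 10 B ‖y‖`, so `|P_j(x+y)^(1/r) - P_j(x)^(1/r)| ≤ 10 B ‖y‖`,
uniformly in all valid `j` (`{j}` is `Fm`, `h.PF_le`); `t ↦ t ^ (p - r)` is uniformly continuous on bounded sets (`P^(p/r-1) = (P^(1/r))^(p-r)`). -/
theorem Sys.P_unif (h : Sys T Z X top p r B ν e σ) (hw : ∀ i, 1 ≤ w i ∧ w i ≤ 2) (x : X) {η : ℝ}
    (hη : 0 < η) : ∃ δ : ℝ, 0 < δ ∧ ∀ j : T × (T × Bool), j.1 ∈ ec top j.2 → ∀ y : X, ‖y‖ ≤ δ →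
      |P top r ν σ w j (x + y) ^ (p / r - 1) - P top r ν σ w j x ^ (p / r - 1)| ≤ η := by
  have hw3 : ∀ i, 0 ≤ w i ∧ w i ≤ 3 := fun i =>
    ⟨by linarith [(hw i).1], by linarith [(hw i).2]⟩
  have hw0 : ∀ i, 0 ≤ w i := fun i => (hw3 i).1
  have hB := h.hB
  have hr := h.hr
  have hrp := h.hrp
  have hB0 : 0 < B := by linarith
  set M : ℝ := 10 * (B * (‖x‖ + 1)) with hM
  have hcont : ContinuousOn (fun t : ℝ => t ^ (p - r)) (Set.Icc 0 M) :=
    (Real.continuous_rpow_const (by linarith)).continuousOn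
  have hunif := isCompact_Icc.uniformContinuousOn_of_continuous hcont
  rw [Metric.uniformContinuousOn_iff] at hunif
  obtain ⟨δ', hδ', hδ⟩ := hunif η hη
  refine ⟨min 1 (δ' / (20 * B)), lt_min one_pos (by positivity), ?_⟩
  intro j hj y hy
  have hy1 : ‖y‖ ≤ 1 := hy.trans (min_le_left _ _)
  have hy2 : ‖y‖ ≤ δ' / (20 * B) := hy.trans (min_le_right _ _)
  rw [C8b_pow hr (h.P_nonneg hw0 j _), C8b_pow hr (h.P_nonneg hw0 j _)]
  have h1 := h.P_add hw0 j x y
  have h2 := h.P_add hw0 j (x + y) (-y)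
  rw [h.C8b_neg j y, add_neg_cancel_right] at h2
  have h3 := h.C8b_root hw y j hj
  have h4 := h.C8b_root hw x j hj
  have h5 := h.C8b_root hw (x + y) j hj
  have h6 : 10 * (B * ‖y‖) ≤ δ' / 2 := by
    rw [le_div_iff₀ (by positivity)] at hy2
    linarith
  have h7 : ‖x + y‖ ≤ ‖x‖ + 1 := (norm_add_le _ _).trans (by linarith)
  have h8 : 10 * (B * ‖x + y‖) ≤ M := by
    rw [hM]
    have := mul_le_mul_of_nonneg_left h7 hB0.le
    linarith
  have h9 : 10 * (B * ‖x‖) ≤ M := by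
    rw [hM]
    have := mul_le_mul_of_nonneg_left (show ‖x‖ ≤ ‖x‖ + 1 by linarith) hB0.le
    linarith
  have h10 := hδ _ ⟨Real.rpow_nonneg (h.P_nonneg hw0 j (x + y)) _, h5.trans h8⟩ _
    ⟨Real.rpow_nonneg (h.P_nonneg hw0 j x) _, h4.trans h9⟩ (by
      rw [Real.dist_eq, abs_lt]
      constructor <;> linarith)
  rw [Real.dist_eq] at h10
  exact h10.le

/-- PROOF. `P_j(x) ^ (1/r) ≤ 10 B ‖x‖` for valid `j` (`{j}` is a family). -/
theorem Sys.P_le (h : Sys T Z X top p r B ν e σ) (hw : ∀ i, 1 ≤ w i ∧ w i ≤ 2) (x : X)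
    (j : T × (T × Bool)) (hj : j.1 ∈ ec top j.2) :
    P top r ν σ w j x ^ (p / r - 1) ≤ (10 * (B * ‖x‖)) ^ (p - r) := by
  have hw0 : ∀ i, 0 ≤ w i := fun i => by linarith [(hw i).1]
  rw [C8b_pow h.hr (h.P_nonneg hw0 j _)]
  exact Real.rpow_le_rpow (Real.rpow_nonneg (h.P_nonneg hw0 j x) _) (h.C8b_root hw x j hj)
    (by linarith [h.hrp])

end Pool.Agent.JTS
end
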