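import Pool.Agent.Lib.MP_05b481_an.Mg.G006
import Pool.Agent.Lib.MP_05b481_an.Mg.G007

section

/-!
The increments of the end coordinates.
-/

set_option autoImplicit false

namespace Pool.Agent.JTS

open Filter Topology

variable {T Z X : Type} [PartialOrder T] [NormedAddCommGroup Z] [NormedSpace ℝ Z]
    [NormedAddCommGroup X] [NormedSpace ℝ X] {top : T → Set T} {p r B : ℝ} {ν : Z → ℝ}
    {e : (T →₀ Z) →ₗ[ℝ] X} {σ : Set T → X →L[ℝ] Z} {w : Ix T → ℝ}

open Classical in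
private theorem C8e_gen (h : Sys T Z X top p r B ν e σ) (hw : ∀ i, 1 ≤ w i ∧ w i ≤ 2) (x : X)
    (hg : ∀ i, 0 < val r ν σ i x → Good top p r ν σ w x i)
    (𝒰 : Ultrafilter ℕ) (F G : ℕ → Finset (T × (T × Bool))) (hF : ∀ k, Fm top (F k))
    (hG : ∀ k, Fm top (G k))
    (hMF : Tendsto (fun k => PF top p r ν σ w (F k) x) (𝒰 : Filter ℕ) (𝓝 (Phi top p r ν σ w x)))
    (hMG : Tendsto (fun k => PF top p r ν σ w (G k) x) (𝒰 : Filter ℕ) (𝓝 (Phi top p r ν σ w x)))
    (hk : ℕ → X) (hk0 : Tendsto hk (𝒰 : Filter ℕ) (𝓝 0)) (hk1 : ∀ k, ‖hk k‖ ≤ 1)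
    {η : ℝ} (hη : 0 < η) {Λ : Type} (π : T × (T × Bool) → Λ) (ι : Λ → Ix T) (nd : Λ → T)
    (hUse : ∀ l j, Use (ι l) j ↔ π j = l)
    (hval : ∀ l, val r ν σ (ι l) x = ν (σ {nd l} x) ^ r)
    (hfin : ∀ ε : ℝ, 0 < ε → {l : Λ | ε ≤ ‖σ {nd l} x‖}.Finite)
    (hsum : ∀ F, Fm top F → ∀ z, ∑ j ∈ F, ν (σ {nd (π j)} z) ^ p ≤ 2 * (B * ‖z‖) ^ p)
    (hP : ∀ j z, ν (σ {nd (π j)} z) ^ r ≤ P top r ν σ w j z) :
    ∀ᶠ k in (𝒰 : Filter ℕ),
      ∑ j ∈ F k, P top r ν σ w j (x + hk k) ^ (p / r - 1) *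
          (w (ι (π j)) * (ν (σ {nd (π j)} (x + hk k)) ^ r - ν (σ {nd (π j)} x) ^ r)) +
        ∑ j ∈ G k, P top r ν σ w j (x - hk k) ^ (p / r - 1) *
          (w (ι (π j)) * (ν (σ {nd (π j)} (x - hk k)) ^ r - ν (σ {nd (π j)} x) ^ r)) ≤
      η * ‖hk k‖ := by
  have hw0 : ∀ i, 0 ≤ w i := fun i => zero_le_one.trans (hw i).1
  have hr0 : 0 < r := zero_lt_one.trans h.hr
  have inj : ∀ F, Fm top F → ∀ j ∈ F, ∀ j' ∈ F, π j = π j' → j = j' :=
    fun F hF j hj j' hj' hjj' => h.use_unique hF hj hj' ((hUse (π j) j).2 rfl)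
      ((hUse (π j) j').2 hjj'.symm)
  have dWmem : ∀ F, Fm top F → ∀ j ∈ F, ∀ z, dW top p r ν σ w F (ι (π j)) z =
      P top r ν σ w j z ^ (p / r - 1) := by
    intro F hF j hj z
    have h1 : F.filter (fun j' => Use (ι (π j)) j') = {j} := by
      ext j'
      rw [Finset.mem_filter, Finset.mem_singleton]
      constructor
      · rintro ⟨h2, h3⟩
        exact inj F hF j' h2 j hj ((hUse _ _).1 h3)
      · rintro rfl
        exact ⟨hj, (hUse _ _).2 rfl⟩
    rw [dW, h1, Finset.sum_singleton]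
  have dWnot : ∀ (F : Finset (T × (T × Bool))) (l : Λ) (z : X), l ∉ F.image π →
      dW top p r ν σ w F (ι l) z = 0 := by
    intro F l z hl
    have h1 : F.filter (fun j' => Use (ι l) j') = ∅ := by
      refine Finset.filter_eq_empty_iff.2 fun j hj h2 => hl ?_
      exact Finset.mem_image.2 ⟨j, hj, (hUse _ _).1 h2⟩
    rw [dW, h1, Finset.sum_empty]
  have key := h.type_lemma (Λ := Λ) (fun l => σ {nd l}) (fun l z => h.le (cc_single _) z) x 𝒰 hk hk0
    (fun k => (F k).image π) (fun k => (G k).image π)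
    (fun k l => w (ι l) * dW top p r ν σ w (F k) (ι l) (x + hk k))
    (fun k l => w (ι l) * dW top p r ν σ w (G k) (ι l) (x - hk k))
    (M := 2 * (10 * (B * (‖x‖ + 1))) ^ (p - r)) ?_ ?_ ?_ ?_ hη
  · filter_upwards [key] with k hkey
    have hinj1 : ∀ j ∈ F k, ∀ j' ∈ F k, π j = π j' → j = j' := inj _ (hF k)
    have hinj2 : ∀ j ∈ G k, ∀ j' ∈ G k, π j = π j' → j = j' := inj _ (hG k)
    rw [Finset.sum_image hinj1, Finset.sum_image hinj2] at hkey
    refine le_of_eq_of_le ?_ hkey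
    congr 1
    · refine Finset.sum_congr rfl fun j hj => ?_
      rw [dWmem _ (hF k) j hj]
      ring
    · refine Finset.sum_congr rfl fun j hj => ?_
      rw [dWmem _ (hG k) j hj]
      ring
  · intro k l hl
    obtain ⟨j, hj, rfl⟩ := Finset.mem_image.1 hl
    rw [dWmem _ (hF k) j hj]
    have h1 := h.P_le hw (x + hk k) j ((hF k).1 j hj)
    have h2 : (10 * (B * ‖x + hk k‖)) ^ (p - r) ≤ (10 * (B * (‖x‖ + 1))) ^ (p - r) := by
      have hB := h.hB
      have h3 : ‖x + hk k‖ ≤ ‖x‖ + 1 := (norm_add_le _ _).trans (by linarith [hk1 k])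
      refine Real.rpow_le_rpow (by positivity) ?_ (by linarith [h.hrp])
      have h4 : B * ‖x + hk k‖ ≤ B * (‖x‖ + 1) := mul_le_mul_of_nonneg_left h3 (by linarith)
      linarith
    have h5 : 0 ≤ P top r ν σ w j (x + hk k) ^ (p / r - 1) :=
      Real.rpow_nonneg (h.P_nonneg hw0 j _) _
    exact ⟨mul_nonneg (hw0 _) h5, mul_le_mul (hw _).2 (h1.trans h2) h5 (by norm_num)⟩
  · intro k l hl
    obtain ⟨j, hj, rfl⟩ := Finset.mem_image.1 hl
    rw [dWmem _ (hG k) j hj]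
    have h1 := h.P_le hw (x - hk k) j ((hG k).1 j hj)
    have h2 : (10 * (B * ‖x - hk k‖)) ^ (p - r) ≤ (10 * (B * (‖x‖ + 1))) ^ (p - r) := by
      have hB := h.hB
      have h3 : ‖x - hk k‖ ≤ ‖x‖ + 1 := (norm_sub_le _ _).trans (by linarith [hk1 k])
      refine Real.rpow_le_rpow (by positivity) ?_ (by linarith [h.hrp])
      have h4 : B * ‖x - hk k‖ ≤ B * (‖x‖ + 1) := mul_le_mul_of_nonneg_left h3 (by linarith)
      linarith
    have h5 : 0 ≤ P top r ν σ w j (x - hk k) ^ (p / r - 1) :=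
      Real.rpow_nonneg (h.P_nonneg hw0 j _) _
    exact ⟨mul_nonneg (hw0 _) h5, mul_le_mul (hw _).2 (h1.trans h2) h5 (by norm_num)⟩
  · intro η' hη'
    obtain ⟨ε, hε, δ, hδ, htail⟩ := h.tail hw x (half_pos hη')
    refine ⟨(hfin ε hε).toFinset, ?_⟩
    have hev : ∀ᶠ k in (𝒰 : Filter ℕ), ‖hk k‖ ≤ δ := by
      have h1 : Tendsto (fun k => ‖hk k‖) (𝒰 : Filter ℕ) (𝓝 0) := by
        have := hk0.norm
        rwa [norm_zero] at this
      filter_upwards [h1.eventually (gt_mem_nhds hδ)] with k hkk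
      exact hkk.le
    filter_upwards [hev] with k hkδ
    have main : ∀ (H : Finset (T × (T × Bool))), Fm top H → ∀ y : X, ‖y‖ ≤ δ →
        ∑ l ∈ (H.image π).filter (fun l => l ∉ (hfin ε hε).toFinset),
          (w (ι l) * dW top p r ν σ w H (ι l) (x + y)) *
            |ν (σ {nd l} (x + y)) ^ r - ν (σ {nd l} x) ^ r| ≤ η' * ‖y‖ := by
      intro H hH y hy
      rw [Finset.filter_image, Finset.sum_image]
      · have h1 := htail H (H.filter (fun j => π j ∉ (hfin ε hε).toFinset)) hH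
          (Finset.filter_subset _ _) (fun j => σ {nd (π j)}) hP
          (fun j z => h.le (cc_single _) z) (hsum H hH) ?_ y hy
        · have h2 : ∑ j ∈ H.filter (fun j => π j ∉ (hfin ε hε).toFinset),
              (w (ι (π j)) * dW top p r ν σ w H (ι (π j)) (x + y)) *
                |ν (σ {nd (π j)} (x + y)) ^ r - ν (σ {nd (π j)} x) ^ r| ≤
              ∑ j ∈ H.filter (fun j => π j ∉ (hfin ε hε).toFinset),
              2 * (P top r ν σ w j (x + y) ^ (p / r - 1) *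
                |ν (σ {nd (π j)} (x + y)) ^ r - ν (σ {nd (π j)} x) ^ r|) := by
            refine Finset.sum_le_sum fun j hj => ?_
            rw [dWmem _ hH j (Finset.mem_filter.1 hj).1, mul_assoc]
            refine mul_le_mul_of_nonneg_right (hw _).2 (mul_nonneg ?_ (abs_nonneg _))
            exact Real.rpow_nonneg (h.P_nonneg hw0 j _) _
          rw [← Finset.mul_sum] at h2
          linarith
        · intro j hj
          have h2 := (Finset.mem_filter.1 hj).2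
          rw [Set.Finite.mem_toFinset] at h2
          exact not_le.1 h2
      · intro j hj j' hj' hjj'
        exact inj H hH j (Finset.mem_filter.1 hj).1 j' (Finset.mem_filter.1 hj').1 hjj'
    refine ⟨main (F k) (hF k) (hk k) hkδ, ?_⟩
    have h2 := main (G k) (hG k) (-hk k) (by rwa [norm_neg])
    rw [norm_neg, ← sub_eq_add_neg] at h2
    exact h2
  · intro l hl
    have hv : 0 < val r ν σ (ι l) x := by
      rw [hval]
      exact Real.rpow_pos_of_pos ((norm_pos_iff.2 hl).trans_le (h.lo _)) _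
    have hpar := h.param hw x 𝒰 F G hF hG hMF hMG (ι l) hv (hg _ hv)
    have e1 : ∀ k, (if l ∈ (F k).image π then w (ι l) * dW top p r ν σ w (F k) (ι l) (x + hk k)
        else 0) = w (ι l) * dW top p r ν σ w (F k) (ι l) (x + hk k) := by
      intro k
      split_ifs with hl'
      · rfl
      · rw [dWnot _ _ _ hl', mul_zero]
    have e2 : ∀ k, (if l ∈ (G k).image π then w (ι l) * dW top p r ν σ w (G k) (ι l) (x - hk k)
        else 0) = w (ι l) * dW top p r ν σ w (G k) (ι l) (x - hk k) := by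
      intro k
      split_ifs with hl'
      · rfl
      · rw [dWnot _ _ _ hl', mul_zero]
    simp only [e1, e2]
    have lim : ∀ (H : ℕ → Finset (T × (T × Bool))) (_ : ∀ k, Fm top (H k)) (y : ℕ → X),
        Tendsto y (𝒰 : Filter ℕ) (𝓝 0) → Tendsto (fun k => dW top p r ν σ w (H k) (ι l) (x + y k) -
          dW top p r ν σ w (H k) (ι l) x) (𝒰 : Filter ℕ) (𝓝 0) := by
      intro H hH y hy
      rw [Metric.tendsto_nhds]
      intro η' hη'
      obtain ⟨δ, hδ, hPu⟩ := h.P_unif hw x (half_pos hη')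
      have hev : ∀ᶠ k in (𝒰 : Filter ℕ), ‖y k‖ ≤ δ := by
        have h1 : Tendsto (fun k => ‖y k‖) (𝒰 : Filter ℕ) (𝓝 0) := by
          have := hy.norm
          rwa [norm_zero] at this
        filter_upwards [h1.eventually (gt_mem_nhds hδ)] with k hkk
        exact hkk.le
      filter_upwards [hev] with k hkδ
      rw [Real.dist_eq, sub_zero]
      by_cases hl' : l ∈ (H k).image π
      · obtain ⟨j, hj, rfl⟩ := Finset.mem_image.1 hl'
        rw [dWmem _ (hH k) j hj, dWmem _ (hH k) j hj]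
        exact (hPu j ((hH k).1 j hj) (y k) hkδ).trans_lt (by linarith)
      · rw [dWnot _ _ _ hl', dWnot _ _ _ hl', sub_zero, abs_zero]
        exact hη'
    have l1 := lim F hF hk hk0
    have l2 := lim G hG (fun k => -hk k) (by simpa using hk0.neg)
    have l3 := ((l1.sub l2).add hpar).const_mul (w (ι l))
    simp only [sub_zero, add_zero, mul_zero] at l3
    refine l3.congr fun k => ?_
    rw [← sub_eq_add_neg]
    ring

/-- The end coordinates. PROOF. As `diff_start`, with `Λ = T × Bool`, `O e' = σ {e'.1}`, `A k = (F k).image (·.2)` (injective on `F k` by `Fm.end_inj`), the index `inr e'`, and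
`Λ₀ = {e' | ε ≤ ‖σ {e'.1} x‖}` (finite). -/
theorem Sys.diff_end (h : Sys T Z X top p r B ν e σ) (hw : ∀ i, 1 ≤ w i ∧ w i ≤ 2) (x : X)
    (hg : ∀ i, 0 < val r ν σ i x → Good top p r ν σ w x i)
    (𝒰 : Ultrafilter ℕ) (F G : ℕ → Finset (T × (T × Bool))) (hF : ∀ k, Fm top (F k))
    (hG : ∀ k, Fm top (G k))
    (hMF : Tendsto (fun k => PF top p r ν σ w (F k) x) (𝒰 : Filter ℕ) (𝓝 (Phi top p r ν σ w x)))
    (hMG : Tendsto (fun k => PF top p r ν σ w (G k) x) (𝒰 : Filter ℕ) (𝓝 (Phi top p r ν σ w x)))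
    (hk : ℕ → X) (hk0 : Tendsto hk (𝒰 : Filter ℕ) (𝓝 0)) (hk1 : ∀ k, ‖hk k‖ ≤ 1)
    {η : ℝ} (hη : 0 < η) :
    ∀ᶠ k in (𝒰 : Filter ℕ),
      ∑ j ∈ F k, P top r ν σ w j (x + hk k) ^ (p / r - 1) *
          (w (Sum.inr j.2) * (ν (σ {j.2.1} (x + hk k)) ^ r - ν (σ {j.2.1} x) ^ r)) +
        ∑ j ∈ G k, P top r ν σ w j (x - hk k) ^ (p / r - 1) *
          (w (Sum.inr j.2) * (ν (σ {j.2.1} (x - hk k)) ^ r - ν (σ {j.2.1} x) ^ r)) ≤ η * ‖hk k‖ := by
  refine C8e_gen h hw x hg 𝒰 F G hF hG hMF hMG hk hk0 hk1 hη (fun j => j.2) Sum.inr (fun l => l.1) ?_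
    (fun l => rfl) ?_ ?_ ?_
  · intro l j
    constructor
    · rintro (h1 | h1)
      · exact absurd h1 Sum.inl_ne_inr
      · exact Sum.inr.inj h1
    · intro h1
      exact Or.inr (congrArg Sum.inr h1)
  · intro ε hε
    have h1 := (h.node_fin x hε).prod (Set.finite_univ : (Set.univ : Set Bool).Finite)
    refine h1.subset ?_
    intro l hl
    exact ⟨hl, trivial⟩
  · intro F hF z
    exact (h.three hF z).2.2
  · intro j z
    have h1 : 0 ≤ ν (σ (sg top j) z) ^ r := Real.rpow_nonneg (h.nu_nonneg _) _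
    have h2 : 0 ≤ ν (σ {j.1} z) ^ r := Real.rpow_nonneg (h.nu_nonneg _) _
    have h3 : 0 ≤ ν (σ {j.2.1} z) ^ r := Real.rpow_nonneg (h.nu_nonneg _) _
    have h4 := mul_nonneg (zero_le_one.trans (hw (Sum.inl j.1)).1) h2
    have h5 := mul_le_mul_of_nonneg_right (hw (Sum.inr j.2)).1 h3
    simp only [P]
    linarith

end Pool.Agent.JTS
end

section

/-!
The increments of the `σ` coordinates.
-/

set_option autoImplicit false

namespace Pool.Agent.JTS

open Filter Topology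

variable {T Z X : Type} [PartialOrder T] [NormedAddCommGroup Z] [NormedSpace ℝ Z]
    [NormedAddCommGroup X] [NormedSpace ℝ X] {top : T → Set T} {p r B : ℝ} {ν : Z → ℝ}
    {e : (T →₀ Z) →ₗ[ℝ] X} {σ : Set T → X →L[ℝ] Z} {w : Ix T → ℝ}

private theorem C8s_M (h : Sys T Z X top p r B ν e σ) (hw : ∀ i, 1 ≤ w i ∧ w i ≤ 2) (x y : X)
    (hy : ‖y‖ ≤ 1) (j : T × (T × Bool)) (hj : j.1 ∈ ec top j.2) :
    0 ≤ P top r ν σ w j (x + y) ^ (p / r - 1) ∧
      P top r ν σ w j (x + y) ^ (p / r - 1) ≤ (10 * (B * (‖x‖ + 1))) ^ (p - r) := by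
  have hw0 : ∀ i, 0 ≤ w i := fun i => zero_le_one.trans (hw i).1
  have hB := h.hB
  have h3 : ‖x + y‖ ≤ ‖x‖ + 1 := (norm_add_le _ _).trans (by linarith)
  have h4 : B * ‖x + y‖ ≤ B * (‖x‖ + 1) := mul_le_mul_of_nonneg_left h3 (by linarith)
  refine ⟨Real.rpow_nonneg (h.P_nonneg hw0 j _) _, (h.P_le hw (x + y) j hj).trans ?_⟩
  exact Real.rpow_le_rpow (by positivity) (by linarith) (by linarith [h.hrp])

omit [NormedSpace ℝ X] in
private theorem C8s_small {y : ℕ → X} {𝒰 : Ultrafilter ℕ}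
    (hy : Tendsto y (𝒰 : Filter ℕ) (𝓝 0)) {δ : ℝ} (hδ : 0 < δ) :
    ∀ᶠ k in (𝒰 : Filter ℕ), ‖y k‖ ≤ δ := by
  have h1 : Tendsto (fun k => ‖y k‖) (𝒰 : Filter ℕ) (𝓝 0) := by
    have := hy.norm
    rwa [norm_zero] at this
  filter_upwards [h1.eventually (gt_mem_nhds hδ)] with k hkk
  exact hkk.le

open Classical in
private theorem C8s_tail (h : Sys T Z X top p r B ν e σ) (hw : ∀ i, 1 ≤ w i ∧ w i ≤ 2) (x : X)
    (𝒰 : Ultrafilter ℕ) (F : ℕ → Finset (T × (T × Bool))) (hF : ∀ k, Fm top (F k))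
    (hMF : Tendsto (fun k => PF top p r ν σ w (F k) x) (𝒰 : Filter ℕ) (𝓝 (Phi top p r ν σ w x)))
    (y : ℕ → X) (hy : Tendsto y (𝒰 : Filter ℕ) (𝓝 0)) {η : ℝ} (hη : 0 < η) :
    ∃ L : Finset (T × (T × Bool)), ∀ L' : Finset (T × (T × Bool)), L ⊆ L' →
      ∀ᶠ k in (𝒰 : Filter ℕ), ∑ j ∈ (F k).filter (fun j => j ∉ L'),
        P top r ν σ w j (x + y k) ^ (p / r - 1) *
          |ν (σ (sg top j) (x + y k)) ^ r - ν (σ (sg top j) x) ^ r| ≤ η * ‖y k‖ := by
  obtain ⟨ε, hε, δ, hδ, htail⟩ := h.tail hw x hη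
  obtain ⟨L, _, hL⟩ := h.ndL hw x 𝒰 F hF hMF hε
  refine ⟨L, fun L' hLL' => ?_⟩
  filter_upwards [hL, C8s_small hy hδ] with k hkL hkδ
  refine htail (F k) _ (hF k) (Finset.filter_subset _ _) (fun j => σ (sg top j)) ?_ ?_ ?_ ?_
    (y k) hkδ
  · intro j z
    have h2 : 0 ≤ ν (σ {j.1} z) ^ r := Real.rpow_nonneg (h.nu_nonneg _) _
    have h3 : 0 ≤ ν (σ {j.2.1} z) ^ r := Real.rpow_nonneg (h.nu_nonneg _) _
    have h4 := mul_nonneg (zero_le_one.trans (hw (Sum.inl j.1)).1) h2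
    have h5 := mul_nonneg (zero_le_one.trans (hw (Sum.inr j.2)).1) h3
    simp only [P]
    linarith
  · intro j z
    exact h.le (cc_sg h.tree h.htop j) z
  · intro z
    refine ((h.three (hF k) z).1).trans ?_
    have hB := h.hB
    have : 0 ≤ (B * ‖z‖) ^ p := Real.rpow_nonneg (mul_nonneg (by linarith) (norm_nonneg _)) _
    linarith
  · intro j hj
    rw [Finset.mem_filter] at hj
    by_contra hcon
    rw [not_lt] at hcon
    have : j ∈ L := by
      rw [← hkL, Finset.mem_filter]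
      exact ⟨hj.1, hcon⟩
    exact hj.2 (hLL' this)

/-- The `σ` coordinates. PROOF. `h.type_lemma` with `Λ = T × (T × Bool)`, `O j = σ (sg top j)`, `A k = F k`, `A' k = G k`, `a k j = P_j(x + h k)^(κ-1)`,
`a' k j = P_j(x - h k)^(κ-1)`. (The families may be changed for the `k` outside a set of the ultrafilter; `‖h k‖ ≤ 1` eventually: to have `M` for all `k`,
replace `h k` by `0` when `‖h k‖ > 1`, or prove the lemma with `∀ᶠ`.) `h1`: `h.tail` for `η` gives `ε, δ`; `Λ₀ = L_F ∪ L_G` from `h.ndL` for `F, G` and this `ε`; eventually the `j ∈ F k` outside `Λ₀` have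
`‖σ (sg top j) x‖ < ε`. `h2`: let `σ (sg top l) x ≠ 0`. Either eventually `l ∈ F k`, then also `l ∈ G k` (`h.uniq`), and the difference tends to `0` (`h.P_unif`);
or eventually `l ∉ F k`, then eventually `l ∉ G k` (`h.uniq` with `F, G` exchanged), the difference is `0`. -/
theorem Sys.diff_sigma (h : Sys T Z X top p r B ν e σ) (hw : ∀ i, 1 ≤ w i ∧ w i ≤ 2) (x : X)
    (hg : ∀ i, 0 < val r ν σ i x → Good top p r ν σ w x i)
    (𝒰 : Ultrafilter ℕ) (F G : ℕ → Finset (T × (T × Bool))) (hF : ∀ k, Fm top (F k))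
    (hG : ∀ k, Fm top (G k))
    (hMF : Tendsto (fun k => PF top p r ν σ w (F k) x) (𝒰 : Filter ℕ) (𝓝 (Phi top p r ν σ w x)))
    (hMG : Tendsto (fun k => PF top p r ν σ w (G k) x) (𝒰 : Filter ℕ) (𝓝 (Phi top p r ν σ w x)))
    (hk : ℕ → X) (hk0 : Tendsto hk (𝒰 : Filter ℕ) (𝓝 0)) (hk1 : ∀ k, ‖hk k‖ ≤ 1)
    {η : ℝ} (hη : 0 < η) :
    ∀ᶠ k in (𝒰 : Filter ℕ),
      ∑ j ∈ F k, P top r ν σ w j (x + hk k) ^ (p / r - 1) *
          (ν (σ (sg top j) (x + hk k)) ^ r - ν (σ (sg top j) x) ^ r) +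
        ∑ j ∈ G k, P top r ν σ w j (x - hk k) ^ (p / r - 1) *
          (ν (σ (sg top j) (x - hk k)) ^ r - ν (σ (sg top j) x) ^ r) ≤ η * ‖hk k‖ := by
  classical
  have hkn : Tendsto (fun k => -hk k) (𝒰 : Filter ℕ) (𝓝 0) := by simpa using hk0.neg
  refine h.type_lemma (Λ := T × (T × Bool)) (fun j => σ (sg top j))
    (fun j z => h.le (cc_sg h.tree h.htop j) z) x 𝒰 hk hk0 F G
    (fun k j => P top r ν σ w j (x + hk k) ^ (p / r - 1))
    (fun k j => P top r ν σ w j (x - hk k) ^ (p / r - 1))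
    (M := (10 * (B * (‖x‖ + 1))) ^ (p - r)) ?_ ?_ ?_ ?_ hη
  · intro k l hl
    exact C8s_M h hw x (hk k) (hk1 k) l ((hF k).1 l hl)
  · intro k l hl
    have := C8s_M h hw x (-hk k) (by rw [norm_neg]; exact hk1 k) l ((hG k).1 l hl)
    rw [← sub_eq_add_neg] at this
    exact this
  · intro η' hη'
    obtain ⟨L1, hL1⟩ := C8s_tail h hw x 𝒰 F hF hMF hk hk0 hη'
    obtain ⟨L2, hL2⟩ := C8s_tail h hw x 𝒰 G hG hMG (fun k => -hk k) hkn hη'
    refine ⟨L1 ∪ L2, ?_⟩
    filter_upwards [hL1 (L1 ∪ L2) Finset.subset_union_left,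
      hL2 (L1 ∪ L2) Finset.subset_union_right] with k h1 h2
    refine ⟨by convert h1, ?_⟩
    rw [norm_neg, ← sub_eq_add_neg] at h2
    convert h2
  · intro l hl
    have lim : ∀ y : ℕ → X, Tendsto y (𝒰 : Filter ℕ) (𝓝 0) → l.1 ∈ ec top l.2 →
        Tendsto (fun k => P top r ν σ w l (x + y k) ^ (p / r - 1)) (𝒰 : Filter ℕ)
          (𝓝 (P top r ν σ w l x ^ (p / r - 1))) := by
      intro y hy hl1
      rw [Metric.tendsto_nhds]
      intro η' hη'
      obtain ⟨δ, hδ, hPu⟩ := h.P_unif hw x (half_pos hη')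
      filter_upwards [C8s_small hy hδ] with k hkδ
      rw [Real.dist_eq]
      exact (hPu l hl1 (y k) hkδ).trans_lt (by linarith)
    by_cases hev : ∀ᶠ k in (𝒰 : Filter ℕ), l ∈ F k
    · have hev2 := h.uniq hw x hg 𝒰 F G hF hG hMF hMG l hev hl
      obtain ⟨k₀, hk₀⟩ := hev.exists
      have hl1 : l.1 ∈ ec top l.2 := (hF k₀).1 l hk₀
      have l3 := (lim hk hk0 hl1).sub (lim (fun k => -hk k) hkn hl1)
      rw [sub_self] at l3
      refine l3.congr' ?_
      filter_upwards [hev, hev2] with k h1 h2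
      rw [if_pos h1, if_pos h2, ← sub_eq_add_neg]
    · have hev2 : ¬ ∀ᶠ k in (𝒰 : Filter ℕ), l ∈ G k := fun h2 =>
        hev (h.uniq hw x hg 𝒰 G F hG hF hMG hMF l h2 hl)
      rw [← Ultrafilter.eventually_not] at hev hev2
      refine tendsto_const_nhds.congr' ?_
      filter_upwards [hev, hev2] with k h1 h2
      rw [if_neg h1, if_neg h2, sub_zero]

end Pool.Agent.JTS
end

section

/-!
The increments of the start coordinates.
-/

set_option autoImplicit false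

namespace Pool.Agent.JTS

open Filter Topology

variable {T Z X : Type} [PartialOrder T] [NormedAddCommGroup Z] [NormedSpace ℝ Z]
    [NormedAddCommGroup X] [NormedSpace ℝ X] {top : T → Set T} {p r B : ℝ} {ν : Z → ℝ}
    {e : (T →₀ Z) →ₗ[ℝ] X} {σ : Set T → X →L[ℝ] Z} {w : Ix T → ℝ}

open Classical in
private theorem C8t_gen (h : Sys T Z X top p r B ν e σ) (hw : ∀ i, 1 ≤ w i ∧ w i ≤ 2) (x : X)
    (hg : ∀ i, 0 < val r ν σ i x → Good top p r ν σ w x i)
    (𝒰 : Ultrafilter ℕ) (F G : ℕ → Finset (T × (T × Bool))) (hF : ∀ k, Fm top (F k))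
    (hG : ∀ k, Fm top (G k))
    (hMF : Tendsto (fun k => PF top p r ν σ w (F k) x) (𝒰 : Filter ℕ) (𝓝 (Phi top p r ν σ w x)))
    (hMG : Tendsto (fun k => PF top p r ν σ w (G k) x) (𝒰 : Filter ℕ) (𝓝 (Phi top p r ν σ w x)))
    (hk : ℕ → X) (hk0 : Tendsto hk (𝒰 : Filter ℕ) (𝓝 0)) (hk1 : ∀ k, ‖hk k‖ ≤ 1)
    {η : ℝ} (hη : 0 < η) {Λ : Type} (π : T × (T × Bool) → Λ) (ι : Λ → Ix T) (nd : Λ → T)
    (hUse : ∀ l j, Use (ι l) j ↔ π j = l)
    (hval : ∀ l, val r ν σ (ι l) x = ν (σ {nd l} x) ^ r)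
    (hfin : ∀ ε : ℝ, 0 < ε → {l : Λ | ε ≤ ‖σ {nd l} x‖}.Finite)
    (hsum : ∀ F, Fm top F → ∀ z, ∑ j ∈ F, ν (σ {nd (π j)} z) ^ p ≤ 2 * (B * ‖z‖) ^ p)
    (hP : ∀ j z, ν (σ {nd (π j)} z) ^ r ≤ P top r ν σ w j z) :
    ∀ᶠ k in (𝒰 : Filter ℕ),
      ∑ j ∈ F k, P top r ν σ w j (x + hk k) ^ (p / r - 1) *
          (w (ι (π j)) * (ν (σ {nd (π j)} (x + hk k)) ^ r - ν (σ {nd (π j)} x) ^ r)) +
        ∑ j ∈ G k, P top r ν σ w j (x - hk k) ^ (p / r - 1) *
          (w (ι (π j)) * (ν (σ {nd (π j)} (x - hk k)) ^ r - ν (σ {nd (π j)} x) ^ r)) ≤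
      η * ‖hk k‖ := by
  have hw0 : ∀ i, 0 ≤ w i := fun i => zero_le_one.trans (hw i).1
  have hr0 : 0 < r := zero_lt_one.trans h.hr
  have inj : ∀ F, Fm top F → ∀ j ∈ F, ∀ j' ∈ F, π j = π j' → j = j' :=
    fun F hF j hj j' hj' hjj' => h.use_unique hF hj hj' ((hUse (π j) j).2 rfl)
      ((hUse (π j) j').2 hjj'.symm)
  have dWmem : ∀ F, Fm top F → ∀ j ∈ F, ∀ z, dW top p r ν σ w F (ι (π j)) z =
      P top r ν σ w j z ^ (p / r - 1) := by
    intro F hF j hj z
    have h1 : F.filter (fun j' => Use (ι (π j)) j') = {j} := by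
      ext j'
      rw [Finset.mem_filter, Finset.mem_singleton]
      constructor
      · rintro ⟨h2, h3⟩
        exact inj F hF j' h2 j hj ((hUse _ _).1 h3)
      · rintro rfl
        exact ⟨hj, (hUse _ _).2 rfl⟩
    rw [dW, h1, Finset.sum_singleton]
  have dWnot : ∀ (F : Finset (T × (T × Bool))) (l : Λ) (z : X), l ∉ F.image π →
      dW top p r ν σ w F (ι l) z = 0 := by
    intro F l z hl
    have h1 : F.filter (fun j' => Use (ι l) j') = ∅ := by
      refine Finset.filter_eq_empty_iff.2 fun j hj h2 => hl ?_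
      exact Finset.mem_image.2 ⟨j, hj, (hUse _ _).1 h2⟩
    rw [dW, h1, Finset.sum_empty]
  have key := h.type_lemma (Λ := Λ) (fun l => σ {nd l}) (fun l z => h.le (cc_single _) z) x 𝒰 hk hk0
    (fun k => (F k).image π) (fun k => (G k).image π)
    (fun k l => w (ι l) * dW top p r ν σ w (F k) (ι l) (x + hk k))
    (fun k l => w (ι l) * dW top p r ν σ w (G k) (ι l) (x - hk k))
    (M := 2 * (10 * (B * (‖x‖ + 1))) ^ (p - r)) ?_ ?_ ?_ ?_ hη
  · filter_upwards [key] with k hkey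
    have hinj1 : ∀ j ∈ F k, ∀ j' ∈ F k, π j = π j' → j = j' := inj _ (hF k)
    have hinj2 : ∀ j ∈ G k, ∀ j' ∈ G k, π j = π j' → j = j' := inj _ (hG k)
    rw [Finset.sum_image hinj1, Finset.sum_image hinj2] at hkey
    refine le_of_eq_of_le ?_ hkey
    congr 1
    · refine Finset.sum_congr rfl fun j hj => ?_
      rw [dWmem _ (hF k) j hj]
      ring
    · refine Finset.sum_congr rfl fun j hj => ?_
      rw [dWmem _ (hG k) j hj]
      ring
  · intro k l hl
    obtain ⟨j, hj, rfl⟩ := Finset.mem_image.1 hl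
    rw [dWmem _ (hF k) j hj]
    have h1 := h.P_le hw (x + hk k) j ((hF k).1 j hj)
    have h2 : (10 * (B * ‖x + hk k‖)) ^ (p - r) ≤ (10 * (B * (‖x‖ + 1))) ^ (p - r) := by
      have hB := h.hB
      have h3 : ‖x + hk k‖ ≤ ‖x‖ + 1 := (norm_add_le _ _).trans (by linarith [hk1 k])
      refine Real.rpow_le_rpow (by positivity) ?_ (by linarith [h.hrp])
      have h4 : B * ‖x + hk k‖ ≤ B * (‖x‖ + 1) := mul_le_mul_of_nonneg_left h3 (by linarith)
      linarith
    have h5 : 0 ≤ P top r ν σ w j (x + hk k) ^ (p / r - 1) :=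
      Real.rpow_nonneg (h.P_nonneg hw0 j _) _
    exact ⟨mul_nonneg (hw0 _) h5, mul_le_mul (hw _).2 (h1.trans h2) h5 (by norm_num)⟩
  · intro k l hl
    obtain ⟨j, hj, rfl⟩ := Finset.mem_image.1 hl
    rw [dWmem _ (hG k) j hj]
    have h1 := h.P_le hw (x - hk k) j ((hG k).1 j hj)
    have h2 : (10 * (B * ‖x - hk k‖)) ^ (p - r) ≤ (10 * (B * (‖x‖ + 1))) ^ (p - r) := by
      have hB := h.hB
      have h3 : ‖x - hk k‖ ≤ ‖x‖ + 1 := (norm_sub_le _ _).trans (by linarith [hk1 k])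
      refine Real.rpow_le_rpow (by positivity) ?_ (by linarith [h.hrp])
      have h4 : B * ‖x - hk k‖ ≤ B * (‖x‖ + 1) := mul_le_mul_of_nonneg_left h3 (by linarith)
      linarith
    have h5 : 0 ≤ P top r ν σ w j (x - hk k) ^ (p / r - 1) :=
      Real.rpow_nonneg (h.P_nonneg hw0 j _) _
    exact ⟨mul_nonneg (hw0 _) h5, mul_le_mul (hw _).2 (h1.trans h2) h5 (by norm_num)⟩
  · intro η' hη'
    obtain ⟨ε, hε, δ, hδ, htail⟩ := h.tail hw x (half_pos hη')
    refine ⟨(hfin ε hε).toFinset, ?_⟩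
    have hev : ∀ᶠ k in (𝒰 : Filter ℕ), ‖hk k‖ ≤ δ := by
      have h1 : Tendsto (fun k => ‖hk k‖) (𝒰 : Filter ℕ) (𝓝 0) := by
        have := hk0.norm
        rwa [norm_zero] at this
      filter_upwards [h1.eventually (gt_mem_nhds hδ)] with k hkk
      exact hkk.le
    filter_upwards [hev] with k hkδ
    have main : ∀ (H : Finset (T × (T × Bool))), Fm top H → ∀ y : X, ‖y‖ ≤ δ →
        ∑ l ∈ (H.image π).filter (fun l => l ∉ (hfin ε hε).toFinset),
          (w (ι l) * dW top p r ν σ w H (ι l) (x + y)) *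
            |ν (σ {nd l} (x + y)) ^ r - ν (σ {nd l} x) ^ r| ≤ η' * ‖y‖ := by
      intro H hH y hy
      rw [Finset.filter_image, Finset.sum_image]
      · have h1 := htail H (H.filter (fun j => π j ∉ (hfin ε hε).toFinset)) hH
          (Finset.filter_subset _ _) (fun j => σ {nd (π j)}) hP
          (fun j z => h.le (cc_single _) z) (hsum H hH) ?_ y hy
        · have h2 : ∑ j ∈ H.filter (fun j => π j ∉ (hfin ε hε).toFinset),
              (w (ι (π j)) * dW top p r ν σ w H (ι (π j)) (x + y)) *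
                |ν (σ {nd (π j)} (x + y)) ^ r - ν (σ {nd (π j)} x) ^ r| ≤
              ∑ j ∈ H.filter (fun j => π j ∉ (hfin ε hε).toFinset),
              2 * (P top r ν σ w j (x + y) ^ (p / r - 1) *
                |ν (σ {nd (π j)} (x + y)) ^ r - ν (σ {nd (π j)} x) ^ r|) := by
            refine Finset.sum_le_sum fun j hj => ?_
            rw [dWmem _ hH j (Finset.mem_filter.1 hj).1, mul_assoc]
            refine mul_le_mul_of_nonneg_right (hw _).2 (mul_nonneg ?_ (abs_nonneg _))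
            exact Real.rpow_nonneg (h.P_nonneg hw0 j _) _
          rw [← Finset.mul_sum] at h2
          linarith
        · intro j hj
          have h2 := (Finset.mem_filter.1 hj).2
          rw [Set.Finite.mem_toFinset] at h2
          exact not_le.1 h2
      · intro j hj j' hj' hjj'
        exact inj H hH j (Finset.mem_filter.1 hj).1 j' (Finset.mem_filter.1 hj').1 hjj'
    refine ⟨main (F k) (hF k) (hk k) hkδ, ?_⟩
    have h2 := main (G k) (hG k) (-hk k) (by rwa [norm_neg])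
    rw [norm_neg, ← sub_eq_add_neg] at h2
    exact h2
  · intro l hl
    have hv : 0 < val r ν σ (ι l) x := by
      rw [hval]
      exact Real.rpow_pos_of_pos ((norm_pos_iff.2 hl).trans_le (h.lo _)) _
    have hpar := h.param hw x 𝒰 F G hF hG hMF hMG (ι l) hv (hg _ hv)
    have e1 : ∀ k, (if l ∈ (F k).image π then w (ι l) * dW top p r ν σ w (F k) (ι l) (x + hk k)
        else 0) = w (ι l) * dW top p r ν σ w (F k) (ι l) (x + hk k) := by
      intro k
      split_ifs with hl'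
      · rfl
      · rw [dWnot _ _ _ hl', mul_zero]
    have e2 : ∀ k, (if l ∈ (G k).image π then w (ι l) * dW top p r ν σ w (G k) (ι l) (x - hk k)
        else 0) = w (ι l) * dW top p r ν σ w (G k) (ι l) (x - hk k) := by
      intro k
      split_ifs with hl'
      · rfl
      · rw [dWnot _ _ _ hl', mul_zero]
    simp only [e1, e2]
    have lim : ∀ (H : ℕ → Finset (T × (T × Bool))) (_ : ∀ k, Fm top (H k)) (y : ℕ → X),
        Tendsto y (𝒰 : Filter ℕ) (𝓝 0) → Tendsto (fun k => dW top p r ν σ w (H k) (ι l) (x + y k) -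
          dW top p r ν σ w (H k) (ι l) x) (𝒰 : Filter ℕ) (𝓝 0) := by
      intro H hH y hy
      rw [Metric.tendsto_nhds]
      intro η' hη'
      obtain ⟨δ, hδ, hPu⟩ := h.P_unif hw x (half_pos hη')
      have hev : ∀ᶠ k in (𝒰 : Filter ℕ), ‖y k‖ ≤ δ := by
        have h1 : Tendsto (fun k => ‖y k‖) (𝒰 : Filter ℕ) (𝓝 0) := by
          have := hy.norm
          rwa [norm_zero] at this
        filter_upwards [h1.eventually (gt_mem_nhds hδ)] with k hkk
        exact hkk.le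
      filter_upwards [hev] with k hkδ
      rw [Real.dist_eq, sub_zero]
      by_cases hl' : l ∈ (H k).image π
      · obtain ⟨j, hj, rfl⟩ := Finset.mem_image.1 hl'
        rw [dWmem _ (hH k) j hj, dWmem _ (hH k) j hj]
        exact (hPu j ((hH k).1 j hj) (y k) hkδ).trans_lt (by linarith)
      · rw [dWnot _ _ _ hl', dWnot _ _ _ hl', sub_zero, abs_zero]
        exact hη'
    have l1 := lim F hF hk hk0
    have l2 := lim G hG (fun k => -hk k) (by simpa using hk0.neg)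
    have l3 := ((l1.sub l2).add hpar).const_mul (w (ι l))
    simp only [sub_zero, add_zero, mul_zero] at l3
    refine l3.congr fun k => ?_
    rw [← sub_eq_add_neg]
    ring

/-- The start coordinates. PROOF. `h.type_lemma` with `Λ = T`, `O s = σ {s}`, `A k = (F k).image (·.1)` (injective on `F k`), `a k s = w (inl s) * P_j(x + h k)^(κ-1)` for the
member `j` with start `s` (equivalently `w (inl s) * ∑_{j ∈ F k, j.1 = s} P_j(x + h k)^(κ-1)`). `h1`: `h.tail` with `O j = σ {j.1}` (`w ≥ 1` gives `hO`),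
`Λ₀ = {s | ε ≤ ‖σ {s} x‖}` (finite, `h.node_fin`). `h2`: for `σ {s} x ≠ 0`: `val (inl s) x > 0`, `dW (F k) (inl s) x - dW (G k) (inl s) x → 0`
(`h.param`), and replacing `x` by `x ± h k` changes each `dW` by at most `η` (`h.P_unif`; at most one member uses `inl s`). -/
theorem Sys.diff_start (h : Sys T Z X top p r B ν e σ) (hw : ∀ i, 1 ≤ w i ∧ w i ≤ 2) (x : X)
    (hg : ∀ i, 0 < val r ν σ i x → Good top p r ν σ w x i)
    (𝒰 : Ultrafilter ℕ) (F G : ℕ → Finset (T × (T × Bool))) (hF : ∀ k, Fm top (F k))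
    (hG : ∀ k, Fm top (G k))
    (hMF : Tendsto (fun k => PF top p r ν σ w (F k) x) (𝒰 : Filter ℕ) (𝓝 (Phi top p r ν σ w x)))
    (hMG : Tendsto (fun k => PF top p r ν σ w (G k) x) (𝒰 : Filter ℕ) (𝓝 (Phi top p r ν σ w x)))
    (hk : ℕ → X) (hk0 : Tendsto hk (𝒰 : Filter ℕ) (𝓝 0)) (hk1 : ∀ k, ‖hk k‖ ≤ 1)
    {η : ℝ} (hη : 0 < η) :
    ∀ᶠ k in (𝒰 : Filter ℕ),
      ∑ j ∈ F k, P top r ν σ w j (x + hk k) ^ (p / r - 1) *
          (w (Sum.inl j.1) * (ν (σ {j.1} (x + hk k)) ^ r - ν (σ {j.1} x) ^ r)) +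
        ∑ j ∈ G k, P top r ν σ w j (x - hk k) ^ (p / r - 1) *
          (w (Sum.inl j.1) * (ν (σ {j.1} (x - hk k)) ^ r - ν (σ {j.1} x) ^ r)) ≤ η * ‖hk k‖ := by
  refine C8t_gen h hw x hg 𝒰 F G hF hG hMF hMG hk hk0 hk1 hη (fun j => j.1) Sum.inl id ?_
    (fun l => rfl) (fun ε hε => h.node_fin x hε) ?_ ?_
  · intro l j
    constructor
    · rintro (h1 | h1)
      · exact Sum.inl.inj h1
      · exact absurd h1 Sum.inr_ne_inl
    · intro h1
      exact Or.inl (congrArg Sum.inl h1)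
  · intro F hF z
    refine ((h.three hF z).2.1).trans ?_
    have hB := h.hB
    have : 0 ≤ (B * ‖z‖) ^ p := Real.rpow_nonneg (mul_nonneg (by linarith) (norm_nonneg _)) _
    linarith
  · intro j z
    have h1 : 0 ≤ ν (σ (sg top j) z) ^ r := Real.rpow_nonneg (h.nu_nonneg _) _
    have h2 : 0 ≤ ν (σ {j.1} z) ^ r := Real.rpow_nonneg (h.nu_nonneg _) _
    have h3 : 0 ≤ ν (σ {j.2.1} z) ^ r := Real.rpow_nonneg (h.nu_nonneg _) _
    have h4 := mul_le_mul_of_nonneg_right (hw (Sum.inl j.1)).1 h2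
    have h5 := mul_nonneg (zero_le_one.trans (hw (Sum.inr j.2)).1) h3
    simp only [P, id]
    linarith

end Pool.Agent.JTS
end

section

/-!
`Phi` has small second differences at `x`: assembly.
-/

set_option autoImplicit false

namespace Pool.Agent.JTS

open Filter Topology

variable {T Z X : Type} [PartialOrder T] [NormedAddCommGroup Z] [NormedSpace ℝ Z]
    [NormedAddCommGroup X] [NormedSpace ℝ X] {top : T → Set T} {p r B : ℝ} {ν : Z → ℝ}
    {e : (T →₀ Z) →ₗ[ℝ] X} {σ : Set T → X →L[ℝ] Z} {w : Ix T → ℝ}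

/-- PROOF. The quotient is `≥ 0` (`h.Phi_mid`). It is enough (`tendsto_iff_ultrafilter`, or by contradiction with an ultrafilter `≤ atTop` containing the set where the quotient is `≥ θ`) to show for
every ultrafilter `𝒰 ≤ atTop` and `θ > 0`: eventually the quotient is `≤ θ`. Changing finitely many `h k` we may assume `‖h k‖ ≤ 1` (the ultrafilter is `≤ atTop`; or work with
`h' k = h k` if `‖h k‖ ≤ 1`, else `0`). Choose `F k`, `G k` with `Phi (x + h k) - ‖h k‖ ^ 2 < PF (F k) (x + h k)`, `Phi (x - h k) - ‖h k‖ ^ 2 < PF (G k) (x - h k)` (if `h k = 0` any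
with error `1/(k+1)`; or use the error `‖h k‖ ^ 2 + 1/(k+1)^..`, the case `h k ≠ 0` is given by `hne`). They are maximising at `x`: `PF (F k) x ≥ PF (F k) (x + h k) - C ‖h k‖ ≥ Phi (x + h k) - ‖h k‖^2 - C ‖h k‖
≥ Phi x - ..` (`h.PF_lip`, `h.Phi_lip`), and `≤ Phi x`. Now `Phi (x + h) + Phi (x - h) - 2 Phi x ≤ [PF F (x+h) - PF F x] + [PF G (x-h) - PF G x] + 2 ‖h‖ ^ 2`,
`P_j(x+h)^κ - P_j(x)^κ ≤ κ P_j(x+h)^(κ-1) (P_j(x+h) - P_j(x))` (`rpow_sub_le`), and `P_j(x+h) - P_j(x)` is the sum of the three increments of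
`diff_sigma`, `diff_start`, `diff_end`. So eventually the second difference is `≤ κ · 3 η ‖h k‖ + 2 ‖h k‖ ^ 2`. -/
theorem Sys.second_diff (h : Sys T Z X top p r B ν e σ) (hw : ∀ i, 1 ≤ w i ∧ w i ≤ 2) (x : X)
    (hg : ∀ i, 0 < val r ν σ i x → Good top p r ν σ w x i)
    (hk : ℕ → X) (hk0 : Tendsto hk atTop (𝓝 0)) (hne : ∀ k, hk k ≠ 0) :
    Tendsto (fun k => (Phi top p r ν σ w (x + hk k) + Phi top p r ν σ w (x - hk k) -
      2 * Phi top p r ν σ w x) / ‖hk k‖) atTop (𝓝 0) := by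
  have hw3 : ∀ i, 0 ≤ w i ∧ w i ≤ 3 := fun i => ⟨by linarith [(hw i).1], by linarith [(hw i).2]⟩
  have hw0 : ∀ i, 0 ≤ w i := fun i => (hw3 i).1
  have hr0 : 0 < r := by linarith [h.hr]
  have hp1 : 1 < p := by linarith [h.hr, h.hrp]
  have hκ : 1 < p / r := by rw [lt_div_iff₀ hr0]; linarith [h.hrp]
  have hB0 : 0 ≤ B := by linarith [h.hB]
  have hpos : ∀ k, 0 < ‖hk k‖ := fun k => norm_pos_iff.2 (hne k)
  have hQ0 : ∀ k, 0 ≤ (Phi top p r ν σ w (x + hk k) + Phi top p r ν σ w (x - hk k) -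
      2 * Phi top p r ν σ w x) / ‖hk k‖ := fun k =>
    div_nonneg (by linarith [h.Phi_mid hw3 x (hk k)]) (norm_nonneg _)
  refine tendsto_order.2 ⟨fun a ha => Eventually.of_forall fun k => lt_of_lt_of_le ha (hQ0 k), ?_⟩
  intro θ hθ
  by_contra hcon
  have hfreq : ∃ᶠ k in atTop, θ ≤ (Phi top p r ν σ w (x + hk k) + Phi top p r ν σ w (x - hk k) -
      2 * Phi top p r ν σ w x) / ‖hk k‖ := by
    rw [Filter.not_eventually] at hcon
    exact hcon.mono fun k hk' => not_lt.1 hk'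
  set S : Set ℕ := {k | θ ≤ (Phi top p r ν σ w (x + hk k) + Phi top p r ν σ w (x - hk k) -
      2 * Phi top p r ν σ w x) / ‖hk k‖} with hS
  have : NeBot (atTop ⊓ 𝓟 S) := Filter.frequently_mem_iff_neBot.1 hfreq
  set 𝒰 : Ultrafilter ℕ := Ultrafilter.of (atTop ⊓ 𝓟 S) with h𝒰
  have hle : (𝒰 : Filter ℕ) ≤ atTop ⊓ 𝓟 S := Ultrafilter.of_le _
  have hleT : (𝒰 : Filter ℕ) ≤ atTop := hle.trans inf_le_left
  have hUS : ∀ᶠ k in (𝒰 : Filter ℕ), θ ≤ (Phi top p r ν σ w (x + hk k) +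
      Phi top p r ν σ w (x - hk k) - 2 * Phi top p r ν σ w x) / ‖hk k‖ :=
    (hle.trans inf_le_right) (Filter.mem_principal_self S)
  have hkU : Tendsto hk (𝒰 : Filter ℕ) (𝓝 0) := hk0.mono_left hleT
  have hnU : Tendsto (fun k => ‖hk k‖) (𝒰 : Filter ℕ) (𝓝 0) := by
    simpa using hkU.norm
  -- the truncated perturbation
  set g : ℕ → X := fun k => if ‖hk k‖ ≤ 1 then hk k else 0 with hgdef
  have hg1 : ∀ k, ‖g k‖ ≤ 1 := by
    intro k
    simp only [hgdef]
    split_ifs with hh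
    · exact hh
    · simp
  have hgle : ∀ k, ‖g k‖ ≤ ‖hk k‖ := by
    intro k
    simp only [hgdef]
    split_ifs with hh
    · exact le_rfl
    · simp
  have hgeq : ∀ᶠ k in (𝒰 : Filter ℕ), g k = hk k := by
    have : ∀ᶠ k in (𝒰 : Filter ℕ), ‖hk k‖ < 1 := hnU.eventually (gt_mem_nhds one_pos)
    filter_upwards [this] with k hk'
    simp only [hgdef]
    rw [if_pos hk'.le]
  have hg0 : Tendsto g (𝒰 : Filter ℕ) (𝓝 0) :=
    (tendsto_congr' hgeq).2 hkU
  have hgn : Tendsto (fun k => ‖g k‖) (𝒰 : Filter ℕ) (𝓝 0) := by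
    simpa using hg0.norm
  -- the families
  have hFex : ∀ k, ∃ F : Finset (T × (T × Bool)), Fm top F ∧
      Phi top p r ν σ w (x + g k) - ‖hk k‖ ^ 2 < PF top p r ν σ w F (x + g k) := fun k =>
    h.exists_near hw3 (x + g k) (by have := hpos k; positivity)
  have hGex : ∀ k, ∃ F : Finset (T × (T × Bool)), Fm top F ∧
      Phi top p r ν σ w (x - g k) - ‖hk k‖ ^ 2 < PF top p r ν σ w F (x - g k) := fun k =>
    h.exists_near hw3 (x - g k) (by have := hpos k; positivity)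
  choose F hF hFn using hFex
  choose G hG hGn using hGex
  set C : ℝ := p * (10 * (B * (‖x‖ + 1))) ^ (p - 1) * (10 * B) with hC
  have hlip0 : ∀ y : X, ‖y‖ ≤ 1 → p * (10 * (B * (‖x‖ + ‖y‖))) ^ (p - 1) * (10 * (B * ‖y‖)) ≤
      C * ‖y‖ := by
    intro y hy
    have h1 : (10 * (B * (‖x‖ + ‖y‖))) ^ (p - 1) ≤ (10 * (B * (‖x‖ + 1))) ^ (p - 1) := by
      apply Real.rpow_le_rpow
      · have := norm_nonneg x
        have := norm_nonneg y
        positivity
      · have : B * (‖x‖ + ‖y‖) ≤ B * (‖x‖ + 1) :=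
          mul_le_mul_of_nonneg_left (by linarith) hB0
        linarith
      · linarith
    have h2 : C * ‖y‖ = p * (10 * (B * (‖x‖ + 1))) ^ (p - 1) * (10 * (B * ‖y‖)) := by
      rw [hC]; ring
    rw [h2]
    apply mul_le_mul_of_nonneg_right
    · exact mul_le_mul_of_nonneg_left h1 (by linarith)
    · have := norm_nonneg y
      positivity
  have hmax : ∀ (E : ℕ → Finset (T × (T × Bool))) (y : ℕ → X), (∀ k, Fm top (E k)) →
      (∀ k, ‖y k‖ ≤ 1) → (∀ k, ‖y k‖ ≤ ‖hk k‖) →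
      (∀ k, Phi top p r ν σ w (x + y k) - ‖hk k‖ ^ 2 < PF top p r ν σ w (E k) (x + y k)) →
      Tendsto (fun k => PF top p r ν σ w (E k) x) (𝒰 : Filter ℕ) (𝓝 (Phi top p r ν σ w x)) := by
    intro E y hE hy1 hyk hn
    have hlow : Tendsto (fun k => Phi top p r ν σ w x - ‖hk k‖ ^ 2 - 2 * (C * ‖hk k‖))
        (𝒰 : Filter ℕ) (𝓝 (Phi top p r ν σ w x)) := by
      have h1 := (tendsto_const_nhds (x := Phi top p r ν σ w x) (f := (𝒰 : Filter ℕ))).sub
        (hnU.pow 2)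
      have h2 := h1.sub ((hnU.const_mul C).const_mul 2)
      simpa using h2
    have hC0 : 0 ≤ C := by
      rw [hC]
      have := norm_nonneg x
      positivity
    refine tendsto_of_tendsto_of_tendsto_of_le_of_le hlow tendsto_const_nhds ?_ ?_
    · intro k
      have a1 := abs_le.1 ((h.PF_lip hw3 (hE k) x (y k)).trans (hlip0 (y k) (hy1 k)))
      have a2 := abs_le.1 ((h.Phi_lip hw3 x (y k)).trans (hlip0 (y k) (hy1 k)))
      have a3 := hn k
      have a4 : C * ‖y k‖ ≤ C * ‖hk k‖ := mul_le_mul_of_nonneg_left (hyk k) hC0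
      simp only
      linarith [a1.1, a1.2, a2.1, a2.2]
    · intro k
      exact h.PF_le_Phi hw3 (hE k) x
  have hMF := hmax F g hF hg1 hgle hFn
  have hMG := hmax G (fun k => - g k) hG (fun k => by rw [norm_neg]; exact hg1 k)
    (fun k => by rw [norm_neg]; exact hgle k)
    (fun k => by simpa [sub_eq_add_neg] using hGn k)
  set η : ℝ := θ / (6 * (p / r)) with hη
  have hηpos : 0 < η := by positivity
  have e1 := h.diff_sigma hw x hg 𝒰 F G hF hG hMF hMG g hg0 hg1 hηpos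
  have e2 := h.diff_start hw x hg 𝒰 F G hF hG hMF hMG g hg0 hg1 hηpos
  have e3 := h.diff_end hw x hg 𝒰 F G hF hG hMF hMG g hg0 hg1 hηpos
  have e4 : ∀ᶠ k in (𝒰 : Filter ℕ), ‖hk k‖ < θ / 4 :=
    hnU.eventually (gt_mem_nhds (by positivity))
  -- the increment of a family
  have hinc : ∀ (E : Finset (T × (T × Bool))) (y : X),
      PF top p r ν σ w E y - PF top p r ν σ w E x ≤
        p / r * (∑ j ∈ E, P top r ν σ w j y ^ (p / r - 1) *
          (ν (σ (sg top j) y) ^ r - ν (σ (sg top j) x) ^ r) +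
        ∑ j ∈ E, P top r ν σ w j y ^ (p / r - 1) *
          (w (Sum.inl j.1) * (ν (σ {j.1} y) ^ r - ν (σ {j.1} x) ^ r)) +
        ∑ j ∈ E, P top r ν σ w j y ^ (p / r - 1) *
          (w (Sum.inr j.2) * (ν (σ {j.2.1} y) ^ r - ν (σ {j.2.1} x) ^ r))) := by
    intro E y
    rw [PF, PF, ← Finset.sum_sub_distrib, ← Finset.sum_add_distrib, ← Finset.sum_add_distrib,
      Finset.mul_sum]
    apply Finset.sum_le_sum
    intro j _
    refine (rpow_sub_le hκ (h.P_nonneg hw0 j y) (h.P_nonneg hw0 j x)).trans (le_of_eq ?_)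
    rw [show P top r ν σ w j y - P top r ν σ w j x =
      (ν (σ (sg top j) y) ^ r - ν (σ (sg top j) x) ^ r) +
      w (Sum.inl j.1) * (ν (σ {j.1} y) ^ r - ν (σ {j.1} x) ^ r) +
      w (Sum.inr j.2) * (ν (σ {j.2.1} y) ^ r - ν (σ {j.2.1} x) ^ r) by
        rw [P, P]; ring]
    ring
  have hfin : ∀ᶠ k in (𝒰 : Filter ℕ), False := by
    filter_upwards [hUS, hgeq, e1, e2, e3, e4] with k b0 b1 b2 b3 b4 b5
    have c1 := hinc (F k) (x + g k)
    have c2 := hinc (G k) (x - g k)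
    have c3 := h.PF_le_Phi hw3 (hF k) x
    have c4 := h.PF_le_Phi hw3 (hG k) x
    have c5 := hFn k
    have c6 := hGn k
    have hgk : ‖g k‖ = ‖hk k‖ := by rw [b1]
    rw [hgk] at b2 b3 b4
    rw [le_div_iff₀ (hpos k), ← b1] at b0
    have d1 : p / r * ((∑ j ∈ F k, P top r ν σ w j (x + g k) ^ (p / r - 1) *
          (ν (σ (sg top j) (x + g k)) ^ r - ν (σ (sg top j) x) ^ r) +
        ∑ j ∈ F k, P top r ν σ w j (x + g k) ^ (p / r - 1) *
          (w (Sum.inl j.1) * (ν (σ {j.1} (x + g k)) ^ r - ν (σ {j.1} x) ^ r)) +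
        ∑ j ∈ F k, P top r ν σ w j (x + g k) ^ (p / r - 1) *
          (w (Sum.inr j.2) * (ν (σ {j.2.1} (x + g k)) ^ r - ν (σ {j.2.1} x) ^ r))) +
        (∑ j ∈ G k, P top r ν σ w j (x - g k) ^ (p / r - 1) *
          (ν (σ (sg top j) (x - g k)) ^ r - ν (σ (sg top j) x) ^ r) +
        ∑ j ∈ G k, P top r ν σ w j (x - g k) ^ (p / r - 1) *
          (w (Sum.inl j.1) * (ν (σ {j.1} (x - g k)) ^ r - ν (σ {j.1} x) ^ r)) +
        ∑ j ∈ G k, P top r ν σ w j (x - g k) ^ (p / r - 1) *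
          (w (Sum.inr j.2) * (ν (σ {j.2.1} (x - g k)) ^ r - ν (σ {j.2.1} x) ^ r)))) ≤
        p / r * (3 * (η * ‖hk k‖)) := by
      apply mul_le_mul_of_nonneg_left _ (by positivity)
      linarith
    have d2 : p / r * (3 * (η * ‖hk k‖)) = θ / 2 * ‖hk k‖ := by
      rw [hη]
      have : p / r ≠ 0 := by positivity
      field_simp
      ring
    have d3 : ‖hk k‖ ^ 2 < θ / 4 * ‖hk k‖ := by
      rw [sq]
      exact mul_lt_mul_of_pos_right b5 (hpos k)
    have b0' : θ * ‖hk k‖ ≤ Phi top p r ν σ w (x + g k) + Phi top p r ν σ w (x - g k) -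
        2 * Phi top p r ν σ w x := by
      rw [← hgk]; exact b0
    rw [mul_add] at d1
    have d4 : 0 < θ * ‖hk k‖ := mul_pos hθ (hpos k)
    linarith
  exact (Filter.eventually_false_iff_eq_bot.1 hfin ▸ 𝒰.neBot).ne rfl

end Pool.Agent.JTS
end
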