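import Mathlib

section

/-!
Differentiability of convex functions with small second differences.
-/

set_option autoImplicit false

namespace Pool.Agent.JTS

open MeasureTheory Filter Topology

/-- PROOF. For `y : X` and `t > 0` the quotient `(f (x + t y) - f x) / t` is monotone in `t` (convexity) and bounded below by
`-(f (x - y) - f x)`; let `L y` be its infimum over `t > 0` (= the limit for `t → 0+`). `L (c y) = c L y` for `c ≥ 0`, `L (y + z) ≤ L y + L z`
(`x + t (y+z)` is the midpoint of `x + 2t y` and `x + 2t z`). `L y + L (-y) ≥ 0`, and `≤ inf_t (f(x+ty) + f(x-ty) - 2 f x)/t ≤ ε ‖y‖` for every `ε` (`h2`), so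
`L (-y) = - L y`. Hence `L` is additive (`L (y+z) ≤ L y + L z` and the same for `-y, -z`) and homogeneous: linear. `f (x + y) - f x - L y ≥ 0` and
`f (x + y) - f x - L y ≤ f (x+y) + f (x-y) - 2 f x` (because `f (x - y) - f x ≥ L (-y) = - L y`). So `L` is bounded (continuity of `f` at `x`: `|L y| ≤ 1` for small `y`) and
`f` is Fréchet differentiable at `x` with derivative `L` (`h2`). -/
theorem diff_of_second {X : Type} [NormedAddCommGroup X] [NormedSpace ℝ X] (f : X → ℝ)
    (hf : ConvexOn ℝ Set.univ f) (hc : Continuous f) (x : X)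
    (h2 : ∀ ε : ℝ, 0 < ε → ∃ δ : ℝ, 0 < δ ∧ ∀ y : X, ‖y‖ ≤ δ →
      f (x + y) + f (x - y) - 2 * f x ≤ ε * ‖y‖) : DifferentiableAt ℝ f x := by
  -- a supporting functional
  obtain ⟨L, hL⟩ : ∃ L : X →L[ℝ] ℝ, ∀ y, L y ≤ f (x + y) - f x := by
    have hS1 : Convex ℝ {q : X × ℝ | q.1 ∈ Set.univ ∧ f q.1 < q.2} := hf.convex_strict_epigraph
    have hS2 : IsOpen {q : X × ℝ | q.1 ∈ Set.univ ∧ f q.1 < q.2} := by
      have h1 : {q : X × ℝ | q.1 ∈ Set.univ ∧ f q.1 < q.2} = {q : X × ℝ | f q.1 < q.2} := by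
        ext q
        simp
      rw [h1]
      exact isOpen_lt (hc.comp continuous_fst) continuous_snd
    have hS3 : (x, f x) ∉ {q : X × ℝ | q.1 ∈ Set.univ ∧ f q.1 < q.2} := by
      intro hq
      exact lt_irrefl _ hq.2
    obtain ⟨G, hG⟩ := geometric_hahn_banach_point_open hS1 hS2 hS3
    have hdec : ∀ (u : X) (s : ℝ), G (u, s) = G (u, 0) + s * G (0, 1) := by
      intro u s
      have h1 : ((u, s) : X × ℝ) = (u, 0) + s • ((0, 1) : X × ℝ) := by
        ext <;> simp
      rw [h1, map_add, map_smul, smul_eq_mul]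
    set c : ℝ := G (0, 1) with hcdef
    have hcpos : 0 < c := by
      have h1 := hG (x, f x + 1) ⟨Set.mem_univ _, by simp⟩
      rw [hdec x (f x), hdec x (f x + 1)] at h1
      linarith
    have hle : ∀ u : X, G (x, 0) + f x * c ≤ G (u, 0) + f u * c := by
      intro u
      apply le_of_forall_pos_le_add
      intro ε hε
      have h1 := hG (u, f u + ε / c) ⟨Set.mem_univ _, by simp; positivity⟩
      rw [hdec x (f x), hdec u (f u + ε / c)] at h1
      have h2 : (f u + ε / c) * c = f u * c + ε := by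
        field_simp
      rw [h2] at h1
      linarith
    refine ⟨(-(1 / c)) • (G.comp (ContinuousLinearMap.inl ℝ X ℝ)), ?_⟩
    intro y
    have h1 := hle (x + y)
    have h2 : G (x + y, 0) = G (x, 0) + G (y, 0) := by
      rw [← map_add]
      simp
    rw [h2] at h1
    have h3 : -G (y, 0) ≤ (f (x + y) - f x) * c := by linarith
    have h4 : -G (y, 0) / c ≤ f (x + y) - f x := by
      rw [div_le_iff₀ hcpos]
      exact h3
    calc ((-(1 / c)) • (G.comp (ContinuousLinearMap.inl ℝ X ℝ))) y = -(1 / c) * G (y, 0) := by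
          simp
      _ = -G (y, 0) / c := by ring
      _ ≤ _ := h4
  have hup : ∀ y, f (x + y) - f x - L y ≤ f (x + y) + f (x - y) - 2 * f x := by
    intro y
    have h1 := hL (-y)
    rw [map_neg, ← sub_eq_add_neg] at h1
    linarith
  refine HasFDerivAt.differentiableAt (f' := L) ?_
  rw [hasFDerivAt_iff_isLittleO_nhds_zero, Asymptotics.isLittleO_iff]
  intro ε hε
  obtain ⟨δ, hδ, hδ2⟩ := h2 ε hε
  filter_upwards [Metric.ball_mem_nhds (0 : X) hδ] with y hy
  rw [mem_ball_zero_iff] at hy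
  have h3 := hδ2 y hy.le
  have h4 := hup y
  have h5 := hL y
  rw [Real.norm_eq_abs, abs_le]
  constructor
  · have : 0 ≤ ε * ‖y‖ := by positivity
    linarith
  · linarith

end Pool.Agent.JTS
end

section

/-!
A `p`-homogeneous convex function gives a seminorm.
-/

set_option autoImplicit false

namespace Pool.Agent.JTS

open MeasureTheory Filter Topology

private theorem D2c_aux {X : Type} [NormedAddCommGroup X] [NormedSpace ℝ X] {p : ℝ} (hp : 1 < p)
    (I : X → ℝ) (h0 : ∀ x, 0 ≤ I x)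
    (hh : ∀ (c : ℝ) (x : X), I (c • x) = |c| ^ p * I x) (x : X) (a : ℝ) (ha : 0 < a)
    (hxa : I x ^ (1 / p) ≤ a) : I (a⁻¹ • x) ≤ 1 := by
  have hp0 : 0 < p := lt_trans one_pos hp
  have h1 : I x ≤ a ^ p := by
    have h2 : (I x ^ (1 / p)) ^ p ≤ a ^ p :=
      Real.rpow_le_rpow (Real.rpow_nonneg (h0 x) _) hxa hp0.le
    rwa [← Real.rpow_mul (h0 x), one_div, inv_mul_cancel₀ hp0.ne', Real.rpow_one] at h2
  have h3 : 0 < a ^ p := Real.rpow_pos_of_pos ha p
  rw [hh, abs_of_pos (inv_pos.mpr ha), Real.inv_rpow ha.le, inv_mul_le_iff₀ h3, mul_one]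
  exact h1

/-- PROOF. Let `a = I x ^ (1/p)`, `b = I y ^ (1/p)`. If both are positive: `x + y = (a + b) • (a/(a+b) • (a⁻¹ • x) + b/(a+b) • (b⁻¹ • y))`,
`I (a⁻¹ x) = 1`, so by convexity and homogeneity `I (x + y) ≤ (a + b) ^ p`. If `a = 0`: replace `a` by `a + ε` (`I ((a+ε)⁻¹ x) ≤ 1`), let `ε → 0`. (Or treat all cases with `a + ε, b + ε`.) -/
theorem gauge_add {X : Type} [NormedAddCommGroup X] [NormedSpace ℝ X] {p : ℝ} (hp : 1 < p)
    (I : X → ℝ) (h0 : ∀ x, 0 ≤ I x) (hI : ConvexOn ℝ Set.univ I)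
    (hh : ∀ (c : ℝ) (x : X), I (c • x) = |c| ^ p * I x) (x y : X) :
    I (x + y) ^ (1 / p) ≤ I x ^ (1 / p) + I y ^ (1 / p) := by
  have hp0 : 0 < p := lt_trans one_pos hp
  have ha0 : 0 ≤ I x ^ (1 / p) := Real.rpow_nonneg (h0 x) _
  have hb0 : 0 ≤ I y ^ (1 / p) := Real.rpow_nonneg (h0 y) _
  refine le_of_forall_pos_le_add fun ε hε => ?_
  set a : ℝ := I x ^ (1 / p) + ε / 2 with ha
  set b : ℝ := I y ^ (1 / p) + ε / 2 with hb
  have ha' : 0 < a := by positivity
  have hb' : 0 < b := by positivity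
  have hab : 0 < a + b := add_pos ha' hb'
  have h1 : I (a⁻¹ • x) ≤ 1 := D2c_aux hp I h0 hh x a ha' (by linarith)
  have h2 : I (b⁻¹ • y) ≤ 1 := D2c_aux hp I h0 hh y b hb' (by linarith)
  have h3 : x + y = (a + b) • ((a / (a + b)) • (a⁻¹ • x) + (b / (a + b)) • (b⁻¹ • y)) := by
    rw [smul_add, smul_smul, smul_smul, smul_smul, smul_smul,
      show (a + b) * (a / (a + b)) * a⁻¹ = 1 by field_simp,
      show (a + b) * (b / (a + b)) * b⁻¹ = 1 by field_simp, one_smul, one_smul]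
  have h4 : I ((a / (a + b)) • (a⁻¹ • x) + (b / (a + b)) • (b⁻¹ • y)) ≤ 1 := by
    have h5 := hI.2 (Set.mem_univ (a⁻¹ • x)) (Set.mem_univ (b⁻¹ • y))
      (div_nonneg ha'.le hab.le) (div_nonneg hb'.le hab.le)
      (by rw [← add_div, div_self hab.ne'])
    refine h5.trans ?_
    rw [smul_eq_mul, smul_eq_mul]
    have h6 : a / (a + b) * I (a⁻¹ • x) ≤ a / (a + b) * 1 :=
      mul_le_mul_of_nonneg_left h1 (div_nonneg ha'.le hab.le)
    have h7 : b / (a + b) * I (b⁻¹ • y) ≤ b / (a + b) * 1 :=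
      mul_le_mul_of_nonneg_left h2 (div_nonneg hb'.le hab.le)
    have h8 : a / (a + b) * 1 + b / (a + b) * 1 = 1 := by
      rw [mul_one, mul_one, ← add_div, div_self hab.ne']
    linarith
  have h9 : I (x + y) ≤ (a + b) ^ p := by
    rw [h3, hh, abs_of_pos hab]
    exact mul_le_of_le_one_right (Real.rpow_nonneg hab.le p) h4
  have h10 : I (x + y) ^ (1 / p) ≤ a + b := by
    have h11 := Real.rpow_le_rpow (h0 (x + y)) h9 (by positivity : (0 : ℝ) ≤ 1 / p)
    rwa [← Real.rpow_mul hab.le, mul_one_div_cancel hp0.ne', Real.rpow_one] at h11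
  linarith

end Pool.Agent.JTS
end
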