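import Pool.Agent.Lib.MP_05b481_an.Mg.G006
import Pool.Agent.Lib.MP_05b481_an.Mg.G003
import Pool.Agent.Lib.MP_05b481_an.Mg.G009
import Pool.Agent.Lib.MP_05b481_an.Mg.G008

section

/-!
Almost all weights are good.
-/

set_option autoImplicit false

namespace Pool.Agent.JTS

open MeasureTheory Filter Topology

variable {T Z X : Type} [PartialOrder T] [NormedAddCommGroup Z] [NormedSpace ℝ Z]
    [NormedAddCommGroup X] [NormedSpace ℝ X] {top : T → Set T} {p r B : ℝ} {ν : Z → ℝ}
    {e : (T →₀ Z) →ₗ[ℝ] X} {σ : Set T → X →L[ℝ] Z}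

/-- The product measure on the weights. -/
noncomputable def mu (T : Type) : Measure (Ix T → unitInterval) := Measure.infinitePi fun _ => (volume : Measure unitInterval)

/-- The weights that belong to `w : Ix T → I`. -/
noncomputable def Wt {T : Type} (w : Ix T → unitInterval) : Ix T → ℝ := fun i => 1 + (w i : ℝ)

/-- PROOF. A monotone function is differentiable almost everywhere (`Monotone.ae_differentiableAt`); apply it to `t ↦ g (max 0 (min 3 t))`. If this function is
differentiable at `s ∈ [1, 2]`, then `(n + 1) (g (s + 1/(n+1)) + g (s - 1/(n+1)) - 2 g s) → g' - g' = 0` (for `n ≥ 0` the arguments are in `[0, 3]`). The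
measure: `volume` on `I` is the restriction of Lebesgue measure; `t ↦ 1 + t` is measure preserving (`ae` on `ℝ`, translate, restrict to `Icc 0 1`, `volume` of a
subtype: `MeasureTheory.ae_..`, `Measure.Subtype.volume_def`, `comap`; `MeasurableEmbedding.subtype_coe`). -/
theorem ae_second (g : ℝ → ℝ) (hg : ∀ s t, 0 ≤ s → s ≤ t → t ≤ 3 → g s ≤ g t) :
    ∀ᵐ t : unitInterval, Tendsto (fun n : ℕ => ((n : ℝ) + 1) *
      (g (1 + (t : ℝ) + 1 / ((n : ℝ) + 1)) + g (1 + (t : ℝ) - 1 / ((n : ℝ) + 1)) -
        2 * g (1 + (t : ℝ)))) atTop (𝓝 0) := by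
  set G : ℝ → ℝ := fun t => g (max 0 (min 3 t)) with hGdef
  have hG : Monotone G := by
    intro s t hst
    apply hg
    · exact le_max_left _ _
    · exact max_le_max le_rfl (min_le_min le_rfl hst)
    · exact max_le (by norm_num) (min_le_left _ _)
  have hGg : ∀ s : ℝ, 0 ≤ s → s ≤ 3 → G s = g s := by
    intro s h0 h3
    simp only [hGdef]
    rw [min_eq_right h3, max_eq_right h0]
  have h1 : ∀ᵐ x : ℝ, DifferentiableAt ℝ G (1 + x) :=
    (measurePreserving_add_left (volume : Measure ℝ) 1).quasiMeasurePreserving.ae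
      hG.ae_differentiableAt
  have h2 : ∀ᵐ x ∂((volume : Measure ℝ).restrict unitInterval), DifferentiableAt ℝ G (1 + x) :=
    ae_restrict_of_ae h1
  have h3 : ∀ᵐ t : unitInterval, DifferentiableAt ℝ G (1 + (t : ℝ)) :=
    unitInterval.measurePreserving_coe.quasiMeasurePreserving.ae h2
  filter_upwards [h3] with t ht
  have ht0 : (0 : ℝ) ≤ t := t.2.1
  have ht1 : (t : ℝ) ≤ 1 := t.2.2
  obtain ⟨d, hd⟩ : ∃ d, HasDerivAt G d (1 + (t : ℝ)) := ⟨_, ht.hasDerivAt⟩
  rw [hasDerivAt_iff_tendsto_slope_zero] at hd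
  have hpos : ∀ n : ℕ, (0 : ℝ) < (n : ℝ) + 1 := fun n => by positivity
  have hle1 : ∀ n : ℕ, 1 / ((n : ℝ) + 1) ≤ 1 := fun n => by
    rw [div_le_one (hpos n)]
    have : (0 : ℝ) ≤ n := Nat.cast_nonneg n
    linarith
  have hp0 : ∀ n : ℕ, 0 < 1 / ((n : ℝ) + 1) := fun n => by positivity
  have hlim : Tendsto (fun n : ℕ => 1 / ((n : ℝ) + 1)) atTop (𝓝 0) :=
    tendsto_one_div_add_atTop_nhds_zero_nat
  have ha : Tendsto (fun n : ℕ => 1 / ((n : ℝ) + 1)) atTop (𝓝[≠] 0) := by
    rw [tendsto_nhdsWithin_iff]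
    exact ⟨hlim, Eventually.of_forall fun n => (hp0 n).ne'⟩
  have hb : Tendsto (fun n : ℕ => -(1 / ((n : ℝ) + 1))) atTop (𝓝[≠] 0) := by
    rw [tendsto_nhdsWithin_iff]
    refine ⟨by simpa using hlim.neg, Eventually.of_forall fun n => ?_⟩
    exact neg_ne_zero.2 (hp0 n).ne'
  have h4 := (hd.comp ha).sub (hd.comp hb)
  rw [sub_self] at h4
  refine h4.congr fun n => ?_
  simp only [Function.comp, smul_eq_mul]
  have e1 : G (1 + (t : ℝ) + 1 / ((n : ℝ) + 1)) = g (1 + (t : ℝ) + 1 / ((n : ℝ) + 1)) :=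
    hGg _ (by have := hp0 n; linarith) (by have := hle1 n; linarith)
  have e2 : G (1 + (t : ℝ) + -(1 / ((n : ℝ) + 1))) = g (1 + (t : ℝ) - 1 / ((n : ℝ) + 1)) := by
    rw [← sub_eq_add_neg]
    exact hGg _ (by have := hle1 n; linarith) (by have := hp0 n; linarith)
  have e3 : G (1 + (t : ℝ)) = g (1 + (t : ℝ)) := hGg _ (by linarith) (by linarith)
  rw [e1, e2, e3]
  have hne : ((n : ℝ) + 1) ≠ 0 := (hpos n).ne'
  field_simp
  ring

/-- PROOF. `N = {w | ¬ Good (Wt w) x i}` is measurable (`measurableSet_tendsto`, each function of the sequence is measurable by `h.meas` with `d = 0` and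
`d = Pi.single i (± 1/(n+1))`; `Function.update (Wt w) i (Wt w i + δ) = fun k => 1 + w k + Pi.single i δ k`). By `infinitePi_section` it is enough that for every `w`
almost every `t : I` satisfies `Good (Wt (update w i t)) x i`. Apply `ae_second` to `g s = Phi (update (Wt w) i s) x`, monotone on `[0, 3]` by
`h.Phi_mono`. -/
theorem Sys.ae_good (h : Sys T Z X top p r B ν e σ) (x : X) (i : Ix T) :
    ∀ᵐ w ∂(mu T), Good top p r ν σ (Wt w) x i := by
  classical
  set f : ℕ → (Ix T → unitInterval) → ℝ := fun n w => ((n : ℝ) + 1) *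
    (Phi top p r ν σ (Function.update (Wt w) i (Wt w i + 1 / ((n : ℝ) + 1))) x +
      Phi top p r ν σ (Function.update (Wt w) i (Wt w i - 1 / ((n : ℝ) + 1))) x -
      2 * Phi top p r ν σ (Wt w) x) with hf
  have hupd : ∀ (w : Ix T → unitInterval) (δ : ℝ), Function.update (Wt w) i (Wt w i + δ) =
      fun k => 1 + (w k : ℝ) + (Pi.single i δ : Ix T → ℝ) k := by
    intro w δ
    funext k
    by_cases hk : k = i
    · subst hk
      simp [Wt]
    · simp [Wt, hk]
  have hmeas : ∀ δ : ℝ, |δ| ≤ 1 → Measurable fun w : Ix T → unitInterval =>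
      Phi top p r ν σ (Function.update (Wt w) i (Wt w i + δ)) x := by
    intro δ hδ
    have h1 := h.meas x (Pi.single i δ : Ix T → ℝ) (by
      intro k
      by_cases hk : k = i
      · subst hk
        simpa using hδ
      · simp [hk])
    simp only [hupd]
    exact h1
  have hmeas0 : Measurable fun w : Ix T → unitInterval => Phi top p r ν σ (Wt w) x := by
    have h1 := h.meas x (fun _ => 0) (by simp)
    simp only [add_zero] at h1
    exact h1
  have hle1 : ∀ n : ℕ, |1 / ((n : ℝ) + 1)| ≤ 1 := fun n => by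
    have h0 : (0 : ℝ) ≤ n := Nat.cast_nonneg n
    rw [abs_of_nonneg (by positivity), div_le_one (by positivity)]
    linarith
  have hfm : ∀ n, Measurable (f n) := by
    intro n
    have h1 := hmeas (1 / ((n : ℝ) + 1)) (hle1 n)
    have h2 := hmeas (-(1 / ((n : ℝ) + 1))) (by rw [abs_neg]; exact hle1 n)
    simp only [← sub_eq_add_neg] at h2
    exact ((h1.add h2).sub (hmeas0.const_mul 2)).const_mul _
  have hM : MeasurableSet {w : Ix T → unitInterval | Tendsto (fun n => f n w) atTop (𝓝 0)} :=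
    measurableSet_tendsto _ hfm
  have hgood : ∀ w : Ix T → unitInterval, Good top p r ν σ (Wt w) x i ↔
      Tendsto (fun n => f n w) atTop (𝓝 0) := by
    intro w
    unfold Good
    simp only [hf]
  rw [ae_iff]
  have h5 : {w : Ix T → unitInterval | ¬ Good top p r ν σ (Wt w) x i} =
      {w : Ix T → unitInterval | Tendsto (fun n => f n w) atTop (𝓝 0)}ᶜ := by
    ext w
    simp only [Set.mem_ofPred_eq, Set.mem_compl_iff, hgood w]
  rw [h5]
  refine infinitePi_section _ i _ hM.compl fun w => ?_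
  have h6 := ae_second (fun s => Phi top p r ν σ (Function.update (Wt w) i s) x) (by
    intro s t h0 hst h3
    apply h.Phi_mono
    · intro k
      by_cases hk : k = i
      · subst hk
        simpa using h0
      · simp only [Function.update_of_ne hk, Wt]
        have := (w k).2.1
        linarith
    · intro k
      by_cases hk : k = i
      · subst hk
        simpa using h3
      · simp only [Function.update_of_ne hk, Wt]
        have := (w k).2.2
        linarith
    · intro k
      by_cases hk : k = i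
      · subst hk
        simpa using hst
      · simp only [Function.update_of_ne hk]
        exact le_rfl)
  rw [ae_iff] at h6
  refine measure_mono_null ?_ h6
  intro t ht
  simp only [Set.mem_ofPred_eq, Set.mem_compl_iff] at ht ⊢
  intro h7
  apply ht
  refine h7.congr fun n => ?_
  have hW : Wt (Function.update w i t) = Function.update (Wt w) i (1 + (t : ℝ)) := by
    funext k
    by_cases hk : k = i
    · subst hk
      simp [Wt]
    · simp [Wt, hk]
  simp only [hf, hW, Function.update_self, Function.update_idem]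

end Pool.Agent.JTS
end

section

/-!
The average norm.
-/

set_option autoImplicit false

namespace Pool.Agent.JTS

open MeasureTheory Filter Topology

variable {T Z X : Type} [PartialOrder T] [NormedAddCommGroup Z] [NormedSpace ℝ Z]
    [NormedAddCommGroup X] [NormedSpace ℝ X] {top : T → Set T} {p r B : ℝ} {ν : Z → ℝ}
    {e : (T →₀ Z) →ₗ[ℝ] X} {σ : Set T → X →L[ℝ] Z}

/-- The `p`-th power of the average norm. -/
noncomputable def avg (top : T → Set T) (p r : ℝ) (ν : Z → ℝ) (σ : Set T → X →L[ℝ] Z) (x : X) : ℝ :=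
  ∫ w, Phi top p r ν σ (Wt w) x ∂(mu T)


theorem Wt_mem (w : Ix T → unitInterval) (i : Ix T) : 1 ≤ Wt w i ∧ Wt w i ≤ 2 := by
  have h1 := (w i).2.1
  have h2 := (w i).2.2
  unfold Wt
  constructor <;> linarith

private theorem D4_mem (w : Ix T → unitInterval) (i : Ix T) : 0 ≤ Wt w i ∧ Wt w i ≤ 3 := by
  have := Wt_mem w i
  constructor <;> linarith [this.1, this.2]

private instance D4_prob : IsProbabilityMeasure (mu T) := by
  unfold mu
  infer_instance

/-- PROOF. Measurable (`h.meas` with `d = 0`) and bounded (`h.Phi_nonneg`, `h.Phi_le`), `mu T` is a probability measure. -/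
theorem Sys.integrable (h : Sys T Z X top p r B ν e σ) (x : X) :
    Integrable (fun w => Phi top p r ν σ (Wt w) x) (mu T) := by
  have hm : Measurable (fun w : Ix T → unitInterval => Phi top p r ν σ (Wt w) x) := by
    have h1 := h.meas x (fun _ => 0) (by simp)
    have e1 : (fun w : Ix T → unitInterval => Phi top p r ν σ (Wt w) x) =
        fun w : Ix T → unitInterval => Phi top p r ν σ (fun i => 1 + (w i : ℝ) + 0) x := by
      funext w
      congr 1
      funext i
      simp [Wt]
    rw [e1]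
    exact h1
  refine Integrable.of_bound hm.aestronglyMeasurable ((10 * (B * ‖x‖)) ^ p) ?_
  refine Filter.Eventually.of_forall fun w => ?_
  rw [Real.norm_eq_abs, abs_of_nonneg (h.Phi_nonneg (D4_mem w) x)]
  exact h.Phi_le (D4_mem w) x

/-- PROOF. Integrate `h.le_Phi`, `h.Phi_le`. -/
theorem Sys.avg_bounds (h : Sys T Z X top p r B ν e σ) (x : X) :
    ‖x‖ ^ p ≤ avg top p r ν σ x ∧ avg top p r ν σ x ≤ (10 * (B * ‖x‖)) ^ p := by
  constructor
  · have h1 : ∫ _w : Ix T → unitInterval, ‖x‖ ^ p ∂(mu T) ≤ avg top p r ν σ x :=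
      integral_mono (integrable_const _) (h.integrable x) fun w => h.le_Phi (D4_mem w) x
    simpa using h1
  · have h1 : avg top p r ν σ x ≤ ∫ _w : Ix T → unitInterval, (10 * (B * ‖x‖)) ^ p ∂(mu T) :=
      integral_mono (h.integrable x) (integrable_const _) fun w => h.Phi_le (D4_mem w) x
    simpa using h1

private theorem D4_avg_nonneg (h : Sys T Z X top p r B ν e σ) (x : X) :
    0 ≤ avg top p r ν σ x :=
  integral_nonneg fun w => h.Phi_nonneg (D4_mem w) x

theorem Sys.avg_smul (h : Sys T Z X top p r B ν e σ) (c : ℝ) (x : X) :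
    avg top p r ν σ (c • x) = |c| ^ p * avg top p r ν σ x := by
  unfold avg
  rw [← integral_const_mul]
  refine integral_congr_ae (Filter.Eventually.of_forall fun w => ?_)
  exact h.Phi_smul (D4_mem w) c x

private theorem D4_Phi_convex (h : Sys T Z X top p r B ν e σ) (w : Ix T → unitInterval)
    (x y : X) {a b : ℝ} (ha : 0 ≤ a) (hb : 0 ≤ b) (hab : a + b = 1) :
    Phi top p r ν σ (Wt w) (a • x + b • y) ≤
      a * Phi top p r ν σ (Wt w) x + b * Phi top p r ν σ (Wt w) y := by
  have hp : 1 < p := h.hp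
  have hp0 : 0 < p := by linarith
  have hx := h.Phi_nonneg (D4_mem w) x
  have hy := h.Phi_nonneg (D4_mem w) y
  have hxy := h.Phi_nonneg (D4_mem w) (a • x + b • y)
  have h1 := h.Phi_add (D4_mem w) (a • x) (b • y)
  rw [h.Phi_smul (D4_mem w), h.Phi_smul (D4_mem w), abs_of_nonneg ha, abs_of_nonneg hb,
    Real.mul_rpow (Real.rpow_nonneg ha _) hx, Real.mul_rpow (Real.rpow_nonneg hb _) hy,
    ← Real.rpow_mul ha, ← Real.rpow_mul hb, mul_one_div_cancel hp0.ne', Real.rpow_one,
    Real.rpow_one] at h1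
  have h2 : Phi top p r ν σ (Wt w) (a • x + b • y) ≤
      (a * Phi top p r ν σ (Wt w) x ^ (1 / p) + b * Phi top p r ν σ (Wt w) y ^ (1 / p)) ^ p := by
    calc Phi top p r ν σ (Wt w) (a • x + b • y)
        = (Phi top p r ν σ (Wt w) (a • x + b • y) ^ (1 / p)) ^ p := by
          rw [← Real.rpow_mul hxy, one_div_mul_cancel hp0.ne', Real.rpow_one]
      _ ≤ _ := Real.rpow_le_rpow (Real.rpow_nonneg hxy _) h1 hp0.le
  refine h2.trans ?_
  have h3 := (convexOn_rpow hp.le).2 (x := Phi top p r ν σ (Wt w) x ^ (1 / p))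
    (Set.mem_Ici.2 (Real.rpow_nonneg hx _)) (y := Phi top p r ν σ (Wt w) y ^ (1 / p))
    (Set.mem_Ici.2 (Real.rpow_nonneg hy _)) ha hb hab
  simp only [smul_eq_mul] at h3
  rw [← Real.rpow_mul hx, ← Real.rpow_mul hy, one_div_mul_cancel hp0.ne', Real.rpow_one,
    Real.rpow_one] at h3
  exact h3

/-- PROOF. Each `Phi` is convex (`Phi ^ (1/p)` is a seminorm, `t ↦ t ^ p` is convex and monotone on `t ≥ 0`); integrate. -/
theorem Sys.avg_convex (h : Sys T Z X top p r B ν e σ) :
    ConvexOn ℝ Set.univ (avg top p r ν σ : X → ℝ) := by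
  refine ⟨convex_univ, fun x _ y _ a b ha hb hab => ?_⟩
  simp only [smul_eq_mul]
  unfold avg
  rw [← integral_const_mul, ← integral_const_mul,
    ← integral_add ((h.integrable x).const_mul a) ((h.integrable y).const_mul b)]
  exact integral_mono (h.integrable _)
    (((h.integrable x).const_mul a).add ((h.integrable y).const_mul b))
    fun w => D4_Phi_convex h w x y ha hb hab

/-- PROOF. `|avg (x + y) - avg x| ≤ C_x ‖y‖` for `‖y‖ ≤ 1` (`h.Phi_lip`). -/
theorem Sys.avg_cont (h : Sys T Z X top p r B ν e σ) :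
    Continuous (avg top p r ν σ : X → ℝ) := by
  have hp : 1 < p := h.hp
  have key : ∀ x y : X, |avg top p r ν σ (x + y) - avg top p r ν σ x| ≤
      p * (10 * (B * (‖x‖ + ‖y‖))) ^ (p - 1) * (10 * (B * ‖y‖)) := by
    intro x y
    unfold avg
    rw [← integral_sub (h.integrable _) (h.integrable _)]
    refine (abs_integral_le_integral_abs).trans ?_
    have h1 : ∫ w : Ix T → unitInterval, |Phi top p r ν σ (Wt w) (x + y) -
        Phi top p r ν σ (Wt w) x| ∂(mu T) ≤ ∫ _w : Ix T → unitInterval,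
          p * (10 * (B * (‖x‖ + ‖y‖))) ^ (p - 1) * (10 * (B * ‖y‖)) ∂(mu T) :=
      integral_mono ((h.integrable _).sub (h.integrable _)).abs (integrable_const _)
        fun w => h.Phi_lip (D4_mem w) x y
    simpa using h1
  rw [continuous_iff_continuousAt]
  intro x
  rw [ContinuousAt, tendsto_iff_norm_sub_tendsto_zero]
  have hg : Continuous fun z : X =>
      p * (10 * (B * (‖x‖ + ‖z - x‖))) ^ (p - 1) * (10 * (B * ‖z - x‖)) := by
    have hc : Continuous fun z : X => ‖z - x‖ := (continuous_id.sub continuous_const).norm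
    refine Continuous.mul (Continuous.mul continuous_const ?_) (by fun_prop)
    refine Continuous.rpow_const (by fun_prop) fun z => Or.inr (by linarith)
  have hg0 := hg.tendsto x
  simp only [sub_self, norm_zero, mul_zero] at hg0
  refine squeeze_zero (fun z => norm_nonneg _) (fun z => ?_) hg0
  have h2 := key x (z - x)
  rw [add_sub_cancel] at h2
  rw [Real.norm_eq_abs]
  exact h2

/-- PROOF. If not, there are `ε > 0` and `y n → 0` (`‖y n‖ ≤ 1/(n+1)`) with second difference `> ε ‖y n‖`; so `y n ≠ 0`. For almost every `w` all `i` with `0 < val i x` are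
good (`h.val_countable`, `ae_ball_iff`, `h.ae_good`), so `h.second_diff` gives the pointwise limit `0` of the quotients; they are bounded by a constant
(`h.Phi_lip`, twice), so their integrals tend to `0` (`tendsto_integral_of_dominated_convergence`), but they are `> ε`. -/
theorem Sys.avg_second (h : Sys T Z X top p r B ν e σ) (x : X) {ε : ℝ} (hε : 0 < ε) :
    ∃ δ : ℝ, 0 < δ ∧ ∀ y : X, ‖y‖ ≤ δ →
      avg top p r ν σ (x + y) + avg top p r ν σ (x - y) - 2 * avg top p r ν σ x ≤ ε * ‖y‖ := by
  by_contra hcon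
  push Not at hcon
  have hp : 1 < p := h.hp
  have hB : 0 < B := by linarith [h.hB]
  have hpos : ∀ n : ℕ, (0 : ℝ) < 1 / ((n : ℝ) + 1) := fun n => by positivity
  choose y hy1 hy2 using fun n : ℕ => hcon (1 / ((n : ℝ) + 1)) (hpos n)
  have hne : ∀ n, y n ≠ 0 := by
    intro n hn
    have h1 := hy2 n
    rw [hn] at h1
    simp only [norm_zero, mul_zero, add_zero, sub_zero] at h1
    linarith
  have hy0 : Tendsto y atTop (𝓝 0) := by
    rw [tendsto_zero_iff_norm_tendsto_zero]
    exact squeeze_zero (fun n => norm_nonneg _) hy1 tendsto_one_div_add_atTop_nhds_zero_nat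
  have hyle : ∀ n, ‖y n‖ ≤ 1 := by
    intro n
    refine (hy1 n).trans ?_
    rw [div_le_one (by positivity)]
    have : (0 : ℝ) ≤ n := Nat.cast_nonneg n
    linarith
  -- the quotients
  let q : ℕ → (Ix T → unitInterval) → ℝ := fun n w =>
    (Phi top p r ν σ (Wt w) (x + y n) + Phi top p r ν σ (Wt w) (x - y n) -
      2 * Phi top p r ν σ (Wt w) x) / ‖y n‖
  have hqi : ∀ n, Integrable (q n) (mu T) := by
    intro n
    exact ((((h.integrable (x + y n)).add (h.integrable (x - y n))).sub
      ((h.integrable x).const_mul 2)).div_const _)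
  have hqint : ∀ n, ∫ w, q n w ∂(mu T) =
      (avg top p r ν σ (x + y n) + avg top p r ν σ (x - y n) - 2 * avg top p r ν σ x) / ‖y n‖ := by
    intro n
    show ∫ w, (Phi top p r ν σ (Wt w) (x + y n) + Phi top p r ν σ (Wt w) (x - y n) -
      2 * Phi top p r ν σ (Wt w) x) / ‖y n‖ ∂(mu T) = _
    have hadd : Integrable (fun w : Ix T → unitInterval => Phi top p r ν σ (Wt w) (x + y n) +
        Phi top p r ν σ (Wt w) (x - y n)) (mu T) :=
      (h.integrable (x + y n)).add (h.integrable (x - y n))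
    rw [integral_div, integral_sub hadd ((h.integrable x).const_mul 2),
      integral_add (h.integrable (x + y n)) (h.integrable (x - y n)), integral_const_mul]
    rfl
  let C : ℝ := p * (10 * (B * (‖x‖ + 1))) ^ (p - 1) * (10 * B)
  have hC : 0 ≤ C := by
    have : (0 : ℝ) ≤ (10 * (B * (‖x‖ + 1))) ^ (p - 1) := Real.rpow_nonneg (by positivity) _
    have hp0 : 0 ≤ p := by linarith
    show (0 : ℝ) ≤ p * (10 * (B * (‖x‖ + 1))) ^ (p - 1) * (10 * B)
    positivity
  have hlip : ∀ (w : Ix T → unitInterval) (z : X), ‖z‖ ≤ 1 →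
      |Phi top p r ν σ (Wt w) (x + z) - Phi top p r ν σ (Wt w) x| ≤ C * ‖z‖ := by
    intro w z hz
    refine (h.Phi_lip (D4_mem w) x z).trans ?_
    have h1 : (10 * (B * (‖x‖ + ‖z‖))) ^ (p - 1) ≤ (10 * (B * (‖x‖ + 1))) ^ (p - 1) := by
      refine Real.rpow_le_rpow (by positivity) ?_ (by linarith)
      gcongr
    have hp0 : 0 ≤ p := by linarith
    calc p * (10 * (B * (‖x‖ + ‖z‖))) ^ (p - 1) * (10 * (B * ‖z‖))
        ≤ p * (10 * (B * (‖x‖ + 1))) ^ (p - 1) * (10 * (B * ‖z‖)) := by gcongr
      _ = C * ‖z‖ := by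
        show _ = p * (10 * (B * (‖x‖ + 1))) ^ (p - 1) * (10 * B) * ‖z‖
        ring
  have hbound : ∀ n, ∀ᵐ w ∂(mu T), ‖q n w‖ ≤ 2 * C := by
    intro n
    refine Filter.Eventually.of_forall fun w => ?_
    have hyn : 0 < ‖y n‖ := norm_pos_iff.2 (hne n)
    have h1 := hlip w (y n) (hyle n)
    have h2 := hlip w (-y n) (by rw [norm_neg]; exact hyle n)
    rw [norm_neg, ← sub_eq_add_neg] at h2
    show ‖(Phi top p r ν σ (Wt w) (x + y n) + Phi top p r ν σ (Wt w) (x - y n) -
      2 * Phi top p r ν σ (Wt w) x) / ‖y n‖‖ ≤ 2 * C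
    rw [Real.norm_eq_abs, abs_div, abs_of_pos hyn, div_le_iff₀ hyn]
    rw [abs_le] at h1 h2 ⊢
    constructor <;> linarith [h1.1, h1.2, h2.1, h2.2]
  have hlim : ∀ᵐ w ∂(mu T), Tendsto (fun n => q n w) atTop (𝓝 0) := by
    have hg : ∀ᵐ w ∂(mu T), ∀ i ∈ {i : Ix T | 0 < val r ν σ i x}, Good top p r ν σ (Wt w) x i :=
      (ae_ball_iff (h.val_countable x)).2 fun i _ => h.ae_good x i
    filter_upwards [hg] with w hw
    exact h.second_diff (Wt_mem w) x hw y hy0 hne
  have hdc := tendsto_integral_of_dominated_convergence (fun _ => 2 * C)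
    (fun n => (hqi n).aestronglyMeasurable) (integrable_const _) hbound hlim
  rw [integral_zero] at hdc
  have hge : ∀ n, ε ≤ ∫ w, q n w ∂(mu T) := by
    intro n
    rw [hqint n, le_div_iff₀ (norm_pos_iff.2 (hne n))]
    exact (hy2 n).le
  have := ge_of_tendsto' hdc hge
  linarith

/-- PROOF. `N x = avg x ^ (1/p)`: `gauge_add`, `h.avg_smul`, `h.avg_bounds`; `avg` is differentiable (`diff_of_second`), and `avg x > 0` for `x ≠ 0`. -/
theorem Sys.exists_norm (h : Sys T Z X top p r B ν e σ) : ∃ N : X → ℝ, SmoothNorm X N := by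
  have hp : 1 < p := h.hp
  have hp0 : 0 < p := by linarith
  have hB : 0 < B := by linarith [h.hB]
  refine ⟨fun x => avg top p r ν σ x ^ (1 / p), ?_⟩
  exact
    { tri := fun x y => gauge_add hp (avg top p r ν σ) (D4_avg_nonneg h) h.avg_convex h.avg_smul x y
      hom := fun c x => by
        show avg top p r ν σ (c • x) ^ (1 / p) = |c| * avg top p r ν σ x ^ (1 / p)
        rw [h.avg_smul, Real.mul_rpow (Real.rpow_nonneg (abs_nonneg c) _) (D4_avg_nonneg h x),
          ← Real.rpow_mul (abs_nonneg c), mul_one_div_cancel hp0.ne', Real.rpow_one]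
      equiv := by
        refine ⟨1, 10 * B, one_pos, by positivity, fun x => ?_⟩
        obtain ⟨h1, h2⟩ := h.avg_bounds x
        constructor
        · have h3 := Real.rpow_le_rpow (Real.rpow_nonneg (norm_nonneg x) p) h1
            (by positivity : (0 : ℝ) ≤ 1 / p)
          rw [← Real.rpow_mul (norm_nonneg x), mul_one_div_cancel hp0.ne', Real.rpow_one] at h3
          rw [one_mul]
          exact h3
        · have h0 : 0 ≤ 10 * (B * ‖x‖) := by positivity
          have h3 := Real.rpow_le_rpow (D4_avg_nonneg h x) h2 (by positivity : (0 : ℝ) ≤ 1 / p)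
          rw [← Real.rpow_mul h0, mul_one_div_cancel hp0.ne', Real.rpow_one] at h3
          rw [mul_assoc]
          exact h3
      smooth := fun x hx => by
        have hd : DifferentiableAt ℝ (avg top p r ν σ : X → ℝ) x :=
          diff_of_second _ h.avg_convex h.avg_cont x fun ε hε => h.avg_second x hε
        have hpos : 0 < avg top p r ν σ x :=
          lt_of_lt_of_le (Real.rpow_pos_of_pos (norm_pos_iff.2 hx) p) (h.avg_bounds x).1
        exact hd.rpow_const (Or.inl hpos.ne') }

end Pool.Agent.JTS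
end
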