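import Pool.Agent.Lib.MP_05b481_an.JT.Defs

section

/-!
The Cantor-Bendixson rank of a tree without dyadic subtree.
-/

set_option autoImplicit false

namespace Pool.Agent.JTS

/-- One step of the derivation: `Dst A` is the set of the nodes of `A` that have two incomparable nodes of `A` above them. -/
def Dst {T : Type} [PartialOrder T] (A : Set T) : Set T :=
  {t | t ∈ A ∧ ∃ a ∈ A, ∃ b ∈ A, t ≤ a ∧ t ≤ b ∧ ¬ a ≤ b ∧ ¬ b ≤ a}

/-- PROOF. If `A` is nonempty and `A ⊆ Dst A`, choose `t₀ ∈ A` and for every `t ∈ A` two incomparable `g t true, g t false ∈ A`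
with `t ≤ g t b` (then `t < g t b`, because `t = g t b` would make `g t b` comparable with the other one). Put
`f [] = t₀`, `f (b :: l) = g (f l) b` (recursion into the subtype of `A`). -/
theorem dyadic_of_Dst {T : Type} [PartialOrder T] (A : Set T) (hne : A.Nonempty) (hA : A ⊆ Dst A) :
    Dyadic T := by
  classical
  obtain ⟨t₀, ht₀⟩ := hne
  have h : ∀ t : A, ∃ g : Bool → A, (∀ b, (t : T) ≤ g b) ∧ ¬ (g true : T) ≤ g false ∧
      ¬ (g false : T) ≤ g true := by
    intro t
    obtain ⟨_, a, ha, b, hb, h1, h2, h3, h4⟩ := hA t.2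
    refine ⟨fun c => if c then ⟨a, ha⟩ else ⟨b, hb⟩, fun c => ?_, ?_, ?_⟩
    · cases c
      · simpa using h2
      · simpa using h1
    · simpa using h3
    · simpa using h4
  choose g hg1 hg2 hg3 using h
  have hlt : ∀ (t : A) (b : Bool), (t : T) < g t b := by
    intro t b
    refine lt_of_le_of_ne (hg1 t b) fun he => ?_
    cases b
    · exact hg3 t (he ▸ hg1 t true)
    · exact hg2 t (he ▸ hg1 t false)
  refine ⟨fun l => ((l.foldr (fun b t => g t b) ⟨t₀, ht₀⟩ : A) : T), fun l b => hlt _ b, fun l => ?_⟩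
  exact ⟨hg2 _, hg3 _⟩

private theorem A1_mono {T : Type} [PartialOrder T] {A B : Set T} (h : A ⊆ B) : Dst A ⊆ Dst B := by
  rintro t ⟨h1, a, ha, b, hb, h2⟩
  exact ⟨h h1, a, h ha, b, h hb, h2⟩

private theorem A1_low {T : Type} [PartialOrder T] {A : Set T} (h : IsLowerSet A) :
    IsLowerSet (Dst A) := by
  rintro t s hst ⟨h1, a, ha, b, hb, h2, h3, h4⟩
  exact ⟨h hst h1, a, ha, b, hb, hst.trans h2, hst.trans h3, h4⟩

private noncomputable def A1_Dit {T : Type} [PartialOrder T] (o : Ordinal.{0}) : Set T :=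
  {t | ∀ o' : Set.Iio o, t ∈ Dst (A1_Dit o'.1)}
termination_by o
decreasing_by exact o'.2

private theorem A1_mem {T : Type} [PartialOrder T] (o : Ordinal.{0}) (t : T) :
    t ∈ (A1_Dit o : Set T) ↔ ∀ o' < o, t ∈ Dst (A1_Dit o' : Set T) := by
  rw [A1_Dit]
  exact ⟨fun h o' ho' => h ⟨o', ho'⟩, fun h o' => h o'.1 o'.2⟩

private theorem A1_lower {T : Type} [PartialOrder T] (o : Ordinal.{0}) :
    IsLowerSet (A1_Dit o : Set T) := by
  induction o using WellFoundedLT.induction with
  | ind o ih =>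
    intro t s hst ht
    rw [A1_mem] at ht ⊢
    exact fun o' ho' => A1_low (ih o' ho') hst (ht o' ho')

/-- PROOF. Let `Dit : Ordinal.{0} → Set T` be defined by well-founded recursion, `Dit o = {t | ∀ o' < o, t ∈ Dst (Dit o')}`
(so `Dit 0 = univ`). Facts: `Dst` is monotone and `Dst A ⊆ A`; if `A` is a lower set, so is `Dst A`; all `Dit o` are lower sets; `Dit` is
antitone. There is `o` with `Dit o = ∅`: otherwise, by `dyadic_of_Dst` (no dyadic tree), for every `o` there is a node
`t_o ∈ Dit o`, `t_o ∉ Dst (Dit o)`; for `o < o'` we have `t_{o'} ∈ Dit o' ⊆ Dst (Dit o)`, so `t_{o'} ≠ t_o`; this is an injection of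
`Ordinal.{0}` into the small type `T`, impossible (`not_injective_of_ordinal`).
So for every `t` the set `{o | t ∉ Dst (Dit o)}` is nonempty; `rk t = sInf` of it. Then `t ∈ Dit (rk t)` (all smaller `o'` have
`t ∈ Dst (Dit o')`) and `t ∉ Dst (Dit (rk t))`. Antitone: `s ≤ t`: `t ∈ Dst (Dit o)` implies `s ∈ Dst (Dit o)` (lower set), so
`{o | s ∉ Dst (Dit o)} ⊆ {o | t ∉ Dst (Dit o)}` and `rk t ≤ rk s`. If `u ≤ a`, `u ≤ b`, `rk a = rk b = rk u = o` and `a, b` are
incomparable, then `a, b ∈ Dit o`, `u ∈ Dit o`, so `u ∈ Dst (Dit o)`, contradiction. -/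
theorem exists_rank {T : Type} [PartialOrder T] (hD : ¬ Dyadic T) :
    ∃ rk : T → Ordinal.{0}, (∀ s t, s ≤ t → rk t ≤ rk s) ∧
      ∀ u a b, u ≤ a → u ≤ b → rk a = rk u → rk b = rk u → (a ≤ b ∨ b ≤ a) := by
  classical
  have h0 : ∃ o, (A1_Dit o : Set T) = ∅ := by
    by_contra hcon
    push Not at hcon
    have h1 : ∀ o : Ordinal.{0}, ∃ t : T, t ∈ (A1_Dit o : Set T) ∧ t ∉ Dst (A1_Dit o : Set T) := by
      intro o
      by_contra h2
      push Not at h2
      exact hD (dyadic_of_Dst _ (hcon o) h2)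
    choose t ht1 ht2 using h1
    have key : ∀ o o', o < o' → t o ≠ t o' := by
      intro o o' hoo he
      exact ht2 o (he ▸ (A1_mem o' (t o')).1 (ht1 o') o hoo)
    refine not_injective_of_ordinal t fun o o' he => ?_
    rcases lt_trichotomy o o' with h | h | h
    · exact absurd he (key o o' h)
    · exact h
    · exact absurd he.symm (key o' o h)
  obtain ⟨o₀, ho₀⟩ := h0
  have hne : ∀ t : T, {o : Ordinal.{0} | t ∉ Dst (A1_Dit o : Set T)}.Nonempty := by
    intro t
    refine ⟨o₀, fun ht => ?_⟩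
    rw [ho₀] at ht
    exact ht.1
  have hr1 : ∀ t : T, t ∉ Dst (A1_Dit (sInf {o : Ordinal.{0} | t ∉ Dst (A1_Dit o : Set T)}) : Set T) :=
    fun t => csInf_mem (hne t)
  have hr2 : ∀ t : T, t ∈ (A1_Dit (sInf {o : Ordinal.{0} | t ∉ Dst (A1_Dit o : Set T)}) : Set T) := by
    intro t
    rw [A1_mem]
    intro o' ho'
    by_contra h
    exact absurd (csInf_le (OrderBot.bddBelow _) h) (not_le.2 ho')
  refine ⟨fun t => sInf {o : Ordinal.{0} | t ∉ Dst (A1_Dit o : Set T)}, ?_, ?_⟩
  · intro s t hst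
    exact csInf_le_csInf (OrderBot.bddBelow _) (hne s)
      fun o ho h => ho (A1_low (A1_lower o) hst h)
  · intro u a b hua hub ha hb
    by_contra hcon
    push Not at hcon
    refine hr1 u ⟨hr2 u, a, ?_, b, ?_, hua, hub, hcon.1, hcon.2⟩
    · have := hr2 a
      simp only at ha
      rwa [ha] at this
    · have := hr2 b
      simp only at hb
      rwa [hb] at this

end Pool.Agent.JTS
end

section

/-!
Preferred branches from a rank function.
-/

set_option autoImplicit false

namespace Pool.Agent.JTS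

/-- PROOF. `top u = {t | t ≤ u ∨ (u ≤ t ∧ rk t = rk u)}`.
`ic.low`: let `a ∈ top u`, `b ≤ a`. If `a ≤ u`: `b ≤ u`. If `u ≤ a`, `rk a = rk u`: `b, u ≤ a` are comparable (`hT.lin`); `b ≤ u` is
fine; if `u ≤ b ≤ a` then `rk u ≥ rk b ≥ rk a = rk u`, so `rk b = rk u`. `ic.chain`: two nodes `≤ u`: `hT.lin`; one `≤ u`, one `≥ u`:
transitivity; both `≥ u` with rank `rk u`: `h2`. `self`: clear. `coh`: `u ≤ w`, `w ∈ top u`: then `rk w = rk u` (also if `w ≤ u`, i.e.
`w = u`). `t ∈ top w ↔ t ∈ top u`: for `t ≤ w`: `t ∈ top u` because `w ∈ top u` and `top u` is a lower set, and `t ∈ top w`.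
For `w ≤ t`: both say `rk t = rk w` (if `t ≤ u` too then `t = w = u`). A `t ∈ top u` is comparable with `w` (chain).
`tail`: `z` nonempty: choose `w ∈ z` with `rk w` minimal (`Ordinal` is well founded, e.g. `WellFounded.min` of the image, or
`exists_minimal..`). For `t ∈ z`: comparable with `w`; if `w ≤ t` then `rk t ≤ rk w`, and `rk w ≤ rk t` by minimality. -/
theorem exists_top {T : Type} [PartialOrder T] (hT : IsTree T) (rk : T → Ordinal.{0})
    (h1 : ∀ s t, s ≤ t → rk t ≤ rk s)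
    (h2 : ∀ u a b, u ≤ a → u ≤ b → rk a = rk u → rk b = rk u → (a ≤ b ∨ b ≤ a)) :
    ∃ top : T → Set T, Top top := by
  classical
  set top : T → Set T := fun u => {t | t ≤ u ∨ (u ≤ t ∧ rk t = rk u)} with htop
  have hmem : ∀ u t, t ∈ top u ↔ t ≤ u ∨ (u ≤ t ∧ rk t = rk u) := fun u t => Iff.rfl
  have hic : ∀ u, IC (top u) := by
    intro u
    refine ⟨?_, ?_⟩
    · intro a ha b hb
      rcases (hmem u a).1 ha with h | ⟨h, hr⟩
      · exact (hmem u b).2 (Or.inl (hb.trans h))
      · rcases hT.lin a b u hb h with h' | h'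
        · exact (hmem u b).2 (Or.inl h')
        · refine (hmem u b).2 (Or.inr ⟨h', le_antisymm (h1 u b h') ?_⟩)
          rw [← hr]
          exact h1 b a hb
    · intro a ha b hb
      rcases (hmem u a).1 ha with h | ⟨h, hr⟩ <;> rcases (hmem u b).1 hb with h' | ⟨h', hr'⟩
      · exact hT.lin u a b h h'
      · exact Or.inl (h.trans h')
      · exact Or.inr (h'.trans h)
      · exact h2 u a b h h' hr hr'
  have hself : ∀ u, u ∈ top u := fun u => (hmem u u).2 (Or.inl le_rfl)
  have hcoh : ∀ u w, u ≤ w → w ∈ top u → top w = top u := by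
    intro u w huw hw
    have hr : rk w = rk u := by
      rcases (hmem u w).1 hw with h | ⟨_, h⟩
      · rw [le_antisymm h huw]
      · exact h
    ext t
    constructor
    · intro ht
      rcases (hmem w t).1 ht with h | ⟨h, h'⟩
      · exact (hic u).low w hw t h
      · exact (hmem u t).2 (Or.inr ⟨huw.trans h, h'.trans hr⟩)
    · intro ht
      rcases (hic u).chain t ht w hw with h | h
      · exact (hmem w t).2 (Or.inl h)
      · rcases (hmem u t).1 ht with h' | ⟨_, h'⟩
        · exact (hmem w t).2 (Or.inl (h'.trans huw))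
        · exact (hmem w t).2 (Or.inr ⟨h, h'.trans hr.symm⟩)
  refine ⟨top, hic, hself, hcoh, ?_⟩
  intro z hz hne
  obtain ⟨w, hw, hmin⟩ := (InvImage.wf rk (wellFounded_lt (α := Ordinal.{0}))).has_min z hne
  refine ⟨w, hw, ?_⟩
  intro t ht
  rcases hz.chain t ht w hw with h | h
  · exact (hmem w t).2 (Or.inl h)
  · refine (hmem w t).2 (Or.inr ⟨h, le_antisymm (h1 w t h) ?_⟩)
    exact not_lt.1 (hmin t ht)

end Pool.Agent.JTS
end
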