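import Pool.Agent.Lib.MP_05b481_an.Mg.G004
import Pool.Agent.Lib.MP_05b481_an.Mg.G002

section

/-!
The norm `Phi ^ (1/p)` with fixed weights.
-/

set_option autoImplicit false

namespace Pool.Agent.JTS

variable {T Z X : Type} [PartialOrder T] [NormedAddCommGroup Z] [NormedSpace ℝ Z]
    [NormedAddCommGroup X] [NormedSpace ℝ X] {top : T → Set T} {p r B : ℝ} {ν : Z → ℝ}
    {e : (T →₀ Z) →ₗ[ℝ] X} {σ : Set T → X →L[ℝ] Z} {w : Ix T → ℝ}

private theorem C2a_empty (top : T → Set T) : Fm top (∅ : Finset (T × (T × Bool))) :=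
  ⟨fun j hj => absurd hj (Finset.notMem_empty j), fun i hi => absurd hi (Finset.notMem_empty i)⟩

/-- PROOF. `Sys.PF_le`. -/
theorem Sys.bdd (h : Sys T Z X top p r B ν e σ) (hw : ∀ i, 0 ≤ w i ∧ w i ≤ 3) (x : X) :
    BddAbove {a : ℝ | ∃ F : Finset (T × (T × Bool)), Fm top F ∧ a = PF top p r ν σ w F x} := by
  exact ⟨(10 * (B * ‖x‖)) ^ p, by
    rintro a ⟨F, hF, rfl⟩
    exact h.PF_le hw hF x⟩

theorem Sys.PF_le_Phi (h : Sys T Z X top p r B ν e σ) (hw : ∀ i, 0 ≤ w i ∧ w i ≤ 3)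
    {F : Finset (T × (T × Bool))} (hF : Fm top F) (x : X) :
    PF top p r ν σ w F x ≤ Phi top p r ν σ w x := by
  exact le_csSup (h.bdd hw x) ⟨F, hF, rfl⟩

/-- PROOF. The empty family. -/
theorem Sys.Phi_nonneg (h : Sys T Z X top p r B ν e σ) (hw : ∀ i, 0 ≤ w i ∧ w i ≤ 3) (x : X) :
    0 ≤ Phi top p r ν σ w x := by
  have h1 := h.PF_le_Phi hw (C2a_empty top) x
  refine le_trans ?_ h1
  unfold PF
  rw [Finset.sum_empty]

theorem Sys.Phi_le (h : Sys T Z X top p r B ν e σ) (hw : ∀ i, 0 ≤ w i ∧ w i ≤ 3) (x : X) :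
    Phi top p r ν σ w x ≤ (10 * (B * ‖x‖)) ^ p := by
  refine csSup_le ⟨_, ∅, C2a_empty top, rfl⟩ ?_
  rintro a ⟨F, hF, rfl⟩
  exact h.PF_le hw hF x

/-- PROOF. `h.nlow x δ`: a family of closed segments; each is a decorated segment (`exists_Icc`), the decorated family `F'` is `Fm` (the
segments are disjoint and nonempty, so the map is injective), and `‖σ S x‖ ^ p ≤ (ν (σ S x) ^ r) ^ (p/r) ≤ P ^ (p/r)`. So
`‖x‖ ^ p - δ ≤ Phi`. -/
theorem Sys.le_Phi (h : Sys T Z X top p r B ν e σ) (hw : ∀ i, 0 ≤ w i ∧ w i ≤ 3) (x : X) :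
    ‖x‖ ^ p ≤ Phi top p r ν σ w x := by
  classical
  refine le_of_forall_pos_le_add fun δ hδ => ?_
  obtain ⟨F, hF, hFx⟩ := h.nlow x δ hδ
  have hex : ∀ j : T × T, ∃ e : T × Bool, j.1 ≤ j.2 →
      (j.1 ∈ ec top e ∧ sg top (j.1, e) = Set.Icc j.1 j.2) := by
    intro j
    by_cases hj : j.1 ≤ j.2
    · obtain ⟨e, he⟩ := exists_Icc h.tree h.htop j.1 j.2 hj
      exact ⟨e, fun _ => he⟩
    · exact ⟨(j.1, true), fun h' => absurd h' hj⟩
  choose g hg using hex
  have hsg : ∀ j ∈ F, sg top (j.1, g j) = Set.Icc j.1 j.2 := fun j hj => (hg j (hF.1 j hj)).2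
  have hinj : Set.InjOn (fun j : T × T => ((j.1, g j) : T × (T × Bool))) (F : Set (T × T)) := by
    intro i hi j hj hij
    by_contra hne
    have h1 : Set.Icc i.1 i.2 = Set.Icc j.1 j.2 := by
      rw [← hsg i hi, ← hsg j hj]
      exact congrArg (sg top) hij
    have h2 := hF.2 i hi j hj hne
    rw [h1, disjoint_self, Set.bot_eq_empty] at h2
    have h3 : j.1 ∈ Set.Icc j.1 j.2 := ⟨le_rfl, hF.1 j hj⟩
    rw [h2] at h3
    exact h3
  have hFm : Fm top (F.image (fun j : T × T => ((j.1, g j) : T × (T × Bool)))) := by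
    refine ⟨?_, ?_⟩
    · intro k hk
      obtain ⟨j, hj, rfl⟩ := Finset.mem_image.1 hk
      exact (hg j (hF.1 j hj)).1
    · intro k hk l hl hkl
      obtain ⟨i, hi, rfl⟩ := Finset.mem_image.1 hk
      obtain ⟨j, hj, rfl⟩ := Finset.mem_image.1 hl
      rw [hsg i hi, hsg j hj]
      exact hF.2 i hi j hj fun hij => hkl (by rw [hij])
  have hr0 : 0 < r := by linarith [h.hr]
  have hp0 : 0 < p := by linarith [h.hp]
  have hPF : ∑ j ∈ F, ‖σ (Set.Icc j.1 j.2) x‖ ^ p ≤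
      PF top p r ν σ w (F.image (fun j : T × T => ((j.1, g j) : T × (T × Bool)))) x := by
    unfold PF
    rw [Finset.sum_image hinj]
    refine Finset.sum_le_sum fun j hj => ?_
    have h1 : ‖σ (Set.Icc j.1 j.2) x‖ ^ r ≤ P top r ν σ w (j.1, g j) x := by
      unfold P
      rw [hsg j hj]
      have e1 : ‖σ (Set.Icc j.1 j.2) x‖ ^ r ≤ ν (σ (Set.Icc j.1 j.2) x) ^ r :=
        Real.rpow_le_rpow (norm_nonneg _) (h.lo _) hr0.le
      have e2 : 0 ≤ w (Sum.inl j.1) * ν (σ {j.1} x) ^ r :=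
        mul_nonneg (hw _).1 (Real.rpow_nonneg (h.nu_nonneg _) _)
      have e3 : 0 ≤ w (Sum.inr (g j)) * ν (σ {(g j).1} x) ^ r :=
        mul_nonneg (hw _).1 (Real.rpow_nonneg (h.nu_nonneg _) _)
      dsimp only
      linarith
    calc ‖σ (Set.Icc j.1 j.2) x‖ ^ p = (‖σ (Set.Icc j.1 j.2) x‖ ^ r) ^ (p / r) := by
          rw [← Real.rpow_mul (norm_nonneg _), mul_div_cancel₀ _ hr0.ne']
      _ ≤ _ := Real.rpow_le_rpow (Real.rpow_nonneg (norm_nonneg _) _) h1 (by positivity)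
  have h4 := h.PF_le_Phi hw hFm x
  linarith

theorem Sys.exists_near (h : Sys T Z X top p r B ν e σ) (hw : ∀ i, 0 ≤ w i ∧ w i ≤ 3) (x : X)
    {δ : ℝ} (hδ : 0 < δ) :
    ∃ F : Finset (T × (T × Bool)), Fm top F ∧ Phi top p r ν σ w x - δ < PF top p r ν σ w F x := by
  obtain ⟨a, ⟨F, hF, rfl⟩, ha⟩ := exists_lt_of_lt_csSup
    (s := {a : ℝ | ∃ F : Finset (T × (T × Bool)), Fm top F ∧ a = PF top p r ν σ w F x})
    ⟨_, ∅, C2a_empty top, rfl⟩ (show Phi top p r ν σ w x - δ < _ from sub_lt_self _ hδ)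
  exact ⟨F, hF, ha⟩

end Pool.Agent.JTS
end

section

/-!
The norm `Phi ^ (1/p)` with fixed weights, continued.
-/

set_option autoImplicit false

namespace Pool.Agent.JTS

variable {T Z X : Type} [PartialOrder T] [NormedAddCommGroup Z] [NormedSpace ℝ Z]
    [NormedAddCommGroup X] [NormedSpace ℝ X] {top : T → Set T} {p r B : ℝ} {ν : Z → ℝ}
    {e : (T →₀ Z) →ₗ[ℝ] X} {σ : Set T → X →L[ℝ] Z} {w : Ix T → ℝ}

private theorem C2_empty (top : T → Set T) : Fm top (∅ : Finset (T × (T × Bool))) :=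
  ⟨fun j hj => absurd hj (Finset.notMem_empty j), fun i hi => absurd hi (Finset.notMem_empty i)⟩

private theorem C2_le_of (top : T → Set T) {x : X} {C : ℝ}
    (hC : ∀ F : Finset (T × (T × Bool)), Fm top F → PF top p r ν σ w F x ≤ C) :
    Phi top p r ν σ w x ≤ C := by
  refine csSup_le ⟨_, ∅, C2_empty top, rfl⟩ ?_
  rintro a ⟨F, hF, rfl⟩
  exact hC F hF

private theorem C2_root {p x : ℝ} (hp : p ≠ 0) (hx : 0 ≤ x) : (x ^ (1 / p)) ^ p = x := by
  rw [← Real.rpow_mul hx, one_div, inv_mul_cancel₀ hp, Real.rpow_one]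

private theorem C2_root' {p x : ℝ} (hp : p ≠ 0) (hx : 0 ≤ x) : (x ^ p) ^ (1 / p) = x := by
  rw [← Real.rpow_mul hx, one_div, mul_inv_cancel₀ hp, Real.rpow_one]

private theorem C2_smul_le (h : Sys T Z X top p r B ν e σ) (hw : ∀ i, 0 ≤ w i ∧ w i ≤ 3) (c : ℝ)
    (x : X) : Phi top p r ν σ w (c • x) ≤ |c| ^ p * Phi top p r ν σ w x := by
  refine C2_le_of top fun F hF => ?_
  rw [h.PF_smul (fun i => (hw i).1)]
  exact mul_le_mul_of_nonneg_left (h.PF_le_Phi hw hF x) (Real.rpow_nonneg (abs_nonneg c) _)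

theorem Sys.Phi_smul (h : Sys T Z X top p r B ν e σ) (hw : ∀ i, 0 ≤ w i ∧ w i ≤ 3) (c : ℝ)
    (x : X) : Phi top p r ν σ w (c • x) = |c| ^ p * Phi top p r ν σ w x := by
  refine le_antisymm (C2_smul_le h hw c x) ?_
  have hp0 : p ≠ 0 := by linarith [h.hp]
  by_cases hc : c = 0
  · rw [hc, abs_zero, Real.zero_rpow hp0, zero_mul]
    exact h.Phi_nonneg hw _
  · have h1 := C2_smul_le h hw c⁻¹ (c • x)
    rw [smul_smul, inv_mul_cancel₀ hc, one_smul, abs_inv,
      Real.inv_rpow (abs_nonneg c)] at h1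
    have h2 : 0 < |c| ^ p := Real.rpow_pos_of_pos (abs_pos.2 hc) _
    rw [← div_eq_inv_mul, le_div_iff₀ h2] at h1
    linarith

/-- PROOF. For `δ > 0` a family `F` with `Phi (x+y) - δ < PF F (x+y)`; `Sys.PF_add`, `Sys.PF_le_Phi`; let `δ → 0` (continuity of
`t ↦ t ^ (1/p)`), or: for all `F`: `PF F (x+y) ≤ (Phi x ^ (1/p) + Phi y ^ (1/p)) ^ p`, so the supremum is. -/
theorem Sys.Phi_add (h : Sys T Z X top p r B ν e σ) (hw : ∀ i, 0 ≤ w i ∧ w i ≤ 3) (x y : X) :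
    Phi top p r ν σ w (x + y) ^ (1 / p) ≤
      Phi top p r ν σ w x ^ (1 / p) + Phi top p r ν σ w y ^ (1 / p) := by
  have hp0 : p ≠ 0 := by linarith [h.hp]
  have hq : 0 ≤ 1 / p := by
    have := h.hp
    positivity
  have hS : 0 ≤ Phi top p r ν σ w x ^ (1 / p) + Phi top p r ν σ w y ^ (1 / p) :=
    add_nonneg (Real.rpow_nonneg (h.Phi_nonneg hw x) _) (Real.rpow_nonneg (h.Phi_nonneg hw y) _)
  have h1 : Phi top p r ν σ w (x + y) ≤
      (Phi top p r ν σ w x ^ (1 / p) + Phi top p r ν σ w y ^ (1 / p)) ^ p := by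
    refine C2_le_of top fun F hF => ?_
    have h2 := h.PF_add (fun i => (hw i).1) F x y
    have h3 : PF top p r ν σ w F x ^ (1 / p) ≤ Phi top p r ν σ w x ^ (1 / p) :=
      Real.rpow_le_rpow (h.PF_nonneg (fun i => (hw i).1) F x) (h.PF_le_Phi hw hF x) hq
    have h4 : PF top p r ν σ w F y ^ (1 / p) ≤ Phi top p r ν σ w y ^ (1 / p) :=
      Real.rpow_le_rpow (h.PF_nonneg (fun i => (hw i).1) F y) (h.PF_le_Phi hw hF y) hq
    have h5 := h.PF_nonneg (fun i => (hw i).1) F (x + y)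
    calc PF top p r ν σ w F (x + y) = (PF top p r ν σ w F (x + y) ^ (1 / p)) ^ p :=
          (C2_root hp0 h5).symm
      _ ≤ _ := Real.rpow_le_rpow (Real.rpow_nonneg h5 _) (by linarith) (by linarith [h.hp])
  calc Phi top p r ν σ w (x + y) ^ (1 / p) ≤
        ((Phi top p r ν σ w x ^ (1 / p) + Phi top p r ν σ w y ^ (1 / p)) ^ p) ^ (1 / p) :=
        Real.rpow_le_rpow (h.Phi_nonneg hw _) h1 hq
    _ = _ := C2_root' hp0 hS

/-- PROOF. As `Sys.PF_lip`. -/
theorem Sys.Phi_lip (h : Sys T Z X top p r B ν e σ) (hw : ∀ i, 0 ≤ w i ∧ w i ≤ 3) (x y : X) :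
    |Phi top p r ν σ w (x + y) - Phi top p r ν σ w x| ≤
      p * (10 * (B * (‖x‖ + ‖y‖))) ^ (p - 1) * (10 * (B * ‖y‖)) := by
  rw [abs_le]
  constructor
  · have h1 : Phi top p r ν σ w x ≤ Phi top p r ν σ w (x + y) +
        p * (10 * (B * (‖x‖ + ‖y‖))) ^ (p - 1) * (10 * (B * ‖y‖)) := by
      refine C2_le_of top fun F hF => ?_
      have h2 := (abs_le.1 (h.PF_lip hw hF x y)).1
      have h3 := h.PF_le_Phi hw hF (x + y)
      linarith
    linarith
  · have h1 : Phi top p r ν σ w (x + y) ≤ Phi top p r ν σ w x +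
        p * (10 * (B * (‖x‖ + ‖y‖))) ^ (p - 1) * (10 * (B * ‖y‖)) := by
      refine C2_le_of top fun F hF => ?_
      have h2 := (abs_le.1 (h.PF_lip hw hF x y)).2
      have h3 := h.PF_le_Phi hw hF x
      linarith
    linarith

/-- PROOF. `P` is monotone in the weights. -/
theorem Sys.Phi_mono (h : Sys T Z X top p r B ν e σ) {w' : Ix T → ℝ} (hw : ∀ i, 0 ≤ w i)
    (hw' : ∀ i, w' i ≤ 3) (hww : ∀ i, w i ≤ w' i) (x : X) :
    Phi top p r ν σ w x ≤ Phi top p r ν σ w' x := by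
  have hr0 : 0 < r := by linarith [h.hr]
  have hp0 : 0 < p := by linarith [h.hp]
  refine C2_le_of top fun F hF => ?_
  have h1 : PF top p r ν σ w F x ≤ PF top p r ν σ w' F x := by
    unfold PF
    refine Finset.sum_le_sum fun j _ => ?_
    refine Real.rpow_le_rpow (h.P_nonneg hw j x) ?_ (by positivity)
    unfold P
    have e1 := mul_le_mul_of_nonneg_right (hww (Sum.inl j.1))
      (Real.rpow_nonneg (h.nu_nonneg (σ {j.1} x)) r)
    have e2 := mul_le_mul_of_nonneg_right (hww (Sum.inr j.2))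
      (Real.rpow_nonneg (h.nu_nonneg (σ {j.2.1} x)) r)
    linarith
  exact h1.trans (h.PF_le_Phi (fun i => ⟨(hw i).trans (hww i), hw' i⟩) hF x)

/-- PROOF. `t ↦ t ^ p` is convex and monotone and `Phi ^ (1/p)` is a seminorm: `Phi((x+y)/2) ≤ ((a + b)/2) ^ p ≤ (a ^ p + b ^ p)/2`. Here the second difference is nonnegative. -/
theorem Sys.Phi_mid (h : Sys T Z X top p r B ν e σ) (hw : ∀ i, 0 ≤ w i ∧ w i ≤ 3) (x y : X) :
    2 * Phi top p r ν σ w x ≤ Phi top p r ν σ w (x + y) + Phi top p r ν σ w (x - y) := by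
  have hp1 := h.hp
  have hp0 : p ≠ 0 := by linarith
  obtain ⟨a, ha⟩ : ∃ a, a = Phi top p r ν σ w (x + y) ^ (1 / p) := ⟨_, rfl⟩
  obtain ⟨b, hb⟩ : ∃ b, b = Phi top p r ν σ w (x - y) ^ (1 / p) := ⟨_, rfl⟩
  have ha0 : 0 ≤ a := by
    rw [ha]
    exact Real.rpow_nonneg (h.Phi_nonneg hw _) _
  have hb0 : 0 ≤ b := by
    rw [hb]
    exact Real.rpow_nonneg (h.Phi_nonneg hw _) _
  have hap : a ^ p = Phi top p r ν σ w (x + y) := by
    rw [ha]
    exact C2_root hp0 (h.Phi_nonneg hw _)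
  have hbp : b ^ p = Phi top p r ν σ w (x - y) := by
    rw [hb]
    exact C2_root hp0 (h.Phi_nonneg hw _)
  have h1 := h.Phi_add hw (x + y) (x - y)
  rw [← ha, ← hb] at h1
  have h2 : x + y + (x - y) = (2 : ℝ) • x := by
    rw [two_smul]
    abel
  have h3 : (0 : ℝ) ≤ Phi top p r ν σ w (x + y + (x - y)) := h.Phi_nonneg hw _
  have h4 : Phi top p r ν σ w (x + y + (x - y)) ≤ (a + b) ^ p := by
    calc Phi top p r ν σ w (x + y + (x - y)) =
          (Phi top p r ν σ w (x + y + (x - y)) ^ (1 / p)) ^ p := (C2_root hp0 h3).symm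
      _ ≤ (a + b) ^ p := Real.rpow_le_rpow (Real.rpow_nonneg h3 _) h1 (by linarith)
  rw [h2, h.Phi_smul hw, abs_of_pos (by norm_num : (0 : ℝ) < 2)] at h4
  have h5 : (a + b) ^ p = 2 ^ p * ((1 / 2 : ℝ) * a + (1 / 2 : ℝ) * b) ^ p := by
    rw [← Real.mul_rpow (by norm_num) (by positivity)]
    congr 1
    ring
  have h6 : (0 : ℝ) < 2 ^ p := Real.rpow_pos_of_pos (by norm_num) _
  rw [h5] at h4
  have h7 := le_of_mul_le_mul_left h4 h6
  have h8 := (convexOn_rpow hp1.le).2 (Set.mem_Ici.2 ha0) (Set.mem_Ici.2 hb0)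
    (by norm_num : (0 : ℝ) ≤ 1 / 2) (by norm_num : (0 : ℝ) ≤ 1 / 2) (by norm_num)
  simp only [smul_eq_mul] at h8
  rw [hap, hbp] at h8
  linarith

end Pool.Agent.JTS
end

section

/-!
The exchange lemma.
-/

set_option autoImplicit false

namespace Pool.Agent.JTS

variable {T Z X : Type} [PartialOrder T] [NormedAddCommGroup Z] [NormedSpace ℝ Z]
    [NormedAddCommGroup X] [NormedSpace ℝ X] {top : T → Set T} {p r B : ℝ} {ν : Z → ℝ}
    {e : (T →₀ Z) →ₗ[ℝ] X} {σ : Set T → X →L[ℝ] Z} {w : Ix T → ℝ}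

/-- Give the end `e'` to the segment `j` of the family `F`.
PROOF. `S' = sg top (j.1, e')`, `c' = ec top e'`. `G₁` = the `i ∈ F`, `i ≠ j`, with `sg top i` disjoint from `S'`; the other `i ≠ j`:
`G₂` those with `¬ ec top i.2 ⊆ c'`, `G₃` those with `ec top i.2 ⊆ c'`.
Claim: if `i ∈ F`, `i ≠ j` and `t ∈ sg top i ∩ S'`, then `i.1 ∈ c'` and `i.1 ∉ ec top j.2`. `i.1 ≤ t ∈ c'` gives the first. `i.1` and `j.1` are
`≤ t`, so comparable. If `i.1 ∈ ec top j.2` and `j.1 ≤ i.1`, then `i.1 ∈ sg top j ∩ sg top i`; if `i.1 ≤ j.1` (`≤ t ∈ ec top i.2`), then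
`j.1 ∈ sg top i ∩ sg top j`: both contradict the disjointness. (In the case `i.1 ≤ j.1` no hypothesis on `i.1` is needed, so in fact
`j.1 < i.1`, and then `i.1 ∉ ec top j.2`.)
For `i ∈ G₂`: `ec top i.2 \ c'` is nonempty; let `tr i` be its least element (`h.tree.wf`); `sg top (tr i, i.2) = ec top i.2 \ c' =
sg top i \ c'`: nodes of `ec top i.2` are comparable; those outside `c'` are above `i.1 ∈ c'` and above `tr i`; a node of `ec top i.2`
above `tr i ∉ c'` is not in `c'`.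
New family `F' = G₁ ∪ {(tr i, i.2) | i ∈ G₂} ∪ {(j.1, e')}`: disjoint segments (`sg ⊆ sg top i` for the first two kinds, and disjoint from `S' ⊆ c'`);
`i ↦ (tr i, i.2)` is injective on `G₂` (disjoint nonempty segments), the three parts are disjoint as finsets (their segments are nonempty and
disjoint). So `PF F' = ∑_{G₁} + ∑_{G₂} P (tr i, i.2) ^ κ + P (j.1, e') ^ κ ≤ Phi`, and `PF F = P j ^ κ + ∑_{G₁} + ∑_{G₂} + ∑_{G₃}`. -/
theorem Sys.exch (h : Sys T Z X top p r B ν e σ) (hw : ∀ i, 0 ≤ w i ∧ w i ≤ 3) (x : X)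
    {F : Finset (T × (T × Bool))} (hF : Fm top F) {j : T × (T × Bool)} (hj : j ∈ F)
    (e' : T × Bool) (hs : j.1 ∈ ec top e') :
    ∃ (G₂ G₃ : Finset (T × (T × Bool))) (tr : T × (T × Bool) → T), G₂ ⊆ F ∧ G₃ ⊆ F ∧
      (∀ i ∈ G₂, i.1 ∈ ec top e' ∧ i.1 ∉ ec top j.2 ∧ tr i ∈ ec top i.2 ∧
        sg top (tr i, i.2) = sg top i \ ec top e') ∧
      (∀ i ∈ G₃, i.1 ∈ ec top e' ∧ i.1 ∉ ec top j.2 ∧ ec top i.2 ⊆ ec top e') ∧
      PF top p r ν σ w F x + P top r ν σ w (j.1, e') x ^ (p / r) +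
          ∑ i ∈ G₂, P top r ν σ w (tr i, i.2) x ^ (p / r) ≤
        Phi top p r ν σ w x + P top r ν σ w j x ^ (p / r) +
          ∑ i ∈ G₂, P top r ν σ w i x ^ (p / r) + ∑ i ∈ G₃, P top r ν σ w i x ^ (p / r) ∧
      ∑ i ∈ G₂, P top r ν σ w (tr i, i.2) x ^ (p / r) ≤ Phi top p r ν σ w x := by
  classical
  have hic' : IC (ec top e') := ic_ec h.tree h.htop e'
  -- the sets
  set S' : Set T := sg top (j.1, e') with hS'
  set E : Finset (T × (T × Bool)) := F.erase j with hE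
  set G₁ := E.filter (fun i => Disjoint (sg top i) S') with hG₁
  set E₂ := E.filter (fun i => ¬ Disjoint (sg top i) S') with hE₂
  set G₃ := E₂.filter (fun i => ec top i.2 ⊆ ec top e') with hG₃
  set G₂ := E₂.filter (fun i => ¬ ec top i.2 ⊆ ec top e') with hG₂
  let tr : T × (T × Bool) → T := fun i =>
    if hi : (ec top i.2 \ ec top e').Nonempty then h.tree.wf.min _ hi else i.1
  have hEF : ∀ i ∈ E, i ∈ F ∧ i ≠ j := fun i hi =>
    ⟨Finset.mem_of_mem_erase hi, Finset.ne_of_mem_erase hi⟩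
  have hself : ∀ i ∈ F, i.1 ∈ sg top i := fun i hi => ⟨hF.1 i hi, le_refl _⟩
  have hdis : ∀ i ∈ F, ∀ i' ∈ F, ∀ t, t ∈ sg top i → t ∈ sg top i' → i = i' := by
    intro i hi i' hi' t ht ht'
    by_contra hne
    exact Set.disjoint_left.1 (hF.2 i hi i' hi' hne) ht ht'
  have hjS : j.1 ∈ S' := ⟨hs, le_refl _⟩
  -- claim 1
  have cl1 : ∀ i ∈ E₂, i.1 ∈ ec top e' ∧ i.1 ∉ ec top j.2 := by
    intro i hi
    rw [hE₂, Finset.mem_filter] at hi
    obtain ⟨hiF, hij⟩ := hEF i hi.1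
    obtain ⟨t, hti, htS⟩ := Set.not_disjoint_iff.1 hi.2
    refine ⟨hic'.low t htS.1 i.1 hti.2, fun hcon => ?_⟩
    rcases h.tree.lin t i.1 j.1 hti.2 htS.2 with hle | hle
    · have h1 : j.1 ∈ ec top i.2 := (ic_ec h.tree h.htop i.2).low t hti.1 j.1 htS.2
      exact hij (hdis i hiF j hj j.1 ⟨h1, hle⟩ (hself j hj))
    · exact hij (hdis i hiF j hj i.1 (hself i hiF) ⟨hcon, hle⟩)
  -- claim 2
  have hne2 : ∀ i ∈ G₂, (ec top i.2 \ ec top e').Nonempty := by
    intro i hi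
    rw [hG₂, Finset.mem_filter] at hi
    obtain ⟨a, ha, ha'⟩ := Set.not_subset.1 hi.2
    exact ⟨a, ha, ha'⟩
  have htr : ∀ i ∈ G₂, tr i ∈ ec top i.2 \ ec top e' ∧
      ∀ u ∈ ec top i.2 \ ec top e', tr i ≤ u := by
    intro i hi
    have hne := hne2 i hi
    have h1 : tr i = h.tree.wf.min _ hne := by
      simp only [tr]
      rw [dif_pos hne]
    have h2 : tr i ∈ ec top i.2 \ ec top e' := by
      rw [h1]; exact h.tree.wf.min_mem _ hne
    refine ⟨h2, fun u hu => ?_⟩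
    rcases (ic_ec h.tree h.htop i.2).chain (tr i) h2.1 u hu.1 with hle | hle
    · exact hle
    · rcases hle.lt_or_eq with hlt | heq
      · exfalso
        rw [h1] at hlt
        exact h.tree.wf.not_lt_min _ hu hlt
      · exact heq.ge
  have hG2E : ∀ i ∈ G₂, i ∈ E₂ := fun i hi => (Finset.mem_filter.1 hi).1
  have hG3E : ∀ i ∈ G₃, i ∈ E₂ := fun i hi => (Finset.mem_filter.1 hi).1
  have hE2E : ∀ i ∈ E₂, i ∈ E := fun i hi => (Finset.mem_filter.1 hi).1
  have hG1E : ∀ i ∈ G₁, i ∈ E := fun i hi => (Finset.mem_filter.1 hi).1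
  have hsgtr : ∀ i ∈ G₂, sg top (tr i, i.2) = sg top i \ ec top e' := by
    intro i hi
    obtain ⟨h1, h2⟩ := htr i hi
    obtain ⟨h3, -⟩ := cl1 i (hG2E i hi)
    have h4 : i.1 ∈ ec top i.2 := hF.1 i (hEF i (hE2E i (hG2E i hi))).1
    ext t
    constructor
    · rintro ⟨ht, ht'⟩
      have h5 : t ∉ ec top e' := fun hc => h1.2 (hic'.low t hc _ ht')
      refine ⟨⟨ht, ?_⟩, h5⟩
      rcases (ic_ec h.tree h.htop i.2).chain i.1 h4 t ht with hle | hle
      · exact hle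
      · exact absurd (hic'.low i.1 h3 t hle) h5
    · rintro ⟨⟨ht, -⟩, h5⟩
      exact ⟨ht, h2 t ⟨ht, h5⟩⟩
  have htrmem : ∀ i ∈ G₂, tr i ∈ sg top i := by
    intro i hi
    have h1 : tr i ∈ sg top (tr i, i.2) := ⟨(htr i hi).1.1, le_refl _⟩
    rw [hsgtr i hi] at h1
    exact h1.1
  -- the new family
  set I₂ : Finset (T × (T × Bool)) := G₂.image (fun i => (tr i, i.2)) with hI₂
  have hinj : ∀ i ∈ G₂, ∀ i' ∈ G₂, ((tr i, i.2) : T × (T × Bool)) = (tr i', i'.2) → i = i' := by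
    intro i hi i' hi' heq
    have h1 : tr i = tr i' := congrArg Prod.fst heq
    refine hdis i (hEF i (hE2E i (hG2E i hi))).1 i' (hEF i' (hE2E i' (hG2E i' hi'))).1 (tr i)
      (htrmem i hi) ?_
    rw [h1]
    exact htrmem i' hi'
  have hd12 : Disjoint G₁ I₂ := by
    rw [Finset.disjoint_left]
    intro i hi hi2
    rw [hI₂, Finset.mem_image] at hi2
    obtain ⟨i', hi', rfl⟩ := hi2
    have h1 := hdis _ (hEF _ (hG1E _ hi)).1 i' (hEF i' (hE2E i' (hG2E i' hi'))).1 (tr i')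
      ⟨(htr i' hi').1.1, le_refl _⟩ (htrmem i' hi')
    have h2 : i' ∈ G₁ := by rw [← h1]; exact hi
    exact (Finset.mem_filter.1 (hG2E i' hi')).2 (Finset.mem_filter.1 h2).2
  have hnot : ((j.1, e') : T × (T × Bool)) ∉ G₁ ∪ I₂ := by
    rw [Finset.mem_union, not_or]
    constructor
    · intro hc
      exact Set.disjoint_left.1 (Finset.mem_filter.1 hc).2 hjS hjS
    · intro hc
      rw [hI₂, Finset.mem_image] at hc
      obtain ⟨i, hi, heq⟩ := hc
      have h1 : tr i = j.1 := congrArg Prod.fst heq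
      exact (htr i hi).1.2 (by rw [h1]; exact hs)
  have hFm : Fm top (insert (j.1, e') (G₁ ∪ I₂)) := by
    have hsub : ∀ i ∈ G₂, sg top (tr i, i.2) ⊆ sg top i := fun i hi => by
      rw [hsgtr i hi]; exact Set.diff_subset
    have hA : ∀ k ∈ G₁ ∪ I₂, Disjoint (sg top k) S' := by
      intro k hk
      rcases Finset.mem_union.1 hk with hk | hk
      · exact (Finset.mem_filter.1 hk).2
      · rw [hI₂, Finset.mem_image] at hk
        obtain ⟨i, hi, rfl⟩ := hk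
        rw [hsgtr i hi, Set.disjoint_left]
        rintro t ⟨-, ht⟩ ht'
        exact ht ht'.1
    have hB : ∀ k ∈ G₁ ∪ I₂, ∃ i ∈ E, sg top k ⊆ sg top i ∧ (k ∈ G₁ → i = k) ∧
        (k ∉ G₁ → i ∈ G₂ ∧ k = (tr i, i.2)) := by
      intro k hk
      by_cases hk1 : k ∈ G₁
      · exact ⟨k, hG1E k hk1, subset_rfl, fun _ => rfl, fun hc => absurd hk1 hc⟩
      · have hk2 : k ∈ I₂ := (Finset.mem_union.1 hk).resolve_left hk1
        rw [hI₂, Finset.mem_image] at hk2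
        obtain ⟨i, hi, rfl⟩ := hk2
        exact ⟨i, hE2E i (hG2E i hi), hsub i hi, fun hc => absurd hc hk1, fun _ => ⟨hi, rfl⟩⟩
    refine ⟨?_, ?_⟩
    · intro k hk
      rcases Finset.mem_insert.1 hk with rfl | hk
      · exact hs
      · rcases Finset.mem_union.1 hk with hk | hk
        · exact hF.1 k (hEF k (hG1E k hk)).1
        · rw [hI₂, Finset.mem_image] at hk
          obtain ⟨i, hi, rfl⟩ := hk
          exact (htr i hi).1.1
    · intro k hk k' hk' hne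
      rcases Finset.mem_insert.1 hk with rfl | hk
      · rcases Finset.mem_insert.1 hk' with rfl | hk'
        · exact absurd rfl hne
        · exact (hA k' hk').symm
      · rcases Finset.mem_insert.1 hk' with rfl | hk'
        · exact hA k hk
        · obtain ⟨i, hi, hsi, hi1, hi2⟩ := hB k hk
          obtain ⟨i', hi', hsi', hi1', hi2'⟩ := hB k' hk'
          have hii : i ≠ i' := by
            rintro rfl
            by_cases hk1 : k ∈ G₁
            · by_cases hk1' : k' ∈ G₁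
              · exact hne ((hi1 hk1).symm.trans (hi1' hk1'))
              · obtain ⟨hiG, -⟩ := hi2' hk1'
                have : i ∈ G₁ := by rw [hi1 hk1]; exact hk1
                exact (Finset.mem_filter.1 (hG2E i hiG)).2 (Finset.mem_filter.1 this).2
            · by_cases hk1' : k' ∈ G₁
              · obtain ⟨hiG, -⟩ := hi2 hk1
                have : i ∈ G₁ := by rw [hi1' hk1']; exact hk1'
                exact (Finset.mem_filter.1 (hG2E i hiG)).2 (Finset.mem_filter.1 this).2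
              · exact hne ((hi2 hk1).2.trans (hi2' hk1').2.symm)
          exact (hF.2 i (hEF i hi).1 i' (hEF i' hi').1 hii).mono hsi hsi'
  -- the sums
  set f : T × (T × Bool) → ℝ := fun i => P top r ν σ w i x ^ (p / r) with hf
  have hf0 : ∀ i, 0 ≤ f i := fun i => Real.rpow_nonneg (h.P_nonneg (fun i => (hw i).1) i x) _
  have hPF' : PF top p r ν σ w (insert (j.1, e') (G₁ ∪ I₂)) x
      = f (j.1, e') + (∑ i ∈ G₁, f i + ∑ i ∈ G₂, f (tr i, i.2)) := by
    unfold PF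
    rw [Finset.sum_insert hnot, Finset.sum_union hd12, hI₂, Finset.sum_image hinj]
  have hle := h.PF_le_Phi hw hFm x
  rw [hPF'] at hle
  have hPF : PF top p r ν σ w F x = f j + (∑ i ∈ G₁, f i + (∑ i ∈ G₃, f i + ∑ i ∈ G₂, f i)) := by
    have h1 : ∑ i ∈ F, f i = f j + ∑ i ∈ E, f i := (Finset.add_sum_erase F f hj).symm
    have h2 : ∑ i ∈ E, f i = ∑ i ∈ G₁, f i + ∑ i ∈ E₂, f i :=
      (Finset.sum_filter_add_sum_filter_not E (fun i => Disjoint (sg top i) S') f).symm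
    have h3 : ∑ i ∈ E₂, f i = ∑ i ∈ G₃, f i + ∑ i ∈ G₂, f i :=
      (Finset.sum_filter_add_sum_filter_not E₂ (fun i => ec top i.2 ⊆ ec top e') f).symm
    unfold PF
    rw [← h3, ← h2, ← h1]
  refine ⟨G₂, G₃, tr, ?_, ?_, ?_, ?_, ?_, ?_⟩
  · exact fun i hi => (hEF i (hE2E i (hG2E i hi))).1
  · exact fun i hi => (hEF i (hE2E i (hG3E i hi))).1
  · exact fun i hi => ⟨(cl1 i (hG2E i hi)).1, (cl1 i (hG2E i hi)).2, (htr i hi).1.1, hsgtr i hi⟩
  · exact fun i hi => ⟨(cl1 i (hG3E i hi)).1, (cl1 i (hG3E i hi)).2, (Finset.mem_filter.1 hi).2⟩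
  · rw [hPF]
    change f j + (∑ i ∈ G₁, f i + (∑ i ∈ G₃, f i + ∑ i ∈ G₂, f i)) + f (j.1, e') +
      ∑ i ∈ G₂, f (tr i, i.2) ≤ Phi top p r ν σ w x + f j + ∑ i ∈ G₂, f i + ∑ i ∈ G₃, f i
    linarith
  · change ∑ i ∈ G₂, f (tr i, i.2) ≤ Phi top p r ν σ w x
    have h1 : 0 ≤ ∑ i ∈ G₁, f i := Finset.sum_nonneg fun i _ => hf0 i
    have h2 := hf0 (j.1, e')
    linarith

end Pool.Agent.JTS
end

section

/-!
Starts do not drift.
-/

set_option autoImplicit false

namespace Pool.Agent.JTS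

open Filter Topology

variable {T Z X : Type} [PartialOrder T] [NormedAddCommGroup Z] [NormedSpace ℝ Z]
    [NormedAddCommGroup X] [NormedSpace ℝ X] {top : T → Set T} {p r B : ℝ} {ν : Z → ℝ}
    {e : (T →₀ Z) →ₗ[ℝ] X} {σ : Set T → X →L[ℝ] Z} {w : Ix T → ℝ}

/-- PROOF. `S∞ = {t | ∀ᶠ k, t ∈ sg top (s k, e₀)}` (convex chain inside `ec top e₀`), `σ (sg top (s k, e₀)) x → L = σ S∞ x`, `‖L‖ ≥ ε`, so
`{t ∈ S∞ | σ {t} x ≠ 0}` is nonempty (`h.zero`); let `s*` be its least element. `S∞ ∩ {t | s* ≤ t} = sg top (s*, e₀)` (`S∞` is an upper part of the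
chain `ec top e₀`: if `s k ≤ t` eventually and `t ≤ t'` then `s k ≤ t'` eventually) and `σ (S∞ ∩ {t | t < s*}) x = 0` (`h.zero`), so `σ (sg top (s*, e₀)) x = L`.
Eventually `s k ≤ s*`. The family `F' k` = `F k` with `(s k, e₀)` replaced by `(s*, e₀)` is `Fm` (`sg top (s*, e₀) ⊆ sg top (s k, e₀)`;
`(s*, e₀)` is not another member of `F k`, by `Fm.end_inj`). `PF (F' k) = PF (F k) - P(s k, e₀)^κ + P(s*, e₀)^κ ≤ Phi`. Now
`P(s k, e₀) → ν L ^ r + 0 + b` and `P(s*, e₀) = ν L ^ r + a + b`, `a = w (inl s*) ν (σ {s*} x) ^ r > 0`. Limit: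
`(ν L^r + a + b)^κ ≤ (ν L^r + b)^κ`, contradiction. -/
theorem Sys.ndB (h : Sys T Z X top p r B ν e σ) (hw : ∀ i, 1 ≤ w i ∧ w i ≤ 2) (x : X)
    (𝒰 : Ultrafilter ℕ) (F : ℕ → Finset (T × (T × Bool))) (hF : ∀ k, Fm top (F k))
    (hM : Tendsto (fun k => PF top p r ν σ w (F k) x) (𝒰 : Filter ℕ) (𝓝 (Phi top p r ν σ w x)))
    (s : ℕ → T) (e₀ : T × Bool) (hj : ∀ᶠ k in (𝒰 : Filter ℕ), (s k, e₀) ∈ F k) {ε : ℝ} (hε : 0 < ε)
    (hjε : ∀ᶠ k in (𝒰 : Filter ℕ), ε ≤ ‖σ (sg top (s k, e₀)) x‖)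
    (h0 : Tendsto (fun k => ‖σ {s k} x‖) (𝒰 : Filter ℕ) (𝓝 0)) : False := by
  classical
  have hr0 : 0 < r := lt_trans zero_lt_one h.hr
  have hκ : 0 < p / r := div_pos (lt_trans zero_lt_one h.hp) hr0
  have hw3 : ∀ i, 0 ≤ w i ∧ w i ≤ 3 := fun i => ⟨by linarith [(hw i).1], by linarith [(hw i).2]⟩
  have hIC : IC (ec top e₀) := ic_ec h.tree h.htop e₀
  set S : Set T := {t | ∀ᶠ k in (𝒰 : Filter ℕ), t ∈ sg top (s k, e₀)} with hS
  have hSsub : S ⊆ ec top e₀ := by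
    intro t ht
    obtain ⟨k, hk⟩ := Filter.Eventually.exists ht
    exact hk.1
  have hSC : CC S := by
    constructor
    · intro a ha b hb
      exact hIC.chain a (hSsub ha) b (hSsub hb)
    · intro a ha b hb t hat htb
      have ha' : ∀ᶠ k in (𝒰 : Filter ℕ), a ∈ sg top (s k, e₀) := ha
      have hb' : ∀ᶠ k in (𝒰 : Filter ℕ), b ∈ sg top (s k, e₀) := hb
      change ∀ᶠ k in (𝒰 : Filter ℕ), t ∈ sg top (s k, e₀)
      filter_upwards [ha', hb'] with k h1 h2
      exact (cc_sg h.tree h.htop (s k, e₀)).conv a h1 b h2 t hat htb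
  have hlim := h.lim 𝒰 (fun k => sg top (s k, e₀)) S (fun k => cc_sg h.tree h.htop (s k, e₀)) hSC
    (fun t => Iff.rfl) x
  have hLε : ε ≤ ‖σ S x‖ := ge_of_tendsto hlim.norm hjε
  have hne : {t : T | t ∈ S ∧ σ {t} x ≠ 0}.Nonempty := by
    by_contra hcon
    rw [Set.not_nonempty_iff_eq_empty] at hcon
    have h1 : σ S x = 0 := by
      apply h.zero hSC x
      intro t ht
      by_contra hne
      have : t ∈ {t : T | t ∈ S ∧ σ {t} x ≠ 0} := ⟨ht, hne⟩
      rw [hcon] at this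
      exact this
    rw [h1, norm_zero] at hLε
    linarith
  obtain ⟨s', ⟨hs'S, hs'0⟩, hmin⟩ := h.tree.wf.has_min _ hne
  have hle : ∀ᶠ k in (𝒰 : Filter ℕ), s k ≤ s' := by
    have h1 : ∀ᶠ k in (𝒰 : Filter ℕ), s' ∈ sg top (s k, e₀) := hs'S
    filter_upwards [h1] with k hk
    exact hk.2
  have hs'e : s' ∈ ec top e₀ := hSsub hs'S
  have hsub2 : sg top (s', e₀) ⊆ S := by
    intro t ht
    change ∀ᶠ k in (𝒰 : Filter ℕ), t ∈ sg top (s k, e₀)
    filter_upwards [hle] with k hk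
    exact ⟨ht.1, le_trans hk ht.2⟩
  have hIio : IC (Set.Iio s') := by
    have := ic_ec (top := top) h.tree h.htop (s', false)
    simpa [ec] using this
  have hsig : σ S x = σ (sg top (s', e₀)) x := by
    have h1 := h.add (S := S) (R := S ∩ Set.Iio s') (Q := sg top (s', e₀)) hSC (hSC.inter hIio)
      (cc_sg h.tree h.htop (s', e₀)) (by
        rw [Set.disjoint_left]
        intro t ht ht'
        exact absurd ht'.2 (not_le_of_gt ht.2)) (by
        ext t
        constructor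
        · intro ht
          by_cases hlt : t < s'
          · exact Or.inl ⟨ht, hlt⟩
          · refine Or.inr ⟨hSsub ht, ?_⟩
            rcases hIC.chain t (hSsub ht) s' hs'e with h2 | h2
            · rcases h2.lt_or_eq with h3 | h3
              · exact absurd h3 hlt
              · exact h3.ge
            · exact h2
        · rintro (ht | ht)
          · exact ht.1
          · exact hsub2 ht) x
    rw [h1]
    have h2 : σ (S ∩ Set.Iio s') x = 0 := by
      apply h.zero (hSC.inter hIio) x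
      intro t ht
      by_contra hne
      exact hmin t ⟨ht.1, hne⟩ ht.2
    rw [h2, zero_add]
  -- the exchange
  have hex : ∀ᶠ k in (𝒰 : Filter ℕ), P top r ν σ w (s', e₀) x ^ (p / r) +
      (PF top p r ν σ w (F k) x - P top r ν σ w (s k, e₀) x ^ (p / r)) ≤ Phi top p r ν σ w x := by
    filter_upwards [hj, hle] with k hk1 hk2
    have hsubk : sg top (s', e₀) ⊆ sg top (s k, e₀) := fun t ht => ⟨ht.1, le_trans hk2 ht.2⟩
    have hnot : (s', e₀) ∉ (F k).erase (s k, e₀) := by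
      intro hmem
      rw [Finset.mem_erase] at hmem
      exact hmem.1 (Fm.end_inj h.tree h.htop (hF k) hmem.2 hk1 rfl)
    have hFm : Fm top (insert (s', e₀) ((F k).erase (s k, e₀))) := by
      constructor
      · intro i hi
        rw [Finset.mem_insert] at hi
        rcases hi with rfl | hi
        · exact hs'e
        · exact (hF k).1 i (Finset.mem_of_mem_erase hi)
      · intro i hi l hl hil
        rw [Finset.mem_insert] at hi hl
        rcases hi with rfl | hi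
        · rcases hl with rfl | hl
          · exact absurd rfl hil
          · rw [Finset.mem_erase] at hl
            exact ((hF k).2 (s k, e₀) hk1 l hl.2 (Ne.symm hl.1)).mono_left hsubk
        · rcases hl with rfl | hl
          · rw [Finset.mem_erase] at hi
            exact ((hF k).2 i hi.2 (s k, e₀) hk1 hi.1).mono_right hsubk
          · exact (hF k).2 i (Finset.mem_of_mem_erase hi) l (Finset.mem_of_mem_erase hl) hil
    have h1 := h.PF_le_Phi hw3 hFm x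
    rw [PF, Finset.sum_insert hnot] at h1
    have h2 : PF top p r ν σ w (F k) x = P top r ν σ w (s k, e₀) x ^ (p / r) +
        ∑ j ∈ (F k).erase (s k, e₀), P top r ν σ w j x ^ (p / r) := by
      exact (Finset.add_sum_erase (F k) (fun j => P top r ν σ w j x ^ (p / r)) hk1).symm
    rw [h2]
    linarith
  -- the limit
  set b : ℝ := w (Sum.inr e₀) * ν (σ {e₀.1} x) ^ r with hb
  have hνlim : Tendsto (fun k => ν (σ (sg top (s k, e₀)) x) ^ r) (𝒰 : Filter ℕ)
      (𝓝 (ν (σ S x) ^ r)) := by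
    have h1 : Tendsto (fun k => ν (σ (sg top (s k, e₀)) x)) (𝒰 : Filter ℕ) (𝓝 (ν (σ S x))) :=
      (h.nu_cont.tendsto _).comp hlim
    exact h1.rpow_const (Or.inr hr0.le)
  have hstart : Tendsto (fun k => w (Sum.inl (s k)) * ν (σ {s k} x) ^ r) (𝒰 : Filter ℕ) (𝓝 0) := by
    have h1 : Tendsto (fun k => 2 * (B * ‖σ {s k} x‖) ^ r) (𝒰 : Filter ℕ) (𝓝 (2 * (B * 0) ^ r)) :=
      ((h0.const_mul B).rpow_const (Or.inr hr0.le)).const_mul 2
    rw [mul_zero, Real.zero_rpow hr0.ne', mul_zero] at h1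
    refine squeeze_zero (fun k => ?_) (fun k => ?_) h1
    · exact mul_nonneg (hw3 _).1 (Real.rpow_nonneg (h.nu_nonneg _) _)
    · apply mul_le_mul (hw _).2 _ (Real.rpow_nonneg (h.nu_nonneg _) _) (by norm_num)
      exact Real.rpow_le_rpow (h.nu_nonneg _) (h.up _) hr0.le
  have hPlim : Tendsto (fun k => P top r ν σ w (s k, e₀) x) (𝒰 : Filter ℕ)
      (𝓝 (ν (σ S x) ^ r + 0 + b)) :=
    (hνlim.add hstart).add tendsto_const_nhds
  have hPκ : Tendsto (fun k => P top r ν σ w (s k, e₀) x ^ (p / r)) (𝒰 : Filter ℕ)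
      (𝓝 ((ν (σ S x) ^ r + 0 + b) ^ (p / r))) := hPlim.rpow_const (Or.inr hκ.le)
  have hfinal : P top r ν σ w (s', e₀) x ^ (p / r) +
      (Phi top p r ν σ w x - (ν (σ S x) ^ r + 0 + b) ^ (p / r)) ≤ Phi top p r ν σ w x :=
    le_of_tendsto (tendsto_const_nhds.add (hM.sub hPκ)) hex
  have hP' : P top r ν σ w (s', e₀) x = ν (σ S x) ^ r + w (Sum.inl s') * ν (σ {s'} x) ^ r + b := by
    rw [hsig]
    rfl
  have ha : 0 < w (Sum.inl s') * ν (σ {s'} x) ^ r := by
    apply mul_pos (lt_of_lt_of_le zero_lt_one (hw _).1)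
    apply Real.rpow_pos_of_pos
    exact lt_of_lt_of_le (norm_pos_iff.mpr hs'0) (h.lo _)
  have hbase : 0 ≤ ν (σ S x) ^ r + 0 + b := by
    have h1 : 0 ≤ ν (σ S x) ^ r := Real.rpow_nonneg (h.nu_nonneg _) _
    have h2 : 0 ≤ b := mul_nonneg (hw3 _).1 (Real.rpow_nonneg (h.nu_nonneg _) _)
    linarith
  have hlt : (ν (σ S x) ^ r + 0 + b) ^ (p / r) <
      (ν (σ S x) ^ r + w (Sum.inl s') * ν (σ {s'} x) ^ r + b) ^ (p / r) :=
    Real.rpow_lt_rpow hbase (by linarith) hκ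
  rw [hP'] at hfinal
  linarith

end Pool.Agent.JTS
end
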