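import Pool.Agent.Lib.MP_05b481_an.Mg.G005
import Pool.Agent.Lib.MP_05b481_an.Mg.G002

section

/-!
The estimate for one family behind the fact that upper ends do not drift.
-/

set_option autoImplicit false

namespace Pool.Agent.JTS

variable {T Z X : Type} [PartialOrder T] [NormedAddCommGroup Z] [NormedSpace ℝ Z]
    [NormedAddCommGroup X] [NormedSpace ℝ X] {top : T → Set T} {p r B : ℝ} {ν : Z → ℝ}
    {e : (T →₀ Z) →ₗ[ℝ] X} {σ : Set T → X →L[ℝ] Z} {w : Ix T → ℝ}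

/-- A segment that starts outside `ec top j.2` sees only `x - e y` on `z`. PROOF. `sg top i ∩ ec top e'` is the disjoint union of the convex chains
`sg top i ∩ z` (`z ⊆ ec top e'`) and `(sg top i ∩ ec top e') \ z`; the second has sum `0` (`h.zero`, `hA`). `sg top i ∩ z` contains no node of
`y.support`: such a node `t` would be in `ec top j.2` (`ha`), and `i.1 ≤ t` gives `i.1 ∈ ec top j.2`. So `σ (sg top i ∩ z) (e y) = 0` (`h.finz`). -/
theorem Sys.ndA_sigma (h : Sys T Z X top p r B ν e σ) (x : X) {j : T × (T × Bool)} {z : Set T}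
    (hz : IC z) {e' : T × Bool} (hze : z ⊆ ec top e')
    (hA : ∀ t ∈ ec top e', σ {t} x ≠ 0 → t ∈ z) (y : T →₀ Z)
    (ha : ∀ t ∈ z, t ∈ y.support → t ∈ ec top j.2) {i : T × (T × Bool)}
    (hi : i.1 ∉ ec top j.2) :
    σ (sg top i ∩ ec top e') x = σ (sg top i ∩ z) (x - e y) := by
  have hS : CC (sg top i ∩ ec top e') :=
    (cc_sg h.tree h.htop i).inter (ic_ec h.tree h.htop e')
  have hR : CC (sg top i ∩ z) := (cc_sg h.tree h.htop i).inter hz
  have hQ : CC ((sg top i ∩ ec top e') \ z) := hS.diff hz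
  have hd : Disjoint (sg top i ∩ z) ((sg top i ∩ ec top e') \ z) := by
    rw [Set.disjoint_left]
    intro t ht ht'
    exact ht'.2 ht.2
  have hu : sg top i ∩ ec top e' = (sg top i ∩ z) ∪ ((sg top i ∩ ec top e') \ z) := by
    ext t
    constructor
    · intro ht
      by_cases htz : t ∈ z
      · exact Or.inl ⟨ht.1, htz⟩
      · exact Or.inr ⟨ht, htz⟩
    · rintro (ht | ht)
      · exact ⟨ht.1, hze ht.2⟩
      · exact ht.1
  have h1 := h.add hS hR hQ hd hu x
  have h2 : σ ((sg top i ∩ ec top e') \ z) x = 0 := by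
    refine h.zero hQ x fun t ht => ?_
    by_contra hne
    exact ht.2 (hA t ht.1.2 hne)
  have h3 : σ (sg top i ∩ z) (e y) = 0 := by
    refine h.finz hR y fun t ht hty => ?_
    exact hi ((ic_ec h.tree h.htop j.2).low t (ha t ht.2 hty) i.1 ht.1.2)
  rw [h1, h2, add_zero, map_sub, h3, sub_zero]

/-- PROOF. If `σ {i.1} x ≠ 0` then `i.1 ∈ z` (`hA`), so `i.1 ∉ y.support` (`ha`), and `σ {i.1} (e y) = 0`: equality. Otherwise the left side is `ν 0 = 0`. -/
theorem Sys.ndA_start (h : Sys T Z X top p r B ν e σ) (x : X) {j : T × (T × Bool)} {z : Set T}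
    {e' : T × Bool} (hA : ∀ t ∈ ec top e', σ {t} x ≠ 0 → t ∈ z) (y : T →₀ Z)
    (ha : ∀ t ∈ z, t ∈ y.support → t ∈ ec top j.2) {i : T × (T × Bool)}
    (hi : i.1 ∉ ec top j.2) (hi' : i.1 ∈ ec top e') :
    ν (σ {i.1} x) ≤ ν (σ {i.1} (x - e y)) := by
  by_cases h0 : σ {i.1} x = 0
  · rw [h0, h.nu_zero]
    exact h.nu_nonneg _
  · have hz : i.1 ∈ z := hA i.1 hi' h0
    have hy : i.1 ∉ y.support := fun hy => hi (ha i.1 hz hy)
    have h1 : σ {i.1} (e y) = 0 := by
      refine h.finz (cc_single i.1) y fun t ht => ?_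
      rw [Set.mem_singleton_iff] at ht
      rw [ht]
      exact hy
    rw [map_sub, h1, sub_zero]

private theorem C5a_rpow {a p r : ℝ} (ha : 0 ≤ a) : a ^ (p / r) = (a ^ (1 / r)) ^ p := by
  rw [← Real.rpow_mul ha]
  congr 1
  ring

/-- The bound for the `ε_i`. -/
private theorem C5a_eps (h : Sys T Z X top p r B ν e σ) (hw : ∀ i, 0 ≤ w i ∧ w i ≤ 3)
    {F : Finset (T × (T × Bool))} (hF : Fm top F) {z : Set T} (hz : IC z) {x' : X} {η : ℝ}
    (hy : ‖x'‖ ≤ η) {G : Finset (T × (T × Bool))} (hG : G ⊆ F)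
    (c : T × (T × Bool) → ℝ) (hc0 : ∀ i, 0 ≤ c i) (hc : ∀ i, c i ≤ ν (σ {i.2.1} x')) :
    ∑ i ∈ G, ((ν (σ (sg top i ∩ z) x') ^ r + w (Sum.inl i.1) * ν (σ {i.1} x') ^ r +
      w (Sum.inr i.2) * c i ^ r) ^ (1 / r)) ^ p ≤ (10 * (B * η)) ^ p := by
  have hB0 : 0 ≤ B := zero_le_one.trans h.hB
  have hη : 0 ≤ η := (norm_nonneg _).trans hy
  have hp0 : 0 ≤ p := (zero_le_one.trans h.hp.le)
  have hr0 : 0 < r := zero_lt_one.trans h.hr
  have hN : 0 ≤ B * η := mul_nonneg hB0 hη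
  have hNle : (B * ‖x'‖) ^ p ≤ (B * η) ^ p :=
    Real.rpow_le_rpow (mul_nonneg hB0 (norm_nonneg _)) (mul_le_mul_of_nonneg_left hy hB0) hp0
  obtain ⟨_, t2, t3⟩ := h.three hF x'
  have h1 : ∑ i ∈ G, ν (σ (sg top i ∩ z) x') ^ p ≤ (B * η) ^ p := by
    have e1 : ∀ i ∈ G, ν (σ (sg top i ∩ z) x') ^ p ≤ B ^ p * ‖σ (sg top i ∩ z) x'‖ ^ p := by
      intro i _
      rw [← Real.mul_rpow hB0 (norm_nonneg _)]
      exact Real.rpow_le_rpow (h.nu_nonneg _) (h.up _) hp0
    have e2 : ∑ i ∈ G, ‖σ (sg top i ∩ z) x'‖ ^ p ≤ ‖x'‖ ^ p := by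
      refine h.fam G (fun i => sg top i ∩ z) (fun i _ => (cc_sg h.tree h.htop i).inter hz) ?_ x'
      intro i hi j hj hij
      exact (hF.2 i (hG hi) j (hG hj) hij).mono Set.inter_subset_left Set.inter_subset_left
    calc ∑ i ∈ G, ν (σ (sg top i ∩ z) x') ^ p
        ≤ ∑ i ∈ G, B ^ p * ‖σ (sg top i ∩ z) x'‖ ^ p := Finset.sum_le_sum e1
      _ = B ^ p * ∑ i ∈ G, ‖σ (sg top i ∩ z) x'‖ ^ p := by rw [Finset.mul_sum]
      _ ≤ B ^ p * ‖x'‖ ^ p := mul_le_mul_of_nonneg_left e2 (Real.rpow_nonneg hB0 _)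
      _ = (B * ‖x'‖) ^ p := (Real.mul_rpow hB0 (norm_nonneg _)).symm
      _ ≤ (B * η) ^ p := hNle
  have h2 : ∑ i ∈ G, ν (σ {i.1} x') ^ p ≤ (B * η) ^ p :=
    (Finset.sum_le_sum_of_subset_of_nonneg hG
      fun i _ _ => Real.rpow_nonneg (h.nu_nonneg _) _).trans (t2.trans hNle)
  have h3 : ∑ i ∈ G, c i ^ p ≤ 2 * (B * η) ^ p := by
    have e1 : ∑ i ∈ G, c i ^ p ≤ ∑ i ∈ G, ν (σ {i.2.1} x') ^ p :=
      Finset.sum_le_sum fun i _ => Real.rpow_le_rpow (hc0 i) (hc i) hp0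
    have e2 : ∑ i ∈ G, ν (σ {i.2.1} x') ^ p ≤ ∑ i ∈ F, ν (σ {i.2.1} x') ^ p :=
      Finset.sum_le_sum_of_subset_of_nonneg hG
        fun i _ _ => Real.rpow_nonneg (h.nu_nonneg _) _
    linarith
  have h4 := lp_bound G h.hr h.hrp hN (fun i => ν (σ (sg top i ∩ z) x')) (fun i => ν (σ {i.1} x'))
    c (fun i => w (Sum.inl i.1)) (fun i => w (Sum.inr i.2)) (fun i _ => h.nu_nonneg _)
    (fun i _ => h.nu_nonneg _) (fun i _ => hc0 i) (fun i _ => hw _) (fun i _ => hw _) h1 h2 h3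
  refine le_trans (le_of_eq (Finset.sum_congr rfl fun i _ => ?_)) h4
  have n1 : 0 ≤ ν (σ (sg top i ∩ z) x') ^ r := Real.rpow_nonneg (h.nu_nonneg _) _
  have n2 : 0 ≤ w (Sum.inl i.1) * ν (σ {i.1} x') ^ r :=
    mul_nonneg (hw _).1 (Real.rpow_nonneg (h.nu_nonneg _) _)
  have n3 : 0 ≤ w (Sum.inr i.2) * c i ^ r := mul_nonneg (hw _).1 (Real.rpow_nonneg (hc0 i) _)
  exact (C5a_rpow (by linarith)).symm

/-- PROOF. Take `G₂, G₃, tr` from `h.exch`. Put `N = B * η`.
`G₂`: `sg top i = sg top (tr i, i.2) ∪ (sg top i ∩ ec top e')` disjoint, so `σ (sg top i) x = σ (sg top (tr i, i.2)) x + σ (sg top i ∩ z) (x - e y)`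
(`h.add`, `ndA_sigma`). With `ε_i = (ν (σ (sg top i ∩ z) (x - e y)) ^ r + w (inl i.1) * ν (σ {i.1} (x - e y)) ^ r + w (inr i.2) * 0 ^ r) ^ (1/r)`:
`P_i(x)^(1/r) ≤ P_(tr i, i.2)(x)^(1/r) + ε_i` (`mink3` and monotonicity: the weight of the start of the trimmed segment only helps:
`(a^r + 0 + W₂ c^r)^(1/r) ≤ P_(tr i,i.2)^(1/r)`), and `∑ ε_i ^ p ≤ (10 N) ^ p` by `lp_bound` with `h.fam` (sets `sg top i ∩ z`, disjoint; sets
`{i.1}`, the starts are different). `lp_perturb` with `M = Phi ^ (1/p)` (last statement of `h.exch`), `E = 10 N`: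
`∑_{G₂} P_i ^ (p/r) ≤ ∑_{G₂} P_(tr i,i.2) ^ (p/r) + ((Phi^(1/p) + 10N)^p - Phi)`.
`G₃`: `sg top i ⊆ ec top i.2 ⊆ ec top e'`, so `σ (sg top i) x = σ (sg top i ∩ z) (x - e y)`. End node `u = i.2.1`: if `ec top i.2 = ec top e'`:
`w (inr i.2) ν (σ {u} x) ^ r ≤ b := w (inr e') ν (σ {e'.1} x) ^ r` (`hb`); this happens for at most one `i` (`Fm.end_inj`). Otherwise `σ {u} x = 0` if
`z ⊆ ec top i.2` (`hmin`: `ec top i.2 ⊂ ec top e'`), and if not `z ⊆ ec top i.2`: `u ∉ y.support` (`hb'`), `σ {u} x = σ {u} (x - e y)`.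
So `P_i(x)^(1/r) ≤ ε'_i + 1[ec top i.2 = ec top e'] b^(1/r)`, where `ε'_i` is the `ℓ_r` combination for `x - e y` (with end coordinate `0` when `u` is
excluded), `∑ ε'_i ^ p ≤ (10 N)^p` (`lp_bound`; the ends: `∑ ν (σ {i.2.1} (x - e y)) ^ p ≤ 2 N ^ p` by `h.three`). Minkowski (or
`lp_perturb` with `ψ'_i = 1[..] b^(1/r)`, `∑ ψ' ^ p ≤ (b^(1/r))^p`): `∑_{G₃} P_i ^ (p/r) ≤ (b^(1/r) + 10N)^p`. Insert both into `h.exch`. -/
theorem Sys.ndA1 (h : Sys T Z X top p r B ν e σ) (hw : ∀ i, 0 ≤ w i ∧ w i ≤ 3) (x : X)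
    {F : Finset (T × (T × Bool))} (hF : Fm top F) {j : T × (T × Bool)} (hj : j ∈ F)
    {z : Set T} (hz : IC z) {e' : T × Bool} (hze : z ⊆ ec top e')
    (hA : ∀ t ∈ ec top e', σ {t} x ≠ 0 → t ∈ z)
    (hmin : ∀ e'' : T × Bool, σ {e''.1} x ≠ 0 → z ⊆ ec top e'' → ¬ ec top e'' ⊂ ec top e')
    (hs : j.1 ∈ ec top e')
    (hb : ∀ i ∈ F, ec top i.2 = ec top e' →
      w (Sum.inr i.2) * ν (σ {i.2.1} x) ^ r ≤ w (Sum.inr e') * ν (σ {e'.1} x) ^ r)
    (y : T →₀ Z) {η : ℝ} (hy : ‖x - e y‖ ≤ η)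
    (ha : ∀ t ∈ z, t ∈ y.support → t ∈ ec top j.2)
    (hb' : ∀ i ∈ F, i.1 ∉ ec top j.2 → ec top i.2 ⊆ ec top e' → ¬ z ⊆ ec top i.2 →
      i.2.1 ∉ y.support) :
    PF top p r ν σ w F x + P top r ν σ w (j.1, e') x ^ (p / r) ≤
      Phi top p r ν σ w x + P top r ν σ w j x ^ (p / r) +
        ((Phi top p r ν σ w x ^ (1 / p) + 10 * (B * η)) ^ p - Phi top p r ν σ w x) +
        ((w (Sum.inr e') * ν (σ {e'.1} x) ^ r) ^ (1 / r) + 10 * (B * η)) ^ p := by
  classical
  obtain ⟨G₂, G₃, tr, hG2F, hG3F, hG2, hG3, hmain, hphi⟩ := h.exch hw x hF hj e' hs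
  have hB0 : 0 ≤ B := zero_le_one.trans h.hB
  have hη : 0 ≤ η := (norm_nonneg _).trans hy
  have hp0 : 0 < p := (zero_lt_one.trans h.hp)
  have hr0 : 0 < r := zero_lt_one.trans h.hr
  have hN : 0 ≤ 10 * (B * η) := by positivity
  have hw0 : ∀ i, 0 ≤ w i := fun i => (hw i).1
  have hinv0 : 0 ≤ 1 / r := by positivity
  have hinv1 : 1 / r ≤ 1 := by
    rw [div_le_one hr0]
    exact h.hr.le
  have hPhi : 0 ≤ Phi top p r ν σ w x := h.Phi_nonneg hw x
  have hPhip : (Phi top p r ν σ w x ^ (1 / p)) ^ p = Phi top p r ν σ w x := by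
    rw [← Real.rpow_mul hPhi, one_div_mul_cancel hp0.ne', Real.rpow_one]
  have hP0 : ∀ i, 0 ≤ P top r ν σ w i x := fun i => h.P_nonneg hw0 i x
  -- the first family
  have hfirst : ∑ i ∈ G₂, P top r ν σ w i x ^ (p / r) ≤
      ∑ i ∈ G₂, P top r ν σ w (tr i, i.2) x ^ (p / r) +
        ((Phi top p r ν σ w x ^ (1 / p) + 10 * (B * η)) ^ p - Phi top p r ν σ w x) := by
    have hε := C5a_eps h hw hF hz hy hG2F (fun _ => 0) (fun _ => le_rfl)
      (fun i => h.nu_nonneg _)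
    have hstep : ∀ i ∈ G₂, P top r ν σ w i x ^ (1 / r) ≤
        P top r ν σ w (tr i, i.2) x ^ (1 / r) +
          (ν (σ (sg top i ∩ z) (x - e y)) ^ r +
            w (Sum.inl i.1) * ν (σ {i.1} (x - e y)) ^ r +
            w (Sum.inr i.2) * (0 : ℝ) ^ r) ^ (1 / r) := by
      intro i hi
      obtain ⟨g1, g2, g3, g4⟩ := hG2 i hi
      have hsig := h.ndA_sigma x hz hze hA y ha g2 (i := i)
      have hst := h.ndA_start x hA y ha g2 g1
      have hcc : CC (sg top i) := cc_sg h.tree h.htop i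
      have hec : IC (ec top e') := ic_ec h.tree h.htop e'
      have hadd : σ (sg top i) x = σ (sg top i \ ec top e') x + σ (sg top i ∩ ec top e') x := by
        refine h.add hcc (hcc.diff hec) (hcc.inter hec) ?_ ?_ x
        · rw [Set.disjoint_left]
          intro t ht ht'
          exact ht.2 ht'.2
        · exact (Set.sdiff_union_inter _ _).symm
      rw [hsig, ← g4] at hadd
      have hν : ν (σ (sg top i) x) ≤ ν (σ (sg top (tr i, i.2)) x) +
          ν (σ (sg top i ∩ z) (x - e y)) := by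
        rw [hadd]
        exact h.tri _ _
      have hm := mink3 (r := r) h.hr.le (hw0 (Sum.inl i.1)) (hw0 (Sum.inr i.2))
        (h.nu_nonneg (σ (sg top (tr i, i.2)) x)) le_rfl (h.nu_nonneg (σ {i.2.1} x))
        (h.nu_nonneg (σ (sg top i ∩ z) (x - e y))) (h.nu_nonneg (σ {i.1} (x - e y))) le_rfl
      have k1 : P top r ν σ w i x ^ (1 / r) ≤
          ((ν (σ (sg top (tr i, i.2)) x) + ν (σ (sg top i ∩ z) (x - e y))) ^ r +
            w (Sum.inl i.1) * (0 + ν (σ {i.1} (x - e y))) ^ r +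
            w (Sum.inr i.2) * (ν (σ {i.2.1} x) + 0) ^ r) ^ (1 / r) := by
        refine Real.rpow_le_rpow (hP0 i) ?_ hinv0
        unfold P
        rw [zero_add, add_zero]
        have m1 : ν (σ (sg top i) x) ^ r ≤
            (ν (σ (sg top (tr i, i.2)) x) + ν (σ (sg top i ∩ z) (x - e y))) ^ r :=
          Real.rpow_le_rpow (h.nu_nonneg _) hν hr0.le
        have m2 : w (Sum.inl i.1) * ν (σ {i.1} x) ^ r ≤
            w (Sum.inl i.1) * ν (σ {i.1} (x - e y)) ^ r :=
          mul_le_mul_of_nonneg_left (Real.rpow_le_rpow (h.nu_nonneg _) hst hr0.le) (hw0 _)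
        linarith
      have k2 : (ν (σ (sg top (tr i, i.2)) x) ^ r + w (Sum.inl i.1) * (0 : ℝ) ^ r +
          w (Sum.inr i.2) * ν (σ {i.2.1} x) ^ r) ^ (1 / r) ≤
          P top r ν σ w (tr i, i.2) x ^ (1 / r) := by
        have m0 : (0 : ℝ) ^ r = 0 := Real.zero_rpow hr0.ne'
        refine Real.rpow_le_rpow ?_ ?_ hinv0
        · rw [m0, mul_zero, add_zero]
          exact add_nonneg (Real.rpow_nonneg (h.nu_nonneg _) _)
            (mul_nonneg (hw0 _) (Real.rpow_nonneg (h.nu_nonneg _) _))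
        · unfold P
          rw [m0, mul_zero, add_zero]
          have m1 : 0 ≤ w (Sum.inl (tr i)) * ν (σ {tr i} x) ^ r :=
            mul_nonneg (hw0 _) (Real.rpow_nonneg (h.nu_nonneg _) _)
          show _ ≤ ν (σ (sg top (tr i, i.2)) x) ^ r + w (Sum.inl (tr i)) * ν (σ {tr i} x) ^ r +
            w (Sum.inr i.2) * ν (σ {i.2.1} x) ^ r
          linarith
      linarith
    have hpert := lp_perturb G₂ h.hp (Real.rpow_nonneg hPhi (1 / p)) hN
      (fun i => P top r ν σ w i x ^ (1 / r)) (fun i => P top r ν σ w (tr i, i.2) x ^ (1 / r))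
      (fun i => (ν (σ (sg top i ∩ z) (x - e y)) ^ r +
            w (Sum.inl i.1) * ν (σ {i.1} (x - e y)) ^ r +
            w (Sum.inr i.2) * (0 : ℝ) ^ r) ^ (1 / r))
      (fun i _ => Real.rpow_nonneg (hP0 i) _) (fun i _ => Real.rpow_nonneg (hP0 _) _)
      (fun i _ => by
        refine Real.rpow_nonneg ?_ _
        exact add_nonneg (add_nonneg (Real.rpow_nonneg (h.nu_nonneg _) _)
          (mul_nonneg (hw0 _) (Real.rpow_nonneg (h.nu_nonneg _) _)))
          (mul_nonneg (hw0 _) (Real.rpow_nonneg le_rfl _))) hstep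
      (by
        rw [hPhip]
        refine le_trans (le_of_eq (Finset.sum_congr rfl fun i _ => ?_)) hphi
        exact (C5a_rpow (hP0 _)).symm) hε
    rw [hPhip] at hpert
    have q1 : ∑ i ∈ G₂, P top r ν σ w i x ^ (p / r) =
        ∑ i ∈ G₂, (P top r ν σ w i x ^ (1 / r)) ^ p :=
      Finset.sum_congr rfl fun i _ => C5a_rpow (hP0 i)
    have q2 : ∑ i ∈ G₂, P top r ν σ w (tr i, i.2) x ^ (p / r) =
        ∑ i ∈ G₂, (P top r ν σ w (tr i, i.2) x ^ (1 / r)) ^ p :=
      Finset.sum_congr rfl fun i _ => C5a_rpow (hP0 _)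
    rw [q1, q2]
    exact hpert
  -- the second family
  have hsecond : ∑ i ∈ G₃, P top r ν σ w i x ^ (p / r) ≤
      ((w (Sum.inr e') * ν (σ {e'.1} x) ^ r) ^ (1 / r) + 10 * (B * η)) ^ p := by
    set b : ℝ := w (Sum.inr e') * ν (σ {e'.1} x) ^ r with hbdef
    have hb0 : 0 ≤ b := mul_nonneg (hw0 _) (Real.rpow_nonneg (h.nu_nonneg _) _)
    have hbr0 : 0 ≤ b ^ (1 / r) := Real.rpow_nonneg hb0 _
    have hε := C5a_eps h hw hF hz hy hG3F (fun i => ν (σ {i.2.1} (x - e y)))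
      (fun _ => h.nu_nonneg _) (fun i => le_rfl)
    have hstep : ∀ i ∈ G₃, P top r ν σ w i x ^ (1 / r) ≤
        (if ec top i.2 = ec top e' then b ^ (1 / r) else 0) +
          (ν (σ (sg top i ∩ z) (x - e y)) ^ r +
            w (Sum.inl i.1) * ν (σ {i.1} (x - e y)) ^ r +
            w (Sum.inr i.2) * ν (σ {i.2.1} (x - e y)) ^ r) ^ (1 / r) := by
      intro i hi
      obtain ⟨g1, g2, g3⟩ := hG3 i hi
      have hsig := h.ndA_sigma x hz hze hA y ha g2 (i := i)
      have hst := h.ndA_start x hA y ha g2 g1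
      have hsub : sg top i ∩ ec top e' = sg top i :=
        Set.inter_eq_left.2 fun t ht => g3 ht.1
      rw [hsub] at hsig
      have n1 : 0 ≤ ν (σ (sg top i ∩ z) (x - e y)) ^ r := Real.rpow_nonneg (h.nu_nonneg _) _
      have n2 : 0 ≤ w (Sum.inl i.1) * ν (σ {i.1} (x - e y)) ^ r :=
        mul_nonneg (hw0 _) (Real.rpow_nonneg (h.nu_nonneg _) _)
      have n3 : 0 ≤ w (Sum.inr i.2) * ν (σ {i.2.1} (x - e y)) ^ r :=
        mul_nonneg (hw0 _) (Real.rpow_nonneg (h.nu_nonneg _) _)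
      have m2 : w (Sum.inl i.1) * ν (σ {i.1} x) ^ r ≤
          w (Sum.inl i.1) * ν (σ {i.1} (x - e y)) ^ r :=
        mul_le_mul_of_nonneg_left (Real.rpow_le_rpow (h.nu_nonneg _) hst hr0.le) (hw0 _)
      by_cases hec : ec top i.2 = ec top e'
      · rw [if_pos hec]
        have m3 := hb i (hG3F hi) hec
        have k1 : P top r ν σ w i x ≤ b + (ν (σ (sg top i ∩ z) (x - e y)) ^ r +
            w (Sum.inl i.1) * ν (σ {i.1} (x - e y)) ^ r +
            w (Sum.inr i.2) * ν (σ {i.2.1} (x - e y)) ^ r) := by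
          unfold P
          rw [hsig]
          linarith
        exact (Real.rpow_le_rpow (hP0 i) k1 hinv0).trans
          (Real.rpow_add_le_add_rpow hb0 (by linarith) hinv0 hinv1)
      · rw [if_neg hec, zero_add]
        have m3 : ν (σ {i.2.1} x) ≤ ν (σ {i.2.1} (x - e y)) := by
          by_cases h0 : σ {i.2.1} x = 0
          · rw [h0, h.nu_zero]
            exact h.nu_nonneg _
          · have hss : ec top i.2 ⊂ ec top e' := lt_of_le_of_ne g3 hec
            have hnz : ¬ z ⊆ ec top i.2 := fun hzz => hmin i.2 h0 hzz hss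
            have hys := hb' i (hG3F hi) g2 g3 hnz
            have h1 : σ {i.2.1} (e y) = 0 := by
              refine h.finz (cc_single i.2.1) y fun t ht => ?_
              rw [Set.mem_singleton_iff] at ht
              rw [ht]
              exact hys
            rw [map_sub, h1, sub_zero]
        have m4 : w (Sum.inr i.2) * ν (σ {i.2.1} x) ^ r ≤
            w (Sum.inr i.2) * ν (σ {i.2.1} (x - e y)) ^ r :=
          mul_le_mul_of_nonneg_left (Real.rpow_le_rpow (h.nu_nonneg _) m3 hr0.le) (hw0 _)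
        refine Real.rpow_le_rpow (hP0 i) ?_ hinv0
        unfold P
        rw [hsig]
        linarith
    have hone : ∑ i ∈ G₃, (if ec top i.2 = ec top e' then b ^ (1 / r) else 0) ^ p ≤
        (b ^ (1 / r)) ^ p := by
      by_cases hex : ∃ i₀ ∈ G₃, ec top i₀.2 = ec top e'
      · obtain ⟨i₀, hi₀, he₀⟩ := hex
        rw [Finset.sum_eq_single_of_mem i₀ hi₀]
        · rw [if_pos he₀]
        · intro i hi hne
          have hne' : ¬ ec top i.2 = ec top e' := fun he =>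
            hne (Fm.end_inj h.tree h.htop hF (hG3F hi) (hG3F hi₀) (he.trans he₀.symm))
          rw [if_neg hne', Real.zero_rpow hp0.ne']
      · rw [Finset.sum_eq_zero]
        · exact Real.rpow_nonneg hbr0 _
        · intro i hi
          have hne' : ¬ ec top i.2 = ec top e' := fun he => hex ⟨i, hi, he⟩
          rw [if_neg hne', Real.zero_rpow hp0.ne']
    have hpert := lp_perturb G₃ h.hp hbr0 hN
      (fun i => P top r ν σ w i x ^ (1 / r))
      (fun i => if ec top i.2 = ec top e' then b ^ (1 / r) else 0)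
      (fun i => (ν (σ (sg top i ∩ z) (x - e y)) ^ r +
            w (Sum.inl i.1) * ν (σ {i.1} (x - e y)) ^ r +
            w (Sum.inr i.2) * ν (σ {i.2.1} (x - e y)) ^ r) ^ (1 / r))
      (fun i _ => Real.rpow_nonneg (hP0 i) _)
      (fun i _ => by
        show 0 ≤ if ec top i.2 = ec top e' then b ^ (1 / r) else 0
        split_ifs
        · exact hbr0
        · exact le_rfl)
      (fun i _ => by
        refine Real.rpow_nonneg ?_ _
        exact add_nonneg (add_nonneg (Real.rpow_nonneg (h.nu_nonneg _) _)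
          (mul_nonneg (hw0 _) (Real.rpow_nonneg (h.nu_nonneg _) _)))
          (mul_nonneg (hw0 _) (Real.rpow_nonneg (h.nu_nonneg _) _))) hstep hone hε
    have q1 : ∑ i ∈ G₃, P top r ν σ w i x ^ (p / r) =
        ∑ i ∈ G₃, (P top r ν σ w i x ^ (1 / r)) ^ p :=
      Finset.sum_congr rfl fun i _ => C5a_rpow (hP0 i)
    rw [q1]
    refine hpert.trans ?_
    have := hone
    linarith
  linarith

end Pool.Agent.JTS
end

section

/-!
Upper ends do not drift.
-/

set_option autoImplicit false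

namespace Pool.Agent.JTS

open Filter Topology

variable {T Z X : Type} [PartialOrder T] [NormedAddCommGroup Z] [NormedSpace ℝ Z]
    [NormedAddCommGroup X] [NormedSpace ℝ X] {top : T → Set T} {p r B : ℝ} {ν : Z → ℝ}
    {e : (T →₀ Z) →ₗ[ℝ] X} {σ : Set T → X →L[ℝ] Z} {w : Ix T → ℝ}

private theorem C5b_lim (𝒰 : Ultrafilter ℕ) (u : ℕ → ℝ) (a b : ℝ)
    (hu : ∀ k, a ≤ u k ∧ u k ≤ b) :
    ∃ l, a ≤ l ∧ l ≤ b ∧ Tendsto u (𝒰 : Filter ℕ) (𝓝 l) := by
  have h1 : ((𝒰.map u : Ultrafilter ℝ) : Filter ℝ) ≤ 𝓟 (Set.Icc a b) := by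
    rw [le_principal_iff]
    exact Filter.mem_map.2 (Filter.univ_mem' fun k => hu k)
  obtain ⟨l, hl, hl2⟩ := isCompact_Icc.ultrafilter_le_nhds (𝒰.map u) h1
  exact ⟨l, hl.1, hl.2, hl2⟩

/-- The limit data: the end `e*` and the chain `z`. -/
private theorem C5b_data (h : Sys T Z X top p r B ν e σ) (x : X) (𝒰 : Ultrafilter ℕ)
    (j : ℕ → T × (T × Bool)) {ε : ℝ} (hε : 0 < ε) (hjε : ∀ k, ε ≤ ‖σ (sg top (j k)) x‖) :
    ∃ (z : Set T) (es : T × Bool) (L : Z), IC z ∧ σ {es.1} x ≠ 0 ∧ z ⊆ ec top es ∧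
      (∀ t ∈ ec top es, σ {t} x ≠ 0 → t ∈ z) ∧
      (∀ e'' : T × Bool, σ {e''.1} x ≠ 0 → z ⊆ ec top e'' → ¬ ec top e'' ⊂ ec top es) ∧
      (∀ᶠ k in (𝒰 : Filter ℕ), (j k).1 ∈ z) ∧
      (∀ t ∈ z, ∀ᶠ k in (𝒰 : Filter ℕ), t ∈ ec top (j k).2) ∧
      Tendsto (fun k => σ (sg top (j k)) x) (𝒰 : Filter ℕ) (𝓝 L) ∧
      Tendsto (fun k => σ (sg top ((j k).1, es)) x) (𝒰 : Filter ℕ) (𝓝 L) := by
  classical
  have hT := h.tree
  have htop := h.htop
  set ci : Set T := {t | ∀ᶠ k in (𝒰 : Filter ℕ), t ∈ ec top (j k).2} with hci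
  set Si : Set T := {t | ∀ᶠ k in (𝒰 : Filter ℕ), t ∈ sg top (j k)} with hSi
  have hicc : IC ci := by
    refine ⟨fun a ha b hba => ?_, fun a ha b hb => ?_⟩
    · have ha' : ∀ᶠ k in (𝒰 : Filter ℕ), a ∈ ec top (j k).2 := ha
      exact ha'.mono fun k hk => (ic_ec hT htop _).low a hk b hba
    · have ha' : ∀ᶠ k in (𝒰 : Filter ℕ), a ∈ ec top (j k).2 := ha
      have hb' : ∀ᶠ k in (𝒰 : Filter ℕ), b ∈ ec top (j k).2 := hb
      obtain ⟨k, hk1, hk2⟩ := (ha'.and hb').exists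
      exact (ic_ec hT htop _).chain a hk1 b hk2
  have hccS : CC Si := by
    refine ⟨fun a ha b hb => ?_, fun a ha b hb t hat htb => ?_⟩
    · have ha' : ∀ᶠ k in (𝒰 : Filter ℕ), a ∈ sg top (j k) := ha
      have hb' : ∀ᶠ k in (𝒰 : Filter ℕ), b ∈ sg top (j k) := hb
      obtain ⟨k, hk1, hk2⟩ := (ha'.and hb').exists
      exact (cc_sg hT htop _).chain a hk1 b hk2
    · have ha' : ∀ᶠ k in (𝒰 : Filter ℕ), a ∈ sg top (j k) := ha
      have hb' : ∀ᶠ k in (𝒰 : Filter ℕ), b ∈ sg top (j k) := hb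
      exact (ha'.and hb').mono fun k hk => (cc_sg hT htop _).conv a hk.1 b hk.2 t hat htb
  have hlim1 := h.lim 𝒰 (fun k => sg top (j k)) Si (fun k => cc_sg hT htop _) hccS
    (fun t => Iff.rfl) x
  have hL : ε ≤ ‖σ Si x‖ := ge_of_tendsto hlim1.norm (Eventually.of_forall hjε)
  have hw0 : ∃ w₀ ∈ Si, σ {w₀} x ≠ 0 := by
    by_contra hcon
    push Not at hcon
    rw [h.zero hccS x hcon, norm_zero] at hL
    exact absurd hL (not_le.2 hε)
  obtain ⟨w₀, hw0S, hw0A⟩ := hw0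
  set A : Set T := {t | σ {t} x ≠ 0} with hA
  set z : Set T := {t | t ∈ ci ∧ ∃ a ∈ A, a ∈ ci ∧ t ≤ a} with hz
  have hSici : Si ⊆ ci := fun t ht => by
    have ht' : ∀ᶠ k in (𝒰 : Filter ℕ), t ∈ sg top (j k) := ht
    exact ht'.mono fun k hk => hk.1
  have hzic : IC z := by
    refine ⟨fun a ha b hba => ?_, fun a ha b hb => hicc.chain a ha.1 b hb.1⟩
    obtain ⟨ha1, a', ha2, ha3, ha4⟩ := ha
    exact ⟨hicc.low a ha1 b hba, a', ha2, ha3, hba.trans ha4⟩
  have hzA : ∀ t ∈ ci, t ∈ A → t ∈ z := fun t ht htA => ⟨ht, t, htA, ht, le_refl t⟩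
  have hw0z : w₀ ∈ z := hzA w₀ (hSici hw0S) hw0A
  obtain ⟨es, hes1, hes2, hes3, hes4⟩ := exists_end hT htop A z hzic ⟨w₀, hw0z⟩
    (fun t ht => by
      obtain ⟨_, a, ha1, ha2, ha3⟩ := ht
      exact ⟨a, ha1, hzA a ha2 ha1, ha3⟩)
  have hsk : ∀ᶠ k in (𝒰 : Filter ℕ), (j k).1 ∈ z := by
    have h1 : ∀ᶠ k in (𝒰 : Filter ℕ), w₀ ∈ sg top (j k) := hw0S
    exact h1.mono fun k hk => hzic.low w₀ hw0z _ hk.2
  set Ss : Set T := {t | ∀ᶠ k in (𝒰 : Filter ℕ), t ∈ sg top ((j k).1, es)} with hSs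
  have hccSs : CC Ss := by
    refine ⟨fun a ha b hb => ?_, fun a ha b hb t hat htb => ?_⟩
    · have ha' : ∀ᶠ k in (𝒰 : Filter ℕ), a ∈ sg top ((j k).1, es) := ha
      have hb' : ∀ᶠ k in (𝒰 : Filter ℕ), b ∈ sg top ((j k).1, es) := hb
      obtain ⟨k, hk1, hk2⟩ := (ha'.and hb').exists
      exact (cc_sg hT htop _).chain a hk1 b hk2
    · have ha' : ∀ᶠ k in (𝒰 : Filter ℕ), a ∈ sg top ((j k).1, es) := ha
      have hb' : ∀ᶠ k in (𝒰 : Filter ℕ), b ∈ sg top ((j k).1, es) := hb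
      exact (ha'.and hb').mono fun k hk => (cc_sg hT htop _).conv a hk.1 b hk.2 t hat htb
  have hlim2 := h.lim 𝒰 (fun k => sg top ((j k).1, es)) Ss (fun k => cc_sg hT htop _) hccSs
    (fun t => Iff.rfl) x
  have hR : Si ∩ z = Ss ∩ z := by
    ext t
    constructor
    · rintro ⟨h1, h2⟩
      have h1' : ∀ᶠ k in (𝒰 : Filter ℕ), t ∈ sg top (j k) := h1
      exact ⟨h1'.mono fun k hk => ⟨hes2 h2, hk.2⟩, h2⟩
    · rintro ⟨h1, h2⟩
      have h1' : ∀ᶠ k in (𝒰 : Filter ℕ), t ∈ sg top ((j k).1, es) := h1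
      have h2' : ∀ᶠ k in (𝒰 : Filter ℕ), t ∈ ec top (j k).2 := h2.1
      exact ⟨(h1'.and h2').mono fun k hk => ⟨hk.2, hk.1.2⟩, h2⟩
  have hSeq : σ Si x = σ Ss x := by
    have e1 : σ Si x = σ (Si ∩ z) x + σ (Si \ z) x :=
      h.add hccS (hccS.inter hzic) (hccS.diff hzic)
        (Set.disjoint_left.2 fun t ht ht' => ht'.2 ht.2) (Set.inter_union_diff Si z).symm x
    have e2 : σ Ss x = σ (Ss ∩ z) x + σ (Ss \ z) x :=
      h.add hccSs (hccSs.inter hzic) (hccSs.diff hzic)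
        (Set.disjoint_left.2 fun t ht ht' => ht'.2 ht.2) (Set.inter_union_diff Ss z).symm x
    have e3 : σ (Si \ z) x = 0 := h.zero (hccS.diff hzic) x fun t ht => by
      by_contra h0
      exact ht.2 (hzA t (hSici ht.1) h0)
    have e4 : σ (Ss \ z) x = 0 := h.zero (hccSs.diff hzic) x fun t ht => by
      by_contra h0
      have h1 : ∀ᶠ k in (𝒰 : Filter ℕ), t ∈ sg top ((j k).1, es) := ht.1
      obtain ⟨k, hk⟩ := h1.exists
      exact ht.2 (hes3 t hk.1 h0)
    rw [e1, e2, e3, e4, hR]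
  refine ⟨z, es, σ Si x, hzic, hes1, hes2, hes3, hes4, hsk, fun t ht => ht.1, hlim1, ?_⟩
  rw [hSeq]
  exact hlim2

/-- PROOF. `s k = (j k).1`, `c k = ec top (j k).2`. `S∞ = {t | ∀ᶠ k, t ∈ sg top (j k)}` is a convex chain, `σ (sg top (j k)) x → L := σ S∞ x`
(`h.lim`), so `‖L‖ ≥ ε` and by `h.zero` there is `w₀ ∈ S∞` with `σ {w₀} x ≠ 0`.
`c∞ = {t | ∀ᶠ k, t ∈ c k}` is an initial chain, `A = {t | σ {t} x ≠ 0}`, `z = {t ∈ c∞ | ∃ a ∈ A, a ∈ c∞ ∧ t ≤ a}` is an initial chain,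
`w₀ ∈ z`. `e*` from `exists_end` for `A, z`; `c* = ec top e*`. Eventually `s k ≤ w₀`, so `s k ∈ z ⊆ c*`.
`σ (sg top (s k, e*)) x → σ S*∞ x`, `S*∞ = {t ∈ c* | ∀ᶠ k, s k ≤ t}` (`h.lim`); both `S∞` and `S*∞` are `{t ∈ z | ∀ᶠ k, s k ≤ t}` plus nodes
with `σ {t} x = 0` (a node of `c∞` or of `c*` outside `z` is not in `A`), so `σ S*∞ x = L` (`h.add`, `h.zero`). The same for any `e'` with
`ec top e' = c*` (`sg top (s, e')` depends only on `ec top e'`).
`b* = w (inr e*) ν (σ {e*.1} x) ^ r > 0` (`hw1`). For every `k` let `e' k` be `i.2` if there is `i ∈ F k` with `ec top i.2 = c*` and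
`b* ≤ w (inr i.2) ν (σ {i.2.1} x) ^ r`, and `e' k = e*` otherwise; `b k = w (inr (e' k)) ν (σ {(e' k).1} x) ^ r ≥ b*`, and `b k` dominates the end
value of every `i ∈ F k` with `ec top i.2 = c*` (there is at most one such `i`, `Fm.end_inj`). `b k ≤ 3 (B ‖x‖) ^ r`.
Let `η > 0`, `y` with `‖x - e y‖ ≤ η`. Eventually (`k`): every node of `y.support ∩ z` is in `c k` (finite, `z ⊆ c∞`); and for all `i ∈ F k` with
`i.1 ∉ c k`, `ec top i.2 ⊆ c*`, `¬ z ⊆ ec top i.2`: `i.2.1 ∉ y.support`. (For each of the finitely many `e'' = (u, b)`, `u ∈ y.support`, with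
`ec top e'' ⊆ c*` and `w' ∈ z \ ec top e''`: eventually `w' ∈ c k`; then `ec top e'' ⊆ c k`, since a `t ∈ ec top e''` is comparable with `w'`
in `c*` and `w' ≤ t` is impossible, so `t ≤ w'`; but `i.1 ∈ ec top i.2 = ec top e''`.)
So `h.ndA1` applies to `F k, j k, z, e' k, y, η`:
`PF (F k) + P(s k, e' k)^κ ≤ Phi + P(j k)^κ + err₁(η) + (b k ^ (1/r) + 10 B η)^p`, `κ = p/r`.
Let `v k = ν (σ (sg top (j k)) x) ^ r + w (inl (s k)) ν (σ {s k} x) ^ r`. `P(j k) - v k → 0` (`h0`, `w ≤ 3`), `P(s k, e' k) - v k - b k → 0`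
(both `ν (σ ..) ^ r → ν L ^ r`). Everything is bounded, so (uniform continuity of `t ↦ t ^ κ` on bounded sets)
`(v k + b k)^κ - (v k)^κ - (b k)^κ ≤ (Phi - PF (F k)) + o(1) + err₁(η) + ((b k^(1/r) + 10Bη)^p - b k ^ κ)`. The left side is `≥ c₀ =
(v₀ + b*)^κ - v₀^κ - b*^κ > 0`, `v₀ = (ε/2) ^ r` (`superadd_mono`, `superadd_pos`; `v k ≥ ‖σ (sg top (j k)) x‖ ^ r ≥ ε ^ r`). The errors on the right tend to `0` for
`η → 0` uniformly in `k`. Choose `η` with errors `< c₀ / 2`; then `k` in the limit gives a contradiction. -/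
theorem Sys.ndA (h : Sys T Z X top p r B ν e σ) (hw : ∀ i, 1 ≤ w i ∧ w i ≤ 2) (x : X)
    (𝒰 : Ultrafilter ℕ) (F : ℕ → Finset (T × (T × Bool))) (hF : ∀ k, Fm top (F k))
    (hM : Tendsto (fun k => PF top p r ν σ w (F k) x) (𝒰 : Filter ℕ) (𝓝 (Phi top p r ν σ w x)))
    (j : ℕ → T × (T × Bool)) (hj : ∀ k, j k ∈ F k) {ε : ℝ} (hε : 0 < ε)
    (hjε : ∀ k, ε ≤ ‖σ (sg top (j k)) x‖)
    (h0 : Tendsto (fun k => ‖σ {(j k).2.1} x‖) (𝒰 : Filter ℕ) (𝓝 0)) : False := by
  classical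
  have hT := h.tree
  have htop := h.htop
  have hr0 : 0 < r := lt_trans one_pos h.hr
  have hp0 : 0 < p := hr0.trans h.hrp
  have hB0 : 0 < B := lt_of_lt_of_le one_pos h.hB
  have hκ : 1 < p / r := (one_lt_div hr0).2 h.hrp
  have hκ0 : 0 < p / r := one_pos.trans hκ
  have hw3 : ∀ i, 0 ≤ w i ∧ w i ≤ 3 := fun i => ⟨by linarith [(hw i).1], by linarith [(hw i).2]⟩
  obtain ⟨z, es, L, hzic, hes1, hes2, hes3, hes4, hsk, hzk, hlim1, hlim2⟩ :=
    C5b_data h x 𝒰 j hε hjε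
  have hnu0 : ∀ y : Z, 0 ≤ ν y ^ r := fun y => Real.rpow_nonneg (h.nu_nonneg y) r
  set bs : ℝ := w (Sum.inr es) * ν (σ {es.1} x) ^ r with hbs
  have hbs0 : 0 < bs := by
    have h1 : 0 < ν (σ {es.1} x) := lt_of_lt_of_le (norm_pos_iff.2 hes1) (h.lo _)
    exact mul_pos (by linarith [(hw (Sum.inr es)).1]) (Real.rpow_pos_of_pos h1 r)
  have hex : ∀ k, ∃ e' : T × Bool, ec top e' = ec top es ∧
      bs ≤ w (Sum.inr e') * ν (σ {e'.1} x) ^ r ∧
      ∀ i ∈ F k, ec top i.2 = ec top es →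
        w (Sum.inr i.2) * ν (σ {i.2.1} x) ^ r ≤ w (Sum.inr e') * ν (σ {e'.1} x) ^ r := by
    intro k
    by_cases hc : ∃ i ∈ F k, ec top i.2 = ec top es ∧ bs ≤ w (Sum.inr i.2) * ν (σ {i.2.1} x) ^ r
    · obtain ⟨i, hi, hi1, hi2⟩ := hc
      refine ⟨i.2, hi1, hi2, fun i' hi' hi'1 => ?_⟩
      have : i' = i := Fm.end_inj hT htop (hF k) hi' hi (hi'1.trans hi1.symm)
      rw [this]
    · push Not at hc
      exact ⟨es, rfl, le_refl _, fun i hi hi1 => (hc i hi hi1).le⟩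
  choose e' he1 he2 he3 using hex
  set b : ℕ → ℝ := fun k => w (Sum.inr (e' k)) * ν (σ {(e' k).1} x) ^ r with hb
  set v : ℕ → ℝ := fun k => ν (σ (sg top (j k)) x) ^ r +
    w (Sum.inl (j k).1) * ν (σ {(j k).1} x) ^ r with hv
  set N : ℝ := (B * ‖x‖) ^ r with hN
  have hN0 : 0 ≤ N := Real.rpow_nonneg (by positivity) r
  have hNb : ∀ S : Set T, CC S → ν (σ S x) ^ r ≤ N := by
    intro S hS
    refine Real.rpow_le_rpow (h.nu_nonneg _) ?_ hr0.le
    exact (h.up _).trans (mul_le_mul_of_nonneg_left (h.le hS x) hB0.le)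
  have hbb : ∀ k, bs ≤ b k ∧ b k ≤ 2 * N := by
    intro k
    refine ⟨he2 k, ?_⟩
    have h1 := hNb _ (cc_single (e' k).1)
    have h2 := hw (Sum.inr (e' k))
    have h3 := hnu0 (σ {(e' k).1} x)
    show w (Sum.inr (e' k)) * ν (σ {(e' k).1} x) ^ r ≤ 2 * N
    exact mul_le_mul h2.2 h1 h3 (by norm_num)
  have hvb : ∀ k, ε ^ r ≤ v k ∧ v k ≤ 3 * N := by
    intro k
    have h1 := hNb _ (cc_single (j k).1)
    have h2 := hw (Sum.inl (j k).1)
    have h3 := hnu0 (σ {(j k).1} x)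
    have h4 := hNb _ (cc_sg hT htop (j k))
    have h5 : ε ^ r ≤ ν (σ (sg top (j k)) x) ^ r :=
      Real.rpow_le_rpow hε.le ((hjε k).trans (h.lo _)) hr0.le
    have h6 : w (Sum.inl (j k).1) * ν (σ {(j k).1} x) ^ r ≤ 2 * N :=
      mul_le_mul h2.2 h1 h3 (by norm_num)
    have h7 : 0 ≤ w (Sum.inl (j k).1) * ν (σ {(j k).1} x) ^ r := mul_nonneg (by linarith) h3
    constructor
    · show ε ^ r ≤ ν (σ (sg top (j k)) x) ^ r + w (Sum.inl (j k).1) * ν (σ {(j k).1} x) ^ r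
      linarith
    · show ν (σ (sg top (j k)) x) ^ r + w (Sum.inl (j k).1) * ν (σ {(j k).1} x) ^ r ≤ 3 * N
      linarith
  obtain ⟨bi, hbi1, hbi2, hbi⟩ := C5b_lim 𝒰 b _ _ hbb
  obtain ⟨vi, hvi1, hvi2, hvi⟩ := C5b_lim 𝒰 v _ _ hvb
  have hbi0 : 0 < bi := hbs0.trans_le hbi1
  have hvi0 : 0 < vi := (Real.rpow_pos_of_pos hε r).trans_le hvi1
  -- the limits of the two values
  have hPj : Tendsto (fun k => P top r ν σ w (j k) x) (𝒰 : Filter ℕ) (𝓝 vi) := by
    have h1 : Tendsto (fun k => w (Sum.inr (j k).2) * ν (σ {(j k).2.1} x) ^ r) (𝒰 : Filter ℕ)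
        (𝓝 0) := by
      have h2 : Tendsto (fun k => 2 * (B * ‖σ {(j k).2.1} x‖) ^ r) (𝒰 : Filter ℕ) (𝓝 0) := by
        have h3 : Tendsto (fun k => B * ‖σ {(j k).2.1} x‖) (𝒰 : Filter ℕ) (𝓝 0) := by
          simpa using h0.const_mul B
        have h4 := (h3.rpow_const (p := r) (Or.inr hr0.le)).const_mul 2
        simpa [Real.zero_rpow hr0.ne'] using h4
      refine squeeze_zero (fun k => ?_) (fun k => ?_) h2
      · exact mul_nonneg (hw3 _).1 (hnu0 _)
      · refine mul_le_mul (hw _).2 ?_ (hnu0 _) (by norm_num)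
        exact Real.rpow_le_rpow (h.nu_nonneg _) (h.up _) hr0.le
    have h2 := hvi.add h1
    rw [add_zero] at h2
    exact h2
  have hPs : Tendsto (fun k => P top r ν σ w ((j k).1, e' k) x) (𝒰 : Filter ℕ)
      (𝓝 (vi + bi)) := by
    have h1 : Tendsto (fun k => ν (σ (sg top (j k)) x) ^ r) (𝒰 : Filter ℕ) (𝓝 (ν L ^ r)) :=
      ((h.nu_cont.tendsto L).comp hlim1).rpow_const (Or.inr hr0.le)
    have h2 : Tendsto (fun k => ν (σ (sg top ((j k).1, es)) x) ^ r) (𝒰 : Filter ℕ)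
        (𝓝 (ν L ^ r)) :=
      ((h.nu_cont.tendsto L).comp hlim2).rpow_const (Or.inr hr0.le)
    have h3 := ((hvi.add hbi).add h2).sub h1
    have h4 : vi + bi + ν L ^ r - ν L ^ r = vi + bi := by ring
    rw [h4] at h3
    refine h3.congr fun k => ?_
    have h5 : sg top ((j k).1, e' k) = sg top ((j k).1, es) := by
      unfold sg
      simp only [he1 k]
    show v k + b k + ν (σ (sg top ((j k).1, es)) x) ^ r - ν (σ (sg top (j k)) x) ^ r =
      ν (σ (sg top ((j k).1, e' k)) x) ^ r + w (Sum.inl (j k).1) * ν (σ {(j k).1} x) ^ r +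
        w (Sum.inr (e' k)) * ν (σ {(e' k).1} x) ^ r
    rw [h5, hv, hb]
    ring
  -- the estimate for every `η > 0`
  set Φ : ℝ := Phi top p r ν σ w x with hΦ
  have hΦ0 : 0 ≤ Φ := h.Phi_nonneg hw3 x
  have key : ∀ η : ℝ, 0 < η → Φ + (vi + bi) ^ (p / r) ≤
      Φ + vi ^ (p / r) + ((Φ ^ (1 / p) + 10 * (B * η)) ^ p - Φ) +
        (bi ^ (1 / r) + 10 * (B * η)) ^ p := by
    intro η hη
    obtain ⟨y, hy⟩ := h.approx x hη
    have hc1 : ∀ᶠ k in (𝒰 : Filter ℕ), ∀ t ∈ z, t ∈ y.support → t ∈ ec top (j k).2 := by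
      have h1 : ∀ᶠ k in (𝒰 : Filter ℕ), ∀ t ∈ y.support, t ∈ z → t ∈ ec top (j k).2 := by
        rw [Filter.eventually_all_finset]
        intro t ht
        by_cases htz : t ∈ z
        · exact (hzk t htz).mono fun k hk _ => hk
        · exact Eventually.of_forall fun k hk => absurd hk htz
      exact h1.mono fun k hk t htz hty => hk t hty htz
    have hc2 : ∀ᶠ k in (𝒰 : Filter ℕ), ∀ e'' ∈ y.support ×ˢ (Finset.univ : Finset Bool),
        ec top e'' ⊆ ec top es → ¬ z ⊆ ec top e'' → ec top e'' ⊆ ec top (j k).2 := by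
      rw [Filter.eventually_all_finset]
      intro e'' _
      by_cases h1 : ec top e'' ⊆ ec top es
      · by_cases h2 : z ⊆ ec top e''
        · exact Eventually.of_forall fun k _ hk => absurd h2 hk
        · obtain ⟨w', hw'z, hw'e⟩ := Set.not_subset.1 h2
          refine (hzk w' hw'z).mono fun k hk _ _ t ht => ?_
          rcases (ic_ec hT htop es).chain t (h1 ht) w' (hes2 hw'z) with h3 | h3
          · exact (ic_ec hT htop _).low w' hk t h3
          · exact absurd ((ic_ec hT htop e'').low t ht w' h3) hw'e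
      · exact Eventually.of_forall fun k hk => absurd hk h1
    have hev : ∀ᶠ k in (𝒰 : Filter ℕ), PF top p r ν σ w (F k) x +
        P top r ν σ w ((j k).1, e' k) x ^ (p / r) ≤
        Φ + P top r ν σ w (j k) x ^ (p / r) + ((Φ ^ (1 / p) + 10 * (B * η)) ^ p - Φ) +
          (b k ^ (1 / r) + 10 * (B * η)) ^ p := by
      filter_upwards [hc1, hc2, hsk] with k hk1 hk2 hk3
      refine h.ndA1 hw3 x (hF k) (hj k) hzic (e' := e' k) (by rw [he1]; exact hes2)
        (by rw [he1]; exact hes3) (by rw [he1]; exact hes4) (by rw [he1]; exact hes2 hk3)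
        (by rw [he1]; exact he3 k) y hy.le hk1 ?_
      intro i hi hi1 hi2 hi3 hi4
      rw [he1] at hi2
      have h5 := hk2 i.2 (Finset.mem_product.2 ⟨hi4, Finset.mem_univ _⟩) hi2 hi3
      exact hi1 (h5 ((hF k).1 i hi))
    have hl : Tendsto (fun k => PF top p r ν σ w (F k) x +
        P top r ν σ w ((j k).1, e' k) x ^ (p / r)) (𝒰 : Filter ℕ)
        (𝓝 (Φ + (vi + bi) ^ (p / r))) :=
      hM.add (hPs.rpow_const (Or.inr hκ0.le))
    have hrr : Tendsto (fun k => Φ + P top r ν σ w (j k) x ^ (p / r) +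
        ((Φ ^ (1 / p) + 10 * (B * η)) ^ p - Φ) + (b k ^ (1 / r) + 10 * (B * η)) ^ p)
        (𝒰 : Filter ℕ) (𝓝 (Φ + vi ^ (p / r) + ((Φ ^ (1 / p) + 10 * (B * η)) ^ p - Φ) +
        (bi ^ (1 / r) + 10 * (B * η)) ^ p)) := by
      refine (((hPj.rpow_const (Or.inr hκ0.le)).const_add Φ).add_const _).add ?_
      exact ((hbi.rpow_const (Or.inr (by positivity))).add_const _).rpow_const (Or.inr hp0.le)
    exact le_of_tendsto_of_tendsto hl hrr hev
  -- `η → 0`
  have hfin : Φ + (vi + bi) ^ (p / r) ≤ Φ + vi ^ (p / r) + bi ^ (p / r) := by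
    have hcont : Tendsto (fun η : ℝ => Φ + vi ^ (p / r) +
        ((Φ ^ (1 / p) + 10 * (B * η)) ^ p - Φ) + (bi ^ (1 / r) + 10 * (B * η)) ^ p)
        (𝓝[>] (0 : ℝ)) (𝓝 (Φ + vi ^ (p / r) + ((Φ ^ (1 / p) + 10 * (B * 0)) ^ p - Φ) +
          (bi ^ (1 / r) + 10 * (B * 0)) ^ p)) := by
      have h1 : Tendsto (fun η : ℝ => η) (𝓝[>] (0 : ℝ)) (𝓝 0) := tendsto_id.mono_left inf_le_left
      have h2 : Tendsto (fun η : ℝ => 10 * (B * η)) (𝓝[>] (0 : ℝ)) (𝓝 (10 * (B * 0))) :=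
        (h1.const_mul B).const_mul 10
      refine ((((h2.const_add _).rpow_const (Or.inr hp0.le)).sub_const Φ).const_add _).add ?_
      exact (h2.const_add _).rpow_const (Or.inr hp0.le)
    have h3 := ge_of_tendsto hcont (eventually_nhdsWithin_of_forall fun η hη => key η hη)
    have h4 : (Φ ^ (1 / p) + 10 * (B * 0)) ^ p = Φ := by
      rw [mul_zero, mul_zero, add_zero, ← Real.rpow_mul hΦ0, one_div, inv_mul_cancel₀ hp0.ne',
        Real.rpow_one]
    have h5 : (bi ^ (1 / r) + 10 * (B * 0)) ^ p = bi ^ (p / r) := by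
      rw [mul_zero, mul_zero, add_zero, ← Real.rpow_mul hbi0.le]
      congr 1
      field_simp
    rw [h4, h5] at h3
    linarith
  have hsup := superadd_pos hκ hvi0 hbi0
  linarith

end Pool.Agent.JTS
end

section

/-!
No drift: the large segments of maximising families are eventually constant.
-/

set_option autoImplicit false

namespace Pool.Agent.JTS

open Filter Topology

variable {T Z X : Type} [PartialOrder T] [NormedAddCommGroup Z] [NormedSpace ℝ Z]
    [NormedAddCommGroup X] [NormedSpace ℝ X] {top : T → Set T} {p r B : ℝ} {ν : Z → ℝ}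
    {e : (T →₀ Z) →ₗ[ℝ] X} {σ : Set T → X →L[ℝ] Z} {w : Ix T → ℝ}

/-- PROOF. `h.node_lim` for `u k = (j k).2.1`: the first case contradicts `h.ndA`. So the end node is eventually constant, with `σ {u₀} x ≠ 0`; the Boolean
is eventually constant too: `(j k).2 = e₀` eventually. `h.node_lim` for `(j k).1`: the first case contradicts `h.ndB`; so
`(j k).1 = s₀` eventually. -/
theorem Sys.nd (h : Sys T Z X top p r B ν e σ) (hw : ∀ i, 1 ≤ w i ∧ w i ≤ 2) (x : X)
    (𝒰 : Ultrafilter ℕ) (F : ℕ → Finset (T × (T × Bool))) (hF : ∀ k, Fm top (F k))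
    (hM : Tendsto (fun k => PF top p r ν σ w (F k) x) (𝒰 : Filter ℕ) (𝓝 (Phi top p r ν σ w x)))
    (j : ℕ → T × (T × Bool)) (hj : ∀ k, j k ∈ F k) {ε : ℝ} (hε : 0 < ε)
    (hjε : ∀ k, ε ≤ ‖σ (sg top (j k)) x‖) :
    ∃ j₀ : T × (T × Bool), σ {j₀.1} x ≠ 0 ∧ σ {j₀.2.1} x ≠ 0 ∧
      ∀ᶠ k in (𝒰 : Filter ℕ), j k = j₀ := by
  rcases h.node_lim 𝒰 x (fun k => (j k).2.1) with h0 | ⟨u₀, hu₀, hu⟩
  · exact (h.ndA hw x 𝒰 F hF hM j hj hε hjε h0).elim
  obtain ⟨b, hb⟩ : ∃ b : Bool, ∀ᶠ k in (𝒰 : Filter ℕ), (j k).2.2 = b := by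
    have h1 : ∀ᶠ k in (𝒰 : Filter ℕ), (j k).2.2 = true ∨ (j k).2.2 = false := by
      filter_upwards with k
      cases (j k).2.2
      · exact Or.inr rfl
      · exact Or.inl rfl
    rcases Ultrafilter.eventually_or.mp h1 with h2 | h2
    · exact ⟨true, h2⟩
    · exact ⟨false, h2⟩
  have he : ∀ᶠ k in (𝒰 : Filter ℕ), (j k).2 = (u₀, b) := by
    filter_upwards [hu, hb] with k hk1 hk2
    exact Prod.ext hk1 hk2
  rcases h.node_lim 𝒰 x (fun k => (j k).1) with h0 | ⟨s₀, hs₀, hs⟩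
  · refine (h.ndB hw x 𝒰 F hF hM (fun k => (j k).1) (u₀, b) ?_ hε ?_ h0).elim
    · filter_upwards [he] with k hk
      rw [← hk]
      exact hj k
    · filter_upwards [he] with k hk
      rw [← hk]
      exact hjε k
  refine ⟨(s₀, (u₀, b)), hs₀, hu₀, ?_⟩
  filter_upwards [he, hs] with k hk1 hk2
  exact Prod.ext hk2 hk1

/-- PROOF. From `h.nd`: if the hypotheses hold only eventually, change `F k` to `F k'` for one good `k'` (or: `{k | ..}` is in the
ultrafilter; replace `F k` by `F k₀` and `j k` by `j k₀` outside, where `k₀` is one good index). -/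
theorem Sys.nd' (h : Sys T Z X top p r B ν e σ) (hw : ∀ i, 1 ≤ w i ∧ w i ≤ 2) (x : X)
    (𝒰 : Ultrafilter ℕ) (F : ℕ → Finset (T × (T × Bool))) (hF : ∀ k, Fm top (F k))
    (hM : Tendsto (fun k => PF top p r ν σ w (F k) x) (𝒰 : Filter ℕ) (𝓝 (Phi top p r ν σ w x)))
    (j : ℕ → T × (T × Bool)) {ε : ℝ} (hε : 0 < ε)
    (hjε : ∀ᶠ k in (𝒰 : Filter ℕ), j k ∈ F k ∧ ε ≤ ‖σ (sg top (j k)) x‖) :
    ∃ j₀ : T × (T × Bool), σ {j₀.1} x ≠ 0 ∧ σ {j₀.2.1} x ≠ 0 ∧
      ∀ᶠ k in (𝒰 : Filter ℕ), j k = j₀ := by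
  classical
  obtain ⟨k₀, hk₀⟩ := hjε.exists
  set F' : ℕ → Finset (T × (T × Bool)) := fun k =>
    if j k ∈ F k ∧ ε ≤ ‖σ (sg top (j k)) x‖ then F k else F k₀ with hF'
  set j' : ℕ → T × (T × Bool) := fun k =>
    if j k ∈ F k ∧ ε ≤ ‖σ (sg top (j k)) x‖ then j k else j k₀ with hj'
  have hM' : Tendsto (fun k => PF top p r ν σ w (F' k) x) (𝒰 : Filter ℕ)
      (𝓝 (Phi top p r ν σ w x)) := by
    refine hM.congr' ?_
    filter_upwards [hjε] with k hk
    simp only [hF', if_pos hk]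
  obtain ⟨j₀, h1, h2, h3⟩ := h.nd hw x 𝒰 F' (by
      intro k
      by_cases hk : j k ∈ F k ∧ ε ≤ ‖σ (sg top (j k)) x‖
      · simp only [hF', if_pos hk]
        exact hF k
      · simp only [hF', if_neg hk]
        exact hF k₀) hM' j' (by
      intro k
      by_cases hk : j k ∈ F k ∧ ε ≤ ‖σ (sg top (j k)) x‖
      · simp only [hF', hj', if_pos hk]
        exact hk.1
      · simp only [hF', hj', if_neg hk]
        exact hk₀.1) hε (by
      intro k
      by_cases hk : j k ∈ F k ∧ ε ≤ ‖σ (sg top (j k)) x‖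
      · simp only [hj', if_pos hk]
        exact hk.2
      · simp only [hj', if_neg hk]
        exact hk₀.2)
  refine ⟨j₀, h1, h2, ?_⟩
  filter_upwards [h3, hjε] with k hk1 hk2
  simp only [hj', if_pos hk2] at hk1
  exact hk1

open Classical in
/-- PROOF. `L = {j | ε ≤ ‖σ (sg top j) x‖ ∧ ∀ᶠ k, j ∈ F k}` is finite: a finset `K ⊆ L` is eventually contained in `F k`, and
`K.card * ε ^ p ≤ ∑_{K} ‖σ (sg top j) x‖ ^ p ≤ ‖x‖ ^ p` (`h.fam`). Eventually `L ⊆ F k`. If not eventually `(F k).filter .. ⊆ L`, then (ultrafilter) eventually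
there is `j k ∈ F k` with `ε ≤ ‖..‖`, `j k ∉ L`; `h.nd'` gives `j k = j₀` eventually, so `j₀ ∈ L`, contradiction. -/
theorem Sys.ndL (h : Sys T Z X top p r B ν e σ) (hw : ∀ i, 1 ≤ w i ∧ w i ≤ 2) (x : X)
    (𝒰 : Ultrafilter ℕ) (F : ℕ → Finset (T × (T × Bool))) (hF : ∀ k, Fm top (F k))
    (hM : Tendsto (fun k => PF top p r ν σ w (F k) x) (𝒰 : Filter ℕ) (𝓝 (Phi top p r ν σ w x)))
    {ε : ℝ} (hε : 0 < ε) :
    ∃ L : Finset (T × (T × Bool)), (∀ j ∈ L, σ {j.1} x ≠ 0 ∧ σ {j.2.1} x ≠ 0) ∧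
      ∀ᶠ k in (𝒰 : Filter ℕ), (F k).filter (fun j => ε ≤ ‖σ (sg top j) x‖) = L := by
  have hp0 : 0 < p := lt_trans zero_lt_one h.hp
  have hfin : {j : T × (T × Bool) | ε ≤ ‖σ (sg top j) x‖ ∧ ∀ᶠ k in (𝒰 : Filter ℕ), j ∈ F k}.Finite := by
    by_contra hinf
    obtain ⟨N, hN⟩ := exists_nat_gt (‖x‖ ^ p / ε ^ p)
    obtain ⟨K, hK, hKc⟩ := Set.Infinite.exists_subset_card_eq hinf N
    have hKF : ∀ᶠ k in (𝒰 : Filter ℕ), ∀ j ∈ K, j ∈ F k := by
      rw [Filter.eventually_all_finset]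
      intro j hj
      exact (hK hj).2
    obtain ⟨k, hk⟩ := hKF.exists
    have h1 := h.fam K (fun j => sg top j) (fun j _ => cc_sg h.tree h.htop j)
      (fun i hi j hj hij => (hF k).2 i (hk i hi) j (hk j hj) hij) x
    have h2 : (N : ℝ) * ε ^ p ≤ ∑ j ∈ K, ‖σ (sg top j) x‖ ^ p := by
      rw [← hKc, ← nsmul_eq_mul]
      apply Finset.card_nsmul_le_sum
      intro j hj
      exact Real.rpow_le_rpow hε.le (hK hj).1 hp0.le
    have h3 : 0 < ε ^ p := Real.rpow_pos_of_pos hε p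
    rw [div_lt_iff₀ h3] at hN
    linarith
  refine ⟨hfin.toFinset, ?_, ?_⟩
  · intro j hj
    rw [Set.Finite.mem_toFinset] at hj
    obtain ⟨j₀, h1, h2, h3⟩ := h.nd' hw x 𝒰 F hF hM (fun _ => j) hε (by
      filter_upwards [hj.2] with k hk
      exact ⟨hk, hj.1⟩)
    obtain ⟨k, hk⟩ := h3.exists
    rw [hk]
    exact ⟨h1, h2⟩
  · have hsub : ∀ᶠ k in (𝒰 : Filter ℕ), ∀ j ∈ hfin.toFinset, j ∈ F k := by
      rw [Filter.eventually_all_finset]
      intro j hj
      rw [Set.Finite.mem_toFinset] at hj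
      exact hj.2
    have hsup : ∀ᶠ k in (𝒰 : Filter ℕ), ∀ j ∈ F k, ε ≤ ‖σ (sg top j) x‖ → j ∈ hfin.toFinset := by
      by_contra hcon
      rw [← Ultrafilter.eventually_not] at hcon
      have h1 : ∀ᶠ k in (𝒰 : Filter ℕ), ∃ j : T × (T × Bool), (j ∈ F k ∧ ε ≤ ‖σ (sg top j) x‖) ∧
          j ∉ hfin.toFinset := by
        filter_upwards [hcon] with k hk
        push Not at hk
        obtain ⟨j, hj1, hj2, hj3⟩ := hk
        exact ⟨j, ⟨hj1, hj2⟩, hj3⟩
      obtain ⟨j, hj⟩ := h1.choice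
      obtain ⟨j₀, h2, h3, h4⟩ := h.nd' hw x 𝒰 F hF hM j hε (hj.mono fun k hk => hk.1)
      have h5 : ∀ᶠ k in (𝒰 : Filter ℕ), j₀ ∈ F k ∧ ε ≤ ‖σ (sg top j₀) x‖ ∧ j₀ ∉ hfin.toFinset := by
        filter_upwards [hj, h4] with k hk1 hk2
        rw [← hk2]
        exact ⟨hk1.1.1, hk1.1.2, hk1.2⟩
      obtain ⟨k, hk⟩ := h5.exists
      apply hk.2.2
      rw [Set.Finite.mem_toFinset]
      exact ⟨hk.2.1, h5.mono fun k hk => hk.1⟩
    filter_upwards [hsub, hsup] with k hk1 hk2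
    ext j
    rw [Finset.mem_filter]
    constructor
    · intro hj
      exact hk2 j hj.1 hj.2
    · intro hj
      refine ⟨hk1 j hj, ?_⟩
      rw [Set.Finite.mem_toFinset] at hj
      exact hj.1

end Pool.Agent.JTS
end

section

/-!
Derivatives in the weights.
-/

set_option autoImplicit false

namespace Pool.Agent.JTS

open Filter Topology

variable {T Z X : Type} [PartialOrder T] [NormedAddCommGroup Z] [NormedSpace ℝ Z]
    [NormedAddCommGroup X] [NormedSpace ℝ X] {top : T → Set T} {p r B : ℝ} {ν : Z → ℝ}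
    {e : (T →₀ Z) →ₗ[ℝ] X} {σ : Set T → X →L[ℝ] Z} {w : Ix T → ℝ}

/-- The index `i` is used by the decorated segment `j`. -/
def Use (i : Ix T) (j : T × (T × Bool)) : Prop := Sum.inl j.1 = i ∨ Sum.inr j.2 = i

/-- The function that is multiplied with the weight `w i`. -/
noncomputable def val (r : ℝ) (ν : Z → ℝ) (σ : Set T → X →L[ℝ] Z) (i : Ix T) (x : X) : ℝ :=
  Sum.elim (fun s => ν (σ {s} x) ^ r) (fun e' => ν (σ {e'.1} x) ^ r) i

open Classical in
/-- The weight of the index `i` in the derivative of a family: `∑ P_j ^ (p/r - 1)` over the (at most one) members that use `i`. -/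
noncomputable def dW (top : T → Set T) (p r : ℝ) (ν : Z → ℝ) (σ : Set T → X →L[ℝ] Z)
    (w : Ix T → ℝ) (F : Finset (T × (T × Bool))) (i : Ix T) (x : X) : ℝ :=
  ∑ j ∈ F.filter (fun j => Use i j), P top r ν σ w j x ^ (p / r - 1)

open Classical in
/-- The symmetric second difference quotients of `Phi` in the weight `i` tend to zero. -/
def Good (top : T → Set T) (p r : ℝ) (ν : Z → ℝ) (σ : Set T → X →L[ℝ] Z)
    (w : Ix T → ℝ) (x : X) (i : Ix T) : Prop :=
  Tendsto (fun n : ℕ => ((n : ℝ) + 1) *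
    (Phi top p r ν σ (Function.update w i (w i + 1 / ((n : ℝ) + 1))) x +
      Phi top p r ν σ (Function.update w i (w i - 1 / ((n : ℝ) + 1))) x -
      2 * Phi top p r ν σ w x)) atTop (𝓝 0)

/-- PROOF. At most one member of `F` uses `i`: `Fm.start_inj`, and equal ends have equal chains, `Fm.end_inj`. -/
theorem Sys.use_unique (h : Sys T Z X top p r B ν e σ) {F : Finset (T × (T × Bool))}
    (hF : Fm top F) {i : Ix T} {j j' : T × (T × Bool)} (hj : j ∈ F) (hj' : j' ∈ F)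
    (hu : Use i j) (hu' : Use i j') : j = j' := by
  rcases hu with hu | hu
  · rcases hu' with hu' | hu'
    · have h1 : (Sum.inl j.1 : Ix T) = Sum.inl j'.1 := hu.trans hu'.symm
      exact Fm.start_inj hF hj hj' (Sum.inl_injective h1)
    · have h1 : (Sum.inl j.1 : Ix T) = Sum.inr j'.2 := hu.trans hu'.symm
      exact absurd h1 (by simp)
  · rcases hu' with hu' | hu'
    · have h1 : (Sum.inr j.2 : Ix T) = Sum.inl j'.1 := hu.trans hu'.symm
      exact absurd h1 (by simp)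
    · have h1 : (Sum.inr j.2 : Ix T) = Sum.inr j'.2 := hu.trans hu'.symm
      have h2 : j.2 = j'.2 := Sum.inr_injective h1
      exact Fm.end_inj h.tree h.htop hF hj hj' (by rw [h2])

open Classical in
/-- Changing one weight. PROOF. For `j` that does not use `i`, `P_j` does not change. For the (unique) `j` that uses `i`: `P_j` changes by `δ * val i x`
(the two cases of `Use` exclude each other), and `(P_j + δ v) ^ κ ≥ P_j ^ κ + κ P_j ^ (κ-1) δ v` for `κ = p/r > 1` and `P_j + δ v ≥ 0`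
(`rpow_sub_le` with `a = P_j`, `b = P_j + δ v`). Sum. -/
theorem Sys.PF_update (h : Sys T Z X top p r B ν e σ) (hw : ∀ i, 1 ≤ w i ∧ w i ≤ 2)
    {F : Finset (T × (T × Bool))} (hF : Fm top F) (i : Ix T) (x : X) {δ : ℝ} (hδ : |δ| ≤ 1) :
    PF top p r ν σ w F x + δ * (p / r * dW top p r ν σ w F i x * val r ν σ i x) ≤
      PF top p r ν σ (Function.update w i (w i + δ)) F x := by
  have hκ : 1 < p / r := by
    rw [lt_div_iff₀ (by linarith [h.hr]), one_mul]
    exact h.hrp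
  have hδ' := abs_le.mp hδ
  have hw0 : ∀ k, 0 ≤ w k := fun k => by linarith [(hw k).1]
  have hw1 : ∀ k, 0 ≤ Function.update w i (w i + δ) k := by
    intro k
    by_cases hk : k = i
    · subst hk
      rw [Function.update_self]
      linarith [(hw k).1]
    · rw [Function.update_of_ne hk]
      exact hw0 k
  have hpt : ∀ j ∈ F, P top r ν σ w j x ^ (p / r) +
      δ * (p / r * (if Use i j then P top r ν σ w j x ^ (p / r - 1) else 0) * val r ν σ i x) ≤
      P top r ν σ (Function.update w i (w i + δ)) j x ^ (p / r) := by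
    intro j _
    by_cases hu : Use i j
    · have hP : P top r ν σ (Function.update w i (w i + δ)) j x =
          P top r ν σ w j x + δ * val r ν σ i x := by
        rcases hu with hu | hu
        · have hne : (Sum.inr j.2 : Ix T) ≠ i := by
            rw [← hu]
            simp
          unfold P
          rw [Function.update_of_ne hne, ← hu, Function.update_self]
          simp only [val, Sum.elim_inl]
          ring
        · have hne : (Sum.inl j.1 : Ix T) ≠ i := by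
            rw [← hu]
            simp
          unfold P
          rw [Function.update_of_ne hne, ← hu, Function.update_self]
          simp only [val, Sum.elim_inr]
          ring
      have h1 := rpow_sub_le hκ (h.P_nonneg hw0 j x) (h.P_nonneg hw1 j x)
      have h2 : P top r ν σ w j x - P top r ν σ (Function.update w i (w i + δ)) j x =
          - (δ * val r ν σ i x) := by
        rw [hP]
        ring
      rw [h2] at h1
      simp only [hu, if_true]
      nlinarith [h1]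
    · have hne1 : (Sum.inl j.1 : Ix T) ≠ i := fun hh => hu (Or.inl hh)
      have hne2 : (Sum.inr j.2 : Ix T) ≠ i := fun hh => hu (Or.inr hh)
      have hP : P top r ν σ (Function.update w i (w i + δ)) j x = P top r ν σ w j x := by
        unfold P
        rw [Function.update_of_ne hne1, Function.update_of_ne hne2]
      rw [hP]
      simp only [hu, if_false]
      simp
  have hsum := Finset.sum_le_sum hpt
  unfold PF
  refine le_trans (le_of_eq ?_) hsum
  rw [Finset.sum_add_distrib, dW, Finset.sum_filter, Finset.mul_sum, Finset.sum_mul, Finset.mul_sum]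

/-- PROOF. With `D = p/r * dW (F k) * val`, `D' = p/r * dW (G k) * val`, and `δ = ± 1/(n+1)`: `PF w (F k) + δ D ≤ Phi (w + δ)` and
`PF w (G k) - δ D' ≤ Phi (w - δ)` (`PF_update`, `h.PF_le_Phi`; the updated weights are in `[0, 3]`). Add: `δ (D - D') ≤ [Phi(w+δ) + Phi(w-δ) - 2 Phi w] + (Phi w - PF (F k)) +
(Phi w - PF (G k))`, so `D - D' ≤ (n+1) [..] + (n+1) (o(1) in k)`; symmetric in `F, G`. First `n` large (`Good`), then `k` far in the ultrafilter. So
`D - D' → 0`; divide by `p/r * val i x > 0`. -/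
theorem Sys.param (h : Sys T Z X top p r B ν e σ) (hw : ∀ i, 1 ≤ w i ∧ w i ≤ 2) (x : X)
    (𝒰 : Ultrafilter ℕ) (F G : ℕ → Finset (T × (T × Bool))) (hF : ∀ k, Fm top (F k))
    (hG : ∀ k, Fm top (G k))
    (hMF : Tendsto (fun k => PF top p r ν σ w (F k) x) (𝒰 : Filter ℕ) (𝓝 (Phi top p r ν σ w x)))
    (hMG : Tendsto (fun k => PF top p r ν σ w (G k) x) (𝒰 : Filter ℕ) (𝓝 (Phi top p r ν σ w x)))
    (i : Ix T) (hi : 0 < val r ν σ i x) (hg : Good top p r ν σ w x i) :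
    Tendsto (fun k => dW top p r ν σ w (F k) i x - dW top p r ν σ w (G k) i x)
      (𝒰 : Filter ℕ) (𝓝 0) := by
  classical
  have hr0 : 0 < r := by linarith [h.hr]
  have hκ : 0 < p / r := div_pos (by linarith [h.hr, h.hrp]) hr0
  set D : ℕ → ℝ := fun k => p / r * dW top p r ν σ w (F k) i x * val r ν σ i x with hD
  set D' : ℕ → ℝ := fun k => p / r * dW top p r ν σ w (G k) i x * val r ν σ i x with hD'
  have hw03 : ∀ δ : ℝ, |δ| ≤ 1 → ∀ k, 0 ≤ Function.update w i (w i + δ) k ∧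
      Function.update w i (w i + δ) k ≤ 3 := by
    intro δ hδ k
    have hδ' := abs_le.mp hδ
    by_cases hk : k = i
    · subst hk
      rw [Function.update_self]
      constructor <;> linarith [(hw k).1, (hw k).2]
    · rw [Function.update_of_ne hk]
      constructor <;> linarith [(hw k).1, (hw k).2]
  have hup : ∀ (H : Finset (T × (T × Bool))), Fm top H → ∀ δ : ℝ, |δ| ≤ 1 →
      PF top p r ν σ w H x + δ * (p / r * dW top p r ν σ w H i x * val r ν σ i x) ≤
      Phi top p r ν σ (Function.update w i (w i + δ)) x := fun H hH δ hδ =>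
    (h.PF_update hw hH i x hδ).trans (h.PF_le_Phi (hw03 δ hδ) hH x)
  have key : ∀ (n k : ℕ), |D k - D' k| ≤ ((n : ℝ) + 1) *
      (Phi top p r ν σ (Function.update w i (w i + 1 / ((n : ℝ) + 1))) x +
      Phi top p r ν σ (Function.update w i (w i - 1 / ((n : ℝ) + 1))) x -
      2 * Phi top p r ν σ w x) + ((n : ℝ) + 1) * ((Phi top p r ν σ w x - PF top p r ν σ w (F k) x) +
        (Phi top p r ν σ w x - PF top p r ν σ w (G k) x)) := by
    intro n k
    have hn : (0 : ℝ) < (n : ℝ) + 1 := by positivity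
    have hδ : |1 / ((n : ℝ) + 1)| ≤ 1 := by
      rw [abs_of_pos (by positivity), div_le_one hn]
      linarith [Nat.cast_nonneg (α := ℝ) n]
    have hδ2 : |-(1 / ((n : ℝ) + 1))| ≤ 1 := by
      rw [abs_neg]
      exact hδ
    have a1 := hup (F k) (hF k) _ hδ
    have a2 := hup (G k) (hG k) _ hδ2
    have b1 := hup (G k) (hG k) _ hδ
    have b2 := hup (F k) (hF k) _ hδ2
    rw [← sub_eq_add_neg] at a2 b2
    have c : ((n : ℝ) + 1) * (1 / ((n : ℝ) + 1)) = 1 := by
      field_simp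
    have e1 : 1 / ((n : ℝ) + 1) * (D k - D' k) ≤ (Phi top p r ν σ (Function.update w i (w i + 1 / ((n : ℝ) + 1))) x +
      Phi top p r ν σ (Function.update w i (w i - 1 / ((n : ℝ) + 1))) x -
      2 * Phi top p r ν σ w x) + ((Phi top p r ν σ w x - PF top p r ν σ w (F k) x) +
        (Phi top p r ν σ w x - PF top p r ν σ w (G k) x)) := by
      simp only [hD, hD']
      linarith
    have e2 : 1 / ((n : ℝ) + 1) * (D' k - D k) ≤ (Phi top p r ν σ (Function.update w i (w i + 1 / ((n : ℝ) + 1))) x +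
      Phi top p r ν σ (Function.update w i (w i - 1 / ((n : ℝ) + 1))) x -
      2 * Phi top p r ν σ w x) + ((Phi top p r ν σ w x - PF top p r ν σ w (F k) x) +
        (Phi top p r ν σ w x - PF top p r ν σ w (G k) x)) := by
      simp only [hD, hD']
      linarith
    have f1 := mul_le_mul_of_nonneg_left e1 hn.le
    have f2 := mul_le_mul_of_nonneg_left e2 hn.le
    rw [← mul_assoc, c, one_mul, mul_add] at f1 f2
    rw [abs_le]
    constructor
    · linarith
    · exact f1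
  have hDD : Tendsto (fun k => D k - D' k) (𝒰 : Filter ℕ) (𝓝 0) := by
    rw [Metric.tendsto_nhds]
    intro ε hε
    have hg' := (Metric.tendsto_atTop.mp hg) (ε / 2) (by positivity)
    obtain ⟨N, hN⟩ := hg'
    have hN' := hN N le_rfl
    rw [Real.dist_eq, sub_zero] at hN'
    have hlim : Tendsto (fun k => ((N : ℝ) + 1) * ((Phi top p r ν σ w x - PF top p r ν σ w (F k) x) +
        (Phi top p r ν σ w x - PF top p r ν σ w (G k) x))) (𝒰 : Filter ℕ) (𝓝 0) := by
      have t1 : Tendsto (fun k => ((N : ℝ) + 1) * ((Phi top p r ν σ w x - PF top p r ν σ w (F k) x) +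
        (Phi top p r ν σ w x - PF top p r ν σ w (G k) x))) (𝒰 : Filter ℕ)
          (𝓝 (((N : ℝ) + 1) * ((Phi top p r ν σ w x - Phi top p r ν σ w x) +
        (Phi top p r ν σ w x - Phi top p r ν σ w x)))) :=
        ((tendsto_const_nhds.sub hMF).add (tendsto_const_nhds.sub hMG)).const_mul _
      have t2 : ((N : ℝ) + 1) * ((Phi top p r ν σ w x - Phi top p r ν σ w x) +
        (Phi top p r ν σ w x - Phi top p r ν σ w x)) = 0 := by ring
      rw [t2] at t1
      exact t1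
    have hev := (Metric.tendsto_nhds.mp hlim) (ε / 2) (by positivity)
    filter_upwards [hev] with k hk
    rw [Real.dist_eq, sub_zero] at hk ⊢
    have h1 := key N k
    have h2 := lt_of_le_of_lt (le_abs_self _) hN'
    have h3 := lt_of_le_of_lt (le_abs_self _) hk
    linarith
  have hc : p / r * val r ν σ i x ≠ 0 := (mul_pos hκ hi).ne'
  have hfin := hDD.const_mul (p / r * val r ν σ i x)⁻¹
  rw [mul_zero] at hfin
  refine hfin.congr ?_
  intro k
  rw [inv_mul_eq_iff_eq_mul₀ hc]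
  simp only [hD, hD']
  ring

end Pool.Agent.JTS
end

section

/-!
Uniqueness of the large segments.
-/

set_option autoImplicit false

namespace Pool.Agent.JTS

open Filter Topology

variable {T Z X : Type} [PartialOrder T] [NormedAddCommGroup Z] [NormedSpace ℝ Z]
    [NormedAddCommGroup X] [NormedSpace ℝ X] {top : T → Set T} {p r B : ℝ} {ν : Z → ℝ}
    {e : (T →₀ Z) →ₗ[ℝ] X} {σ : Set T → X →L[ℝ] Z} {w : Ix T → ℝ}

/-- The derivative of a family in a weight that is used by the member `j`. -/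
private theorem C7_dW (h : Sys T Z X top p r B ν e σ) {F : Finset (T × (T × Bool))}
    (hF : Fm top F) {i : Ix T} {j : T × (T × Bool)} (hj : j ∈ F) (hu : Use i j) (x : X) :
    dW top p r ν σ w F i x = P top r ν σ w j x ^ (p / r - 1) := by
  classical
  unfold dW
  have e1 : F.filter (fun j => Use i j) = {j} := by
    ext j'
    rw [Finset.mem_filter, Finset.mem_singleton]
    constructor
    · rintro ⟨h1, h2⟩
      exact h.use_unique hF h1 hj h2 hu
    · rintro rfl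
      exact ⟨hj, hu⟩
  have e2 : (∑ j ∈ F.filter (fun j => Use i j), P top r ν σ w j x ^ (p / r - 1)) =
      ∑ j ∈ ({j} : Finset (T × (T × Bool))), P top r ν σ w j x ^ (p / r - 1) :=
    Finset.sum_congr e1 (fun _ _ => rfl)
  rw [Finset.sum_singleton] at e2
  refine Eq.trans ?_ e2
  apply Finset.sum_congr _ (fun _ _ => rfl)
  ext j'
  simp only [Finset.mem_filter]

private theorem C7_pos (h : Sys T Z X top p r B ν e σ) (hw : ∀ i, 1 ≤ w i ∧ w i ≤ 2)
    {i : Ix T} {j : T × (T × Bool)} (hu : Use i j) {x : X} (hi : 0 < val r ν σ i x) :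
    0 < P top r ν σ w j x := by
  have hn : ∀ z : Z, 0 ≤ ν z ^ r := fun z => Real.rpow_nonneg (h.nu_nonneg z) r
  have hwn : ∀ i, 0 ≤ w i := fun i => le_trans zero_le_one (hw i).1
  have h1 := hn (σ (sg top j) x)
  have h2 : 0 ≤ w (Sum.inl j.1) * ν (σ {j.1} x) ^ r := mul_nonneg (hwn _) (hn _)
  have h3 : 0 ≤ w (Sum.inr j.2) * ν (σ {j.2.1} x) ^ r := mul_nonneg (hwn _) (hn _)
  unfold P
  rcases hu with hu | hu
  · subst hu
    have h4 : 0 < ν (σ {j.1} x) ^ r := hi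
    have h5 : 0 < w (Sum.inl j.1) * ν (σ {j.1} x) ^ r :=
      mul_pos (lt_of_lt_of_le one_pos (hw _).1) h4
    linarith
  · subst hu
    have h4 : 0 < ν (σ {j.2.1} x) ^ r := hi
    have h5 : 0 < w (Sum.inr j.2) * ν (σ {j.2.1} x) ^ r :=
      mul_pos (lt_of_lt_of_le one_pos (hw _).1) h4
    linarith

/-- If a member uses `i` in the limit, so does a member of the other families, with the same value. PROOF. `dW (F k) i x = P_{j₀} ^ (p/r - 1)` eventually
(`use_unique`), a positive constant (`P_{j₀} ≥ val i x > 0` because `w ≥ 1`). By `h.param`, `dW (G k) i x` tends to it, so it is not zero eventually: there is `j' k ∈ G k` that uses `i`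
(for the other `k` take any value, e.g. `j₀`), `dW (G k) i x = P_{j' k} ^ (p/r - 1)`, and `t ↦ t ^ (1/(p/r - 1))` is continuous. -/
theorem Sys.transfer (h : Sys T Z X top p r B ν e σ) (hw : ∀ i, 1 ≤ w i ∧ w i ≤ 2) (x : X)
    (𝒰 : Ultrafilter ℕ) (F G : ℕ → Finset (T × (T × Bool))) (hF : ∀ k, Fm top (F k))
    (hG : ∀ k, Fm top (G k))
    (hMF : Tendsto (fun k => PF top p r ν σ w (F k) x) (𝒰 : Filter ℕ) (𝓝 (Phi top p r ν σ w x)))
    (hMG : Tendsto (fun k => PF top p r ν σ w (G k) x) (𝒰 : Filter ℕ) (𝓝 (Phi top p r ν σ w x)))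
    (i : Ix T) (hi : 0 < val r ν σ i x) (hg : Good top p r ν σ w x i)
    (j₀ : T × (T × Bool)) (hj₀ : ∀ᶠ k in (𝒰 : Filter ℕ), j₀ ∈ F k) (hu : Use i j₀) :
    ∃ j' : ℕ → T × (T × Bool), (∀ᶠ k in (𝒰 : Filter ℕ), j' k ∈ G k) ∧ (∀ k, Use i (j' k)) ∧
      Tendsto (fun k => P top r ν σ w (j' k) x) (𝒰 : Filter ℕ) (𝓝 (P top r ν σ w j₀ x)) := by
  classical
  have hr := h.hr
  have hκ : 0 < p / r - 1 := by
    have h1 : 1 < p / r := by
      rw [lt_div_iff₀ (by linarith)]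
      linarith [h.hrp]
    linarith
  have hwn : ∀ i, 0 ≤ w i := fun i => le_trans zero_le_one (hw i).1
  have hPn : ∀ j, 0 ≤ P top r ν σ w j x := by
    intro j
    unfold P
    have hn : ∀ z : Z, 0 ≤ ν z ^ r := fun z => Real.rpow_nonneg (h.nu_nonneg z) r
    exact add_nonneg (add_nonneg (hn _) (mul_nonneg (hwn _) (hn _))) (mul_nonneg (hwn _) (hn _))
  have hP0 : 0 < P top r ν σ w j₀ x := C7_pos h hw hu hi
  set c : ℝ := P top r ν σ w j₀ x ^ (p / r - 1) with hc
  have hcpos : 0 < c := Real.rpow_pos_of_pos hP0 _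
  have hpar := h.param hw x 𝒰 F G hF hG hMF hMG i hi hg
  have hdF : ∀ᶠ k in (𝒰 : Filter ℕ), dW top p r ν σ w (F k) i x = c := by
    filter_upwards [hj₀] with k hk
    exact C7_dW h (hF k) hk hu x
  have hdG : Tendsto (fun k => dW top p r ν σ w (G k) i x) (𝒰 : Filter ℕ) (𝓝 c) := by
    have h1 : Tendsto (fun k => c - (dW top p r ν σ w (F k) i x - dW top p r ν σ w (G k) i x))
        (𝒰 : Filter ℕ) (𝓝 (c - 0)) := hpar.const_sub c
    rw [sub_zero] at h1
    refine h1.congr' ?_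
    filter_upwards [hdF] with k hk
    rw [hk]; ring
  have hex : ∀ k, ∃ j' : T × (T × Bool), Use i j' ∧
      ((∃ j ∈ G k, Use i j) → j' ∈ G k) := by
    intro k
    by_cases hk : ∃ j ∈ G k, Use i j
    · obtain ⟨j, hj, hju⟩ := hk
      exact ⟨j, hju, fun _ => hj⟩
    · exact ⟨j₀, hu, fun h1 => absurd h1 hk⟩
  choose j' hj'u hj'G using hex
  have hmem : ∀ᶠ k in (𝒰 : Filter ℕ), j' k ∈ G k := by
    filter_upwards [hdG.eventually (lt_mem_nhds hcpos)] with k hk
    apply hj'G k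
    by_contra hno
    push Not at hno
    have h1 : dW top p r ν σ w (G k) i x = 0 := by
      unfold dW
      apply Finset.sum_eq_zero
      intro j hj
      rw [Finset.mem_filter] at hj
      exact absurd hj.2 (hno j hj.1)
    rw [h1] at hk
    exact lt_irrefl _ hk
  refine ⟨j', hmem, hj'u, ?_⟩
  have h2 : Tendsto (fun k => P top r ν σ w (j' k) x ^ (p / r - 1)) (𝒰 : Filter ℕ) (𝓝 c) := by
    refine hdG.congr' ?_
    filter_upwards [hmem] with k hk
    exact C7_dW h (hG k) hk (hj'u k) x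
  have h3 := h2.rpow_const (p := 1 / (p / r - 1)) (Or.inl (ne_of_gt hcpos))
  have h4 : ∀ t : ℝ, 0 ≤ t → (t ^ (p / r - 1)) ^ (1 / (p / r - 1)) = t := by
    intro t ht
    rw [← Real.rpow_mul ht, mul_one_div_cancel (ne_of_gt hκ), Real.rpow_one]
  rw [hc, h4 _ hP0.le] at h3
  refine h3.congr ?_
  intro k
  exact h4 _ (hPn _)

/-- PROOF. `j₀ = (s, e₀)`; `σ {s} x ≠ 0`, `σ {e₀.1} x ≠ 0` by `h.nd'` for the constant sequence. `h.transfer` with `i = inl s` and `i = inr e₀` gives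
`j' k = (s, e' k) ∈ G k`, `j'' k = (s'' k, e₀) ∈ G k` eventually, `P (j' k) → P j₀`, `P (j'' k) → P j₀`. If eventually `j' k = j'' k`, it is
`(s, e₀) = j₀`: done. Otherwise (ultrafilter) eventually `j' k ≠ j'' k`, their segments are disjoint; `s, s'' k ∈ ec top e₀` are comparable
(`s ∈ ec top e₀` since `j₀ ∈ F k`); `s'' k ≤ s` is impossible (`s` is in both segments), so `s < s'' k`, and `s'' k ∈ sg top j₀`.
`P (j'' k) = ν (σ (sg top (j'' k)) x) ^ r + w (inl (s'' k)) ν (σ {s'' k} x) ^ r + (end value of e₀)` and the same for `j₀`, so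
`ν (σ (sg top (j'' k)) x) ^ r + w(..) ν (σ {s'' k} x) ^ r → ν (σ (sg top j₀) x) ^ r + w(..) ν (σ {s} x) ^ r > 0`.
By `h.node_lim` for `s'' k`: either `s'' k = s₁` eventually with `σ {s₁} x ≠ 0`; or `‖σ {s'' k} x‖ → 0`, then `ν (σ (sg top (j'' k)) x)` is
eventually bounded below by some `ε > 0`, also `‖σ (sg top (j'' k)) x‖` (`h.up`), and `h.nd'` for `G` gives that `j'' k` is eventually
constant with start `s₁`, `σ {s₁} x ≠ 0`. In both cases `(s₁, e₀) ∈ G k` eventually. `h.transfer` (with `F, G` exchanged, `i = inl s₁`) gives a member of `F k` with start `s₁`; it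
is different from `j₀` (`s₁ ≠ s`), but `s₁` is in its segment and in `sg top j₀`: contradiction to `hF k`. -/
theorem Sys.uniq (h : Sys T Z X top p r B ν e σ) (hw : ∀ i, 1 ≤ w i ∧ w i ≤ 2) (x : X)
    (hg : ∀ i, 0 < val r ν σ i x → Good top p r ν σ w x i)
    (𝒰 : Ultrafilter ℕ) (F G : ℕ → Finset (T × (T × Bool))) (hF : ∀ k, Fm top (F k))
    (hG : ∀ k, Fm top (G k))
    (hMF : Tendsto (fun k => PF top p r ν σ w (F k) x) (𝒰 : Filter ℕ) (𝓝 (Phi top p r ν σ w x)))
    (hMG : Tendsto (fun k => PF top p r ν σ w (G k) x) (𝒰 : Filter ℕ) (𝓝 (Phi top p r ν σ w x)))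
    (j₀ : T × (T × Bool)) (hj₀ : ∀ᶠ k in (𝒰 : Filter ℕ), j₀ ∈ F k) (hx : σ (sg top j₀) x ≠ 0) :
    ∀ᶠ k in (𝒰 : Filter ℕ), j₀ ∈ G k := by
  classical
  have hr := h.hr
  have hB := h.hB
  have hT := h.tree
  have hn : ∀ z : Z, 0 ≤ ν z ^ r := fun z => Real.rpow_nonneg (h.nu_nonneg z) r
  have hwn : ∀ i, 0 ≤ w i := fun i => le_trans zero_le_one (hw i).1
  have hpos : ∀ z : Z, z ≠ 0 → 0 < ν z ^ r := fun z hz =>
    Real.rpow_pos_of_pos (lt_of_lt_of_le (norm_pos_iff.2 hz) (h.lo z)) r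
  -- the nodes of `j₀` do not vanish
  obtain ⟨j₁, hj₁, hj₁', hj₁e⟩ := h.nd' hw x 𝒰 F hF hMF (fun _ => j₀)
    (ε := ‖σ (sg top j₀) x‖) (norm_pos_iff.2 hx) (hj₀.mono fun k hk => ⟨hk, le_refl _⟩)
  obtain ⟨k₀, hk₀⟩ := (hj₁e.and hj₀).exists
  obtain ⟨hk₀1, hk₀2⟩ := hk₀
  have hk₀1' : j₀ = j₁ := hk₀1
  subst hk₀1'
  have hjec : j₀.1 ∈ ec top j₀.2 := (hF k₀).1 j₀ hk₀2
  have hv1 : 0 < val r ν σ (Sum.inl j₀.1) x := hpos _ hj₁
  have hv2 : 0 < val r ν σ (Sum.inr j₀.2) x := hpos _ hj₁'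
  obtain ⟨j', hj'G, hj'u, -⟩ := h.transfer hw x 𝒰 F G hF hG hMF hMG (Sum.inl j₀.1) hv1
    (hg _ hv1) j₀ hj₀ (Or.inl rfl)
  obtain ⟨j'', hj''G, hj''u, hj''P⟩ := h.transfer hw x 𝒰 F G hF hG hMF hMG (Sum.inr j₀.2) hv2
    (hg _ hv2) j₀ hj₀ (Or.inr rfl)
  have hj'1 : ∀ k, (j' k).1 = j₀.1 := by
    intro k
    rcases hj'u k with h1 | h1
    · exact Sum.inl.inj h1
    · exact absurd h1 Sum.inr_ne_inl
  have hj''2 : ∀ k, (j'' k).2 = j₀.2 := by
    intro k
    rcases hj''u k with h1 | h1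
    · exact absurd h1 Sum.inl_ne_inr
    · exact Sum.inr.inj h1
  by_contra hne
  have hne' : ∀ᶠ k in (𝒰 : Filter ℕ), j₀ ∉ G k := Ultrafilter.eventually_not.2 hne
  -- the start of `j''` lies above the start of `j₀`
  have habove : ∀ᶠ k in (𝒰 : Filter ℕ), (j'' k).1 ∈ sg top j₀ ∧ (j'' k).1 ≠ j₀.1 := by
    filter_upwards [hj'G, hj''G, hne'] with k h1 h2 h3
    have hneq : j' k ≠ j'' k := by
      intro heq
      apply h3
      have : j₀ = j' k := Prod.ext (hj'1 k).symm (by rw [heq]; exact (hj''2 k).symm)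
      rw [this]; exact h1
    have hdis := (hG k).2 _ h1 _ h2 hneq
    have hs1 : (j'' k).1 ∈ ec top j₀.2 := by
      have := (hG k).1 _ h2
      rwa [hj''2 k] at this
    have hs2 : j₀.1 ∈ sg top (j' k) := by
      refine ⟨?_, (hj'1 k).le⟩
      have := (hG k).1 _ h1
      rwa [hj'1 k] at this
    have hnle : ¬ (j'' k).1 ≤ j₀.1 := by
      intro hle
      have hs3 : j₀.1 ∈ sg top (j'' k) := by
        refine ⟨?_, hle⟩
        rw [hj''2 k]; exact hjec
      exact Set.disjoint_left.1 hdis hs2 hs3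
    have hle : j₀.1 ≤ (j'' k).1 := by
      rcases (ic_ec hT h.htop j₀.2).chain _ hjec _ hs1 with h4 | h4
      · exact h4
      · exact absurd h4 hnle
    exact ⟨⟨hs1, hle⟩, fun heq => hnle heq.le⟩
  -- the start of `j''` is eventually constant
  have hconst : ∃ s₁ : T, σ {s₁} x ≠ 0 ∧ ∀ᶠ k in (𝒰 : Filter ℕ), (j'' k).1 = s₁ := by
    rcases h.node_lim 𝒰 x (fun k => (j'' k).1) with hlim | hlim
    · -- the start value vanishes in the limit
      set D₀ : ℝ := ν (σ (sg top j₀) x) ^ r + w (Sum.inl j₀.1) * ν (σ {j₀.1} x) ^ r with hD₀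
      have hD₀pos : 0 < D₀ := by
        have h1 := hpos _ hx
        have h2 : 0 ≤ w (Sum.inl j₀.1) * ν (σ {j₀.1} x) ^ r := mul_nonneg (hwn _) (hn _)
        rw [hD₀]; linarith
      have hstart : Tendsto (fun k => w (Sum.inl (j'' k).1) * ν (σ {(j'' k).1} x) ^ r)
          (𝒰 : Filter ℕ) (𝓝 0) := by
        have h1 : Tendsto (fun k => 2 * (B * ‖σ {(j'' k).1} x‖) ^ r) (𝒰 : Filter ℕ) (𝓝 0) := by
          have h2 : Tendsto (fun k => B * ‖σ {(j'' k).1} x‖) (𝒰 : Filter ℕ) (𝓝 0) := by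
            have := hlim.const_mul B
            rwa [mul_zero] at this
          have h3 := h2.rpow_const (p := r) (Or.inr (by linarith))
          rw [Real.zero_rpow (by linarith)] at h3
          have := h3.const_mul 2
          rwa [mul_zero] at this
        refine squeeze_zero (fun k => mul_nonneg (hwn _) (hn _)) (fun k => ?_) h1
        exact mul_le_mul (hw _).2 (Real.rpow_le_rpow (h.nu_nonneg _) (h.up _) (by linarith))
          (hn _) (by norm_num)
      have hD : Tendsto (fun k => ν (σ (sg top (j'' k)) x) ^ r) (𝒰 : Filter ℕ) (𝓝 D₀) := by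
        have h1 := (hj''P.sub_const (w (Sum.inr j₀.2) * ν (σ {j₀.2.1} x) ^ r)).sub hstart
        have e1 : P top r ν σ w j₀ x - w (Sum.inr j₀.2) * ν (σ {j₀.2.1} x) ^ r - 0 = D₀ := by
          unfold P; rw [hD₀]; ring
        rw [e1] at h1
        refine h1.congr ?_
        intro k
        unfold P
        rw [hj''2 k]
        ring
      set ε : ℝ := (D₀ / 2) ^ (1 / r) / B with hε
      have hεpos : 0 < ε := div_pos (Real.rpow_pos_of_pos (by linarith) _) (by linarith)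
      have hbig : ∀ᶠ k in (𝒰 : Filter ℕ), j'' k ∈ G k ∧ ε ≤ ‖σ (sg top (j'' k)) x‖ := by
        filter_upwards [hj''G, hD.eventually (lt_mem_nhds (show D₀ / 2 < D₀ by linarith))]
          with k h1 h2
        refine ⟨h1, ?_⟩
        rw [hε, div_le_iff₀ (by linarith)]
        have h3 : (D₀ / 2) ^ (1 / r) ≤ (ν (σ (sg top (j'' k)) x) ^ r) ^ (1 / r) :=
          Real.rpow_le_rpow (by linarith) h2.le (by positivity)
        rw [← Real.rpow_mul (h.nu_nonneg _), mul_one_div_cancel (by linarith), Real.rpow_one] at h3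
        have h4 := h.up (σ (sg top (j'' k)) x)
        linarith
      obtain ⟨j₂, hj₂, -, hj₂e⟩ := h.nd' hw x 𝒰 G hG hMG j'' hεpos hbig
      exact ⟨j₂.1, hj₂, hj₂e.mono fun k hk => by rw [hk]⟩
    · exact hlim
  obtain ⟨s₁, hs₁, hs₁e⟩ := hconst
  have hG₁ : ∀ᶠ k in (𝒰 : Filter ℕ), (s₁, j₀.2) ∈ G k := by
    filter_upwards [hj''G, hs₁e] with k h1 h2
    have : j'' k = (s₁, j₀.2) := Prod.ext h2 (hj''2 k)
    rw [← this]; exact h1
  have hv3 : 0 < val r ν σ (Sum.inl s₁) x := hpos _ hs₁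
  obtain ⟨j₃, hj₃F, hj₃u, -⟩ := h.transfer hw x 𝒰 G F hG hF hMG hMF (Sum.inl s₁) hv3
    (hg _ hv3) (s₁, j₀.2) hG₁ (Or.inl rfl)
  have hj₃1 : ∀ k, (j₃ k).1 = s₁ := by
    intro k
    rcases hj₃u k with h1 | h1
    · exact Sum.inl.inj h1
    · exact absurd h1 Sum.inr_ne_inl
  obtain ⟨k, hk⟩ := (((habove.and hs₁e).and hj₃F).and hj₀).exists
  obtain ⟨⟨⟨hk1, hk2⟩, hk3⟩, hk4⟩ := hk
  rw [hk2] at hk1
  have hneq : j₃ k ≠ j₀ := by
    intro heq
    apply hk1.2
    rw [← hj₃1 k, heq]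
  have hdis := (hF k).2 _ hk3 _ hk4 hneq
  have h5 : s₁ ∈ sg top (j₃ k) := by
    refine ⟨?_, (hj₃1 k).le⟩
    have := (hF k).1 _ hk3
    rwa [hj₃1 k] at this
  exact Set.disjoint_left.1 hdis h5 hk1.1

end Pool.Agent.JTS
end

section

/-!
Measurability in the weights.
-/

set_option autoImplicit false

namespace Pool.Agent.JTS

open MeasureTheory Filter Topology

variable {T Z X : Type} [PartialOrder T] [NormedAddCommGroup Z] [NormedSpace ℝ Z]
    [NormedAddCommGroup X] [NormedSpace ℝ X] {top : T → Set T} {p r B : ℝ} {ν : Z → ℝ}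
    {e : (T →₀ Z) →ₗ[ℝ] X} {σ : Set T → X →L[ℝ] Z}

/-- PROOF. `h.node_countable`: `inl s` with `σ {s} x ≠ 0`, `inr e'` with `σ {e'.1} x ≠ 0` (`h.nu_eq_zero`). -/
theorem Sys.val_countable (h : Sys T Z X top p r B ν e σ) (x : X) :
    {i : Ix T | 0 < val r ν σ i x}.Countable := by
  have hc := h.node_countable x
  have hr0 : r ≠ 0 := by linarith [h.hr]
  have h1 : {i : Ix T | 0 < val r ν σ i x} ⊆ (Sum.inl '' {t : T | σ {t} x ≠ 0}) ∪
      (Sum.inr '' ({t : T | σ {t} x ≠ 0} ×ˢ (Set.univ : Set Bool))) := by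
    rintro (s | e') hi
    · left
      refine ⟨s, ?_, rfl⟩
      intro h0
      simp only [Set.mem_ofPred_eq, val, Sum.elim_inl] at hi
      rw [h0, h.nu_zero, Real.zero_rpow hr0] at hi
      exact lt_irrefl _ hi
    · right
      refine ⟨e', ⟨?_, Set.mem_univ _⟩, rfl⟩
      intro h0
      simp only [Set.mem_ofPred_eq, val, Sum.elim_inr] at hi
      rw [h0, h.nu_zero, Real.zero_rpow hr0] at hi
      exact lt_irrefl _ hi
  exact ((hc.image _).union ((hc.prod (Set.countable_univ)).image _)).mono h1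

/-- PROOF. In `P_j` the weight `w i` is multiplied with `val i x`, which is `≥ 0`, so `= 0` outside the set. -/
theorem Sys.Phi_congr (h : Sys T Z X top p r B ν e σ) (x : X) (w w' : Ix T → ℝ)
    (hww : ∀ i, 0 < val r ν σ i x → w i = w' i) :
    Phi top p r ν σ w x = Phi top p r ν σ w' x := by
  have key : ∀ i : Ix T, w i * val r ν σ i x = w' i * val r ν σ i x := by
    intro i
    by_cases hi : 0 < val r ν σ i x
    · rw [hww i hi]
    · have h0 : 0 ≤ val r ν σ i x := by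
        rcases i with s | e'
        · exact Real.rpow_nonneg (h.nu_nonneg _) _
        · exact Real.rpow_nonneg (h.nu_nonneg _) _
      have : val r ν σ i x = 0 := le_antisymm (not_lt.mp hi) h0
      rw [this, mul_zero, mul_zero]
  have hP : ∀ j : T × (T × Bool), P top r ν σ w j x = P top r ν σ w' j x := by
    intro j
    have h1 := key (Sum.inl j.1)
    have h2 := key (Sum.inr j.2)
    simp only [val, Sum.elim_inl, Sum.elim_inr] at h1 h2
    simp only [P]
    rw [h1, h2]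
  have hPF : ∀ F : Finset (T × (T × Bool)), PF top p r ν σ w F x = PF top p r ν σ w' F x := by
    intro F
    simp only [PF]
    exact Finset.sum_congr rfl fun j _ => by rw [hP j]
  simp only [Phi, hPF]

/-- PROOF. `C = {i | 0 < val i x}` is countable. For `v : C → I` let `g v = Phi (fun i => if hi : i ∈ C then 1 + v ⟨i, hi⟩ + d i else 1 + d i) x`
(`Classical`). `g` is lower semicontinuous: it is the supremum of the functions `v ↦ PF (..) F x`, `F` an `Fm` family, which are continuous (finite sums of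
`rpow` with positive exponent of nonnegative continuous functions), and the family is bounded above (weights in `[0, 3]`, `h.bdd`); so `g` is measurable
(`LowerSemicontinuous.measurable`, `C → I` is a Borel space because `C` is countable). The function in question is `g` composed with the restriction `w ↦ (fun i : C => w i)` (`h.Phi_congr`). -/
theorem Sys.meas (h : Sys T Z X top p r B ν e σ) (x : X) (d : Ix T → ℝ) (hd : ∀ i, |d i| ≤ 1) :
    Measurable (fun w : Ix T → unitInterval => Phi top p r ν σ (fun i => 1 + (w i : ℝ) + d i) x) := by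
  classical
  obtain ⟨C, hC⟩ : ∃ C : Set (Ix T), C = {i : Ix T | 0 < val r ν σ i x} := ⟨_, rfl⟩
  have hcount : Countable C := by
    rw [hC]
    exact (h.val_countable x).to_subtype
  have hmem : ∀ i, 0 < val r ν σ i x → i ∈ C := by
    intro i hi
    rw [hC]
    exact hi
  clear hC
  have hpr : 0 ≤ p / r := div_nonneg (by linarith [h.hr, h.hrp]) (by linarith [h.hr])
  obtain ⟨W, hW1, hW2⟩ : ∃ W : (C → unitInterval) → Ix T → ℝ,
      (∀ v i (hi : i ∈ C), W v i = 1 + (v ⟨i, hi⟩ : ℝ) + d i) ∧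
      ∀ v i, i ∉ C → W v i = 1 + d i := by
    refine ⟨fun v i => if hi : i ∈ C then 1 + (v ⟨i, hi⟩ : ℝ) + d i else 1 + d i, ?_, ?_⟩
    · intro v i hi
      simp only [hi, dif_pos]
    · intro v i hi
      simp only [hi, dif_neg, not_false_iff]
  have hWc : ∀ i, Continuous fun v => W v i := by
    intro i
    by_cases hi : i ∈ C
    · have : (fun v => W v i) = fun v => 1 + (v ⟨i, hi⟩ : ℝ) + d i := by
        funext v
        exact hW1 v i hi
      rw [this]
      exact (continuous_const.add (continuous_subtype_val.comp (continuous_apply _))).add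
        continuous_const
    · have : (fun v => W v i) = fun _ => 1 + d i := by
        funext v
        exact hW2 v i hi
      rw [this]
      exact continuous_const
  have hWb : ∀ v i, 0 ≤ W v i ∧ W v i ≤ 3 := by
    intro v i
    have hdi := abs_le.mp (hd i)
    by_cases hi : i ∈ C
    · have h1 := hW1 v i hi
      have h2 := (v ⟨i, hi⟩).2.1
      have h3 := (v ⟨i, hi⟩).2.2
      rw [h1]
      constructor <;> linarith
    · have h1 := hW2 v i hi
      rw [h1]
      constructor <;> linarith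
  have hPc : ∀ F : Finset (T × (T × Bool)), Continuous fun v => PF top p r ν σ (W v) F x := by
    intro F
    simp only [PF, P]
    refine continuous_finsetSum _ fun j _ => ?_
    refine Continuous.rpow_const ?_ fun _ => Or.inr hpr
    exact (continuous_const.add ((hWc _).mul continuous_const)).add ((hWc _).mul continuous_const)
  have hg : (fun v => Phi top p r ν σ (W v) x) =
      fun v => ⨆ F : {F : Finset (T × (T × Bool)) // Fm top F},
        PF top p r ν σ (W v) F.1 x := by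
    funext v
    simp only [Phi, iSup]
    congr 1
    ext a
    constructor
    · rintro ⟨F, hF, rfl⟩
      exact ⟨⟨F, hF⟩, rfl⟩
    · rintro ⟨F, rfl⟩
      exact ⟨F.1, F.2, rfl⟩
  have hlsc : LowerSemicontinuous fun v => Phi top p r ν σ (W v) x := by
    rw [hg]
    refine lowerSemicontinuous_ciSup (fun v => ?_) fun F => (hPc F.1).lowerSemicontinuous
    refine (h.bdd (hWb v) x).mono ?_
    rintro a ⟨F, rfl⟩
    exact ⟨F.1, F.2, rfl⟩
  have hgm : Measurable fun v => Phi top p r ν σ (W v) x := hlsc.measurable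
  have hcomp : (fun w : Ix T → unitInterval =>
      Phi top p r ν σ (fun i => 1 + (w i : ℝ) + d i) x) =
      (fun v => Phi top p r ν σ (W v) x) ∘ (fun (w : Ix T → unitInterval) (i : C) => w i.1) := by
    funext w
    refine h.Phi_congr x _ _ fun i hi => ?_
    rw [hW1 _ i (hmem i hi)]
  rw [hcomp]
  exact hgm.comp (measurable_pi_lambda _ fun i => measurable_pi_apply i.1)

end Pool.Agent.JTS
end
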